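import Pool.Agent.N211.BT.Base

/-!
# Matrices fixing the Tate classes of small degree fix all Tate classes
-/

set_option linter.unusedSectionVars false

namespace Pool.Agent.N211.BT

open Matrix Polynomial Pool.Agent.N996.BP Pool.Agent.R940

variable {ι : Type} [Fintype ι] [DecidableEq ι] {Γ : Type} [Group Γ] {G : GData ι Γ}

/-- The bound for the weights. -/
def wB (G : GData ι Γ) : ℕ := den ι * Finset.univ.sup G.deg

lemma ND.dg_le (d : ND G) (a : ι) : d.dg a ≤ Finset.univ.sup G.deg := by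
  obtain ⟨i, hi⟩ : ∃ i, d.P i a ≠ 0 := by
    by_contra h
    push Not at h
    have h1 : d.Pi * d.P = 1 := mul_eq_one_comm.1 d.inv
    have h2 := congrFun (congrFun h1 a) a
    rw [Matrix.mul_apply, Matrix.one_apply_eq, Finset.sum_eq_zero fun i _ => by rw [h i, mul_zero]]
      at h2
    exact zero_ne_one h2
  rw [← d.hom i a hi]
  exact Finset.le_sup (Finset.mem_univ i)

lemma ND.wt_mem (d : ND G) (a : ι) : d.wt a ∈ Finset.Icc (-(wB G) : ℤ) (wB G) := by
  have h1 := row_le one_pos d.weil d.ψ a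
  have h2 : ((den ι * d.dg a : ℕ) : ℤ) ≤ wB G := by
    exact_mod_cast Nat.mul_le_mul_left _ (d.dg_le a)
  rw [Finset.mem_Icc, ← abs_le]
  exact h1.trans h2

/-- The family of Newton cocharacters. -/
noncomputable def cofam (G : GData ι Γ) : CoFam ι where
  S := ND G
  w := wB G
  π d k := d.P * Matrix.diagonal (fun a => if d.wt a = k then 1 else 0) * d.Pi
  h1 d := by
    rw [← Matrix.sum_mul, ← Matrix.mul_sum]
    have h1 : ∑ k ∈ Finset.Icc (-(wB G) : ℤ) (wB G),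
        Matrix.diagonal (fun a => if d.wt a = k then (1 : ℂ) else 0) = 1 := by
      ext a b
      rw [Matrix.sum_apply]
      by_cases h : a = b
      · subst h
        rw [Matrix.one_apply_eq, Finset.sum_eq_single (d.wt a)]
        · rw [Matrix.diagonal_apply_eq, if_pos rfl]
        · intro k _ hk
          rw [Matrix.diagonal_apply_eq, if_neg (Ne.symm hk)]
        · intro h
          exact absurd (d.wt_mem a) h
      · rw [Matrix.one_apply_ne h]
        exact Finset.sum_eq_zero fun k _ => Matrix.diagonal_apply_ne _ h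
    rw [h1, Matrix.mul_one, d.inv]

lemma cofam_l (d : ND G) (t : ℂ) : (cofam G).l d t = d.l t := by
  refine (CoFam.l_apply (cofam G) d t).trans ?_
  change ∑ k ∈ Finset.Icc (-(wB G) : ℤ) (wB G), t ^ k • (d.P *
    Matrix.diagonal (fun a => if d.wt a = k then (1 : ℂ) else 0) * d.Pi) =
      d.P * Matrix.diagonal (fun a => t ^ d.wt a) * d.Pi
  have h1 : ∀ k : ℤ, t ^ k • (d.P * Matrix.diagonal (fun a => if d.wt a = k then (1 : ℂ) else 0) *
      d.Pi) = d.P * (t ^ k • Matrix.diagonal (fun a => if d.wt a = k then (1 : ℂ) else 0)) *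
        d.Pi := by
    intro k
    rw [Matrix.mul_smul, Matrix.smul_mul]
  rw [Finset.sum_congr rfl fun k _ => h1 k, ← Matrix.sum_mul, ← Matrix.mul_sum]
  congr 2
  ext a b
  rw [Matrix.sum_apply]
  by_cases h : a = b
  · subst h
    rw [Matrix.diagonal_apply_eq, Finset.sum_eq_single (d.wt a)]
    · rw [Matrix.smul_apply, Matrix.diagonal_apply_eq, if_pos rfl, smul_eq_mul, mul_one]
    · intro k _ hk
      rw [Matrix.smul_apply, Matrix.diagonal_apply_eq, if_neg (Ne.symm hk), smul_zero]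
    · intro h
      exact absurd (d.wt_mem a) h
  · rw [Matrix.diagonal_apply_ne _ h]
    exact Finset.sum_eq_zero fun k _ => by
      rw [Matrix.smul_apply, Matrix.diagonal_apply_ne _ h, smul_zero]

lemma mem_gens {g : Matrix ι ι ℂ} : g ∈ (cofam G).gens ↔ ∃ (d : ND G) (t : ℂ), t ≠ 0 ∧ g = d.l t := by
  constructor
  · rintro ⟨d, t, ht, rfl⟩
    exact ⟨d, t, ht, cofam_l d t⟩
  · rintro ⟨d, t, ht, rfl⟩
    exact ⟨d, t, ht, (cofam_l d t).symm⟩

lemma mem_GG_ind {P : Matrix ι ι ℂ → Prop} (h1 : P 1) (h2 : ∀ (d : ND G) (t : ℂ), t ≠ 0 → P (d.l t))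
    (h3 : ∀ x y, P x → P y → P (x * y)) {γ : Matrix ι ι ℂ} (hγ : γ ∈ (cofam G).GG) : P γ := by
  induction hγ using Submonoid.closure_induction with
  | mem x hx =>
    obtain ⟨d, t, ht, rfl⟩ := mem_gens.1 hx
    exact h2 d t ht
  | one => exact h1
  | mul x y _ _ hx hy => exact h3 x y hx hy

lemma fix_GG {γ : Matrix ι ι ℂ} (hγ : γ ∈ (cofam G).GG) {κ : Type} [Fintype κ] [DecidableEq κ]
    {c : (κ → ι) → ℂ} (hc : G.Fixed c) : kp κ γ *ᵥ c = c := by
  refine mem_GG_ind (P := fun γ => kp κ γ *ᵥ c = c) ?_ ?_ ?_ hγ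
  · rw [kp_one, Matrix.one_mulVec]
  · exact hc
  · intro x y hx hy
    rw [kp_mul, ← Matrix.mulVec_mulVec, hy, hx]

/-- The facts about Galois data which are used. -/
structure Facts : Prop where
  ex : S_Ex
  cj : S_Conj
  adj : S_Adj
  fix : S_Fix
  tate : S_Tate

/-- The matrices which fix the Tate classes. -/
def FixT (G : GData ι Γ) (p : Matrix ι ι ℂ) (κ : Type) [Fintype κ] [DecidableEq κ] : Prop :=
  ∀ (j : ℕ) (c : (κ → ι) → ℂ), G.Tate j c → kp κ p *ᵥ c = c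

lemma fixT_GG (F : Facts) {γ : Matrix ι ι ℂ} (hγ : γ ∈ (cofam G).GG) (κ : Type) [Fintype κ]
    [DecidableEq κ] : FixT G γ κ := fun j c hc => fix_GG hγ (F.fix ι Γ G κ j c hc)

lemma FixT.ucol {p : Matrix ι ι ℂ} (h : FixT G p Unit) : UCol G.o p :=
  ucol_of_uni (h 0 _ (tate_uni Unit))

lemma ND.l_deg (F : Facts) (d : ND G) {t : ℂ} (ht : t ≠ 0) (i j : ι) (h : d.l t i j ≠ 0) :
    G.deg i = G.deg j := by
  have h1 := (F.adj ι Γ G d Unit).1 t ht
  have h2 : Algebra.adjoin ℂ {kp Unit (G.r d.f)} ≤ degAlg G Unit := by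
    refine Algebra.adjoin_le ?_
    rintro _ rfl
    exact kp_mem_degAlg (G.r_deg d.f)
  have h3 := h2 h1 (fun _ => i) (fun _ => j)
  rw [kp_apply, Fintype.prod_unique, Fintype.sum_unique, Fintype.sum_unique] at h3
  exact h3 h

lemma exists_nd (F : Facts) (hD : G.Dense) : Nonempty (ND G) := by
  by_contra h
  have h1 := hD 1 (fun f p hf => by
    obtain ⟨d, _⟩ := F.ex ι Γ G f p hf
    exact absurd ⟨d⟩ h) 1
  rw [GData.ev, map_one] at h1
  exact one_ne_zero h1

lemma one_le_bd (R w : ℕ) : 1 ≤ bd R w := by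
  rw [bd]
  exact Nat.mul_pos (Nat.succ_pos _) (Nat.pow_pos (Nat.mul_pos (by omega) (Nat.succ_pos _)))

/-- The generators of the algebra of the group on the arrays. -/
def gR (G : GData ι Γ) (κ : Type) [Fintype κ] [DecidableEq κ] : Set (Matrix (κ → ι) (κ → ι) ℂ) :=
  {y | (∃ (d : ND G) (t : ℂ), t ≠ 0 ∧ y = kp κ (d.l t)) ∨ y = kp κ G.eps}

/-- The algebra of the group acts semisimply if the Galois group does. -/
lemma isSS_gR (F : Facts) (hD : G.Dense) {κ : Type} [Fintype κ] [DecidableEq κ]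
    (h : IsSS (Set.range (G.rho κ))) : IsSS (Matrix.toLin' '' gR G κ) := by
  refine cliff Γ _ (G.rho κ) _ h ?_ ?_
  · rintro g _ ⟨y, hy, rfl⟩
    have h1 : G.rho κ g * Matrix.toLin' y * G.rho κ g⁻¹ =
        Matrix.toLin' (kp κ (G.r g) * y * kp κ (G.r g⁻¹)) := by
      rw [Matrix.toLin'_mul, Matrix.toLin'_mul]
      rfl
    rw [h1]
    refine ⟨_, ?_, rfl⟩
    have h2 : kp κ (G.r g) * kp κ (G.r g⁻¹) = 1 := by
      rw [← kp_mul, ← G.r_mul, mul_inv_cancel, G.r_one, kp_one]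
    rcases hy with ⟨d, t, ht, rfl⟩ | rfl
    · obtain ⟨d', hd'⟩ := F.cj ι Γ G d g
      left
      exact ⟨d', t, ht, by rw [hd', kp_mul, kp_mul]⟩
    · right
      rw [← kp_mul, ← eps_comm (G.r_deg g), kp_mul, Matrix.mul_assoc, h2, Matrix.mul_one]
  · rintro U hU _ ⟨y, hy, rfl⟩ x hx
    have h1 : ∀ f : Γ, ∀ r ∈ ({kp κ (G.r f)} : Set (Matrix (κ → ι) (κ → ι) ℂ)), ∀ x ∈ U,
        r *ᵥ x ∈ U := by
      rintro f _ rfl x hx
      exact hU f x hx
    rcases hy with ⟨d, t, ht, rfl⟩ | rfl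
    · exact stable_adjoin (h1 d.f) ((F.adj ι Γ G d κ).1 t ht) x hx
    · obtain ⟨d⟩ := exists_nd F hD
      exact stable_adjoin (h1 d.f) (F.adj ι Γ G d κ).2 x hx

/-- The submonoid generated by the group and the parity operator. -/
def ZM (F : Facts) (G : GData ι Γ) : Submonoid (Matrix ι ι ℂ) where
  carrier := ZZ (cofam G) G.eps
  one_mem' := Or.inl (Submonoid.one_mem _)
  mul_mem' {x y} hx hy := by
    have hc : ∀ γ ∈ (cofam G).GG, G.eps * γ = γ * G.eps := fun γ hγ =>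
      (form_of_fix (fixT_GG F hγ (Unit ⊕ Unit))).2
    rcases hx with hx | ⟨x, hx, rfl⟩ <;> rcases hy with hy | ⟨y, hy, rfl⟩
    · exact Or.inl (Submonoid.mul_mem _ hx hy)
    · exact Or.inr ⟨x * y, Submonoid.mul_mem _ hx hy, by
        rw [← Matrix.mul_assoc, ← hc x hx, Matrix.mul_assoc]⟩
    · exact Or.inr ⟨x * y, Submonoid.mul_mem _ hx hy, by rw [Matrix.mul_assoc]⟩
    · refine Or.inl ?_
      have h1 : G.eps * x * (G.eps * y) = x * y := by
        calc G.eps * x * (G.eps * y) = x * (G.eps * G.eps) * y := by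
              rw [hc x hx]; simp only [Matrix.mul_assoc]
          _ = _ := by rw [eps_sq, Matrix.mul_one]
      rw [h1]
      exact Submonoid.mul_mem _ hx hy

lemma adjoin_gR (F : Facts) {κ : Type} [Fintype κ] [DecidableEq κ]
    {y : Matrix (κ → ι) (κ → ι) ℂ} (hy : y ∈ Algebra.adjoin ℂ (gR G κ)) :
    y ∈ Submodule.span ℂ (kp κ '' ZZ (cofam G) G.eps) := by
  let f : Matrix ι ι ℂ →* Matrix (κ → ι) (κ → ι) ℂ :=
    { toFun := kp κ, map_one' := kp_one, map_mul' := kp_mul }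
  have h0 : kp κ '' ZZ (cofam G) G.eps = (((ZM F G).map f : Submonoid _) : Set _) := rfl
  have h1 : y ∈ Subalgebra.toSubmodule (Algebra.adjoin ℂ (gR G κ)) := hy
  rw [Algebra.adjoin_eq_span] at h1
  refine Submodule.span_mono ?_ h1
  rw [h0]
  refine SetLike.coe_subset_coe.2 (Submonoid.closure_le.2 ?_)
  rintro _ (⟨d, t, ht, rfl⟩ | rfl)
  · exact ⟨d.l t, Or.inl (Submonoid.subset_closure (mem_gens.2 ⟨d, t, ht, rfl⟩)), rfl⟩
  · exact ⟨G.eps, Or.inr ⟨1, Submonoid.one_mem _, by rw [Matrix.mul_one]⟩, rfl⟩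

/-- **Matrices fixing the Tate classes of degree `2 |κ|` are combinations of elements of the group
and of its translate.** -/
theorem mem_span (F : Facts) (hD : G.Dense) {κ : Type} [Fintype κ] [DecidableEq κ]
    (hs : IsSS (Set.range (G.rho κ))) (hs2 : IsSS (Set.range (G.rho (κ ⊕ κ))))
    {p : Matrix ι ι ℂ} (hp2 : FixT G p (Unit ⊕ Unit)) (hp : FixT G p (κ ⊕ κ)) :
    kp κ p ∈ Submodule.span ℂ (kp κ '' ZZ (cofam G) G.eps) := by
  apply adjoin_gR F
  refine mem_of_commutes _ (IsSS.adjoin (isSS_gR F hD hs)) _ fun x hx => ?_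
  obtain ⟨hQ, hε⟩ := form_of_fix hp2
  have hpp' := inv_of_form hQ
  have hp'p := mul_eq_one_comm.1 hpp'
  have hx1 : ∀ (d : ND G) (t : ℂ), t ≠ 0 → x * kp κ (d.l t) = kp κ (d.l t) * x := fun d t ht =>
    hx _ (Algebra.subset_adjoin (Or.inl ⟨d, t, ht, rfl⟩))
  have hx2 : x * kp κ G.eps = kp κ G.eps * x :=
    hx _ (Algebra.subset_adjoin (Or.inr rfl))
  obtain ⟨c, hc⟩ : ∃ c, c = arr (x * kp κ G.Qi) := ⟨_, rfl⟩
  have key : ∀ y : Matrix ι ι ℂ, y * G.Qi * yᵀ = G.Qi → x * kp κ y = kp κ y * x →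
      kp (κ ⊕ κ) y *ᵥ c = c := by
    intro y hy hxy
    rw [hc, kp_arr, ← Matrix.mul_assoc, ← hxy, ← kp_transpose, Matrix.mul_assoc x,
      Matrix.mul_assoc x, ← kp_mul, ← kp_mul, hy]
  have hfix : G.Fixed c := by
    intro d t ht
    have h1 : d.l t ∈ (cofam G).GG := Submonoid.subset_closure (mem_gens.2 ⟨d, t, ht, rfl⟩)
    exact key _ (form_of_fix (fixT_GG F h1 (Unit ⊕ Unit))).1 (hx1 d t ht)
  have hev : kp (κ ⊕ κ) G.eps *ᵥ c = c := by
    refine key _ ?_ hx2
    have h1 : G.epsᵀ = G.eps := by rw [GData.eps, Matrix.diagonal_transpose]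
    rw [h1, eps_comm (G.Q_deg), Matrix.mul_assoc, eps_sq, Matrix.mul_one]
  have hpc : kp (κ ⊕ κ) p *ᵥ c = c := by
    have h1 := sum_cmpn (G := G) c
    conv_rhs => rw [h1]
    conv_lhs => rw [h1]
    rw [Matrix.mulVec_sum]
    refine Finset.sum_congr rfl fun m _ => ?_
    rcases Nat.even_or_odd' m with ⟨j, rfl | rfl⟩
    · refine hp j _ (F.tate ι Γ G hD (κ ⊕ κ) hs2 j _ (cmpn_hom _ _) ?_)
      intro d t ht
      rw [cmpn_comm (kp_mem_degAlg fun i j h => d.l_deg F ht i j h), hfix d t ht]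
    · have h2 : cmpn G (2 * j + 1) c = 0 := by
        funext i
        rw [cmpn]
        split_ifs with h
        · by_contra h3
          obtain ⟨j', hj'⟩ := even_of_eps hev i h3
          omega
        · rfl
      rw [h2, Matrix.mulVec_zero]
  rw [hc, kp_arr] at hpc
  have h2 := congrArg mat hpc
  rw [mat_arr, mat_arr] at h2
  have h3 : kp κ G.Qi * kp κ G.Q = 1 := kp_inv_mul (mul_eq_one_comm.1 G.hQ)
  have h4 : kp κ (G.Qi * pᵀ * G.Q) * kp κ p = 1 := kp_inv_mul hp'p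
  calc kp κ p * x = kp κ p * (x * (kp κ G.Qi * (kp κ p)ᵀ * kp κ G.Q) * kp κ p) := by
        rw [← kp_transpose, ← kp_mul, ← kp_mul, Matrix.mul_assoc x, h4, Matrix.mul_one]
    _ = (kp κ p * (x * kp κ G.Qi) * (kp κ p)ᵀ) * kp κ G.Q * kp κ p := by
        simp only [Matrix.mul_assoc]
    _ = x * (kp κ G.Qi * kp κ G.Q) * kp κ p := by rw [h2]; simp only [Matrix.mul_assoc]
    _ = x * kp κ p := by rw [h3, Matrix.mul_one]

/-- **Matrices fixing the Tate classes of small degree belong to the closure of the group or of its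
translate by the parity operator.** -/
theorem cl_of_fix (F : Facts) (hD : G.Dense) {N : ℕ} (hN : 4 * bd (Fintype.card ι ^ 2) (wB G) ≤ N)
    (hs : IsSS (Set.range (G.rho (Fin N)))) {p : Matrix ι ι ℂ}
    (hp : ∀ (κ : Type) [Fintype κ] [DecidableEq κ], Fintype.card κ ≤ N → FixT G p κ) :
    (cofam G).Cl p ∨ (cofam G).Cl (G.eps * p) := by
  have hb := one_le_bd (Fintype.card ι ^ 2) (wB G)
  have hp1 : FixT G p Unit := hp Unit (by rw [Fintype.card_unit]; omega)
  have hp2 : FixT G p (Unit ⊕ Unit) := hp _ (by rw [Fintype.card_sum, Fintype.card_unit]; omega)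
  obtain ⟨D, hDD⟩ : ∃ D, D = 2 * bd (Fintype.card ι ^ 2) (wB G) := ⟨_, rfl⟩
  have hpD : FixT G p (Fin D ⊕ Fin D) := hp _ (by
    rw [Fintype.card_sum, Fintype.card_fin]; omega)
  obtain ⟨hQ, hε⟩ := form_of_fix hp2
  refine cl_of_span (C := cofam G) (o := G.o) (fun γ hγ => (fixT_GG F hγ Unit).ucol) eps_sq
    eps_ucol (inv_of_form hQ) hp1.ucol hε (D := D) (by rw [hDD]; exact le_rfl) ?_
  exact mem_span F hD (isSS_small hs _ (by rw [Fintype.card_fin]; omega))
    (isSS_small hs _ (by rw [Fintype.card_sum, Fintype.card_fin]; omega)) hp2 hpD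

/-- The relation polynomials. -/
noncomputable def relT {κ : Type} [Fintype κ] [DecidableEq κ] (a : (κ → ι) → ℂ) (i : κ → ι) :
    MvPolynomial (ι × ι) ℂ :=
  ∑ j, kp κ (gm ℂ ι) i j * MvPolynomial.C (a j) - MvPolynomial.C (a i)

lemma aeval_relT {κ : Type} [Fintype κ] [DecidableEq κ]
    (y : Matrix ι ι ℂ) (a : (κ → ι) → ℂ) (i : κ → ι) :
    MvPolynomial.aeval (ent y) (relT a i) = (kp κ y *ᵥ a) i - a i := by
  rw [relT, map_sub, map_sum, Matrix.mulVec, dotProduct, MvPolynomial.aeval_C]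
  congr 1
  refine Finset.sum_congr rfl fun j _ => ?_
  rw [map_mul, MvPolynomial.aeval_C, kp_apply, map_prod, kp_apply]
  congr 1
  refine Finset.prod_congr rfl fun k _ => ?_
  rw [gm, Matrix.of_apply, MvPolynomial.aeval_X]
  rfl

lemma fix_of_cl {p : Matrix ι ι ℂ} (hp : (cofam G).Cl p) {κ : Type} [Fintype κ] [DecidableEq κ]
    {c : (κ → ι) → ℂ} (hc : G.Fixed c) : kp κ p *ᵥ c = c := by
  funext i
  have h1 := hp (relT c i) fun γ hγ => by
    rw [aeval_relT, fix_GG hγ hc, sub_self]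
  rw [aeval_relT, sub_eq_zero] at h1
  exact h1

/-- **Matrices fixing the Tate classes of small degree fix all Tate classes.** -/
theorem fix_all (F : Facts) (hD : G.Dense) {N : ℕ} (hN : 4 * bd (Fintype.card ι ^ 2) (wB G) ≤ N)
    (hs : IsSS (Set.range (G.rho (Fin N)))) {p : Matrix ι ι ℂ}
    (hp : ∀ (κ : Type) [Fintype κ] [DecidableEq κ], Fintype.card κ ≤ N → FixT G p κ)
    (κ : Type) [Fintype κ] [DecidableEq κ] : FixT G p κ := by
  intro j c hc
  have hf := F.fix ι Γ G κ j c hc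
  rcases cl_of_fix F hD hN hs hp with h | h
  · exact fix_of_cl h hf
  · have h1 := fix_of_cl h hf
    rw [kp_mul, ← Matrix.mulVec_mulVec] at h1
    calc kp κ p *ᵥ c = kp κ G.eps *ᵥ (kp κ G.eps *ᵥ (kp κ p *ᵥ c)) := by
          rw [Matrix.mulVec_mulVec (kp κ p *ᵥ c), ← kp_mul, eps_sq, kp_one, Matrix.one_mulVec]
      _ = c := by rw [h1, eps_even hc.1]

end Pool.Agent.N211.BT
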