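import Pool.Agent.N211.BT.HLb
import Pool.Agent.N211.BT.Core

/-!
# The Galois action in coordinates
-/

set_option linter.unusedSectionVars false

open CategoryTheory AlgebraicGeometry TensorProduct

universe u

namespace Pool.Agent.N211.BT

open Module
open Pool.Agent.H914 Pool.Agent.H914.VarClass Pool.Agent.H914.VarClass.Obj
  Pool.Agent.H914.WeilCohomology
open Pool.Agent.Y121.AHS
open Pool.Agent.Y133.Half (pw prj prj_zero prj_castSucc prj_last pfst psnd wb wb_zero wb_succ)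
open Pool.Agent.N996.BP (IsCoordinateMap Bil kp kp_apply isCoordinateMap_iff)
open Pool.Agent.N996.BP.Geo (IsCd sum_snoc kp_snoc clw)

variable {k : Type u} [Field k] {𝒱 : VarClass k} {ops : CycleOps 𝒱}

lemma isCoord_fst {X : 𝒱.Obj} (n : ℕ) : IsCoordinateMap (X := X) (n := n) (m := n + 1)
    (pfst X n) := by
  rw [isCoordinateMap_iff]
  intro i
  exact ⟨i.castSucc, (prj_castSucc n i).symm⟩

lemma isCoord_snd {X : 𝒱.Obj} (n : ℕ) : IsCoordinateMap (X := X) (n := 0) (m := n + 1)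
    (show pw X (n + 1) ⟶ pw X 0 from psnd X n) := by
  rw [isCoordinateMap_iff]
  intro i
  refine ⟨Fin.last _, ?_⟩
  have hi : i = 0 := Subsingleton.elim (α := Fin 1) i 0
  subst hi
  rw [prj_last, prj_zero]
  exact Category.comp_id (psnd X n)

section Words

variable {W : WeilCohomology.{u, 0} ops} {X : 𝒱.Obj} {ι : Type} [Fintype ι] [DecidableEq ι]
  (e : Basis ι W.K (W.H X))

lemma wb_snoc' (n : ℕ) (v : Fin (n + 1) → ι) (x : ι) :
    wb e (n + 1) (Fin.snoc (α := fun _ => ι) v x) =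
      W.map (pfst X n) (wb e n v) * W.map (psnd X n) (e x) := by
  rw [wb_succ, Fin.snoc_last]
  congr 2
  congr 1
  funext i
  rw [Fin.snoc_castSucc]

variable {e} in
lemma wb_deg {deg : ι → ℕ} (he : ∀ j, e j ∈ W.gr X (deg j)) (n : ℕ) (w : Fin (n + 1) → ι) :
    wb e n w ∈ W.gr (pw X n) (∑ i, deg (w i)) := by
  induction n with
  | zero =>
    rw [wb_zero, Fin.sum_univ_one]
    exact he _
  | succ n ih =>
    rw [wb_succ, Fin.sum_univ_castSucc]
    exact W.mul_mem (W.map_mem _ (ih _)) (W.map_mem _ (he _))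

variable {E : Type} [Field E] [Algebra W.K E]

/-- The coordinates. -/
noncomputable def phi (E : Type) [Field E] [Algebra W.K E] (n : ℕ) :
    HL W E (pw X n) ≃ₗ[E] ((Fin (n + 1) → ι) → E) := (bL E (wb e n)).equivFun

lemma phi_symm (n : ℕ) (c : (Fin (n + 1) → ι) → E) :
    (phi e E n).symm c = ∑ w, c w • emL W E (wb e n w) := by
  rw [phi, Basis.equivFun_symm_apply]
  exact Finset.sum_congr rfl fun w _ => by rw [bL_apply]

lemma sum_phi (n : ℕ) (x : HL W E (pw X n)) :
    ∑ w, phi e E n x w • emL W E (wb e n w) = x := by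
  rw [← phi_symm, LinearEquiv.symm_apply_apply]

lemma phi_deg {deg : ι → ℕ} (he : ∀ j, e j ∈ W.gr X (deg j)) {n m : ℕ} {x : HL W E (pw X n)} :
    IsDeg m x ↔ ∀ w, phi e E n x w ≠ 0 → ∑ i, deg (w i) = m :=
  repr_deg (wb e n) (dg := fun w => ∑ i, deg (w i)) (fun w => wb_deg he n w)

lemma phi_clw (n : ℕ) (a : (Fin (n + 1) → ι) → ℚ) :
    phi e E n (emL W E (clw e n a)) = fun w => (a w : E) := by
  rw [← LinearEquiv.eq_symm_apply, phi_symm, clw, emL_sum]
  refine Finset.sum_congr rfl fun w _ => ?_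
  rw [emL_smul, map_ratCast]

end Words

variable {T : HodgeTheory ops} {E : Type} [Field E] [Algebra T.W.K E] {Γ : Type} [Group Γ]
  {X : 𝒱.Obj} (G : GaloisAction T E Γ X) {ι : Type} [Fintype ι] [DecidableEq ι]
  (e : Basis ι T.W.K (T.W.H X))

/-- The action on the cohomology of `X`. -/
noncomputable def rho0 (g : Γ) : HL T.W E X →ₗ[E] HL T.W E X := G.ρ 0 g

lemma rho0_mulB (g : Γ) (x y : HL T.W E X) :
    rho0 G g (mulB T.W E X x y) = mulB T.W E X (rho0 G g x) (rho0 G g y) := G.mul 0 g x y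

lemma rho0_mul (g h : Γ) (x : HL T.W E X) : rho0 G (g * h) x = rho0 G g (rho0 G h x) := by
  have h1 : G.ρ 0 (g * h) = G.ρ 0 g * G.ρ 0 h := map_mul _ _ _
  exact congrArg (fun f : Module.End E (HL T.W E (pw X 0)) => f x) h1

lemma rho0_one (x : HL T.W E X) : rho0 G 1 x = x := by
  have h1 : G.ρ 0 1 = 1 := map_one _
  exact congrArg (fun f : Module.End E (HL T.W E (pw X 0)) => f x) h1

lemma rho_mulB (n : ℕ) (g : Γ) (x y : HL T.W E (pw X n)) :
    G.ρ n g (mulB T.W E (pw X n) x y) = mulB T.W E (pw X n) (G.ρ n g x) (G.ρ n g y) :=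
  G.mul n g x y

lemma rho_fst (n : ℕ) (g : Γ) (x : HL T.W E (pw X n)) :
    G.ρ (n + 1) g (mapB E (pfst X n) x) = mapB E (pfst X n) (G.ρ n g x) :=
  G.map n (n + 1) (pfst X n) (isCoord_fst n) g x

lemma rho_snd (n : ℕ) (g : Γ) (x : HL T.W E X) :
    G.ρ (n + 1) g (mapB E (psnd X n) x) = mapB E (psnd X n) (rho0 G g x) :=
  G.map 0 (n + 1) (psnd X n) (isCoord_snd n) g x

/-- The matrices of the action. -/
noncomputable def rE (g : Γ) : Matrix ι ι E :=
  Matrix.of fun i j => (bL E e).repr (rho0 G g (emL T.W E (e j))) i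

lemma act_e (g : Γ) (j : ι) :
    rho0 G g (emL T.W E (e j)) = ∑ i, rE G e g i j • (emL T.W E (e i) : HL T.W E X) := by
  have h := (bL E e).sum_repr (rho0 G g (emL T.W E (e j)))
  refine h.symm.trans (Finset.sum_congr rfl fun i _ => ?_)
  rw [bL_apply]
  rfl

lemma act_f0 (g : Γ) (w : Fin 1 → ι) : rho0 G g (emL T.W E (e (w 0))) =
    ∑ v : Fin 1 → ι, kp (Fin 1) (rE G e g) v w • (emL T.W E (e (v 0)) : HL T.W E X) := by
  rw [← Equiv.sum_comp (Equiv.funUnique (Fin 1) ι).symm, act_e]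
  refine Finset.sum_congr rfl fun i _ => ?_
  rw [kp_apply, Fin.prod_univ_one]
  rfl

lemma act_f (g : Γ) (f : (Fin 1 → ι) → T.W.H X) (hf : f = fun w => e (w 0)) (w : Fin 1 → ι) :
    rho0 G g (emL T.W E (f w)) =
      ∑ v : Fin 1 → ι, kp (Fin 1) (rE G e g) v w • (emL T.W E (f v) : HL T.W E X) := by
  subst hf
  exact act_f0 G e g w

lemma emL_wb_succ (n : ℕ) (v : Fin (n + 1) → ι) (x : ι) :
    emL T.W E (wb e (n + 1) (Fin.snoc (α := fun _ => ι) v x)) =
      mulB T.W E _ (mapB E (pfst X n) (emL T.W E (wb e n v)))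
        (mapB E (psnd X n) (emL T.W E (e x))) := by
  rw [wb_snoc', emL_mul, emL_map, emL_map]
  rfl

lemma act_wb_succ (n : ℕ) (g : Γ) (v : Fin (n + 1) → ι) (x : ι)
    (ih : G.ρ n g (emL T.W E (wb e n v)) =
      ∑ u, kp (Fin (n + 1)) (rE G e g) u v • emL T.W E (wb e n u)) :
    G.ρ (n + 1) g (emL T.W E (wb e (n + 1) (Fin.snoc (α := fun _ => ι) v x))) =
      ∑ u : Fin (n + 1) → ι, ∑ y : ι, (kp (Fin (n + 1)) (rE G e g) u v * rE G e g y x) •
        emL T.W E (wb e (n + 1) (Fin.snoc (α := fun _ => ι) u y)) := by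
  rw [emL_wb_succ, rho_mulB, rho_fst, rho_snd, ih, act_e, map_sum, map_sum, map_sum,
    LinearMap.sum_apply]
  refine Finset.sum_congr rfl fun u _ => ?_
  rw [map_sum]
  refine Finset.sum_congr rfl fun y _ => ?_
  rw [map_smul, map_smul, map_smul, map_smul, LinearMap.smul_apply, smul_smul, emL_wb_succ,
    mul_comm]

lemma act_wb (n : ℕ) (g : Γ) (w : Fin (n + 1) → ι) :
    G.ρ n g (emL T.W E (wb e n w)) =
      ∑ v, kp (Fin (n + 1)) (rE G e g) v w • emL T.W E (wb e n v) := by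
  induction n with
  | zero => exact act_f G e g (wb e 0) (funext fun w => wb_zero e w) w
  | succ n ih =>
    obtain ⟨v, x, rfl⟩ : ∃ (v : Fin (n + 1) → ι) (x : ι), w = Fin.snoc (α := fun _ => ι) v x :=
      ⟨_, _, (Fin.snoc_init_self (α := fun _ => ι) w).symm⟩
    rw [act_wb_succ G e n g v x (ih v), sum_snoc]
    refine Finset.sum_congr rfl fun u _ => Finset.sum_congr rfl fun y _ => ?_
    rw [kp_snoc, Fin.snoc_last]
    have h1 : (fun i : Fin (n + 1) => (Fin.snoc (α := fun _ => ι) v x : Fin (n + 1 + 1) → ι)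
        i.castSucc) = v := funext fun i => Fin.snoc_castSucc (α := fun _ => ι) _ _ _
    rw [h1]

/-- The action in coordinates. -/
lemma phi_act (n : ℕ) (g : Γ) (x : HL T.W E (pw X n)) :
    phi e E n (G.ρ n g x) = Matrix.mulVec (kp (Fin (n + 1)) (rE G e g)) (phi e E n x) := by
  rw [← LinearEquiv.eq_symm_apply, phi_symm]
  conv_lhs => rw [← sum_phi e n x]
  rw [map_sum]
  have h1 : ∀ w, G.ρ n g (phi e E n x w • emL T.W E (wb e n w)) =
      ∑ v, (kp (Fin (n + 1)) (rE G e g) v w * phi e E n x w) • emL T.W E (wb e n v) := by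
    intro w
    rw [map_smul, act_wb, Finset.smul_sum]
    exact Finset.sum_congr rfl fun v _ => by rw [smul_smul, mul_comm]
  rw [Finset.sum_congr rfl fun w _ => h1 w, Finset.sum_comm]
  refine Finset.sum_congr rfl fun v _ => ?_
  rw [← Finset.sum_smul]
  rfl

lemma rE_ext {A B : Matrix ι ι E} (h : ∀ j, ∑ i, A i j • (emL T.W E (e i) : HL T.W E X) =
    ∑ i, B i j • emL T.W E (e i)) : A = B := by
  ext i j
  have h1 := h j
  have h2 : ∀ C : Matrix ι ι E, ∑ i, C i j • (emL T.W E (e i) : HL T.W E X) =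
      (bL E e).equivFun.symm fun i => C i j := by
    intro C
    rw [Basis.equivFun_symm_apply]
    exact Finset.sum_congr rfl fun i _ => by rw [bL_apply]
  rw [h2, h2] at h1
  exact congrFun ((bL E e).equivFun.symm.injective h1) i

lemma rE_one : rE G e 1 = 1 := by
  refine rE_ext e fun j => ?_
  rw [← act_e G e 1 j, rho0_one, Finset.sum_eq_single j]
  · rw [Matrix.one_apply_eq, one_smul]
  · intro i _ hi
    rw [Matrix.one_apply_ne hi, zero_smul]
  · intro h; exact absurd (Finset.mem_univ _) h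

lemma rE_mul (g h : Γ) : rE G e (g * h) = rE G e g * rE G e h := by
  refine rE_ext e fun j => ?_
  rw [← act_e G e (g * h) j, rho0_mul, act_e G e h j, map_sum]
  have h2 : ∀ i, rho0 G g (rE G e h i j • emL T.W E (e i)) =
      ∑ l, (rE G e g l i * rE G e h i j) • emL T.W E (e l) := by
    intro i
    rw [map_smul, act_e, Finset.smul_sum]
    exact Finset.sum_congr rfl fun l _ => by rw [smul_smul, mul_comm]
  rw [Finset.sum_congr rfl fun i _ => h2 i, Finset.sum_comm]
  refine Finset.sum_congr rfl fun l _ => ?_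
  rw [← Finset.sum_smul, Matrix.mul_apply]

variable {e}

lemma rE_deg {deg : ι → ℕ} (he : ∀ j, e j ∈ T.W.gr X (deg j)) (g : Γ) (i j : ι)
    (h : rE G e g i j ≠ 0) : deg i = deg j := by
  have h1 : IsDeg (deg j) (rho0 G g (emL T.W E (e j))) :=
    G.deg 0 g (deg j) _ (emL_deg (he j))
  exact (repr_deg e he).1 h1 i h

lemma act_one (g : Γ) : rho0 G g (emL T.W E (1 : T.W.H X)) = emL T.W E (1 : T.W.H X) := by
  have h1 : ∀ x : HL T.W E X, mulB T.W E X x (emL T.W E (1 : T.W.H X)) = x := fun x =>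
    mul_one (show E ⊗[T.W.K] T.W.H X from x)
  have h2 : ∀ x : HL T.W E X, mulB T.W E X (emL T.W E (1 : T.W.H X)) x = x := fun x =>
    one_mul (show E ⊗[T.W.K] T.W.H X from x)
  have h3 : ∀ y : HL T.W E X, mulB T.W E X (rho0 G g (emL T.W E (1 : T.W.H X))) y = y := by
    intro y
    have h4 : y = rho0 G g (rho0 G g⁻¹ y) := by
      rw [← rho0_mul, mul_inv_cancel, rho0_one]
    conv_lhs => rw [h4]
    rw [← rho0_mulB, h2, ← h4]
  have h5 := h3 (emL T.W E (1 : T.W.H X))
  rw [h1] at h5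
  exact h5

lemma rE_o {o : ι} (ho : e o = 1) (g : Γ) (i : ι) :
    rE G e g i o = if i = o then 1 else 0 := by
  have h1 : rE G e g i o = (bL E e).repr (rho0 G g (emL T.W E (e o))) i := rfl
  have h2 : rho0 G g (emL T.W E (e o)) = bL E e o := by
    rw [bL_apply, ho]
    exact act_one G g
  rw [h1, h2, Basis.repr_self, Finsupp.single_apply]
  exact if_congr eq_comm rfl rfl

end Pool.Agent.N211.BT
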