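import Pool.Agent.N211.BT.Stm2

/-!
# Sums of semisimple representations; Serre's tensor product trick; even degrees
-/

set_option autoImplicit false
set_option linter.unusedSectionVars false

namespace Pool.Agent.N211.BT

open Matrix Pool.Agent.N996.BP

namespace Evenaux

section sums

variable {F : Type} [Field F] {M : Type} [AddCommGroup M] [Module F M]
  (R : Set (Module.End F M))

/-- a stable subspace as a submodule -/
def toA (U : Submodule F M) (h : Stab R U) : Submodule (Algebra.adjoin F R) M where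
  carrier := U
  add_mem' := U.add_mem
  zero_mem' := U.zero_mem
  smul_mem' := by
    rintro ⟨a, ha⟩ x hx
    change a x ∈ U
    have : ∀ y ∈ U, a y ∈ U := by
      induction ha using Algebra.adjoin_induction with
      | mem a ha => exact h a ha
      | algebraMap c =>
        intro y hy
        exact U.smul_mem c hy
      | add a b _ _ ha hb =>
        intro y hy
        exact U.add_mem (ha y hy) (hb y hy)
      | mul a b _ _ ha hb =>
        intro y hy
        exact ha _ (hb y hy)
    exact this x hx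

theorem mem_toA (U : Submodule F M) (h : Stab R U) (x : M) : x ∈ toA R U h ↔ x ∈ U := Iff.rfl

theorem stable (N : Submodule (Algebra.adjoin F R) M) : Stab R (N.restrictScalars F) :=
  fun r hr _ hx => N.smul_mem ⟨r, Algebra.subset_adjoin hr⟩ hx

theorem ss_of_ssOn {P : Submodule F M} (hP : Stab R P) (h : SSOn R P) :
    IsSemisimpleModule (Algebra.adjoin F R) (toA R P hP) := by
  rw [isSemisimpleModule_iff]
  constructor
  intro N
  obtain ⟨U', h1, h2, h3, h4⟩ := h ((N.map (toA R P hP).subtype).restrictScalars F)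
    (by
      rintro _ ⟨x, -, rfl⟩
      exact x.2)
    (stable R _)
  refine ⟨(toA R U' h2).comap (toA R P hP).subtype, ?_, ?_⟩
  · rw [Submodule.disjoint_def]
    intro x hx hx'
    have h5 : (x : M) ∈ (N.map (toA R P hP).subtype).restrictScalars F ⊓ U' :=
      ⟨⟨x, hx, rfl⟩, hx'⟩
    rw [h3, Submodule.mem_bot] at h5
    exact Subtype.ext h5
  · rw [Submodule.codisjoint_iff_exists_add_eq]
    intro z
    have h5 : (z : M) ∈ (N.map (toA R P hP).subtype).restrictScalars F ⊔ U' := by
      rw [h4]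
      exact z.2
    obtain ⟨_, ⟨x, hx, rfl⟩, y, hy, hxy⟩ := Submodule.mem_sup.1 h5
    exact ⟨x, ⟨y, h1 hy⟩, hx, hy, Subtype.ext hxy⟩

theorem ssOn_of_ss {P : Submodule F M} (hP : Stab R P)
    (h : IsSemisimpleModule (Algebra.adjoin F R) (toA R P hP)) : SSOn R P := by
  intro U hUP hU
  rw [isSemisimpleModule_iff] at h
  obtain ⟨N, hN⟩ := h.exists_isCompl ((toA R U hU).comap (toA R P hP).subtype)
  refine ⟨(N.map (toA R P hP).subtype).restrictScalars F, ?_, stable R _, ?_, ?_⟩
  · rintro _ ⟨x, -, rfl⟩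
    exact x.2
  · rw [eq_bot_iff]
    rintro _ ⟨hx, ⟨x, hxN, rfl⟩⟩
    have h1 := (Submodule.disjoint_def.1 hN.disjoint) x hx hxN
    rw [h1]
    exact Submodule.zero_mem _
  · apply le_antisymm
    · refine sup_le hUP ?_
      rintro _ ⟨x, -, rfl⟩
      exact x.2
    · intro z hz
      obtain ⟨x, y, hx, hy, hxy⟩ :=
        (Submodule.codisjoint_iff_exists_add_eq.1 hN.codisjoint) ⟨z, hz⟩
      exact Submodule.mem_sup.2 ⟨x, hx, y, ⟨y, hy, rfl⟩, congrArg Subtype.val hxy⟩

theorem stab_iSup {α : Type} {P : α → Submodule F M} (h : ∀ a, Stab R (P a)) :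
    Stab R (⨆ a, P a) := by
  intro r hr x hx
  have h1 : (⨆ a, P a) ≤ (⨆ a, P a).comap r := by
    refine iSup_le fun a y hy => ?_
    exact (le_iSup P a) (h a r hr y hy)
  exact h1 hx

end sums

end Evenaux

open Evenaux

theorem ssum : S_Sum := by
  intro F _ M _ _ _ R α P hst hss
  have hS : Stab R (⨆ a, P a) := stab_iSup R hst
  apply ssOn_of_ss R hS
  have e : toA R (⨆ a, P a) hS = ⨆ a ∈ (Set.univ : Set α), toA R (P a) (hst a) := by
    rw [iSup_univ]
    apply le_antisymm
    · have h1 : (⨆ a, P a) ≤ (⨆ a, toA R (P a) (hst a)).restrictScalars F := by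
        refine iSup_le fun a x hx => ?_
        exact (le_iSup (fun a => toA R (P a) (hst a)) a) hx
      exact fun x hx => h1 hx
    · refine iSup_le fun a x hx => ?_
      exact (le_iSup P a) hx
  rw [e]
  exact isSemisimpleModule_biSup_of_isSemisimpleModule_submodule fun a _ =>
    ss_of_ssOn R (hst a) (hss a)

namespace Evenaux

section serre

variable {F : Type} [Field F] {ι : Type} [Fintype ι] [DecidableEq ι]
  {κ : Type} [Fintype κ] [DecidableEq κ] (deg : ι → ℕ)

theorem mem_homS {m : ℕ} {c : (κ → ι) → F} :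
    c ∈ homS F deg κ m ↔ ∀ i, c i ≠ 0 → ∑ k, deg (i k) = m := Iff.rfl

variable {deg} in
theorem kp_deg {r : Matrix ι ι F} (hr : ∀ i j, r i j ≠ 0 → deg i = deg j) {i j : κ → ι}
    (h : kp κ r i j ≠ 0) : ∑ k, deg (i k) = ∑ k, deg (j k) := by
  refine Finset.sum_congr rfl fun k _ => hr _ _ ?_
  rw [kp_apply] at h
  exact Finset.prod_ne_zero_iff.1 h k (Finset.mem_univ k)

variable {deg} in
theorem kp_homS {r : Matrix ι ι F} (hr : ∀ i j, r i j ≠ 0 → deg i = deg j) {m : ℕ}
    {c : (κ → ι) → F} (hc : c ∈ homS F deg κ m) : kp κ r *ᵥ c ∈ homS F deg κ m := by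
  intro i hi
  obtain ⟨j, -, hj⟩ := Finset.exists_ne_zero_of_sum_ne_zero hi
  have h1 := left_ne_zero_of_mul hj
  have h2 := right_ne_zero_of_mul hj
  rw [kp_deg hr h1]
  exact hc j h2

/-- the slices of an array -/
def slice (j : ι) : ((κ ⊕ Unit → ι) → F) →ₗ[F] ((κ → ι) → F) where
  toFun c := fun i => c (Sum.elim i fun _ => j)
  map_add' _ _ := rfl
  map_smul' _ _ := rfl

theorem slice_apply (j : ι) (c : (κ ⊕ Unit → ι) → F) (i : κ → ι) :
    slice j c i = c (Sum.elim i fun _ => j) := rfl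

/-- the tensor product with a basis vector -/
def emb (j : ι) : ((κ → ι) → F) →ₗ[F] ((κ ⊕ Unit → ι) → F) where
  toFun v := fun i => v (fun k => i (Sum.inl k)) * (if i (Sum.inr ()) = j then 1 else 0)
  map_add' u v := by
    funext i
    simp only [Pi.add_apply, add_mul]
  map_smul' c v := by
    funext i
    simp only [Pi.smul_apply, smul_eq_mul, mul_assoc, RingHom.id_apply]

theorem emb_apply (j : ι) (v : (κ → ι) → F) (i : κ ⊕ Unit → ι) :
    emb j v i = v (fun k => i (Sum.inl k)) * (if i (Sum.inr ()) = j then 1 else 0) := rfl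

theorem slice_emb (j j' : ι) (v : (κ → ι) → F) :
    slice j' (emb j v) = if j' = j then v else 0 := by
  funext i
  rw [slice_apply, emb_apply]
  by_cases h : j' = j
  · rw [if_pos h, if_pos (show (Sum.elim i fun _ => j' : κ ⊕ Unit → ι) (Sum.inr ()) = j from h),
      mul_one]
    rfl
  · rw [if_neg h, if_neg (show ¬ (Sum.elim i fun _ => j' : κ ⊕ Unit → ι) (Sum.inr ()) = j from h),
      mul_zero]
    rfl

theorem ext_slice {c c' : (κ ⊕ Unit → ι) → F} (h : ∀ j, slice j c = slice j c') : c = c' := by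
  funext i
  have h1 : i = Sum.elim (fun k => i (Sum.inl k)) fun _ => i (Sum.inr ()) := by
    funext x
    rcases x with x | x
    · rfl
    · rfl
  rw [h1]
  exact congrFun (h (i (Sum.inr ()))) _

/-- the sums over the last index -/
theorem sum_last {N : Type} [AddCommMonoid N] (f : (Unit → ι) → N) :
    ∑ j, f j = ∑ j : ι, f fun _ => j := by
  rw [← Equiv.sum_comp (Equiv.funUnique Unit ι).symm f]
  rfl

theorem slice_kp (r : Matrix ι ι F) (c : (κ ⊕ Unit → ι) → F) (j : ι) :
    slice j (kp (κ ⊕ Unit) r *ᵥ c) = ∑ j0, r j j0 • (kp κ r *ᵥ slice j0 c) := by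
  funext i
  rw [slice_apply, Matrix.mulVec, dotProduct, sum_sumElim, Finset.sum_apply]
  rw [Finset.sum_comm, sum_last]
  refine Finset.sum_congr rfl fun j0 _ => ?_
  rw [Pi.smul_apply, smul_eq_mul, Matrix.mulVec, dotProduct, Finset.mul_sum]
  refine Finset.sum_congr rfl fun i0 _ => ?_
  rw [kp_sum, kp_apply r (fun _ : Unit => j)]
  simp only [Finset.univ_unique, Finset.prod_singleton]
  rw [slice_apply]
  ring

theorem kp_emb (r : Matrix ι ι F) (v : (κ → ι) → F) (j0 : ι) :
    kp (κ ⊕ Unit) r *ᵥ emb j0 v = ∑ j, r j j0 • emb j (kp κ r *ᵥ v) := by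
  refine ext_slice fun j => ?_
  rw [slice_kp, map_sum]
  simp only [map_smul, slice_emb]
  rw [Finset.sum_eq_single j0, Finset.sum_eq_single j]
  · rw [if_pos rfl, if_pos rfl]
  · intro b _ hb
    rw [if_neg (Ne.symm hb), smul_zero]
  · intro h
    exact absurd (Finset.mem_univ _) h
  · intro b _ hb
    rw [if_neg hb, Matrix.mulVec_zero, smul_zero]
  · intro h
    exact absurd (Finset.mem_univ _) h

end serre

end Evenaux

theorem serre : S_Serre := by
  intro F _ _ ι _ _ Γ _ r deg h1 hmul hdeg κ _ _ m a hss U hUm hU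
  classical
  -- the group
  have hrU : ∀ g, ∀ x ∈ U, kp κ (r g) *ᵥ x ∈ U := fun g x hx => by
    have h2 := hU _ ⟨g, rfl⟩ x hx
    rwa [Matrix.toLin'_apply] at h2
  -- the subspace of the tensor product
  let U2 : Submodule F ((κ ⊕ Unit → ι) → F) :=
    { carrier := {c | (∀ j, slice j c ∈ U) ∧ ∀ j, deg j ≠ deg a → slice j c = 0}
      add_mem' := fun {x y} hx hy => ⟨fun j => by
          rw [map_add]
          exact U.add_mem (hx.1 j) (hy.1 j), fun j hj => by
          rw [map_add, hx.2 j hj, hy.2 j hj, add_zero]⟩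
      zero_mem' := ⟨fun j => by
          rw [map_zero]
          exact U.zero_mem, fun j _ => map_zero _⟩
      smul_mem' := fun t x hx => ⟨fun j => by
          rw [map_smul]
          exact U.smul_mem t (hx.1 j), fun j hj => by
          rw [map_smul, hx.2 j hj, smul_zero]⟩ }
  have memU2 : ∀ c, c ∈ U2 ↔ (∀ j, slice j c ∈ U) ∧ ∀ j, deg j ≠ deg a → slice j c = 0 :=
    fun c => Iff.rfl
  have hU2m : U2 ≤ homS F deg (κ ⊕ Unit) (m + deg a) := by
    intro c hc i hi
    have e : i = Sum.elim (fun k => i (Sum.inl k)) fun _ => i (Sum.inr ()) := by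
      funext x
      rcases x with x | x
      · rfl
      · rfl
    have h2 : slice (i (Sum.inr ())) c (fun k => i (Sum.inl k)) ≠ 0 := by
      rw [slice_apply, ← e]
      exact hi
    have h3 : deg (i (Sum.inr ())) = deg a := by
      by_contra h3
      rw [hc.2 _ h3] at h2
      exact h2 rfl
    have h4 := hUm (hc.1 (i (Sum.inr ()))) _ h2
    rw [Fintype.sum_sum_type, h4]
    simp only [Finset.univ_unique, Finset.sum_singleton]
    rw [← h3]
  have hU2s : Stab (opsF r (κ ⊕ Unit)) U2 := by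
    rintro _ ⟨g, rfl⟩ c hc
    rw [Matrix.toLin'_apply]
    refine ⟨fun j => ?_, fun j hj => ?_⟩
    · rw [slice_kp]
      exact U.sum_mem fun j0 _ => U.smul_mem _ (hrU g _ (hc.1 j0))
    · rw [slice_kp]
      refine Finset.sum_eq_zero fun j0 _ => ?_
      by_cases h2 : r g j j0 = 0
      · rw [h2, zero_smul]
      · rw [hc.2 j0 (by rw [← hdeg g j j0 h2]; exact hj), Matrix.mulVec_zero, smul_zero]
  obtain ⟨Z, hZm, hZs, hd, hs⟩ := hss U2 hU2m hU2s
  obtain ⟨Z', hZZ', hc⟩ := (disjoint_iff.2 ((inf_comm Z U2).trans hd)).exists_isCompl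
  -- the projection
  let π : ((κ ⊕ Unit → ι) → F) →ₗ[F] ((κ ⊕ Unit → ι) → F) :=
    U2.subtype ∘ₗ (U2.projectionOnto Z' hc.symm)
  have πU : ∀ x, π x ∈ U2 := fun x => by
    simp only [π, LinearMap.comp_apply, Submodule.subtype_apply]
    exact Submodule.coe_mem _
  have π_id : ∀ x ∈ U2, π x = x := fun x hx => by
    simp only [π, LinearMap.comp_apply, Submodule.subtype_apply]
    exact congrArg Subtype.val (Submodule.projectionOnto_apply_left hc.symm ⟨x, hx⟩)
  have π_zero : ∀ x ∈ Z, π x = 0 := fun x hx => by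
    simp only [π, LinearMap.comp_apply, Submodule.subtype_apply]
    rw [(Submodule.projectionOnto_apply_eq_zero_iff hc.symm).2 (hZZ' hx)]
    rfl
  have hsU2 : ∀ g, ∀ x ∈ U2, kp (κ ⊕ Unit) (r g) *ᵥ x ∈ U2 := fun g x hx => by
    have h2 := hU2s _ ⟨g, rfl⟩ x hx
    rwa [Matrix.toLin'_apply] at h2
  have hsZ : ∀ g, ∀ x ∈ Z, kp (κ ⊕ Unit) (r g) *ᵥ x ∈ Z := fun g x hx => by
    have h2 := hZs _ ⟨g, rfl⟩ x hx
    rwa [Matrix.toLin'_apply] at h2
  have π_comm : ∀ g, ∀ x ∈ homS F deg (κ ⊕ Unit) (m + deg a),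
      π (kp (κ ⊕ Unit) (r g) *ᵥ x) = kp (κ ⊕ Unit) (r g) *ᵥ π x := by
    intro g x hx
    rw [← hs] at hx
    obtain ⟨y, hy, z, hz, rfl⟩ := Submodule.mem_sup.1 hx
    rw [Matrix.mulVec_add, map_add, map_add, π_id y hy, π_zero z hz, add_zero,
      π_id _ (hsU2 g y hy), π_zero _ (hsZ g z hz), add_zero]
  -- the partial trace
  let J : Finset ι := Finset.univ.filter fun j => deg j = deg a
  have memJ : ∀ j, j ∈ J ↔ deg j = deg a := fun j => by simp [J]
  have hw : (J.card : F) ≠ 0 := by
    have h2 : 0 < J.card := Finset.card_pos.2 ⟨a, (memJ a).2 rfl⟩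
    exact_mod_cast h2.ne'
  let q : ((κ → ι) → F) →ₗ[F] ((κ → ι) → F) := ∑ j ∈ J, slice j ∘ₗ π ∘ₗ emb j
  have hq : ∀ v, q v = ∑ j ∈ J, slice j (π (emb j v)) := fun v => by
    simp only [q, LinearMap.sum_apply, LinearMap.comp_apply]
  have qU : ∀ v, q v ∈ U := fun v => by
    rw [hq]
    exact U.sum_mem fun j _ => (πU _).1 j
  have embU : ∀ u ∈ U, ∀ j ∈ J, emb j u ∈ U2 := by
    intro u hu j hj
    refine ⟨fun j' => ?_, fun j' hj' => ?_⟩
    · rw [slice_emb]
      split_ifs
      · exact hu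
      · exact U.zero_mem
    · rw [slice_emb, if_neg]
      rintro rfl
      exact hj' ((memJ _).1 hj)
  have embm : ∀ v ∈ homS F deg κ m, ∀ j ∈ J, emb j v ∈ homS F deg (κ ⊕ Unit) (m + deg a) := by
    intro v hv j hj i hi
    rw [emb_apply] at hi
    have h2 := left_ne_zero_of_mul hi
    have h3 : i (Sum.inr ()) = j := by
      by_contra h3
      rw [if_neg h3, mul_zero] at hi
      exact hi rfl
    rw [Fintype.sum_sum_type, hv _ h2]
    simp only [Finset.univ_unique, Finset.sum_singleton]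
    rw [← (memJ j).1 hj, ← h3]
  have q_id : ∀ u ∈ U, q u = (J.card : F) • u := by
    intro u hu
    rw [hq, Finset.sum_congr rfl (g := fun _ => u), Finset.sum_const, Nat.cast_smul_eq_nsmul]
    intro j hj
    rw [π_id _ (embU u hu j hj), slice_emb, if_pos rfl]
  have hinv : ∀ g, r g⁻¹ * r g = 1 := fun g => by rw [← hmul, inv_mul_cancel, h1]
  have hinv' : ∀ g, r g * r g⁻¹ = 1 := fun g => by rw [← hmul, mul_inv_cancel, h1]
  have q_comm : ∀ g, ∀ v ∈ homS F deg κ m, q (kp κ (r g) *ᵥ v) = kp κ (r g) *ᵥ q v := by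
    intro g v hv
    have e1 : ∀ j ∈ J, emb j (kp κ (r g) *ᵥ v) =
        ∑ j0 ∈ J, r g⁻¹ j0 j • (kp (κ ⊕ Unit) (r g) *ᵥ emb j0 v) := by
      intro j hj
      have e2 : ∑ j0 ∈ J, r g⁻¹ j0 j • (kp (κ ⊕ Unit) (r g) *ᵥ emb j0 v) =
          ∑ j0, r g⁻¹ j0 j • (kp (κ ⊕ Unit) (r g) *ᵥ emb j0 v) := by
        refine Finset.sum_subset (Finset.subset_univ _) fun j0 _ h2 => ?_
        by_cases h3 : r g⁻¹ j0 j = 0
        · rw [h3, zero_smul]
        · exact absurd ((memJ j0).2 ((hdeg _ _ _ h3).trans ((memJ j).1 hj))) h2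
      rw [e2]
      simp only [kp_emb, Finset.smul_sum, smul_smul]
      rw [Finset.sum_comm]
      simp only [← Finset.sum_smul]
      rw [Finset.sum_eq_single j]
      · have h2 : ∑ j0, r g⁻¹ j0 j * r g j j0 = 1 := by
          have h3 := congrFun (congrFun (hinv' g) j) j
          rw [Matrix.mul_apply, Matrix.one_apply_eq] at h3
          rw [← h3]
          exact Finset.sum_congr rfl fun _ _ => mul_comm _ _
        rw [h2, one_smul]
      · intro b _ hb
        have h2 : ∑ j0, r g⁻¹ j0 j * r g b j0 = 0 := by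
          have h3 := congrFun (congrFun (hinv' g) b) j
          rw [Matrix.mul_apply, Matrix.one_apply_ne hb] at h3
          rw [← h3]
          exact Finset.sum_congr rfl fun _ _ => mul_comm _ _
        rw [h2, zero_smul]
      · intro h
        exact absurd (Finset.mem_univ _) h
    have e3 : q (kp κ (r g) *ᵥ v) = ∑ j ∈ J, ∑ j0 ∈ J, ∑ j1,
        (r g⁻¹ j0 j * r g j j1) • (kp κ (r g) *ᵥ slice j1 (π (emb j0 v))) := by
      rw [hq]
      refine Finset.sum_congr rfl fun j hj => ?_
      rw [e1 j hj, map_sum, map_sum]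
      refine Finset.sum_congr rfl fun j0 hj0 => ?_
      rw [map_smul, map_smul, π_comm g _ (embm v hv j0 hj0), slice_kp, Finset.smul_sum]
      refine Finset.sum_congr rfl fun j1 _ => ?_
      rw [smul_smul]
    rw [e3, Finset.sum_comm, hq, ← Matrix.mulVecLin_apply, map_sum]
    refine Finset.sum_congr rfl fun j0 hj0 => ?_
    rw [Finset.sum_comm, Finset.sum_eq_single j0]
    · rw [← Finset.sum_smul]
      have h2 : ∑ j ∈ J, r g⁻¹ j0 j * r g j j0 = 1 := by
        have h3 := congrFun (congrFun (hinv g) j0) j0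
        rw [Matrix.mul_apply, Matrix.one_apply_eq] at h3
        rw [← h3]
        refine Finset.sum_subset (Finset.subset_univ _) fun j _ h4 => ?_
        by_cases h5 : r g⁻¹ j0 j = 0
        · rw [h5, zero_mul]
        · exact absurd ((memJ j).2 ((hdeg _ _ _ h5).symm.trans ((memJ j0).1 hj0))) h4
      rw [h2, one_smul, Matrix.mulVecLin_apply]
    · intro b _ hb
      rw [← Finset.sum_smul]
      have h2 : ∑ j ∈ J, r g⁻¹ j0 j * r g j b = 0 := by
        have h3 := congrFun (congrFun (hinv g) j0) b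
        rw [Matrix.mul_apply, Matrix.one_apply_ne (Ne.symm hb)] at h3
        rw [← h3]
        refine Finset.sum_subset (Finset.subset_univ _) fun j _ h4 => ?_
        by_cases h5 : r g⁻¹ j0 j = 0
        · rw [h5, zero_mul]
        · exact absurd ((memJ j).2 ((hdeg _ _ _ h5).symm.trans ((memJ j0).1 hj0))) h4
      rw [h2, zero_smul]
    · intro h
      exact absurd (Finset.mem_univ _) h
  refine ⟨LinearMap.ker q ⊓ homS F deg κ m, inf_le_right, ?_, ?_, ?_⟩
  · rintro _ ⟨g, rfl⟩ x ⟨hx, hxm⟩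
    rw [Matrix.toLin'_apply]
    refine ⟨?_, kp_homS (hdeg g) hxm⟩
    have hx' : q x = 0 := hx
    change q _ = 0
    rw [q_comm g x hxm, hx', Matrix.mulVec_zero]
  · rw [eq_bot_iff]
    rintro x ⟨hxU, hx, -⟩
    have hx' : q x = 0 := hx
    rw [q_id x hxU] at hx'
    exact (smul_eq_zero.1 hx').resolve_left hw
  · apply le_antisymm
    · exact sup_le hUm inf_le_right
    · intro x hx
      refine Submodule.mem_sup.2 ⟨(J.card : F)⁻¹ • q x, U.smul_mem _ (qU x),
        x - (J.card : F)⁻¹ • q x, ⟨?_, ?_⟩, add_sub_cancel _ _⟩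
      · change q _ = 0
        rw [map_sub, map_smul, q_id _ (qU x), smul_smul, inv_mul_cancel₀ hw, one_smul, sub_self]
      · exact Submodule.sub_mem _ hx (hUm (U.smul_mem _ (qU x)))

theorem even : S_Even := by
  intro F _ _ ι _ _ Γ _ r deg h1 hmul hdeg o ho κ _ _ hss
  have hm : ∀ m, SSOn (opsF r κ) (homS F deg κ m) := by
    intro m
    rcases Nat.even_or_odd m with ⟨j, hj⟩ | hodd
    · refine serre F ι Γ r deg h1 hmul hdeg κ m o ?_
      have e : m + deg o = 2 * j := by omega
      rw [e]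
      exact hss j
    · by_cases ha : ∃ a, Odd (deg a)
      · obtain ⟨a, ha⟩ := ha
        refine serre F ι Γ r deg h1 hmul hdeg κ m a ?_
        obtain ⟨j, hj⟩ := hodd.add_odd ha
        have e : m + deg a = 2 * j := by omega
        rw [e]
        exact hss j
      · have hb : homS F deg κ m = ⊥ := by
          rw [eq_bot_iff]
          intro c hc
          rw [Submodule.mem_bot]
          funext i
          by_contra hi
          have h2 := hc i hi
          have h3 : Even (∑ k, deg (i k)) := by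
            refine Finset.even_sum _ fun k _ => ?_
            rw [← Nat.not_odd_iff_even]
            exact fun h4 => ha ⟨_, h4⟩
          rw [h2] at h3
          exact (Nat.not_even_iff_odd.2 hodd) h3
        rw [hb]
        intro U hU _
        refine ⟨⊥, le_rfl, ?_, ?_, ?_⟩
        · intro f _ x hx
          rw [Submodule.mem_bot] at hx ⊢
          rw [hx, map_zero]
        · rw [inf_bot_eq]
        · rw [sup_bot_eq]
          exact le_bot_iff.1 hU
  have htop : (⊤ : Submodule F ((κ → ι) → F)) = ⨆ m, homS F deg κ m := by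
    classical
    rw [eq_comm, eq_top_iff]
    intro c _
    rw [← Finset.univ_sum_single c]
    refine Submodule.sum_mem _ fun i _ => ?_
    refine (le_iSup (fun m => homS F deg κ m) (∑ k, deg (i k))) ?_
    intro i' hi'
    have h2 : i' = i := by
      by_contra h2
      exact hi' (Pi.single_eq_of_ne h2 _)
    rw [h2]
  rw [htop]
  refine ssum F _ (opsF r κ) ℕ (fun m => homS F deg κ m) (fun m => ?_) hm
  rintro _ ⟨g, rfl⟩ x hx
  rw [Matrix.toLin'_apply]
  exact kp_homS (hdeg g) hx

end Pool.Agent.N211.BT
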