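import Pool.Agent.N211.BT.TG

/-!
# The classes of the parity operator and of the form
-/

set_option linter.unusedSectionVars false

open CategoryTheory AlgebraicGeometry TensorProduct

universe u

namespace Pool.Agent.N211.BT

open Module Matrix
open Pool.Agent.H914 Pool.Agent.H914.VarClass Pool.Agent.H914.VarClass.Obj
  Pool.Agent.H914.WeilCohomology
open Pool.Agent.Y121.AHS
open Pool.Agent.W536.RR (algSpan_induction cl_mem_algSpan)
open Pool.Agent.H281R3.HT (algSpan)
open Pool.Agent.Y133.Half (pw wb wb_zero wb_succ algSys PH pfst psnd exists_dual_class)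
open Pool.Agent.N996.BP (cQ ca kp kp_apply totalBetti isCoordinateMap_iff)
open Pool.Agent.N996.BP.Geo (clw arrc mem_arrc clw_add clw_smul clw_zero up_down isCd_up
  isCd_down dp sum_snoc)

variable {k : Type u} [Field k] {𝒱 : VarClass k} {ops : CycleOps 𝒱}

section General

variable {W : WeilCohomology.{u, 0} ops} {Y : 𝒱.Obj}

/-- Nondegeneracy with extended coefficients. -/
lemma nondegE {E : Type} [Field E] [Algebra W.K E] {x : HL W E Y}
    (h : ∀ y : HL W E Y, trL (mulL y x) = 0) : x = 0 :=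
  nondeg_right (W := baseW W E) (X := Y) (a := x) h

/-- A class which is orthogonal to the classes of the other degrees is homogeneous. -/
lemma deg_of_pair {y : W.H Y} {l : ℕ}
    (h : ∀ i, ∀ x ∈ W.gr Y i, i + l ≠ 2 * Y.dim → W.tr Y (x * y) = 0) : y ∈ W.gr Y l := by
  have h1 : y - proj (W.isInternal Y) l y = 0 := by
    apply nondeg_right
    intro c
    refine gr_induction (W.isInternal Y)
      (p := fun c => W.tr Y (c * (y - proj (W.isInternal Y) l y)) = 0) ?_ ?_ c
    · intro i c hc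
      rw [mul_sub, map_sub]
      by_cases hi : i + l = 2 * Y.dim
      · rw [sub_eq_zero]
        symm
        refine gr_induction (W.isInternal Y)
          (p := fun b => W.tr Y (c * proj (W.isInternal Y) l b) = W.tr Y (c * b)) ?_ ?_ y
        · intro l' b hb
          by_cases hl : l' = l
          · subst hl; rw [proj_same _ hb]
          · rw [proj_ne _ hb hl, mul_zero, map_zero,
              W.tr_eq_zero (W.mul_mem hc hb) (by omega)]
        · intro b b' hb hb'
          rw [map_add, mul_add, mul_add, map_add, map_add, hb, hb']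
      · rw [h i c hc hi, W.tr_eq_zero (W.mul_mem hc (proj_mem _ l y)) hi, sub_zero]
    · intro c c' hc hc'
      rw [add_mul, map_add, hc, hc', add_zero]
  rw [sub_eq_zero] at h1
  rw [h1]
  exact proj_mem _ l y

end General

section Words

variable {W : WeilCohomology.{u, 0} ops} {X : 𝒱.Obj} {ι : Type} [Fintype ι] [DecidableEq ι]
  (e : Basis ι W.K (W.H X))

/-- The parity operator on the first factor. -/
lemma par_wb {deg : ι → ℕ} (he : ∀ j, e j ∈ W.gr X (deg j)) (w : Fin (1 + 1) → ι) :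
    extOp W (H914.par (W.isInternal X)) 1 (show W.H (X.prod X) from wb e 1 w) =
      (-1 : W.K) ^ deg (w 0) • wb e 1 w := by
  have h0 : wb e 0 (fun i : Fin (0 + 1) => w i.castSucc) = e (w 0) := wb_zero e _
  have h1 : wb e 1 w = W.map (pfst X 0) (e (w 0)) * W.map (psnd X 0) (e (w (Fin.last _))) := by
    rw [wb_succ, ← h0]
  rw [h1]
  have h2 := extOp_tmul (W := W) (H914.par (W.isInternal X)) (1 : Module.End W.K (W.H X))
    (e (w 0)) (e (w (Fin.last _)))
  refine h2.trans ?_
  rw [PH.par (PH.of (he (w 0))), map_smul, smul_mul_assoc]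
  rfl

/-- The class of the parity operator in coordinates. -/
lemma dp_clw {deg : ι → ℕ} (he : ∀ j, e j ∈ W.gr X (deg j)) {q : (Fin (1 + 1) → ι) → ℚ}
    (hq : clw e 1 q = (show W.H (pw X 1) from W.push (diag X) 1)) :
    dp W X = clw e 1 fun w => (-1) ^ deg (w 0) * q w := by
  have h1 : dp W X = extOp W (H914.par (W.isInternal X)) 1
      (show W.H (X.prod X) from clw e 1 q) := by
    rw [hq]
    rfl
  rw [h1]
  have h2 : (show W.H (X.prod X) from clw e 1 q) = ∑ w, ((q w : ℚ) : W.K) •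
      (show W.H (X.prod X) from wb e 1 w) := rfl
  rw [h2, map_sum]
  refine Finset.sum_congr rfl fun w _ => ?_
  rw [map_smul, par_wb e he]
  change ((q w : ℚ) : W.K) • ((-1 : W.K) ^ deg (w 0) • wb e 1 w) =
    (((-1) ^ deg (w 0) * q w : ℚ) : W.K) • wb e 1 w
  rw [smul_smul]
  congr 1
  push_cast
  ring

end Words

variable {T : HodgeTheory ops}
  {X : 𝒱.Obj} {E : Type} [Field E] [Algebra T.W.K E] {Γ : Type} [Group Γ]
  (G : GaloisAction T E Γ X) {ι : Type} [Fintype ι] [DecidableEq ι]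
  (e : Basis ι T.W.K (T.W.H X)) {deg : ι → ℕ}

section Data

variable [Algebra E ℂ] (he : ∀ j, e j ∈ T.W.gr X (deg j))
    {o : ι} (heo : e o = 1) (hdo : deg o = 0) (Qr Qir : Matrix ι ι ℚ) (hQ : Qr * Qir = 1)
    (hr : ∀ g, (∀ i j, Qr i j ≠ 0 → deg i = deg j) ∧ (rC G e g)ᵀ * cQ Qr * rC G e g =
      Matrix.diagonal (fun i => (algebraMap E ℂ (G.χ g)) ^ deg i) * cQ Qr)

/-- Multiplication of the entries with a function of the degrees. -/
lemma tate_twist {n j : ℕ} {c : (Fin (n + 1) → ι) → ℂ} (s : (Fin (n + 1) → ℕ) → ℂ)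
    (hc : (gdata G e he heo hdo Qr Qir hQ hr).Tate j c) :
    (gdata G e he heo hdo Qr Qir hQ hr).Tate j fun w => s (fun i => deg (w i)) * c w := by
  obtain ⟨h1, K, hK, h2⟩ := hc
  refine ⟨fun w hw => h1 w (right_ne_zero_of_mul hw), K, hK, fun g hg => ?_⟩
  funext w
  have h3 := congrFun (h2 g hg) w
  rw [Pi.smul_apply, smul_eq_mul] at h3 ⊢
  rw [mul_left_comm, ← h3, mulVec, mulVec, dotProduct, dotProduct, Finset.mul_sum]
  refine Finset.sum_congr rfl fun v _ => ?_
  by_cases h4 : kp (Fin (n + 1)) ((gdata G e he heo hdo Qr Qir hQ hr).r g) w v = 0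
  · rw [h4, zero_mul, zero_mul, mul_zero]
  · have h5 : (fun i => deg (w i)) = fun i => deg (v i) := by
      funext i
      rw [kp_apply] at h4
      exact (gdata G e he heo hdo Qr Qir hQ hr).r_deg g _ _
        (Finset.prod_ne_zero_iff.1 h4 i (Finset.mem_univ i))
    rw [h5]
    ring

variable {N : ℕ}

include he heo hdo hQ hr in
/-- The class of the parity operator is algebraic. -/
lemma dp_mem (hT : ∀ K : Subgroup Γ, K.FiniteIndex → G.TateConjecture N K) (hN : 1 ≤ N) :
    dp T.W X ∈ algSpan T.W (pw X 1) := by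
  obtain ⟨q, hq⟩ := exists_clw e 1 (show T.W.H (pw X 1) from T.W.push (diag X) 1)
  rw [dp_clw e he hq]
  apply alg_of_span G e he heo hdo Qr Qir hQ hr hT hN
  have h1 : clw e 1 q ∈ algSpan T.W (pw X 1) := by
    rw [hq]
    exact (algSys T.W).push (diag X) ((algSys T.W).one X)
  have h2 := tate_of_alg G e he heo hdo Qr Qir hQ hr h1
  have h3 : ca (fun w : Fin (1 + 1) → ι => (-1) ^ deg (w 0) * q w) =
      fun w => (-1 : ℂ) ^ deg (w 0) * ca q w := by
    funext w
    simp [ca]
  rw [h3]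
  refine Submodule.span_induction (p := fun c _ => (fun w => (-1 : ℂ) ^ deg (w 0) * c w) ∈
    Submodule.span ℂ {c | ∃ j, (gdata G e he heo hdo Qr Qir hQ hr).Tate j c}) ?_ ?_ ?_ ?_ h2
  · rintro c ⟨j, hc⟩
    exact Submodule.subset_span ⟨j, tate_twist G e he heo hdo Qr Qir hQ hr
      (fun v => (-1 : ℂ) ^ v 0) hc⟩
  · have h4 : (fun w : Fin (1 + 1) → ι => (-1 : ℂ) ^ deg (w 0) *
        (0 : (Fin (1 + 1) → ι) → ℂ) w) = 0 := by
      funext w
      simp
    rw [h4]
    exact Submodule.zero_mem _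
  · intro x y _ _ hx hy
    have h4 : (fun w => (-1 : ℂ) ^ deg (w 0) * (x + y) w) =
        (fun w => (-1 : ℂ) ^ deg (w 0) * x w) + fun w => (-1 : ℂ) ^ deg (w 0) * y w := by
      funext w
      simp only [Pi.add_apply]
      ring
    rw [h4]
    exact Submodule.add_mem _ hx hy
  · intro t x _ hx
    have h4 : (fun w => (-1 : ℂ) ^ deg (w 0) * (t • x) w) =
        t • fun w => (-1 : ℂ) ^ deg (w 0) * x w := by
      funext w
      simp only [Pi.smul_apply, smul_eq_mul]
      ring
    rw [h4]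
    exact Submodule.smul_mem _ _ hx

/-! ### The class of the form -/

include hr in
lemma rE_Q (g : Γ) (a b : ι) : ∑ x, ∑ y, rE G e g x a * (Qr x y : E) * rE G e g y b =
    (G.χ g : E) ^ deg a * (Qr a b : E) := by
  apply (algebraMap E ℂ).injective
  have h1 := congrFun (congrFun (hr g).2 a) b
  rw [Matrix.diagonal_mul, cQ, Matrix.map_apply] at h1
  rw [map_mul, map_pow, map_ratCast, ← h1, Matrix.mul_apply, map_sum]
  simp only [map_sum, Matrix.mul_apply, Finset.sum_mul]
  rw [Finset.sum_comm]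
  refine Finset.sum_congr rfl fun y _ => Finset.sum_congr rfl fun x _ => ?_
  rw [map_mul, map_mul, map_ratCast]
  rfl

/-- The part of the form of degree `i`. -/
def Qp (deg : ι → ℕ) (Qr : Matrix ι ι ℚ) (i : ℕ) (w : Fin (1 + 1) → ι) : ℚ :=
  if deg (w 0) = i then Qr (w 0) (w 1) else 0

lemma sum_words {M : Type*} [AddCommMonoid M] (f : (Fin (1 + 1) → ι) → M) :
    ∑ w, f w = ∑ x, ∑ y, f ![x, y] := by
  rw [← Equiv.sum_comp (finTwoArrowEquiv ι).symm, Fintype.sum_prod_type]
  rfl

include he hr in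
lemma kp_Q (g : Γ) (i : ℕ) (v : Fin (1 + 1) → ι) :
    ∑ w, kp (Fin (1 + 1)) (rE G e g) w v * (Qp deg Qr i w : E) =
      (G.χ g : E) ^ i * (Qp deg Qr i v : E) := by
  have h1 := rE_Q G e Qr hr g (v 0) (v 1)
  by_cases hv : deg (v 0) = i
  · rw [Qp, if_pos hv, ← hv, ← h1, sum_words]
    refine Finset.sum_congr rfl fun x _ => Finset.sum_congr rfl fun y _ => ?_
    rw [kp_apply, Fin.prod_univ_two]
    change rE G e g x (v 0) * rE G e g y (v 1) * (Qp deg Qr (deg (v 0)) ![x, y] : E) = _
    by_cases hx : rE G e g x (v 0) = 0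
    · rw [hx, zero_mul, zero_mul, zero_mul, zero_mul]
    · have h2 : deg x = deg (v 0) := rE_deg G he g _ _ hx
      have h3 : Qp deg Qr (deg (v 0)) ![x, y] = Qr x y := if_pos h2
      rw [h3]
      ring
  · rw [Qp, if_neg hv, Rat.cast_zero, mul_zero]
    refine Finset.sum_eq_zero fun w _ => ?_
    rw [kp_apply, Fin.prod_univ_two]
    by_cases hx : rE G e g (w 0) (v 0) = 0
    · rw [hx, zero_mul, zero_mul]
    · have h2 : deg (w 0) = deg (v 0) := rE_deg G he g _ _ hx
      rw [Qp, if_neg (fun h => hv (h2 ▸ h)), Rat.cast_zero, mul_zero]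

/-- The trace of the product with a rational class. -/
lemma tr_phi (n : ℕ) (x : HL T.W E (pw X n)) (q : T.W.H (pw X n)) :
    trL (mulL x (emL T.W E q)) =
      ∑ w, phi e E n x w * algebraMap T.W.K E (T.W.tr (pw X n) (wb e n w * q)) := by
  have h1 : trB T.W E (pw X n) (mulB T.W E (pw X n) x (emL T.W E q)) =
      ∑ w, phi e E n x w * algebraMap T.W.K E (T.W.tr (pw X n) (wb e n w * q)) := by
    conv_lhs => rw [← sum_phi e n x]
    rw [map_sum, LinearMap.sum_apply, map_sum]
    refine Finset.sum_congr rfl fun w _ => ?_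
    rw [map_smul, LinearMap.smul_apply, map_smul, mulB_apply, ← emL_mul, trB_apply, trL_emL]
    rfl
  exact h1

include he hr in
/-- The class of the part of the form of degree `i`. -/
lemma exists_qp (i m : ℕ) (him : i + m = (pw X 1).dim) :
    ∃ q : T.W.H (pw X 1), (∀ w, T.W.tr (pw X 1) (wb e 1 w * q) =
      ((Qp deg Qr i w : ℚ) : T.W.K)) ∧ q ∈ T.W.gr (pw X 1) (2 * m) ∧
        G.IsInvariant ⊤ 1 m (emL T.W E q) := by
  obtain ⟨q, hq⟩ := exists_dual_class T.W (X := pw X 1)
    ((wb e 1).constr T.W.K fun w => ((Qp deg Qr i w : ℚ) : T.W.K))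
  have hq' : ∀ w, T.W.tr (pw X 1) (wb e 1 w * q) = ((Qp deg Qr i w : ℚ) : T.W.K) := by
    intro w
    rw [hq, Basis.constr_basis]
  refine ⟨q, hq', ?_, ?_⟩
  · apply deg_of_pair
    intro l x hx hl
    have h1 : x = ∑ w, (wb e 1).repr x w • wb e 1 w := ((wb e 1).sum_repr x).symm
    rw [h1, Finset.sum_mul, map_sum]
    refine Finset.sum_eq_zero fun w _ => ?_
    rw [smul_mul_assoc, map_smul, hq', smul_eq_mul]
    by_cases h2 : (wb e 1).repr x w = 0
    · rw [h2, zero_mul]
    by_cases h3 : Qp deg Qr i w = 0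
    · rw [h3, Rat.cast_zero, mul_zero]
    exfalso
    have h4 : ∑ k, deg (w k) = l := by
      have h5 := (repr_deg (E := T.W.K) (wb e 1) (dg := fun w => ∑ i, deg (w i))
        (fun w => wb_deg he 1 w)).1 (emL_deg hx) w (by
          rw [bL]
          change ((wb e 1).baseChange T.W.K).repr ((1 : T.W.K) ⊗ₜ[T.W.K] x) w ≠ 0
          rw [Basis.baseChange_repr_tmul]
          rwa [smul_eq_mul, mul_one])
      exact h5
    rw [Fin.sum_univ_two] at h4
    have h5 : deg (w 0) = i := by
      by_contra h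
      exact h3 (if_neg h)
    rw [Qp, if_pos h5] at h3
    have h6 := (hr 1).1 _ _ h3
    omega
  · intro g _
    rw [← sub_eq_zero]
    apply nondegE
    intro y
    have h0 : y = G.ρ 1 g (G.ρ 1 g⁻¹ y) := by
      have h1 : G.ρ 1 g * G.ρ 1 g⁻¹ = 1 := by rw [← map_mul, mul_inv_cancel, map_one]
      exact (congrArg (fun f : Module.End E (HL T.W E (pw X 1)) => f y) h1).symm
    obtain ⟨y', hy'⟩ : ∃ y', y' = G.ρ 1 g⁻¹ y := ⟨_, rfl⟩
    rw [← hy'] at h0
    have h2 : trL (mulL y (G.ρ 1 g (emL T.W E q))) = (G.χ g : E) ^ (pw X 1).dim *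
        trL (mulL y' (emL T.W E q)) := by
      rw [h0, ← G.mul, G.tr]
    have h3 : trL (mulL y (twL (G.χ g : E) m (emL T.W E q))) = (G.χ g : E) ^ m *
        trL (mulL y (emL T.W E q)) := by
      have h4 : trB T.W E (pw X 1) (mulB T.W E (pw X 1) y
          (((G.χ g : E)) ^ m • (emL T.W E q : HL T.W E (pw X 1)))) =
          (G.χ g : E) ^ m * trB T.W E (pw X 1) (mulB T.W E (pw X 1) y (emL T.W E q)) := by
        rw [map_smul, map_smul, smul_eq_mul]
      exact h4
    have h5 : trL (mulL y (emL T.W E q)) = (G.χ g : E) ^ i * trL (mulL y' (emL T.W E q)) := by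
      rw [h0, tr_phi e, tr_phi e, phi_act]
      simp only [hq', map_ratCast, mulVec, dotProduct, Finset.sum_mul]
      rw [Finset.sum_comm, Finset.mul_sum]
      refine Finset.sum_congr rfl fun v _ => ?_
      have h6 := kp_Q G e he Qr hr g i v
      rw [mul_left_comm, ← h6, Finset.mul_sum]
      refine Finset.sum_congr rfl fun w _ => ?_
      ring
    have h7 : trL (mulL y (G.ρ 1 g (emL T.W E q) - twL (G.χ g : E) m (emL T.W E q))) =
        trL (mulL y (G.ρ 1 g (emL T.W E q))) -
          trL (mulL y (twL (G.χ g : E) m (emL T.W E q))) := by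
      have h8 : trB T.W E (pw X 1) (mulB T.W E (pw X 1) y
          (G.ρ 1 g (emL T.W E q) - twL (G.χ g : E) m (emL T.W E q))) =
          trB T.W E (pw X 1) (mulB T.W E (pw X 1) y (G.ρ 1 g (emL T.W E q))) -
          trB T.W E (pw X 1) (mulB T.W E (pw X 1) y (twL (G.χ g : E) m (emL T.W E q))) := by
        rw [map_sub, map_sub]
      exact h8
    rw [h7, h2, h3, h5, ← him, pow_add]
    ring

end Data

end Pool.Agent.N211.BT
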