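import Pool.Agent.N211.BT.Stm2

/-!
# Descent from the complex numbers; relative Maschke for one subspace
-/

set_option autoImplicit false

namespace Pool.Agent.N211.BT

namespace DownAux

/-- A retraction of the inclusion of the field. -/
lemma exists_ret (E : Type) [Field E] [Algebra E ℂ] :
    ∃ π : ℂ →ₗ[E] E, ∀ e : E, π (algebraMap E ℂ e) = e := by
  obtain ⟨π, hπ⟩ := LinearMap.exists_leftInverse_of_injective (Algebra.linearMap E ℂ)
    (LinearMap.ker_eq_bot.2 (algebraMap E ℂ).injective)
  exact ⟨π, fun e => LinearMap.congr_fun hπ e⟩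

lemma ret_mul {E : Type} [Field E] [Algebra E ℂ] (π : ℂ →ₗ[E] E) (e : E) (z : ℂ) :
    π (algebraMap E ℂ e * z) = e * π z := by
  rw [← Algebra.smul_def, map_smul, smul_eq_mul]

end DownAux

open DownAux

theorem solve : S_Solve := by
  intro E _ _ m _ L c hc
  classical
  let B := Module.Basis.ofVectorSpace E ℂ
  set S : Finset (Module.Basis.ofVectorSpaceIndex E ℂ) :=
    Finset.univ.biUnion fun i : m => (B.repr (c i)).support with hS
  have h1 : c = ∑ b ∈ S, (B b) • fun i => algebraMap E ℂ (B.repr (c i) b) := by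
    funext i
    rw [Finset.sum_apply]
    have h2 : ∑ b ∈ S, (B.repr (c i) b) • B b = c i := by
      have h3 := B.linearCombination_repr (c i)
      rw [Finsupp.linearCombination_apply, Finsupp.sum] at h3
      conv_rhs => rw [← h3]
      refine (Finset.sum_subset ?_ ?_).symm
      · exact fun b hb => Finset.mem_biUnion.2 ⟨i, Finset.mem_univ _, hb⟩
      · intro b _ hb
        rw [Finsupp.notMem_support_iff.1 hb, zero_smul]
    conv_lhs => rw [← h2]
    refine Finset.sum_congr rfl fun b _ => ?_
    rw [Pi.smul_apply, smul_eq_mul, Algebra.smul_def, mul_comm]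
  rw [h1]
  refine Submodule.sum_mem _ fun b _ => Submodule.smul_mem _ _ (Submodule.subset_span
    ⟨fun i => B.repr (c i) b, fun l hl => ?_, rfl⟩)
  have h2 := hc l hl
  have h3 : B.repr (∑ i, algebraMap E ℂ (l i) * c i) b = ∑ i, l i * B.repr (c i) b := by
    rw [map_sum, Finsupp.finsetSum_apply]
    refine Finset.sum_congr rfl fun i _ => ?_
    rw [← Algebra.smul_def, map_smul, Finsupp.smul_apply, smul_eq_mul]
  rw [← h3, h2, map_zero, Finsupp.zero_apply]

theorem desc : S_Desc := by
  intro E _ _ m _ V h hh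
  obtain ⟨π, hπ⟩ := exists_ret E
  have key : ∀ x ∈ Submodule.span ℂ {x : m → ℂ | ∃ a ∈ V, x = fun i => (a i : ℂ)}, ∀ z : ℂ,
      (fun i => π (z * x i)) ∈ Submodule.span E {x : m → E | ∃ a ∈ V, x = fun i => (a i : E)} := by
    intro x hx
    induction hx using Submodule.span_induction with
    | mem x hx =>
      obtain ⟨a, ha, rfl⟩ := hx
      intro z
      have h1 : (fun i => π (z * (a i : ℂ))) = π z • fun i => (a i : E) := by
        funext i
        rw [Pi.smul_apply, smul_eq_mul, mul_comm z, ← map_ratCast (algebraMap E ℂ), ret_mul,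
          mul_comm]
      rw [h1]
      exact Submodule.smul_mem _ _ (Submodule.subset_span ⟨a, ha, rfl⟩)
    | zero =>
      intro z
      have h1 : (fun i : m => π (z * (0 : m → ℂ) i)) = 0 := by
        funext i
        rw [Pi.zero_apply, mul_zero, map_zero, Pi.zero_apply]
      rw [h1]
      exact Submodule.zero_mem _
    | add x y _ _ hx hy =>
      intro z
      have h1 : (fun i : m => π (z * (x + y) i)) =
          (fun i => π (z * x i)) + fun i => π (z * y i) := by
        funext i
        rw [Pi.add_apply, Pi.add_apply, mul_add, map_add]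
      rw [h1]
      exact Submodule.add_mem _ (hx z) (hy z)
    | smul c x _ hx =>
      intro z
      have h1 : (fun i : m => π (z * (c • x) i)) = fun i => π ((z * c) * x i) := by
        funext i
        rw [Pi.smul_apply, smul_eq_mul, mul_assoc]
      rw [h1]
      exact hx _
  have h1 := key _ hh 1
  simp only [one_mul, hπ] at h1
  exact h1

theorem down : S_Down := by
  intro E _ _ _ N _ _ R hR U _ hU
  obtain ⟨π, hπ⟩ := exists_ret E
  set UC : Submodule ℂ (N → ℂ) :=
    Submodule.span ℂ {x : N → ℂ | ∃ u ∈ U, x = fun i => algebraMap E ℂ (u i)} with hUC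
  -- retraction of elements of the extended space
  have key : ∀ x ∈ UC, ∀ z : ℂ, (fun i => π (z * x i)) ∈ U := by
    intro x hx
    induction hx using Submodule.span_induction with
    | mem x hx =>
      obtain ⟨u, hu, rfl⟩ := hx
      intro z
      have h1 : (fun i => π (z * algebraMap E ℂ (u i))) = π z • u := by
        funext i
        rw [Pi.smul_apply, smul_eq_mul, mul_comm z, ret_mul, mul_comm]
      rw [h1]
      exact U.smul_mem _ hu
    | zero =>
      intro z
      have h1 : (fun i : N => π (z * (0 : N → ℂ) i)) = 0 := by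
        funext i
        rw [Pi.zero_apply, mul_zero, map_zero, Pi.zero_apply]
      rw [h1]
      exact U.zero_mem
    | add x y _ _ hx hy =>
      intro z
      have h1 : (fun i : N => π (z * (x + y) i)) =
          (fun i => π (z * x i)) + fun i => π (z * y i) := by
        funext i
        rw [Pi.add_apply, Pi.add_apply, mul_add, map_add]
      rw [h1]
      exact U.add_mem (hx z) (hy z)
    | smul c x _ hx =>
      intro z
      have h1 : (fun i : N => π (z * (c • x) i)) = fun i => π ((z * c) * x i) := by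
        funext i
        rw [Pi.smul_apply, smul_eq_mul, mul_assoc]
      rw [h1]
      exact hx _
  -- the extended space is stable
  have hst : ∀ r ∈ (Matrix.toLin' '' ((fun y : Matrix N N E => y.map (algebraMap E ℂ)) '' R)),
      ∀ x ∈ UC, r x ∈ UC := by
    rintro _ ⟨_, ⟨y, hy, rfl⟩, rfl⟩ x hx
    induction hx using Submodule.span_induction with
    | mem x hx =>
      obtain ⟨u, hu, rfl⟩ := hx
      refine Submodule.subset_span ⟨Matrix.toLin' y u, hU _ ⟨y, hy, rfl⟩ u hu, ?_⟩
      funext i
      simp only [Matrix.toLin'_apply, Matrix.mulVec, dotProduct, Matrix.map_apply, map_sum,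
        map_mul]
    | zero => rw [map_zero]; exact UC.zero_mem
    | add x y _ _ hx hy => rw [map_add]; exact UC.add_mem hx hy
    | smul c x _ hx => rw [map_smul]; exact UC.smul_mem _ hx
  obtain ⟨W, hW, hc⟩ := hR UC hst
  -- the projection
  set p : Module.End ℂ (N → ℂ) := UC.subtype ∘ₗ (UC.projectionOnto W hc) with hp
  have pU : ∀ x, p x ∈ UC := fun x => by
    simp only [hp, LinearMap.comp_apply, Submodule.subtype_apply]
    exact Submodule.coe_mem _
  have p_id : ∀ x ∈ UC, p x = x := fun x hx => by
    simp only [hp, LinearMap.comp_apply, Submodule.subtype_apply]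
    exact congrArg Subtype.val (Submodule.projectionOnto_apply_left hc ⟨x, hx⟩)
  have p_zero : ∀ x ∈ W, p x = 0 := fun x hx => by
    simp only [hp, LinearMap.comp_apply, Submodule.subtype_apply]
    rw [(Submodule.projectionOnto_apply_eq_zero_iff hc).2 hx]
    rfl
  have p_comm : ∀ r ∈ (Matrix.toLin' '' ((fun y : Matrix N N E => y.map (algebraMap E ℂ)) '' R)),
      ∀ x, p (r x) = r (p x) := by
    intro r hr x
    obtain ⟨y, z, hy, hz, rfl⟩ := Submodule.codisjoint_iff_exists_add_eq.1 hc.codisjoint x
    rw [map_add, map_add, map_add, p_id y hy, p_zero z hz, add_zero,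
      p_id _ (hst r hr y hy), p_zero _ (hW r hr z hz), add_zero]
  set pm : Matrix N N ℂ := LinearMap.toMatrix' p with hpm
  have hpx : ∀ x, p x = pm.mulVec x := fun x => by
    rw [hpm, LinearMap.toMatrix'_mulVec]
  set q : Matrix N N E := Matrix.of fun i j => π (pm i j) with hq
  have q_ret : ∀ v : N → E, q.mulVec v = fun i => π (p (fun k => algebraMap E ℂ (v k)) i) := by
    intro v
    funext i
    rw [hpx]
    simp only [Matrix.mulVec, dotProduct, map_sum, hq, Matrix.of_apply]
    refine Finset.sum_congr rfl fun k _ => ?_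
    rw [mul_comm (pm i k), ret_mul, mul_comm]
  have q_mem : ∀ v, Matrix.toLin' q v ∈ U := by
    intro v
    rw [Matrix.toLin'_apply, q_ret]
    have h1 := key _ (pU fun k => algebraMap E ℂ (v k)) 1
    simp only [one_mul] at h1
    exact h1
  have q_id : ∀ u ∈ U, Matrix.toLin' q u = u := by
    intro u hu
    rw [Matrix.toLin'_apply, q_ret, p_id _ (Submodule.subset_span ⟨u, hu, rfl⟩)]
    funext i
    exact hπ _
  have q_comm : ∀ y ∈ R, q * y = y * q := by
    intro y hy
    have h1 : pm * y.map (algebraMap E ℂ) = y.map (algebraMap E ℂ) * pm := by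
      apply Matrix.toLin'.injective
      rw [Matrix.toLin'_mul, Matrix.toLin'_mul, hpm, Matrix.toLin'_toMatrix']
      exact LinearMap.ext fun x => p_comm _ ⟨_, ⟨y, hy, rfl⟩, rfl⟩ x
    ext i j
    have h2 := congrArg π (congrFun (congrFun h1 i) j)
    simp only [Matrix.mul_apply, Matrix.map_apply, map_sum, ret_mul] at h2
    simp only [Matrix.mul_apply, hq, Matrix.of_apply]
    rw [← h2]
    refine Finset.sum_congr rfl fun k _ => ?_
    rw [mul_comm (pm i k), ret_mul, mul_comm]
  have hproj : LinearMap.IsProj U (Matrix.toLin' q) := ⟨q_mem, q_id⟩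
  have hcompl := hproj.isCompl
  refine ⟨LinearMap.ker (Matrix.toLin' q), le_top, ?_, hcompl.inf_eq_bot, hcompl.sup_eq_top⟩
  rintro _ ⟨y, hy, rfl⟩ x hx
  rw [LinearMap.mem_ker, Matrix.toLin'_apply] at hx ⊢
  rw [Matrix.toLin'_apply, Matrix.mulVec_mulVec, q_comm y hy, ← Matrix.mulVec_mulVec, hx,
    Matrix.mulVec_zero]

theorem relOne : S_RelOne := by
  intro G _ M _ _ _ ρ K hK U hU hU0
  obtain ⟨U', hU', hc⟩ := hU0
  have hmul : ∀ (a b : G) (x : M), ρ a (ρ b x) = ρ (a * b) x := fun a b x => by
    rw [map_mul]; rfl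
  have hone : ∀ x : M, ρ 1 x = x := fun x => by rw [map_one]; rfl
  -- the projection
  set p : Module.End ℂ M := U.subtype ∘ₗ (U.projectionOnto U' hc) with hp
  have pU : ∀ x, p x ∈ U := fun x => by
    simp only [hp, LinearMap.comp_apply, Submodule.subtype_apply]
    exact Submodule.coe_mem _
  have p_id : ∀ x ∈ U, p x = x := fun x hx => by
    simp only [hp, LinearMap.comp_apply, Submodule.subtype_apply]
    exact congrArg Subtype.val (Submodule.projectionOnto_apply_left hc ⟨x, hx⟩)
  have p_zero : ∀ x ∈ U', p x = 0 := fun x hx => by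
    simp only [hp, LinearMap.comp_apply, Submodule.subtype_apply]
    rw [(Submodule.projectionOnto_apply_eq_zero_iff hc).2 hx]
    rfl
  have p_comm : ∀ k ∈ K, ∀ x, p (ρ k x) = ρ k (p x) := by
    intro k hk x
    obtain ⟨y, z, hy, hz, rfl⟩ := Submodule.codisjoint_iff_exists_add_eq.1 hc.codisjoint x
    rw [map_add, map_add, map_add, p_id y hy, p_zero z hz, add_zero,
      p_id _ (hU _ y hy), p_zero _ (hU' _ hk z hz), add_zero]
  let T : G → Module.End ℂ M := fun g => ρ g ∘ₗ p ∘ₗ ρ g⁻¹
  have hT : ∀ g x, T g x = ρ g (p (ρ g⁻¹ x)) := fun g x => rfl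
  have hTK : ∀ a b : G, (QuotientGroup.leftRel K) a b → T a = T b := by
    intro a b hab
    rw [QuotientGroup.leftRel_apply] at hab
    ext x
    rw [hT, hT]
    have e1 : ρ b⁻¹ x = ρ (a⁻¹ * b)⁻¹ (ρ a⁻¹ x) := by
      rw [hmul]
      congr 2
      group
    have e2 := p_comm _ (K.inv_mem hab) (ρ a⁻¹ x)
    rw [e1, e2, hmul]
    congr 2
    group
  let Tq : G ⧸ K → Module.End ℂ M := fun q => Quotient.liftOn' q T hTK
  have hTq : ∀ g : G, Tq (g : G ⧸ K) = T g := fun g => rfl
  have : Fintype (G ⧸ K) := Subgroup.fintypeQuotientOfFiniteIndex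
  have hn : (Fintype.card (G ⧸ K) : ℂ) ≠ 0 := by
    exact_mod_cast Fintype.card_ne_zero
  set P : Module.End ℂ M := (Fintype.card (G ⧸ K) : ℂ)⁻¹ • ∑ q, Tq q with hP
  have hPx : ∀ x, P x = (Fintype.card (G ⧸ K) : ℂ)⁻¹ • ∑ q, Tq q x := fun x => by
    rw [hP, LinearMap.smul_apply, LinearMap.sum_apply]
  have TU : ∀ q x, Tq q x ∈ U := by
    intro q x
    induction q using QuotientGroup.induction_on with
    | H g => rw [hTq, hT]; exact hU _ _ (pU _)
  have Tid : ∀ q, ∀ x ∈ U, Tq q x = x := by
    intro q x hx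
    induction q using QuotientGroup.induction_on with
    | H g =>
      rw [hTq, hT, p_id _ (hU _ x hx), hmul, mul_inv_cancel, hone]
  have Tmul : ∀ (g : G) (q : G ⧸ K) (x : M), Tq (g • q) (ρ g x) = ρ g (Tq q x) := by
    intro g q x
    induction q using QuotientGroup.induction_on with
    | H a =>
      have : g • (a : G ⧸ K) = ((g * a : G) : G ⧸ K) := rfl
      rw [this, hTq, hTq, hT, hT, hmul, hmul]
      congr 3
      group
  have hproj : LinearMap.IsProj U P := by
    constructor
    · intro x
      rw [hPx]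
      exact U.smul_mem _ (U.sum_mem fun q _ => TU q x)
    · intro x hx
      rw [hPx, Finset.sum_congr rfl fun q _ => Tid q x hx, Finset.sum_const, Finset.card_univ,
        ← Nat.cast_smul_eq_nsmul ℂ, smul_smul, inv_mul_cancel₀ hn, one_smul]
  have hcomm : ∀ g x, P (ρ g x) = ρ g (P x) := by
    intro g x
    rw [hPx, hPx, map_smul, map_sum]
    congr 1
    rw [← Equiv.sum_comp (MulAction.toPerm g)]
    exact Finset.sum_congr rfl fun q _ => Tmul g q x
  refine ⟨LinearMap.ker P, ?_, hproj.isCompl⟩
  intro g x hx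
  rw [LinearMap.mem_ker] at hx ⊢
  rw [hcomm, hx, map_zero]

end Pool.Agent.N211.BT
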