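import Pool.Agent.N211.BT.Defs

/-!
# Tate classes are fixed by the Newton cocharacters
-/

namespace Pool.Agent.N211.BT

open Matrix Polynomial Pool.Agent.N996.BP Pool.Agent.R940

namespace Fixaux

variable {ι : Type} [Fintype ι] [DecidableEq ι] {κ : Type} [Fintype κ] [DecidableEq κ]

/-- The inverse of a homogeneous matrix is homogeneous. -/
theorem pi_hom {P Pi : Matrix ι ι ℂ} {deg dg : ι → ℕ} (h : P * Pi = 1)
    (hom : ∀ i a, P i a ≠ 0 → deg i = dg a) (a i : ι) (hne : Pi a i ≠ 0) : deg i = dg a := by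
  have h' : Pi * P = 1 := mul_eq_one_comm.1 h
  have h1 : diagonal (fun i => (2 : ℂ) ^ deg i) * P = P * diagonal (fun a => (2 : ℂ) ^ dg a) := by
    ext i a
    rw [Matrix.diagonal_mul, Matrix.mul_diagonal]
    by_cases hP : P i a = 0
    · rw [hP]; ring
    · rw [hom i a hP]; ring
  have h2 : Pi * diagonal (fun i => (2 : ℂ) ^ deg i) =
      diagonal (fun a => (2 : ℂ) ^ dg a) * Pi := by
    calc Pi * diagonal (fun i => (2 : ℂ) ^ deg i)
        = Pi * ((diagonal (fun i => (2 : ℂ) ^ deg i) * P) * Pi) := by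
          rw [Matrix.mul_assoc, h, Matrix.mul_one]
      _ = (Pi * P) * (diagonal (fun a => (2 : ℂ) ^ dg a) * Pi) := by
          rw [h1]; simp only [Matrix.mul_assoc]
      _ = diagonal (fun a => (2 : ℂ) ^ dg a) * Pi := by rw [h', Matrix.one_mul]
  have h3 := congrFun (congrFun h2 a) i
  rw [Matrix.mul_diagonal, Matrix.diagonal_mul, mul_comm] at h3
  have h4 := mul_right_cancel₀ hne h3
  exact Nat.pow_right_injective (le_refl 2) (by exact_mod_cast h4)

/-- The Kronecker power of a diagonalised matrix. -/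
theorem kp_pdp (P Pi : Matrix ι ι ℂ) (v : ι → ℂ) :
    kp κ (P * diagonal v * Pi) = kp κ P * diagonal (fun i => ∏ k, v (i k)) * kp κ Pi := by
  rw [kp_mul, kp_mul, Jordaux.kp_diag]

/-- The action of a diagonalised matrix. -/
theorem pdp_mulVec {n : Type} [Fintype n] [DecidableEq n] (A B : Matrix n n ℂ) (v c : n → ℂ) :
    (A * diagonal v * B) *ᵥ c = A *ᵥ (fun i => v i * (B *ᵥ c) i) := by
  rw [← Matrix.mulVec_mulVec, ← Matrix.mulVec_mulVec]
  congr 1
  ext i
  rw [Matrix.mulVec_diagonal]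

/-- Powers of a diagonalised matrix. -/
theorem pdp_pow {n : Type} [Fintype n] [DecidableEq n] {A B : Matrix n n ℂ} (h : A * B = 1)
    (v : n → ℂ) (m : ℕ) :
    (A * diagonal v * B) ^ m = A * diagonal (fun i => v i ^ m) * B := by
  have h' : B * A = 1 := mul_eq_one_comm.1 h
  induction m with
  | zero =>
    simp only [pow_zero]
    have : (diagonal fun _ : n => (1 : ℂ)) = 1 := Matrix.diagonal_one
    rw [this, Matrix.mul_one, h]
  | succ m ih =>
    rw [pow_succ, ih]
    calc A * diagonal (fun i => v i ^ m) * B * (A * diagonal v * B)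
        = A * diagonal (fun i => v i ^ m) * (B * A) * diagonal v * B := by
          simp only [Matrix.mul_assoc]
      _ = A * (diagonal (fun i => v i ^ m) * diagonal v) * B := by
          rw [h', Matrix.mul_one, Matrix.mul_assoc A]
      _ = A * diagonal (fun i => v i ^ (m + 1)) * B := by
          rw [Matrix.diagonal_mul_diagonal]
          congr 3

/-- The difference of the powers is nilpotent. -/
theorem nil_pow {n : Type} [Fintype n] [DecidableEq n] {F S : Matrix n n ℂ} (hc : Commute F S)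
    (hn : IsNilpotent (F - S)) (m : ℕ) : IsNilpotent (F ^ m - S ^ m) := by
  rw [← hc.mul_geom_sum₂ m]
  refine Commute.isNilpotent_mul_right ?_ hn
  refine Commute.sum_right _ _ _ fun i _ => ?_
  have h1 : Commute (F - S) F := (Commute.refl F).sub_left hc.symm
  have h2 : Commute (F - S) S := hc.sub_left (Commute.refl S)
  exact (h1.pow_right _).mul_right (h2.pow_right _)

/-- Iterating an equality. -/
theorem gen_eig {n : Type} [Fintype n] [DecidableEq n] {A B : Matrix n n ℂ} (hAB : Commute A B)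
    {c : n → ℂ} (h : B *ᵥ c = (-A) *ᵥ c) (N : ℕ) : B ^ N *ᵥ c = (-A) ^ N *ᵥ c := by
  induction N with
  | zero => simp
  | succ N ih =>
    have hc : Commute (B ^ N) (-A) := (hAB.symm.pow_left N).neg_right
    rw [pow_succ, ← Matrix.mulVec_mulVec, h, Matrix.mulVec_mulVec, hc.eq,
      ← Matrix.mulVec_mulVec, ih, Matrix.mulVec_mulVec, ← pow_succ']

omit [DecidableEq κ] in
/-- A product of powers over the values of a map. -/
theorem prod_fiber {M : Type} [CommMonoid M] (I : κ → ι) (f : ι → M) :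
    ∏ a, f a ^ (Finset.univ.filter fun k => I k = a).card = ∏ k, f (I k) := by
  rw [← Finset.prod_fiberwise_of_maps_to (s := Finset.univ) (t := Finset.univ) (g := I)
    (fun _ _ => Finset.mem_univ _)]
  refine Finset.prod_congr rfl fun a _ => ?_
  rw [Finset.prod_congr rfl (g := fun _ => f a), Finset.prod_const]
  intro k hk
  rw [(Finset.mem_filter.1 hk).2]

omit [DecidableEq κ] in
/-- A sum over the values of a map. -/
theorem sum_fiber {M : Type} [Semiring M] (I : κ → ι) (f : ι → M) :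
    ∑ a, f a * ((Finset.univ.filter fun k => I k = a).card : M) = ∑ k, f (I k) := by
  rw [← Finset.sum_fiberwise_of_maps_to (s := Finset.univ) (t := Finset.univ) (g := I)
    (fun _ _ => Finset.mem_univ _)]
  refine Finset.sum_congr rfl fun a _ => ?_
  rw [Finset.sum_congr rfl (g := fun _ => f a), Finset.sum_const, nsmul_eq_mul,
    (Nat.cast_commute _ _).eq]
  intro k hk
  rw [(Finset.mem_filter.1 hk).2]

omit [Fintype κ] [DecidableEq κ] in
/-- A product of powers with integral exponents. -/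
theorem zpow_prod {t : ℂ} (ht : t ≠ 0) (s : Finset κ) (f : κ → ℤ) :
    ∏ k ∈ s, t ^ f k = t ^ ∑ k ∈ s, f k := by
  induction s using Finset.cons_induction with
  | empty => simp
  | cons a s ha ih => rw [Finset.prod_cons, Finset.sum_cons, ih, zpow_add₀ ht]

end Fixaux

open Fixaux in
/-- **Tate classes are fixed by the Newton cocharacters.** -/
theorem fix : S_Fix := by
  intro ι _ _ Γ _ G κ _ _ j c ⟨hhom, K, hK, hKc⟩ d t ht
  obtain ⟨m, hm, -, hmK⟩ := Subgroup.exists_pow_mem_of_index_ne_zero (H := K) hK.index_ne_zero d.f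
  -- the equation for the `m`-th power of the Frobenius element
  have hr : ∀ m : ℕ, G.r (d.f ^ m) = G.r d.f ^ m := by
    intro m
    induction m with
    | zero => rw [pow_zero, pow_zero, G.r_one]
    | succ m ih => rw [pow_succ, pow_succ, G.r_mul, ih]
  have hχ : ∀ m : ℕ, G.χ (d.f ^ m) = G.χ d.f ^ m := by
    intro m
    induction m with
    | zero => rw [pow_zero, pow_zero, G.χ_one]
    | succ m ih => rw [pow_succ, pow_succ, G.χ_mul, ih]
  have hkp : ∀ (A : Matrix ι ι ℂ) (m : ℕ), kp κ (A ^ m) = kp κ A ^ m := by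
    intro A m
    induction m with
    | zero => rw [pow_zero, pow_zero, kp_one]
    | succ m ih => rw [pow_succ, pow_succ, kp_mul, ih]
  have hχp : G.χ d.f = d.p := d.frob.2.1
  have hF := hKc _ hmK
  rw [hr, hkp, hχ, hχp, ← pow_mul] at hF
  -- the semisimple part
  obtain ⟨hS1, hS2⟩ := d.adj κ
  have hcomm : Commute (kp κ (G.r d.f)) (kp κ (d.P * diagonal d.lam * d.Pi)) :=
    Algebra.commute_of_mem_adjoin_self hS1
  have hkinv : kp κ d.P * kp κ d.Pi = 1 := kp_inv_mul d.inv
  have hkinv' : kp κ d.Pi * kp κ d.P = 1 := mul_eq_one_comm.1 hkinv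
  have hnil := nil_pow hcomm hS2 m
  have hcA : Commute (kp κ (G.r d.f) ^ m - kp κ (d.P * diagonal d.lam * d.Pi) ^ m)
      (kp κ (d.P * diagonal d.lam * d.Pi) ^ m - ((d.p : ℂ) ^ (m * j)) • 1) := by
    refine Commute.sub_right ?_ ?_
    · exact (hcomm.pow_pow m m).sub_left (Commute.refl _)
    · exact (Commute.one_right _).smul_right _
  have hBc : (kp κ (d.P * diagonal d.lam * d.Pi) ^ m - ((d.p : ℂ) ^ (m * j)) • 1) *ᵥ c =
      (-(kp κ (G.r d.f) ^ m - kp κ (d.P * diagonal d.lam * d.Pi) ^ m)) *ᵥ c := by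
    rw [neg_sub, Matrix.sub_mulVec, Matrix.sub_mulVec, hF, Matrix.smul_mulVec, Matrix.one_mulVec]
  obtain ⟨N, hN⟩ := hnil
  have hBN := gen_eig hcA hBc N
  rw [neg_pow, hN, mul_zero, Matrix.zero_mulVec] at hBN
  -- the coordinates in the eigenbasis
  obtain ⟨x, hx⟩ : ∃ x, x = kp κ d.Pi *ᵥ c := ⟨_, rfl⟩
  obtain ⟨mu, hmu⟩ : ∃ mu : (κ → ι) → ℂ, mu = fun i => ∏ k, d.lam (i k) := ⟨_, rfl⟩
  have hB : kp κ (d.P * diagonal d.lam * d.Pi) ^ m - ((d.p : ℂ) ^ (m * j)) • 1 =
      kp κ d.P * diagonal (fun i => mu i ^ m - (d.p : ℂ) ^ (m * j)) * kp κ d.Pi := by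
    rw [kp_pdp, ← hmu, pdp_pow hkinv]
    have h1 : (diagonal fun i => mu i ^ m - (d.p : ℂ) ^ (m * j)) =
        diagonal (fun i => mu i ^ m) - ((d.p : ℂ) ^ (m * j)) • (1 : Matrix (κ → ι) (κ → ι) ℂ) := by
      rw [← Matrix.diagonal_one, ← Matrix.diagonal_smul, Matrix.diagonal_sub]
      congr 1
      ext i
      simp
    rw [h1, Matrix.mul_sub, Matrix.sub_mul, Matrix.mul_smul, Matrix.mul_one, Matrix.smul_mul,
      hkinv]
  rw [hB, pdp_pow hkinv, pdp_mulVec, ← hx] at hBN
  have hz : ∀ i, x i ≠ 0 → mu i ^ m = (d.p : ℂ) ^ (m * j) := by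
    intro i hi
    have h1 := congrArg (fun y => (kp κ d.Pi *ᵥ y) i) hBN
    simp only [Matrix.mulVec_mulVec, hkinv', Matrix.one_mulVec, Matrix.mulVec_zero,
      Pi.zero_apply] at h1
    have h2 := (mul_eq_zero.1 h1).resolve_right hi
    exact sub_eq_zero.1 (eq_zero_of_pow_eq_zero h2)
  -- the degrees
  have hdeg : ∀ i, x i ≠ 0 → ∑ k, d.dg (i k) = 2 * j := by
    intro i hi
    rw [hx, Matrix.mulVec, dotProduct] at hi
    obtain ⟨l, -, hl⟩ := Finset.exists_ne_zero_of_sum_ne_zero hi
    rw [← hhom l (right_ne_zero_of_mul hl)]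
    refine Finset.sum_congr rfl fun k _ => ?_
    have h1 := left_ne_zero_of_mul hl
    rw [kp_apply] at h1
    exact (pi_hom d.inv d.hom _ _ (Finset.prod_ne_zero_iff.1 h1 k (Finset.mem_univ k))).symm
  -- the weights
  have hwt : ∀ i, x i ≠ 0 → ∑ k, d.wt (i k) = 0 := by
    intro i hi
    have hsum : ∑ a, d.dg a * (Finset.univ.filter fun k => i k = a).card = 2 * j := by
      have := sum_fiber i d.dg
      simp only [Nat.cast_id] at this
      rw [this, hdeg i hi]
    have hT : IsT (d.p ^ 1) d.lam d.dg (fun a => (Finset.univ.filter fun k => i k = a).card) := by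
      refine ⟨?_, m, hm, ?_⟩
      · rw [hsum]; exact even_two_mul j
      · rw [hsum, prod_fiber i d.lam]
        have h1 := hz i hi
        rw [hmu] at h1
        simp only at h1
        rw [mul_comm 2 m, pow_mul, h1, pow_one, ← pow_mul]
        congr 1
        ring
    have h1 := row_zero_of_isT one_pos d.weil hT d.ψ
    rw [← sum_fiber i d.wt]
    exact h1
  -- the conclusion
  rw [ND.l, kp_pdp, pdp_mulVec, ← hx]
  have h1 : (fun i => (∏ k, t ^ d.wt (i k)) * x i) = x := by
    funext i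
    by_cases hi : x i = 0
    · rw [hi, mul_zero]
    · rw [zpow_prod ht, hwt i hi, zpow_zero, one_mul]
  rw [h1, hx, Matrix.mulVec_mulVec, hkinv, Matrix.one_mulVec]

end Pool.Agent.N211.BT
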