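import Pool.Agent.N211.BT.Defs

/-!
# Arrays fixed by the Newton cocharacters are Tate classes
-/

set_option autoImplicit false
set_option linter.unusedSectionVars false

namespace Pool.Agent.N211.BT

open Matrix Polynomial Pool.Agent.N996.BP Pool.Agent.R940

namespace TateAux

variable {ι : Type} [Fintype ι] [DecidableEq ι] {Γ : Type} [Group Γ] (G : GData ι Γ)
  (κ : Type) [Fintype κ] [DecidableEq κ]

/-! ### The space of the fixed arrays -/

/-- The homogeneous fixed arrays. -/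
def W (j : ℕ) : Submodule ℂ ((κ → ι) → ℂ) where
  carrier := {c | G.Hom (2 * j) c ∧ G.Fixed c}
  add_mem' := by
    rintro a b ⟨ha, ha'⟩ ⟨hb, hb'⟩
    refine ⟨fun i hi => ?_, fun d t ht => ?_⟩
    · by_cases h : a i = 0
      · refine hb i fun h' => hi ?_
        rw [Pi.add_apply, h, h', add_zero]
      · exact ha i h
    · rw [Matrix.mulVec_add, ha' d t ht, hb' d t ht]
  zero_mem' := ⟨fun i hi => absurd rfl hi, fun d t _ => Matrix.mulVec_zero _⟩
  smul_mem' := by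
    rintro x a ⟨ha, ha'⟩
    refine ⟨fun i hi => ha i fun h => hi ?_, fun d t ht => ?_⟩
    · rw [Pi.smul_apply, h, smul_zero]
    · rw [Matrix.mulVec_smul, ha' d t ht]

variable {κ}

lemma mem_W {j : ℕ} {c : (κ → ι) → ℂ} : c ∈ W G κ j ↔ G.Hom (2 * j) c ∧ G.Fixed c := Iff.rfl

lemma r_inv (g : Γ) : G.r g * G.r g⁻¹ = 1 := by rw [← G.r_mul, mul_inv_cancel, G.r_one]

lemma chi_ne (g : Γ) : G.χ g ≠ 0 := by
  intro h
  have h1 : G.χ g * G.χ g⁻¹ = 1 := by rw [← G.χ_mul, mul_inv_cancel, G.χ_one]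
  rw [h, zero_mul] at h1
  exact zero_ne_one h1

lemma mulVec_ne {A : Matrix (κ → ι) (κ → ι) ℂ} {c : (κ → ι) → ℂ} {i : κ → ι}
    (h : (A *ᵥ c) i ≠ 0) : ∃ i', A i i' ≠ 0 ∧ c i' ≠ 0 := by
  obtain ⟨i', _, h1⟩ := Finset.exists_ne_zero_of_sum_ne_zero h
  exact ⟨i', left_ne_zero_of_mul h1, right_ne_zero_of_mul h1⟩

lemma kp_ne {A : Matrix ι ι ℂ} {i i' : κ → ι} (h : kp κ A i i' ≠ 0) (k : κ) :
    A (i k) (i' k) ≠ 0 := by
  rw [kp_apply] at h
  exact Finset.prod_ne_zero_iff.1 h k (Finset.mem_univ k)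

lemma W_stable (h2 : S_Conj) {j : ℕ} {c : (κ → ι) → ℂ} (hc : c ∈ W G κ j) (g : Γ) :
    kp κ (G.r g) *ᵥ c ∈ W G κ j := by
  refine ⟨fun i hi => ?_, fun d t ht => ?_⟩
  · obtain ⟨i', h1, h3⟩ := mulVec_ne hi
    rw [← hc.1 i' h3]
    exact Finset.sum_congr rfl fun k _ => G.r_deg g _ _ (kp_ne h1 k)
  · obtain ⟨d', hd'⟩ := h2 ι Γ G d g⁻¹
    have h3 : d.l t * G.r g = G.r g * d'.l t := by
      rw [hd' t, inv_inv, ← Matrix.mul_assoc, ← Matrix.mul_assoc, r_inv, Matrix.one_mul]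
    rw [Matrix.mulVec_mulVec, ← kp_mul, h3, kp_mul, ← Matrix.mulVec_mulVec, hc.2 d' t ht]

/-! ### The eigenvalues -/

variable {G}

lemma inv' (d : ND G) : d.Pi * d.P = 1 := mul_eq_one_comm.1 d.inv

lemma Pi_deg (d : ND G) (a i : ι) (h : d.Pi a i ≠ 0) : G.deg i = d.dg a := by
  have h1 : Matrix.diagonal (fun i => (G.deg i : ℂ)) * d.P =
      d.P * Matrix.diagonal (fun a => (d.dg a : ℂ)) := by
    ext i a
    rw [Matrix.diagonal_mul, Matrix.mul_diagonal]
    by_cases h : d.P i a = 0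
    · rw [h, mul_zero, zero_mul]
    · rw [d.hom i a h, mul_comm]
  have h2 : d.Pi * Matrix.diagonal (fun i => (G.deg i : ℂ)) =
      Matrix.diagonal (fun a => (d.dg a : ℂ)) * d.Pi := by
    calc d.Pi * Matrix.diagonal (fun i => (G.deg i : ℂ)) =
        d.Pi * (Matrix.diagonal (fun i => (G.deg i : ℂ)) * d.P) * d.Pi := by
          rw [Matrix.mul_assoc, Matrix.mul_assoc, d.inv, Matrix.mul_one]
      _ = Matrix.diagonal (fun a => (d.dg a : ℂ)) * d.Pi := by
          rw [h1, ← Matrix.mul_assoc, inv', Matrix.one_mul]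
  have h3 := congrFun (congrFun h2 a) i
  rw [Matrix.mul_diagonal, Matrix.diagonal_mul, mul_comm] at h3
  have h4 := mul_right_cancel₀ h h3
  exact_mod_cast h4

variable (ι κ) in
/-- The roots of unity of bounded degree. -/
def SS : Set ℂ := {x : ℂ | (∃ m : ℕ, 0 < m ∧ x ^ m = 1) ∧
  (minpoly ℚ x).natDegree ≤ Fintype.card ι ^ Fintype.card κ}

variable (ι κ) in
lemma SS_fin : (SS ι κ).Finite := fin _

lemma deg_bound (d : ND G) (I : κ → ι) (j : ℕ) :
    (minpoly ℚ ((∏ k, d.lam (I k)) / (d.p : ℂ) ^ j)).natDegree ≤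
      Fintype.card ι ^ Fintype.card κ := by
  classical
  obtain ⟨z, hz⟩ : ∃ z : EF d.lam, z = (∏ k, el d.lam (I k)) / (d.p : EF d.lam) ^ j := ⟨_, rfl⟩
  have hz' : (z : ℂ) = (∏ k, d.lam (I k)) / (d.p : ℂ) ^ j := by
    rw [hz]
    push_cast
    rfl
  rw [← hz', minpoly_coe]
  have halg : Algebra.IsAlgebraic ℚ (EF d.lam) := isAlg_EF d.weil
  have hint : IsIntegral ℚ z := (Algebra.IsAlgebraic.isAlgebraic z).isIntegral
  have hirr : Irreducible (minpoly ℚ z) := minpoly.irreducible hint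
  have hcard := Polynomial.card_rootSet_eq_natDegree (K := ℂ) hirr.separable
    (IsAlgClosed.splits _)
  rw [← hcard]
  obtain ⟨Pz, hPz⟩ := d.root
  set T : Finset ℂ := (Fintype.piFinset fun k => ((Pz (d.dg (I k))).aroots ℂ).toFinset).image
    (fun y : κ → ℂ => (∏ k, y k) / (d.p : ℂ) ^ j) with hT
  have hsub : ∀ x ∈ (minpoly ℚ z).rootSet ℂ, x ∈ T := by
    intro x hx
    rw [← Algebra.IsAlgebraic.range_eval_eq_rootSet_minpoly ℂ z (F := ℚ)] at hx
    obtain ⟨φ, rfl⟩ := hx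
    rw [hT, Finset.mem_image]
    refine ⟨fun k => φ (el d.lam (I k)), ?_, ?_⟩
    · rw [Fintype.mem_piFinset]
      intro k
      rw [Multiset.mem_toFinset, Polynomial.mem_aroots]
      refine ⟨(hPz _).1.ne_zero, ?_⟩
      have h1 : aeval (el d.lam (I k)) (Pz (d.dg (I k))) = 0 := by
        apply (algebraMap (EF d.lam) ℂ).injective
        rw [map_zero, ← Polynomial.aeval_algebraMap_apply]
        exact (hPz 0).2.2 (I k)
      have h2 := Polynomial.aeval_algHom_apply (φ.restrictScalars ℤ) (el d.lam (I k))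
        (Pz (d.dg (I k)))
      rw [h1, map_zero] at h2
      exact h2
    · simp only [hz, map_div₀, map_prod, map_pow, map_natCast]
  have hle : Fintype.card ((minpoly ℚ z).rootSet ℂ) ≤ T.card := by
    rw [← Fintype.card_coe]
    exact Fintype.card_le_of_injective (fun x => (⟨x.1, hsub x.1 x.2⟩ : T))
      (fun x y h => Subtype.ext (Subtype.mk.inj h))
  refine hle.trans (Finset.card_image_le.trans ?_)
  rw [Fintype.card_piFinset, ← Finset.card_univ (α := κ), ← Finset.prod_const]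
  refine Finset.prod_le_prod' fun k _ => ?_
  refine (Multiset.toFinset_card_le _).trans ?_
  refine (Polynomial.card_roots' _).trans ?_
  exact Polynomial.natDegree_map_le.trans (hPz _).2.1

/-- The diagonal form. -/
lemma kp_diagP (d : ND G) (m : ι → ℂ) : kp κ (d.P * Matrix.diagonal m * d.Pi) =
    kp κ d.P * Matrix.diagonal (fun I => ∏ k, m (I k)) * kp κ d.Pi := by
  rw [kp_mul, kp_mul, Jordaux.kp_diag]

lemma two_zpow {n : ℤ} (h : (2 : ℂ) ^ n = 1) : n = 0 := by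
  have h1 : ‖(2 : ℂ) ^ n‖ = 1 := by rw [h, norm_one]
  rw [norm_zpow, Complex.norm_ofNat] at h1
  exact (zpow_eq_one_iff_right₀ (by norm_num) (by norm_num)).1 h1

lemma claimA (d : ND G) {j : ℕ} {c : (κ → ι) → ℂ} (hc : c ∈ W G κ j) (I : κ → ι)
    (hx : (kp κ d.Pi *ᵥ c) I ≠ 0) : (∏ k, d.lam (I k)) / (d.p : ℂ) ^ j ∈ SS ι κ := by
  classical
  have hp0 : (d.p : ℂ) ≠ 0 := Nat.cast_ne_zero.2 d.hp.out.ne_zero
  refine ⟨?_, deg_bound d I j⟩
  -- the degree
  have hdeg : ∑ k, d.dg (I k) = 2 * j := by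
    obtain ⟨i', h1, h3⟩ := mulVec_ne hx
    rw [← hc.1 i' h3]
    exact Finset.sum_congr rfl fun k _ => (Pi_deg d _ _ (kp_ne h1 k)).symm
  obtain ⟨cI, hcI⟩ : ∃ cI : ι → ℕ, cI = fun a => (Finset.univ.filter fun k => I k = a).card :=
    ⟨_, rfl⟩
  have hsumN : ∀ f : ι → ℕ, ∑ a, f a * cI a = ∑ k, f (I k) := by
    intro f
    rw [← Finset.sum_fiberwise (s := Finset.univ) (g := I) (f := fun k => f (I k))]
    refine Finset.sum_congr rfl fun a _ => ?_
    rw [Finset.sum_congr rfl (g := fun _ => f a) (fun k hk => by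
      rw [(Finset.mem_filter.1 hk).2]), Finset.sum_const, hcI, smul_eq_mul, mul_comm]
  have hsumZ : ∀ f : ι → ℤ, ∑ a, f a * (cI a : ℤ) = ∑ k, f (I k) := by
    intro f
    rw [← Finset.sum_fiberwise (s := Finset.univ) (g := I) (f := fun k => f (I k))]
    refine Finset.sum_congr rfl fun a _ => ?_
    rw [Finset.sum_congr rfl (g := fun _ => f a) (fun k hk => by
      rw [(Finset.mem_filter.1 hk).2]), Finset.sum_const, hcI, nsmul_eq_mul, mul_comm]
  have hprod : ∏ a, d.lam a ^ cI a = ∏ k, d.lam (I k) := by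
    rw [← Finset.prod_fiberwise (s := Finset.univ) (g := I) (f := fun k => d.lam (I k))]
    refine Finset.prod_congr rfl fun a _ => ?_
    rw [Finset.prod_congr rfl (g := fun _ => d.lam a) (fun k hk => by
      rw [(Finset.mem_filter.1 hk).2]), Finset.prod_const, hcI]
  have hrow : ∀ ψ : EF d.lam →ₐ[ℚ] PadicAlgCl d.p, ∑ l, row d.weil ψ l * (cI l : ℤ) = 0 := by
    intro ψ
    rw [hsumZ]
    obtain ⟨d', hd'⟩ : ∃ d' : ND G, d' = { d with ψ := ψ } := ⟨_, rfl⟩
    have h1 := hc.2 d' 2 two_ne_zero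
    have h2 : d'.l 2 = d.P * Matrix.diagonal (fun a => (2 : ℂ) ^ row d.weil ψ a) * d.Pi := by
      rw [hd']; rfl
    rw [h2, kp_diagP] at h1
    have h3 : kp κ d.Pi *ᵥ ((kp κ d.P * Matrix.diagonal
        (fun I => ∏ k, (2 : ℂ) ^ row d.weil ψ (I k)) * kp κ d.Pi) *ᵥ c) =
        Matrix.diagonal (fun I => ∏ k, (2 : ℂ) ^ row d.weil ψ (I k)) *ᵥ (kp κ d.Pi *ᵥ c) := by
      rw [Matrix.mulVec_mulVec, Matrix.mulVec_mulVec, ← Matrix.mul_assoc, ← Matrix.mul_assoc,
        ← kp_mul, inv', kp_one, Matrix.one_mul]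
    rw [h1] at h3
    have h4 := congrFun h3 I
    rw [Matrix.mulVec_diagonal] at h4
    have h5 : ∏ k, (2 : ℂ) ^ row d.weil ψ (I k) = 1 := by
      have h6 : (∏ k, (2 : ℂ) ^ row d.weil ψ (I k)) * (kp κ d.Pi *ᵥ c) I =
          1 * (kp κ d.Pi *ᵥ c) I := by rw [one_mul]; exact h4.symm
      exact mul_right_cancel₀ hx h6
    have h7 : ∏ k, (2 : ℂ) ^ row d.weil ψ (I k) = (2 : ℂ) ^ ∑ k, row d.weil ψ (I k) := by
      induction (Finset.univ : Finset κ) using Finset.cons_induction with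
      | empty => simp
      | cons a s ha ih => rw [Finset.prod_cons, Finset.sum_cons, ih, zpow_add₀ two_ne_zero]
    rw [h7] at h5
    exact two_zpow h5
  obtain ⟨_, s, hs, h1⟩ := isT_of_row_zero (e := 1) zero_lt_one (Nat.factorial_pos _ : 0 < den ι)
    d.weil (c := cI) (by rw [hsumN, hdeg]; exact even_two_mul j) hrow
  refine ⟨2 * s, by omega, ?_⟩
  rw [hprod, hsumN, hdeg] at h1
  rw [div_pow, h1, div_eq_one_iff_eq (pow_ne_zero _ (pow_ne_zero _ hp0))]
  rw [pow_one, ← pow_mul]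
  congr 1
  ring

/-! ### Nilpotent matrices -/

lemma nil_pow {n : Type} [Fintype n] [DecidableEq n] (A : Matrix n n ℂ) (h : IsNilpotent A) :
    A ^ Fintype.card n = 0 := by
  have h1 := Matrix.isNilpotent_charpoly_sub_pow_of_isNilpotent h
  have h2 : A.charpoly = X ^ Fintype.card n := sub_eq_zero.1 h1.eq_zero
  have h3 := Matrix.aeval_self_charpoly A
  rw [h2, map_pow, aeval_X] at h3
  exact h3

variable (κ) in
/-- The basis vectors. -/
noncomputable def ev (d : ND G) (I : κ → ι) : (κ → ι) → ℂ := kp κ d.P *ᵥ Pi.single I 1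

lemma s_ev (d : ND G) (I : κ → ι) :
    kp κ (d.P * Matrix.diagonal d.lam * d.Pi) *ᵥ ev κ d I = (∏ k, d.lam (I k)) • ev κ d I := by
  rw [ev, kp_diagP, Matrix.mulVec_mulVec, Matrix.mul_assoc, ← kp_mul, inv', kp_one,
    Matrix.mul_one, ← Matrix.mulVec_mulVec]
  have h1 : Matrix.diagonal (fun I : κ → ι => ∏ k, d.lam (I k)) *ᵥ Pi.single I 1 =
      (∏ k, d.lam (I k)) • (Pi.single I 1 : (κ → ι) → ℂ) := by
    funext J
    rw [Matrix.mulVec_diagonal, Pi.smul_apply, smul_eq_mul]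
    by_cases h : J = I
    · subst h; rfl
    · rw [Pi.single_eq_of_ne h, mul_zero, mul_zero]
  rw [h1, Matrix.mulVec_smul]

lemma pow_ev (d : ND G) (I : κ → ι) (m : ℕ) :
    (kp κ (G.r d.f) - algebraMap ℂ _ (∏ k, d.lam (I k))) ^ m *ᵥ ev κ d I =
      (kp κ (G.r d.f) - kp κ (d.P * Matrix.diagonal d.lam * d.Pi)) ^ m *ᵥ ev κ d I := by
  obtain ⟨h1, _⟩ := d.adj κ
  have hcomm : Commute (kp κ (G.r d.f)) (kp κ (d.P * Matrix.diagonal d.lam * d.Pi)) :=
    Algebra.commute_of_mem_adjoin_self h1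
  have hone : ∀ v : (κ → ι) → ℂ, (algebraMap ℂ (Matrix (κ → ι) (κ → ι) ℂ)
      (∏ k, d.lam (I k))) *ᵥ v = (∏ k, d.lam (I k)) • v := by
    intro v
    rw [Algebra.algebraMap_eq_smul_one, Matrix.smul_mulVec, Matrix.one_mulVec]
  induction m with
  | zero => rw [pow_zero, pow_zero]
  | succ m ih =>
    have h2 : Commute (kp κ (G.r d.f) - algebraMap ℂ (Matrix (κ → ι) (κ → ι) ℂ)
        (∏ k, d.lam (I k)))
        (kp κ (G.r d.f) - kp κ (d.P * Matrix.diagonal d.lam * d.Pi)) := by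
      refine Commute.sub_left ?_ ?_
      · exact (Commute.refl _).sub_right hcomm
      · exact Algebra.commutes _ _
    rw [pow_succ', ← Matrix.mulVec_mulVec, ih, Matrix.mulVec_mulVec, (h2.pow_right m).eq,
      pow_succ, ← Matrix.mulVec_mulVec, ← Matrix.mulVec_mulVec, Matrix.sub_mulVec,
      Matrix.sub_mulVec, s_ev, hone]

variable (ι κ) in
/-- The annihilating polynomials. -/
noncomputable def TT (x : ℂ) : ℂ[X] := ∏ z ∈ (SS_fin ι κ).toFinset, (X - C (z * x))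

lemma claimB_frob (d : ND G) (hχ : G.χ d.f = d.p) {j : ℕ} {c : (κ → ι) → ℂ}
    (hc : c ∈ W G κ j) :
    (aeval (kp κ (G.r d.f)) (TT ι κ (G.χ d.f ^ j) ^ Fintype.card (κ → ι))) *ᵥ c = 0 := by
  have hp0 : (d.p : ℂ) ≠ 0 := Nat.cast_ne_zero.2 d.hp.out.ne_zero
  have hx : c = ∑ I, (kp κ d.Pi *ᵥ c) I • ev κ d I := by
    have h1 : (kp κ d.Pi *ᵥ c) =
        ∑ I, (kp κ d.Pi *ᵥ c) I • (Pi.single I 1 : (κ → ι) → ℂ) := by
      funext J
      rw [Finset.sum_apply, Finset.sum_eq_single J]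
      · rw [Pi.smul_apply, Pi.single_eq_same, smul_eq_mul, mul_one]
      · intro I _ hI
        rw [Pi.smul_apply, Pi.single_eq_of_ne hI.symm, smul_zero]
      · intro h; exact absurd (Finset.mem_univ _) h
    have h2 : c = kp κ d.P *ᵥ (kp κ d.Pi *ᵥ c) := by
      rw [Matrix.mulVec_mulVec, ← kp_mul, d.inv, kp_one, Matrix.one_mulVec]
    conv_lhs => rw [h2, h1]
    rw [Matrix.mulVec_sum]
    exact Finset.sum_congr rfl fun I _ => by rw [Matrix.mulVec_smul, ev]
  rw [hx, Matrix.mulVec_sum]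
  refine Finset.sum_eq_zero fun I _ => ?_
  rw [Matrix.mulVec_smul]
  by_cases h0 : (kp κ d.Pi *ᵥ c) I = 0
  · rw [h0, zero_smul]
  · have hA := claimA d hc I h0
    have hdvd : (X - C (∏ k, d.lam (I k))) ^ Fintype.card (κ → ι) ∣
        TT ι κ (G.χ d.f ^ j) ^ Fintype.card (κ → ι) := by
      refine pow_dvd_pow_of_dvd ?_ _
      have h1 : ∏ k, d.lam (I k) = ((∏ k, d.lam (I k)) / (d.p : ℂ) ^ j) * G.χ d.f ^ j := by
        rw [hχ, div_mul_cancel₀ _ (pow_ne_zero _ hp0)]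
      rw [h1]
      exact Finset.dvd_prod_of_mem (fun z => X - C (z * G.χ d.f ^ j))
        ((SS_fin ι κ).mem_toFinset.2 hA)
    obtain ⟨q, hq⟩ := hdvd
    rw [hq, mul_comm, map_mul, map_pow, map_sub, aeval_X, aeval_C, ← Matrix.mulVec_mulVec,
      pow_ev, nil_pow _ (d.adj κ).2, Matrix.zero_mulVec, Matrix.mulVec_zero, smul_zero]

/-! ### Zariski density -/

section dense

variable (ι κ) in
/-- The universal Kronecker power. -/
noncomputable def AA : Matrix (κ → ι) (κ → ι) (MvPolynomial (Option (ι × ι)) ℂ) :=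
  kp κ (Matrix.of fun a b => MvPolynomial.X (some (a, b)))

variable (ι κ) in
/-- The universal annihilating polynomials. -/
noncomputable def TU (j : ℕ) : (MvPolynomial (Option (ι × ι)) ℂ)[X] :=
  ∏ z ∈ (SS_fin ι κ).toFinset, (X - C (MvPolynomial.C z * MvPolynomial.X none ^ j))

variable (G) in
/-- The evaluation. -/
noncomputable def evg (g : Γ) : MvPolynomial (Option (ι × ι)) ℂ →+* ℂ :=
  MvPolynomial.eval (fun x => x.elim (G.χ g) fun p => G.r g p.1 p.2)

lemma AA_map (g : Γ) : (evg G g).mapMatrix (AA ι κ) = kp κ (G.r g) := by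
  rw [RingHom.mapMatrix_apply, AA, ← kp_map]
  congr 1
  ext a b
  simp [evg]

lemma TU_map (g : Γ) (j : ℕ) : (TU ι κ j).map (evg G g) = TT ι κ (G.χ g ^ j) := by
  rw [TU, TT, Polynomial.map_prod]
  refine Finset.prod_congr rfl fun z _ => ?_
  simp [evg]

lemma claimB (hD : G.Dense) (h1 : S_Ex) {j : ℕ} {c : (κ → ι) → ℂ} (hc : c ∈ W G κ j) (g : Γ) :
    (aeval (kp κ (G.r g)) (TT ι κ (G.χ g ^ j) ^ Fintype.card (κ → ι))) *ᵥ c = 0 := by
  funext i
  set f : MvPolynomial (Option (ι × ι)) ℂ := ∑ i', (aeval (AA ι κ)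
    (TU ι κ j ^ Fintype.card (κ → ι))) i i' * MvPolynomial.C (c i') with hf
  have key : ∀ g, G.ev f g = ((aeval (kp κ (G.r g))
      (TT ι κ (G.χ g ^ j) ^ Fintype.card (κ → ι))) *ᵥ c) i := by
    intro g
    have h2 : (evg G g).mapMatrix (aeval (AA ι κ) (TU ι κ j ^ Fintype.card (κ → ι))) =
        aeval (kp κ (G.r g)) (TT ι κ (G.χ g ^ j) ^ Fintype.card (κ → ι)) := by
      have h3 := Polynomial.map_aeval_eq_aeval_map (φ := evg G g)
        (ψ := (evg G g).mapMatrix (m := κ → ι)) (by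
          ext x a b
          · simp [Matrix.algebraMap_matrix_apply]
            split_ifs <;> simp
          · simp [Matrix.algebraMap_matrix_apply]
            split_ifs <;> simp) (TU ι κ j ^ Fintype.card (κ → ι)) (AA ι κ)
      rw [h3, AA_map, Polynomial.map_pow, TU_map]
    have h4 : G.ev f g = evg G g f := rfl
    rw [h4, hf, map_sum, ← h2]
    refine Finset.sum_congr rfl fun i' _ => ?_
    rw [map_mul]
    congr 1
    simp [evg]
  have h5 := hD f (fun f' p hf' => by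
    obtain ⟨d, hd, hd'⟩ := h1 ι Γ G f' p hf'
    rw [key f', ← hd, claimB_frob d (by rw [hd, hf'.2.1, hd']) hc]
    rfl) g
  rw [key g] at h5
  exact h5

end dense

/-! ### The representation -/

variable (G κ) in
/-- The twisted action on the fixed arrays. -/
noncomputable def rW (h2 : S_Conj) (j : ℕ) : Γ →* Module.End ℂ (W G κ j) where
  toFun g := (G.χ g ^ j)⁻¹ • ((G.rho κ g).restrict (p := W G κ j) (q := W G κ j)
    (fun c hc => W_stable G h2 hc g))
  map_one' := by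
    refine LinearMap.ext fun c => Subtype.ext ?_
    simp [G.χ_one]
  map_mul' g h := by
    refine LinearMap.ext fun c => Subtype.ext ?_
    rw [G.χ_mul, mul_pow, mul_inv]
    simp only [map_mul, LinearMap.smul_apply, Module.End.mul_apply, map_smul, smul_smul]
    rw [mul_comm]
    rfl

lemma rW_apply (h2 : S_Conj) (j : ℕ) (g : Γ) (c : W G κ j) :
    ((rW G κ h2 j g c : W G κ j) : (κ → ι) → ℂ) = (G.χ g ^ j)⁻¹ • (kp κ (G.r g) *ᵥ c) := rfl

lemma rW_apply' (h2 : S_Conj) (j : ℕ) (g : Γ) (c : W G κ j) :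
    kp κ (G.r g) *ᵥ c = G.χ g ^ j • ((rW G κ h2 j g c : W G κ j) : (κ → ι) → ℂ) := by
  rw [rW_apply, smul_smul, mul_inv_cancel₀ (pow_ne_zero _ (chi_ne G g)), one_smul]

lemma rW_ev (hD : G.Dense) (h1 : S_Ex) (h2 : S_Conj) (j : ℕ) (g : Γ) (μ : ℂ)
    (h : (rW G κ h2 j g).HasEigenvalue μ) : μ ∈ SS ι κ := by
  obtain ⟨v, hv⟩ := h.exists_hasEigenvector
  have hv1 : rW G κ h2 j g v = μ • v := hv.apply_eq_smul
  have hv0 : (v : (κ → ι) → ℂ) ≠ 0 := fun h => hv.2 (Subtype.ext h)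
  have h3 : kp κ (G.r g) *ᵥ v = (μ * G.χ g ^ j) • (v : (κ → ι) → ℂ) := by
    rw [rW_apply' h2, hv1, Submodule.coe_smul, smul_smul, mul_comm]
  have h4 : ∀ q : ℂ[X], (aeval (kp κ (G.r g)) q) *ᵥ (v : (κ → ι) → ℂ) =
      q.eval (μ * G.χ g ^ j) • (v : (κ → ι) → ℂ) := by
    intro q
    induction q using Polynomial.induction_on' with
    | add a b ha hb => rw [map_add, Matrix.add_mulVec, ha, hb, eval_add, add_smul]
    | monomial n a =>
      rw [aeval_monomial, ← Matrix.mulVec_mulVec, Algebra.algebraMap_eq_smul_one,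
        Matrix.smul_mulVec, Matrix.one_mulVec, eval_monomial, mul_smul]
      congr 1
      induction n with
      | zero => rw [pow_zero, pow_zero, Matrix.one_mulVec, one_smul]
      | succ n ih => rw [pow_succ', ← Matrix.mulVec_mulVec, ih, Matrix.mulVec_smul, h3,
          smul_smul, pow_succ]
  have h5 := claimB hD h1 v.2 g
  rw [h4, smul_eq_zero] at h5
  have h6 := h5.resolve_right hv0
  rw [eval_pow] at h6
  have hne : Fintype.card (κ → ι) ≠ 0 := by
    have : Nonempty (κ → ι) := ⟨fun _ => G.o⟩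
    exact Fintype.card_ne_zero
  have h7 := (pow_eq_zero_iff hne).1 h6
  rw [TT, eval_prod, Finset.prod_eq_zero_iff] at h7
  obtain ⟨z, hz, h8⟩ := h7
  rw [eval_sub, eval_X, eval_C, sub_eq_zero] at h8
  have h9 := mul_right_cancel₀ (pow_ne_zero _ (chi_ne G g)) h8
  rw [h9]
  exact (SS_fin ι κ).mem_toFinset.1 hz

lemma rW_ss (h2 : S_Conj) (j : ℕ) (hss : IsSS (Set.range (G.rho κ))) :
    IsSS (Set.range (rW G κ h2 j)) := by
  intro U hU
  obtain ⟨U', hs, hc⟩ := hss (U.map (W G κ j).subtype) (by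
    rintro _ ⟨g, rfl⟩ _ ⟨x, hx, rfl⟩
    refine ⟨G.χ g ^ j • rW G κ h2 j g x, U.smul_mem _ (hU _ ⟨g, rfl⟩ x hx), ?_⟩
    rw [Submodule.subtype_apply, Submodule.subtype_apply, Submodule.coe_smul, ← rW_apply',
      G.rho_apply])
  refine ⟨U'.comap (W G κ j).subtype, ?_, ?_⟩
  · rintro _ ⟨g, rfl⟩ x hx
    rw [Submodule.mem_comap, Submodule.subtype_apply, rW_apply]
    refine U'.smul_mem _ ?_
    rw [← G.rho_apply]
    exact hs _ ⟨g, rfl⟩ _ hx
  · rw [isCompl_iff, Submodule.disjoint_def, codisjoint_iff, Submodule.eq_top_iff'] at hc ⊢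
    refine ⟨fun x hx hx' => ?_, fun x => ?_⟩
    · exact Subtype.ext (hc.1 x ⟨x, hx, rfl⟩ hx')
    · obtain ⟨y, ⟨u, hu, rfl⟩, z, hz, hyz⟩ := Submodule.mem_sup.1 (hc.2 x)
      refine Submodule.mem_sup.2 ⟨u, hu, x - u, ?_, by abel⟩
      rw [Submodule.mem_comap, map_sub, Submodule.subtype_apply, ← hyz, add_sub_cancel_left]
      exact hz

end TateAux

open TateAux in
/-- **Homogeneous arrays of even degree which are fixed by the Newton cocharacters are Tate
classes.** -/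
theorem tate (h1 : S_Ex) (h2 : S_Conj) : S_Tate := by
  intro ι _ _ Γ _ G hD κ _ _ hss j c hc hc'
  refine ⟨hc, ?_⟩
  have hfin := burnside Γ (W G κ j) (rW G κ h2 j) (rW_ss h2 j hss) (SS ι κ) (SS_fin ι κ)
    (fun g μ h => rW_ev hD h1 h2 j g μ h)
  let φ := (rW G κ h2 j).toHomUnits
  have hφ : ∀ g, ((φ g : (Module.End ℂ (W G κ j))ˣ) : Module.End ℂ (W G κ j)) =
      rW G κ h2 j g := fun g => rfl
  have hfin' : Finite φ.range := by
    have h3 : Finite (Set.range (rW G κ h2 j)) := hfin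
    refine Finite.of_injective (fun x : φ.range => (⟨((x : (Module.End ℂ (W G κ j))ˣ) :
      Module.End ℂ (W G κ j)), by
        obtain ⟨g, hg⟩ := x.2
        exact ⟨g, by rw [← hφ, hg]⟩⟩ : Set.range (rW G κ h2 j))) ?_
    intro x y hxy
    exact Subtype.ext (Units.ext (Subtype.mk.inj hxy))
  refine ⟨φ.ker, Subgroup.finiteIndex_ker φ, fun g hg => ?_⟩
  have h3 : rW G κ h2 j g = 1 := by
    rw [← hφ, MonoidHom.mem_ker.1 hg]; rfl
  have h4 := rW_apply' h2 j g ⟨c, hc, hc'⟩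
  rw [h3] at h4
  exact h4

end Pool.Agent.N211.BT
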