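import Pool.Agent.N211.BT.Stm

/-!
# Relative Maschke and Clifford
-/

set_option autoImplicit false

namespace Pool.Agent.N211.BT

theorem rel : S_Rel := by
  intro G _ M _ _ _ ρ K hK h U hU
  obtain ⟨U', hU', hc⟩ := h U (by
    rintro r ⟨k, -, rfl⟩ x hx
    exact hU _ ⟨k, rfl⟩ x hx)
  have hmul : ∀ (a b : G) (x : M), ρ a (ρ b x) = ρ (a * b) x := fun a b x => by
    rw [map_mul]; rfl
  have hone : ∀ x : M, ρ 1 x = x := fun x => by rw [map_one]; rfl
  -- the projection
  set p : Module.End ℂ M := U.subtype ∘ₗ (U.projectionOnto U' hc) with hp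
  have pU : ∀ x, p x ∈ U := fun x => by
    simp only [hp, LinearMap.comp_apply, Submodule.subtype_apply]
    exact Submodule.coe_mem _
  have p_id : ∀ x ∈ U, p x = x := fun x hx => by
    simp only [hp, LinearMap.comp_apply, Submodule.subtype_apply]
    exact congrArg Subtype.val (Submodule.projectionOnto_apply_left hc ⟨x, hx⟩)
  have p_zero : ∀ x ∈ U', p x = 0 := fun x hx => by
    simp only [hp, LinearMap.comp_apply, Submodule.subtype_apply]
    rw [(Submodule.projectionOnto_apply_eq_zero_iff hc).2 hx]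
    rfl
  have p_comm : ∀ k ∈ K, ∀ x, p (ρ k x) = ρ k (p x) := by
    intro k hk x
    obtain ⟨y, z, hy, hz, rfl⟩ := Submodule.codisjoint_iff_exists_add_eq.1 hc.codisjoint x
    rw [map_add, map_add, map_add, p_id y hy, p_zero z hz, add_zero,
      p_id _ (hU _ ⟨k, rfl⟩ y hy), p_zero _ (hU' _ ⟨k, hk, rfl⟩ z hz), add_zero]
  let T : G → Module.End ℂ M := fun g => ρ g ∘ₗ p ∘ₗ ρ g⁻¹
  have hT : ∀ g x, T g x = ρ g (p (ρ g⁻¹ x)) := fun g x => rfl
  have hTK : ∀ a b : G, (QuotientGroup.leftRel K) a b → T a = T b := by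
    intro a b hab
    rw [QuotientGroup.leftRel_apply] at hab
    ext x
    rw [hT, hT]
    have e1 : ρ b⁻¹ x = ρ (a⁻¹ * b)⁻¹ (ρ a⁻¹ x) := by
      rw [hmul]
      congr 2
      group
    have e2 := p_comm _ (K.inv_mem hab) (ρ a⁻¹ x)
    rw [e1, e2, hmul]
    congr 2
    group
  let Tq : G ⧸ K → Module.End ℂ M := fun q => Quotient.liftOn' q T hTK
  have hTq : ∀ g : G, Tq (g : G ⧸ K) = T g := fun g => rfl
  have : Fintype (G ⧸ K) := Subgroup.fintypeQuotientOfFiniteIndex
  have hn : (Fintype.card (G ⧸ K) : ℂ) ≠ 0 := by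
    exact_mod_cast Fintype.card_ne_zero
  set P : Module.End ℂ M := (Fintype.card (G ⧸ K) : ℂ)⁻¹ • ∑ q, Tq q with hP
  have hPx : ∀ x, P x = (Fintype.card (G ⧸ K) : ℂ)⁻¹ • ∑ q, Tq q x := fun x => by
    rw [hP, LinearMap.smul_apply, LinearMap.sum_apply]
  have TU : ∀ q x, Tq q x ∈ U := by
    intro q x
    induction q using QuotientGroup.induction_on with
    | H g => rw [hTq, hT]; exact hU _ ⟨g, rfl⟩ _ (pU _)
  have Tid : ∀ q, ∀ x ∈ U, Tq q x = x := by
    intro q x hx
    induction q using QuotientGroup.induction_on with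
    | H g =>
      rw [hTq, hT, p_id _ (hU _ ⟨g⁻¹, rfl⟩ x hx), hmul, mul_inv_cancel, hone]
  have Tmul : ∀ (g : G) (q : G ⧸ K) (x : M), Tq (g • q) (ρ g x) = ρ g (Tq q x) := by
    intro g q x
    induction q using QuotientGroup.induction_on with
    | H a =>
      have : g • (a : G ⧸ K) = ((g * a : G) : G ⧸ K) := rfl
      rw [this, hTq, hTq, hT, hT, hmul, hmul]
      congr 3
      group
  have hproj : LinearMap.IsProj U P := by
    constructor
    · intro x
      rw [hPx]
      exact U.smul_mem _ (U.sum_mem fun q _ => TU q x)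
    · intro x hx
      rw [hPx, Finset.sum_congr rfl fun q _ => Tid q x hx, Finset.sum_const, Finset.card_univ,
        ← Nat.cast_smul_eq_nsmul ℂ, smul_smul, inv_mul_cancel₀ hn, one_smul]
  have hcomm : ∀ g x, P (ρ g x) = ρ g (P x) := by
    intro g x
    rw [hPx, hPx, map_smul, map_sum]
    congr 1
    rw [← Equiv.sum_comp (MulAction.toPerm g)]
    exact Finset.sum_congr rfl fun q _ => Tmul g q x
  refine ⟨LinearMap.ker P, ?_, hproj.isCompl⟩
  rintro r ⟨g, rfl⟩ x hx
  rw [LinearMap.mem_ker] at hx ⊢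
  rw [hcomm, hx, map_zero]

namespace Cliffaux

variable {M : Type} [AddCommGroup M] [Module ℂ M] (R : Set (Module.End ℂ M))

/-- a stable subspace as a submodule -/
def toA (U : Submodule ℂ M) (h : ∀ r ∈ R, ∀ x ∈ U, r x ∈ U) :
    Submodule (Algebra.adjoin ℂ R) M where
  carrier := U
  add_mem' := U.add_mem
  zero_mem' := U.zero_mem
  smul_mem' := by
    rintro ⟨a, ha⟩ x hx
    change a x ∈ U
    have : ∀ y ∈ U, a y ∈ U := by
      induction ha using Algebra.adjoin_induction with
      | mem a ha => exact h a ha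
      | algebraMap c =>
        intro y hy
        exact U.smul_mem c hy
      | add a b _ _ ha hb =>
        intro y hy
        exact U.add_mem (ha y hy) (hb y hy)
      | mul a b _ _ ha hb =>
        intro y hy
        exact ha _ (hb y hy)
    exact this x hx

theorem mem_toA (U : Submodule ℂ M) (h : ∀ r ∈ R, ∀ x ∈ U, r x ∈ U) (x : M) :
    x ∈ toA R U h ↔ x ∈ U := Iff.rfl

theorem stable (N : Submodule (Algebra.adjoin ℂ R) M) (r : Module.End ℂ M) (hr : r ∈ R) (x : M)
    (hx : x ∈ N) : r x ∈ N :=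
  N.smul_mem ⟨r, Algebra.subset_adjoin hr⟩ hx

theorem isSS_of_semisimple (h : IsSemisimpleModule (Algebra.adjoin ℂ R) M) : IsSS R := by
  intro U hU
  obtain ⟨N, hN⟩ := exists_isCompl (toA R U hU)
  refine ⟨N.restrictScalars ℂ, fun r hr x hx => stable R N r hr x hx, ?_⟩
  constructor
  · rw [Submodule.disjoint_def]
    intro x hx hx'
    exact (Submodule.disjoint_def.1 hN.disjoint) x hx hx'
  · rw [Submodule.codisjoint_iff_exists_add_eq]
    intro z
    exact (Submodule.codisjoint_iff_exists_add_eq.1 hN.codisjoint) z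

end Cliffaux

open Cliffaux

theorem cliff : S_Cliff := by
  intro G _ M _ _ _ ρ R hss hconj hst
  have hmul : ∀ (a b : G) (x : M), ρ a (ρ b x) = ρ (a * b) x := fun a b x => by
    rw [map_mul]; rfl
  have hone : ∀ x : M, ρ 1 x = x := fun x => by rw [map_one]; rfl
  have hinv : ∀ (g : G) (x : M), ρ g (ρ g⁻¹ x) = x := fun g x => by
    rw [hmul, mul_inv_cancel, hone]
  have hinv' : ∀ (g : G) (x : M), ρ g⁻¹ (ρ g x) = x := fun g x => by
    rw [hmul, inv_mul_cancel, hone]
  apply isSS_of_semisimple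
  rw [← sSup_simples_eq_top_iff_isSemisimpleModule]
  set soc : Submodule (Algebra.adjoin ℂ R) M :=
    sSup {m : Submodule (Algebra.adjoin ℂ R) M | IsSimpleModule (Algebra.adjoin ℂ R) m} with hsoc
  -- the image and the preimage of a stable subspace
  have himg : ∀ (g : G) (N : Submodule (Algebra.adjoin ℂ R) M), ∀ r ∈ R,
      ∀ x ∈ (N.restrictScalars ℂ).map (ρ g), r x ∈ (N.restrictScalars ℂ).map (ρ g) := by
    rintro g N r hr x ⟨y, hy, rfl⟩
    have h1 := hconj g⁻¹ r hr
    rw [inv_inv] at h1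
    refine ⟨(ρ g⁻¹ * r * ρ g) y, stable R N _ h1 y hy, ?_⟩
    change ρ g (ρ g⁻¹ (r (ρ g y))) = r (ρ g y)
    rw [hinv]
  have hpre : ∀ (g : G) (N : Submodule (Algebra.adjoin ℂ R) M), ∀ r ∈ R,
      ∀ x ∈ (N.restrictScalars ℂ).comap (ρ g), r x ∈ (N.restrictScalars ℂ).comap (ρ g) := by
    intro g N r hr x hx
    have h1 := hconj g r hr
    have h2 : ρ g (r x) = (ρ g * r * ρ g⁻¹) (ρ g x) := by
      change ρ g (r x) = ρ g (r (ρ g⁻¹ (ρ g x)))
      rw [hinv']
    change ρ g (r x) ∈ N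
    rw [h2]
    exact stable R N _ h1 _ hx
  have hsimple : ∀ (g : G) (m : Submodule (Algebra.adjoin ℂ R) M),
      IsSimpleModule (Algebra.adjoin ℂ R) m →
      IsSimpleModule (Algebra.adjoin ℂ R) (toA R ((m.restrictScalars ℂ).map (ρ g)) (himg g m)) := by
    intro g m hm
    rw [isSimpleModule_iff_isAtom] at hm ⊢
    constructor
    · intro h
      apply hm.1
      rw [eq_bot_iff]
      intro x hx
      have h1 : ρ g x ∈ toA R ((m.restrictScalars ℂ).map (ρ g)) (himg g m) := ⟨x, hx, rfl⟩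
      rw [h, Submodule.mem_bot] at h1
      rw [Submodule.mem_bot, ← hinv' g x, h1, map_zero]
    · intro N hN
      have h1 : toA R ((N.restrictScalars ℂ).comap (ρ g)) (hpre g N) < m := by
        rw [SetLike.lt_iff_le_and_exists] at hN ⊢
        obtain ⟨h2, x, ⟨y, hy, rfl⟩, h4⟩ := hN
        refine ⟨fun z hz => ?_, y, hy, h4⟩
        obtain ⟨w, hw, hwz⟩ := h2 (show ρ g z ∈ N from hz)
        have : w = z := by rw [← hinv' g w, hwz, hinv']
        rwa [← this]
      have h2 := hm.2 _ h1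
      rw [eq_bot_iff]
      intro x hx
      have h3 : ρ g⁻¹ x ∈ toA R ((N.restrictScalars ℂ).comap (ρ g)) (hpre g N) := by
        change ρ g (ρ g⁻¹ x) ∈ N
        rwa [hinv]
      rw [h2, Submodule.mem_bot] at h3
      rw [Submodule.mem_bot, ← hinv g x, h3, map_zero]
  have hG : ∀ g, ∀ x ∈ soc.restrictScalars ℂ, ρ g x ∈ soc.restrictScalars ℂ := by
    intro g
    have h1 : soc ≤ toA R ((soc.restrictScalars ℂ).comap (ρ g)) (hpre g soc) := by
      rw [hsoc]
      refine sSup_le fun m hm => ?_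
      rw [← hsoc]
      intro x hx
      change ρ g x ∈ soc
      have h2 : toA R ((m.restrictScalars ℂ).map (ρ g)) (himg g m) ≤ soc := by
        rw [hsoc]
        exact le_sSup (hsimple g m hm)
      exact h2 ⟨x, hx, rfl⟩
    exact fun x hx => h1 hx
  obtain ⟨M', hM', hc⟩ := hss (soc.restrictScalars ℂ) (by
    rintro r ⟨g, rfl⟩ x hx
    exact hG g x hx)
  have hM'R := hst M' (fun g x hx => hM' _ ⟨g, rfl⟩ x hx)
  have : IsArtinian (Algebra.adjoin ℂ R) M := isArtinian_of_tower ℂ inferInstance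
  have hbot : toA R M' hM'R = ⊥ := by
    rcases eq_bot_or_exists_atom_le (toA R M' hM'R) with h | ⟨W, hW, hWM⟩
    · exact h
    · exfalso
      apply hW.1
      have h1 : W ≤ soc := by
        rw [hsoc]
        exact le_sSup (isSimpleModule_iff_isAtom.2 hW)
      rw [eq_bot_iff]
      intro x hx
      exact (Submodule.disjoint_def.1 hc.disjoint) x (h1 hx) (hWM hx)
  rw [eq_top_iff]
  intro x _
  obtain ⟨y, z, hy, hz, rfl⟩ := Submodule.codisjoint_iff_exists_add_eq.1 hc.codisjoint x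
  have hz' : z ∈ toA R M' hM'R := hz
  rw [hbot, Submodule.mem_bot] at hz'
  rw [hz', add_zero]
  exact hy

end Pool.Agent.N211.BT
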