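import Pool.Agent.N211.BT.Stm2
import Pool.Agent.N211.BT.Cliff

/-!
# Semisimplicity is preserved by the extension of the coefficients
-/

set_option autoImplicit false

namespace Pool.Agent.N211.BT

namespace UpAux

open Module Polynomial

section nil

variable {F : Type*} [Field F] [CharZero F] {M : Type*} [AddCommGroup M] [Module F M]
  [FiniteDimensional F M]

omit [FiniteDimensional F M] [CharZero F] in
theorem trace_mul_aeval (x : Module.End F M)
    (h : ∀ k : ℕ, 0 < k → LinearMap.trace F M (x ^ k) = 0) (r : F[X]) :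
    LinearMap.trace F M (x * aeval x r) = 0 := by
  induction r using Polynomial.induction_on' with
  | add p q hp hq => rw [map_add, mul_add, map_add, hp, hq, add_zero]
  | monomial n a =>
    have h1 : x * aeval x (monomial n a) = a • x ^ (n + 1) := by
      rw [aeval_monomial, ← mul_assoc, ← Algebra.commutes, mul_assoc, ← pow_succ',
        ← Algebra.smul_def]
    rw [h1, map_smul, h _ (Nat.succ_pos n), smul_zero]

theorem nil_of_trace (x : Module.End F M)
    (h : ∀ k : ℕ, 0 < k → LinearMap.trace F M (x ^ k) = 0) : IsNilpotent x := by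
  have hP0 : x.charpoly ≠ 0 := (LinearMap.charpoly_monic x).ne_zero
  obtain ⟨q, hq, hnd⟩ := Polynomial.exists_eq_pow_rootMultiplicity_mul_and_not_dvd _ hP0 0
  set a := x.charpoly.rootMultiplicity 0 with ha
  rw [map_zero, sub_zero] at hq hnd
  have hco : IsCoprime ((X : F[X]) ^ (a + 1)) q :=
    ((Polynomial.irreducible_X).coprime_iff_not_dvd.2 hnd).pow_left
  obtain ⟨u, v, huv⟩ := hco
  have hCH : aeval x (X ^ a * q) = 0 := by
    rw [← hq]; exact LinearMap.aeval_self_charpoly x
  set e : Module.End F M := aeval x (u * X ^ (a + 1)) with he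
  have hid : IsIdempotentElem e := by
    have h1 : (u * X ^ (a + 1)) * (u * X ^ (a + 1)) =
        u * X ^ (a + 1) - (u * v * X) * (X ^ a * q) := by
      have : u * X ^ (a + 1) = 1 - v * q := by rw [← huv]; ring
      calc (u * X ^ (a + 1)) * (u * X ^ (a + 1)) = (u * X ^ (a + 1)) * (1 - v * q) := by
            rw [this]
        _ = u * X ^ (a + 1) - (u * v * X) * (X ^ a * q) := by ring
    show e * e = e
    rw [he, ← map_mul, h1, map_sub, map_mul _ (u * v * X), hCH, mul_zero, sub_zero]
  have htr : LinearMap.trace F M e = 0 := by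
    have h1 : u * X ^ (a + 1) = X * (u * X ^ a) := by ring
    rw [he, h1, map_mul, aeval_X]
    exact trace_mul_aeval x h _
  have he0 : e = 0 := (LinearMap.IsIdempotentElem.trace_eq_zero_iff hid).1 htr
  refine ⟨a, ?_⟩
  have h2 : X ^ a = X ^ a * (u * X ^ (a + 1)) + v * (X ^ a * q) := by
    calc (X : F[X]) ^ a = X ^ a * (u * X ^ (a + 1) + v * q) := by rw [huv, mul_one]
      _ = _ := by ring
  calc x ^ a = aeval x ((X : F[X]) ^ a) := by rw [map_pow, aeval_X]
    _ = aeval x ((X : F[X]) ^ a) * e + aeval x v * aeval x (X ^ a * q) := by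
        conv_lhs => rw [h2]
        rw [map_add, map_mul, map_mul _ v]
    _ = 0 := by rw [he0, hCH, mul_zero, mul_zero, add_zero]

end nil

section ss

variable {F : Type} [Field F] {M : Type} [AddCommGroup M] [Module F M]

theorem stable_adjoin (R : Set (Module.End F M)) (U : Submodule F M)
    (hU : ∀ r ∈ R, ∀ x ∈ U, r x ∈ U) :
    ∀ r ∈ Algebra.adjoin F R, ∀ x ∈ U, r x ∈ U := by
  intro r hr
  induction hr using Algebra.adjoin_induction with
  | mem r hr => exact hU r hr
  | algebraMap c => intro x hx; simpa [Algebra.algebraMap_eq_smul_one] using U.smul_mem c hx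
  | add r s _ _ h1 h2 => intro x hx; exact U.add_mem (h1 x hx) (h2 x hx)
  | mul r s _ _ h1 h2 => intro x hx; exact h1 _ (h2 x hx)

theorem semisimple (R : Set (Module.End F M)) (hR : SSOn R ⊤) :
    IsSemisimpleModule (Algebra.adjoin F R) M := by
  refine (isSemisimpleModule_iff _ _).2 ⟨fun U => ?_⟩
  obtain ⟨U', -, hs, hc1, hc2⟩ := hR (U.restrictScalars F) le_top (fun r hr x hx => by
    exact U.smul_mem (⟨r, Algebra.subset_adjoin hr⟩ : Algebra.adjoin F R) hx)
  have hs' := stable_adjoin R U' hs
  refine ⟨{ carrier := U', add_mem' := fun ha hb => U'.add_mem ha hb, zero_mem' := U'.zero_mem,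
            smul_mem' := fun c x hx => hs' c.1 c.2 x hx }, ?_⟩
  have hc : IsCompl (U.restrictScalars F) U' := IsCompl.of_eq hc1 hc2
  rw [isCompl_iff, Submodule.disjoint_def, codisjoint_iff, Submodule.eq_top_iff'] at hc ⊢
  refine ⟨fun x hx hx' => hc.1 x hx hx', fun x => ?_⟩
  obtain ⟨y, hy, z, hz, hyz⟩ := Submodule.mem_sup.1 (hc.2 x)
  exact Submodule.mem_sup.2 ⟨y, hy, z, hz, hyz⟩

variable [FiniteDimensional F M]

/-- the radical of the trace form -/
def J (A : Subalgebra F (Module.End F M)) : Ideal A where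
  carrier := {x | ∀ y : A, LinearMap.trace F M ((x : Module.End F M) * y) = 0}
  add_mem' := by
    intro x x' hx hx' y
    rw [Subalgebra.coe_add, add_mul, map_add, hx y, hx' y, add_zero]
  zero_mem' := by intro y; simp
  smul_mem' := by
    intro c x hx y
    have := hx (y * c)
    rw [Subalgebra.coe_mul, ← mul_assoc, LinearMap.trace_mul_comm, ← mul_assoc] at this
    rwa [smul_eq_mul, Subalgebra.coe_mul]

theorem J_nil [CharZero F] (A : Subalgebra F (Module.End F M)) (x : A) (hx : x ∈ J A) :
    IsNilpotent x := by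
  have h1 : IsNilpotent (x : Module.End F M) := by
    refine nil_of_trace _ fun k hk => ?_
    obtain ⟨k, rfl⟩ := Nat.exists_eq_succ_of_ne_zero hk.ne'
    rw [pow_succ']
    have := hx (x ^ k)
    rwa [Subalgebra.coe_pow] at this
  obtain ⟨n, hn⟩ := h1
  exact ⟨n, Subtype.ext (by rw [Subalgebra.coe_pow, hn]; rfl)⟩

theorem J_le [CharZero F] (A : Subalgebra F (Module.End F M)) : J A ≤ Ring.jacobson A := by
  intro x hx
  rw [← Ideal.jacobson_bot, Ideal.mem_jacobson_iff]
  intro y
  have hyx : IsNilpotent (y * x) := J_nil A _ ((J A).mul_mem_left y hx)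
  obtain ⟨z, hz⟩ := (hyx.isUnit_one_add).exists_left_inv
  refine ⟨z, ?_⟩
  have : z * y * x + z - 1 = z * (1 + y * x) - 1 := by rw [mul_add, mul_one, mul_assoc]; abel
  rw [this, hz, sub_self]
  exact Submodule.zero_mem _

theorem eq_zero_of_trace [CharZero F] (R : Set (Module.End F M)) (hR : SSOn R ⊤)
    (x : Module.End F M) (hx : x ∈ Algebra.adjoin F R)
    (h : ∀ y ∈ Algebra.adjoin F R, LinearMap.trace F M (x * y) = 0) : x = 0 := by
  have := semisimple R hR
  have h1 : (⟨x, hx⟩ : Algebra.adjoin F R) ∈ J (Algebra.adjoin F R) := fun y => h y y.2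
  have h2 := IsSemisimpleModule.jacobson_le_annihilator (Algebra.adjoin F R) M (J_le _ h1)
  rw [Module.mem_annihilator] at h2
  ext m
  exact h2 m

/-- if the trace form is nondegenerate on the algebra, then the algebra is semisimple -/
theorem ss_of_trace (A : Subalgebra F (Module.End F M))
    (h : ∀ x ∈ A, (∀ y ∈ A, LinearMap.trace F M (x * y) = 0) → x = 0) :
    IsSemisimpleRing A := by
  have : IsArtinianRing A := isArtinian_of_tower F inferInstance
  rw [IsArtinianRing.isSemisimpleRing_iff_jacobson, eq_bot_iff]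
  intro x hx
  rw [Submodule.mem_bot]
  apply Subtype.ext
  refine h x x.2 fun y hy => ?_
  have h1 : x * ⟨y, hy⟩ ∈ Ring.jacobson A := Ideal.mul_mem_right _ _ hx
  obtain ⟨n, hn⟩ := IsArtinianRing.isNilpotent_jacobson_bot (R := A)
  rw [Ideal.jacobson_bot] at hn
  have h2 : IsNilpotent (x * ⟨y, hy⟩) := by
    refine ⟨n, ?_⟩
    have := Ideal.pow_mem_pow h1 n
    rw [hn] at this
    exact this
  have h3 : IsNilpotent ((x : Module.End F M) * y) := h2.map A.val
  exact (LinearMap.isNilpotent_trace_of_isNilpotent h3).eq_zero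

end ss

section ext

variable {E : Type} [Field E] [CharZero E] [Algebra E ℂ] {N : Type} [Fintype N] [DecidableEq N]

/-- extension of the coefficients of a matrix -/
noncomputable def up : Matrix N N E →+* Matrix N N ℂ := (algebraMap E ℂ).mapMatrix

omit [CharZero E] in
theorem up_smul (a : E) (y : Matrix N N E) : up (a • y) = (algebraMap E ℂ a) • up y := by
  ext i j
  simp [up, Matrix.map_apply]

theorem up_trace (y : Matrix N N E) : (up y).trace = algebraMap E ℂ y.trace := by
  simp [up, Matrix.trace, Matrix.diag, map_sum]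

theorem adj_mem (R : Set (Matrix N N E)) (x : Matrix N N ℂ) :
    x ∈ Algebra.adjoin ℂ (up '' R) ↔
      x ∈ Submodule.span ℂ (up '' (Algebra.adjoin E R : Set (Matrix N N E))) := by
  rw [← Subalgebra.mem_toSubmodule, Algebra.adjoin_eq_span]
  have h1 : (Submonoid.closure (up '' R) : Set (Matrix N N ℂ)) =
      up '' (Submonoid.closure R : Set (Matrix N N E)) := by
    have := MonoidHom.map_mclosure ((up : Matrix N N E →+* Matrix N N ℂ) :
      Matrix N N E →* Matrix N N ℂ) R
    have h2 := congrArg (fun S : Submonoid (Matrix N N ℂ) => (S : Set (Matrix N N ℂ))) this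
    exact h2.symm
  rw [h1]
  constructor
  · intro hx
    refine Submodule.span_mono (Set.image_mono ?_) hx
    exact Submonoid.closure_le.2 (Algebra.subset_adjoin : R ⊆
      (Algebra.adjoin E R).toSubmonoid)
  · intro hx
    refine Submodule.span_le.2 ?_ hx
    rintro _ ⟨y, hy, rfl⟩
    have hy' : y ∈ Submodule.span E (Submonoid.closure R : Set (Matrix N N E)) := by
      rw [← Algebra.adjoin_eq_span]; exact hy
    clear hy
    induction hy' using Submodule.span_induction with
    | mem y hy => exact Submodule.subset_span ⟨y, hy, rfl⟩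
    | zero => rw [map_zero]; exact Submodule.zero_mem _
    | add a b _ _ ha hb => rw [map_add]; exact Submodule.add_mem _ ha hb
    | smul a y _ hy => rw [up_smul]; exact Submodule.smul_mem _ _ hy

theorem nondeg (R : Set (Matrix N N E))
    (h : ∀ x ∈ Algebra.adjoin E R, (∀ y ∈ Algebra.adjoin E R, (x * y).trace = 0) → x = 0)
    (x : Matrix N N ℂ) (hx : x ∈ Algebra.adjoin ℂ (up '' R))
    (hxy : ∀ y ∈ Algebra.adjoin ℂ (up '' R), (x * y).trace = 0) : x = 0 := by
  classical
  set A := Algebra.adjoin E R with hA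
  let b := Module.finBasis E A
  set k := Module.finrank E A
  have hbA : ∀ i, (b i : Matrix N N E) ∈ A := fun i => (b i).2
  have hrep : ∀ y ∈ A, ∃ c : Fin k → E, y = ∑ i, c i • (b i : Matrix N N E) := by
    intro y hy
    refine ⟨fun i => b.repr ⟨y, hy⟩ i, ?_⟩
    have := congrArg (Subtype.val : A → Matrix N N E) (b.sum_repr ⟨y, hy⟩)
    rw [AddSubmonoidClass.coe_finsetSum] at this
    exact this.symm
  -- the Gram matrix
  let Gm : Matrix (Fin k) (Fin k) E := fun i j => ((b i : Matrix N N E) * b j).trace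
  have hdet : Gm.det ≠ 0 := by
    intro h0
    obtain ⟨v, hv, hv0⟩ := Matrix.exists_vecMul_eq_zero_iff.2 h0
    apply hv
    have hxA : (∑ i, v i • (b i : Matrix N N E)) ∈ A :=
      A.sum_mem fun i _ => A.smul_mem (hbA i) _
    have h1 := h _ hxA (by
      intro y hy
      obtain ⟨c, rfl⟩ := hrep y hy
      rw [Finset.mul_sum, Matrix.trace_sum]
      refine Finset.sum_eq_zero fun j _ => ?_
      rw [mul_smul_comm, Matrix.trace_smul, Finset.sum_mul, Matrix.trace_sum]
      have h2 := congrFun hv0 j
      rw [Matrix.vecMul, dotProduct] at h2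
      have h3 : ∑ i, ((v i • (b i : Matrix N N E)) * (b j : Matrix N N E)).trace = 0 := by
        rw [Pi.zero_apply] at h2
        rw [← h2]
        refine Finset.sum_congr rfl fun i _ => ?_
        rw [smul_mul_assoc, Matrix.trace_smul, smul_eq_mul]
      rw [h3, smul_zero])
    have h4 : ∑ i, v i • b i = 0 := by
      apply Subtype.ext
      rw [AddSubmonoidClass.coe_finsetSum]
      exact h1
    have h5 := Fintype.linearIndependent_iff.1 b.linearIndependent v h4
    exact funext h5
  -- the element
  have hx1 : ∃ c : Fin k → ℂ, x = ∑ i, c i • up (b i : Matrix N N E) := by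
    have hx' := (adj_mem R x).1 hx
    have hle : Submodule.span ℂ (up '' (Algebra.adjoin E R : Set (Matrix N N E))) ≤
        Submodule.span ℂ (Set.range fun i => up (b i : Matrix N N E)) := by
      refine Submodule.span_le.2 ?_
      rintro _ ⟨y, hy, rfl⟩
      obtain ⟨c, rfl⟩ := hrep y hy
      rw [map_sum]
      refine Submodule.sum_mem _ fun i _ => ?_
      rw [up_smul]
      exact Submodule.smul_mem _ _ (Submodule.subset_span ⟨i, rfl⟩)
    obtain ⟨c, hc⟩ := (Submodule.mem_span_range_iff_exists_fun ℂ).1 (hle hx')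
    exact ⟨c, hc.symm⟩
  obtain ⟨c, rfl⟩ := hx1
  have hc0 : c = 0 := by
    by_contra hc
    have h1 : (Gm.map (algebraMap E ℂ)).det = 0 := by
      refine Matrix.exists_vecMul_eq_zero_iff.1 ⟨c, hc, ?_⟩
      funext j
      have h2 := hxy (up (b j : Matrix N N E))
        ((adj_mem R _).2 (Submodule.subset_span ⟨_, hbA j, rfl⟩))
      rw [Finset.sum_mul, Matrix.trace_sum] at h2
      rw [Matrix.vecMul, dotProduct, Pi.zero_apply, ← h2]
      refine Finset.sum_congr rfl fun i _ => ?_
      rw [smul_mul_assoc, Matrix.trace_smul, smul_eq_mul, ← map_mul, up_trace]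
      rfl
    have h3 : (Gm.map (algebraMap E ℂ)).det = algebraMap E ℂ Gm.det :=
      ((algebraMap E ℂ).map_det Gm).symm
    rw [h3] at h1
    exact hdet ((map_eq_zero _).1 h1)
  rw [hc0]
  simp

end ext

section lin

variable {F : Type} [Field F] {N : Type} [Fintype N] [DecidableEq N]

theorem mem_lin (R : Set (Matrix N N F)) (x : Matrix N N F) :
    Matrix.toLin' x ∈ Algebra.adjoin F (Matrix.toLin' '' R) ↔ x ∈ Algebra.adjoin F R := by
  have h1 : Algebra.adjoin F (Matrix.toLin' '' R) =
      (Algebra.adjoin F R).map (Matrix.toLinAlgEquiv' (R := F) (n := N)).toAlgHom := by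
    rw [AlgHom.map_adjoin]
    rfl
  rw [h1, Subalgebra.mem_map]
  constructor
  · rintro ⟨y, hy, h2⟩
    have : y = x := (Matrix.toLin' (R := F) (m := N) (n := N)).injective h2
    rwa [← this]
  · intro h
    exact ⟨x, h, rfl⟩

end lin

end UpAux

open UpAux in
/-- Semisimplicity is preserved by the extension of the coefficients to the complex numbers. -/
theorem up : S_Up := by
  intro E _ _ _ N _ _ R hR
  have h1 : ∀ x ∈ Algebra.adjoin E R, (∀ y ∈ Algebra.adjoin E R, (x * y).trace = 0) → x = 0 := by
    intro x hx h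
    have h2 := eq_zero_of_trace (F := E) (M := N → E) _ hR (Matrix.toLin' x)
      ((mem_lin R x).2 hx) (by
        intro y hy
        obtain ⟨z, rfl⟩ := (Matrix.toLin' (R := E) (m := N) (n := N)).surjective y
        have hz := (mem_lin R z).1 hy
        have h3 := h z hz
        rw [← Matrix.trace_toLin'_eq, Matrix.toLin'_mul] at h3
        exact h3)
    exact (Matrix.toLin' (R := E) (m := N) (n := N)).injective (by rw [h2, map_zero])
  have h2 := nondeg R h1
  apply Cliffaux.isSS_of_semisimple
  set R' : Set (Matrix N N ℂ) := (fun y : Matrix N N E => y.map (algebraMap E ℂ)) '' R with hR'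
  have h3 : IsSemisimpleRing (Algebra.adjoin ℂ (Matrix.toLin' '' R')) := by
    apply ss_of_trace
    intro x hx h
    obtain ⟨z, rfl⟩ := (Matrix.toLin' (R := ℂ) (m := N) (n := N)).surjective x
    have h4 := h2 z ((mem_lin R' z).1 hx) (by
      intro y hy
      have h5 := h (Matrix.toLin' y) ((mem_lin R' y).2 hy)
      rw [← Matrix.trace_toLin'_eq, Matrix.toLin'_mul]
      exact h5)
    rw [h4, map_zero]
  infer_instance

end Pool.Agent.N211.BT
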