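import Pool.Agent.N211.BT.AdjD
import Pool.Agent.N211.BT.Fix
import Pool.Agent.N211.BT.Tate
import Pool.Agent.N211.BT.Even
import Pool.Agent.N211.BT.Up
import Pool.Agent.N211.BT.Down

/-!
# All auxiliary facts
-/

namespace Pool.Agent.N211.BT

theorem facts : Facts where
  ex := ex
  cj := conj
  adj := adj
  fix := fix
  tate := tate ex conj

end Pool.Agent.N211.BT
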