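import Pool.Agent.N211.BT.TG6

/-!
# Reduction to open subgroups
-/

set_option linter.unusedSectionVars false

open CategoryTheory AlgebraicGeometry TensorProduct

universe u

namespace Pool.Agent.N211.BT

open Module Matrix
open Pool.Agent.H914 Pool.Agent.H914.VarClass Pool.Agent.H914.VarClass.Obj
  Pool.Agent.H914.WeilCohomology
open Pool.Agent.Y121.AHS
open Pool.Agent.Y133.Half (pw wb)
open Pool.Agent.N996.BP (kp kp_apply)

variable {k : Type u} [Field k] {𝒱 : VarClass k} {ops : CycleOps 𝒱} {T : HodgeTheory ops}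
  {X : 𝒱.Obj} {E : Type} [Field E] [Algebra T.W.K E] {Γ : Type} [Group Γ]
  {G : GaloisAction T E Γ X} [TopologicalSpace Γ] [TopologicalSpace E] [IsTopologicalRing E]

/-- The action is continuous. -/
lemma cont_act (hA : G.IsArithmetic) (n : ℕ) (x : HL T.W E (pw X n))
    (φ : Module.Dual E (HL T.W E (pw X n))) : Continuous fun g => φ (G.ρ n g x) := by
  classical
  let e := Module.finBasis T.W.K (T.W.H X)
  have h1 : ∀ g, φ (G.ρ n g x) = ∑ w, (∑ v, (∏ i, rE G e g (w i) (v i)) * phi e E n x v) *
      φ (emL T.W E (wb e n w)) := by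
    intro g
    conv_lhs => rw [← sum_phi e n (G.ρ n g x)]
    rw [map_sum]
    refine Finset.sum_congr rfl fun w _ => ?_
    rw [map_smul, phi_act, mulVec, dotProduct, smul_eq_mul]
    simp only [kp_apply]
  have h2 : ∀ i j, Continuous fun g => rE G e g i j := fun i j =>
    hA.cont (emL T.W E (e j)) ((bL E e).coord i)
  rw [funext h1]
  refine continuous_finsetSum _ fun w _ => Continuous.mul ?_ continuous_const
  refine continuous_finsetSum _ fun v _ => Continuous.mul ?_ continuous_const
  exact continuous_finsetProd _ fun i _ => h2 _ _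

variable [T2Space E] [IsTopologicalGroup Γ]

/-- The Tate conjecture for open subgroups implies it for all subgroups of finite index. -/
lemma of_open (hA : G.IsArithmetic) {N : ℕ}
    (hT : ∀ Δ : Subgroup Γ, Δ.FiniteIndex → IsOpen (Δ : Set Γ) → G.TateConjecture N Δ)
    (Δ : Subgroup Γ) (hΔ : Δ.FiniteIndex) : G.TateConjecture N Δ := by
  obtain ⟨D, hD⟩ : ∃ D, D = Δ.topologicalClosure := ⟨_, rfl⟩
  have hle : Δ ≤ D := hD ▸ Δ.le_topologicalClosure
  have hDf : D.FiniteIndex := Subgroup.finiteIndex_of_le hle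
  have hDc : IsClosed (D : Set Γ) := hD ▸ Δ.isClosed_topologicalClosure
  have hTD := hT D hDf (D.isOpen_of_isClosed_of_finiteIndex hDc)
  have hcl : ∀ S : Set Γ, IsClosed S → (Δ : Set Γ) ⊆ S → ∀ g ∈ D, g ∈ S := by
    intro S hS hΔS g hg
    rw [hD] at hg
    exact closure_minimal hΔS hS hg
  constructor
  · intro j U hU hst
    have h1 : ∀ g ∈ D, ∀ x ∈ U, G.ρ N g x ∈ U := by
      intro g hg x hx
      by_contra hc
      obtain ⟨f, hf, hfU⟩ := Submodule.exists_dual_map_eq_bot_of_notMem hc inferInstance
      have hf0 : ∀ u ∈ U, f u = 0 := by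
        intro u hu
        have h2 : f u ∈ U.map f := Submodule.mem_map_of_mem hu
        rwa [hfU, Submodule.mem_bot] at h2
      exact hf (hcl {g | f (G.ρ N g x) = 0}
        (isClosed_eq (cont_act hA N x f) continuous_const)
        (fun g hg => hf0 _ (hst g hg x hx)) g hg)
    obtain ⟨U', h2, h3, h4⟩ := hTD.semisimple j U hU h1
    exact ⟨U', h2, fun g hg => h3 g (hle hg), h4⟩
  · intro j x hx hinv
    have h1 : G.IsInvariant D N j x := by
      intro g hg
      have h2 : ∀ φ : Module.Dual E (HL T.W E (pw X N)),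
          φ (G.ρ N g x) = φ (twL (G.χ g : E) j x) := by
        intro φ
        refine hcl {g | φ (G.ρ N g x) = φ (twL (G.χ g : E) j x)}
          (isClosed_eq (cont_act hA N x φ) ?_) (fun g hg => congrArg φ (hinv g hg)) g hg
        have h3 : (fun g => φ (twL (G.χ g : E) j x)) = fun g => (G.χ g : E) ^ j * φ x := by
          funext g
          exact map_smul φ _ x
        rw [h3]
        exact (hA.cont_χ.pow j).mul continuous_const
      rw [← sub_eq_zero]
      refine (Module.forall_dual_apply_eq_zero_iff E _).1 fun φ => ?_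
      rw [map_sub, h2, sub_self]
    refine Submodule.span_mono ?_ (hTD.surjective j x hx h1)
    rintro _ ⟨z, hz, rfl, hzD⟩
    exact ⟨z, hz, rfl, fun g hg => hzD g (hle hg)⟩

end Pool.Agent.N211.BT
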