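import Pool.Agent.N211.BT.Mem

/-!
# Semisimplicity on all powers
-/

set_option linter.unusedSectionVars false

namespace Pool.Agent.N211.BT

open Matrix Pool.Agent.N996.BP ComplexConjugate ComplexOrder

variable {ι : Type} [Fintype ι] [DecidableEq ι] {Γ : Type} [Group Γ] {G : GData ι Γ}

/-- The operator `s ^ deg`. -/
def dl (G : GData ι Γ) (s : ℂ) : Matrix ι ι ℂ := Matrix.diagonal fun i => s ^ G.deg i

/-- The operators `s ^ deg` are functions of the semisimple part. -/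
def S_AdjD : Prop := ∀ (ι : Type) [Fintype ι] [DecidableEq ι] (Γ : Type) [Group Γ] (G : GData ι Γ)
  (d : ND G) (κ : Type) [Fintype κ] [DecidableEq κ] (s : ℂ),
  kp κ (Matrix.diagonal fun i => s ^ G.deg i) ∈ Algebra.adjoin ℂ {kp κ (G.r d.f)}

section

variable {κ : Type} [Fintype κ] [DecidableEq κ]

lemma kp_dl_apply (s : ℂ) (c : (κ → ι) → ℂ) (i : κ → ι) :
    (kp κ (dl G s) *ᵥ c) i = s ^ (∑ k, G.deg (i k)) * c i := by
  rw [dl, kp_diagonal, Matrix.mulVec_diagonal, Finset.prod_pow_eq_pow_sum]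

lemma kp_dl_hom {s : ℂ} {m : ℕ} {c : (κ → ι) → ℂ} (hc : G.Hom m c) :
    kp κ (dl G s) *ᵥ c = s ^ m • c := by
  funext i
  rw [kp_dl_apply, Pi.smul_apply, smul_eq_mul]
  by_cases h : c i = 0
  · rw [h, mul_zero, mul_zero]
  · rw [hc i h]

lemma dl_mul (s t : ℂ) : dl G s * dl G t = dl G (s * t) := by
  rw [dl, dl, dl, Matrix.diagonal_mul_diagonal]
  congr 1
  funext i
  rw [mul_pow]

lemma dl_one : dl G 1 = 1 := by
  rw [dl, ← Matrix.diagonal_one]
  congr 1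
  funext i
  rw [one_pow]

lemma dl_comm_deg {y : Matrix ι ι ℂ} (hy : ∀ i j, y i j ≠ 0 → G.deg i = G.deg j) (s : ℂ) :
    dl G s * y = y * dl G s := by
  ext i j
  rw [dl, Matrix.diagonal_mul, Matrix.mul_diagonal]
  by_cases h : y i j = 0
  · rw [h, mul_zero, zero_mul]
  · rw [hy i j h, mul_comm]

/-- Matrices which fix the Tate classes preserve the degrees. -/
lemma dl_comm {p : Matrix ι ι ℂ} (hp : FixT G p (Unit ⊕ Unit)) (s : ℂ) :
    dl G s * p = p * dl G s := by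
  have h0 : ∀ m, p * blk G m G.Qi * pᵀ = blk G m G.Qi := fun m =>
    arr_unit_fix.1 (hp m _ (tate_blk m))
  obtain ⟨h1, -⟩ := form_of_fix hp
  have h2 : ∀ m, dl G s * blk G m G.Qi = (s ^ m) • blk G m G.Qi := by
    intro m
    ext i j
    rw [dl, Matrix.diagonal_mul, Matrix.smul_apply, blk, Matrix.of_apply, smul_eq_mul]
    split_ifs with h
    · rw [h]
    · rw [mul_zero, mul_zero]
  have h3 : p * (dl G s * G.Qi) * pᵀ = dl G s * G.Qi := by
    have h4 : dl G s * G.Qi = ∑ m ∈ Finset.univ.image G.deg, (s ^ m) • blk G m G.Qi := by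
      conv_lhs => rw [sum_blk (G := G) G.Qi]
      rw [Matrix.mul_sum]
      exact Finset.sum_congr rfl fun m _ => h2 m
    rw [h4, Matrix.mul_sum, Matrix.sum_mul]
    refine Finset.sum_congr rfl fun m _ => ?_
    rw [Matrix.mul_smul, Matrix.smul_mul, h0]
  have h5 : p * (G.Qi * pᵀ * G.Q) = 1 := inv_of_form h1
  have h6 : (G.Qi * pᵀ * G.Q) * p = 1 := mul_eq_one_comm.1 h5
  have h7 : p * dl G s * (G.Qi * pᵀ * G.Q) = dl G s * (p * (G.Qi * pᵀ * G.Q)) := by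
    calc p * dl G s * (G.Qi * pᵀ * G.Q) = (p * (dl G s * G.Qi) * pᵀ) * G.Q := by
          simp only [Matrix.mul_assoc]
      _ = dl G s * (p * G.Qi * pᵀ) * G.Q := by rw [h3, h1]
      _ = _ := by simp only [Matrix.mul_assoc]
  calc dl G s * p = dl G s * (p * (G.Qi * pᵀ * G.Q)) * p := by rw [h5, Matrix.mul_one]
    _ = p * dl G s * (G.Qi * pᵀ * G.Q) * p := by rw [h7]
    _ = p * dl G s * ((G.Qi * pᵀ * G.Q) * p) := by simp only [Matrix.mul_assoc]
    _ = p * dl G s := by rw [h6, Matrix.mul_one]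

end

/-- The matrices which fix all Tate classes. -/
def GT (G : GData ι Γ) : Set (Matrix ι ι ℂ) :=
  {p | ∀ (κ : Type) [Fintype κ] [DecidableEq κ], FixT G p κ}

lemma GT_mul {x y : Matrix ι ι ℂ} (hx : x ∈ GT G) (hy : y ∈ GT G) : x * y ∈ GT G := by
  intro κ _ _ j c hc
  rw [kp_mul, ← Matrix.mulVec_mulVec, hy κ j c hc, hx κ j c hc]

lemma GT_inv {x y : Matrix ι ι ℂ} (hx : x ∈ GT G) (h : y * x = 1) : y ∈ GT G := by
  intro κ _ _ j c hc
  conv_lhs => rw [← hx κ j c hc]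
  rw [Matrix.mulVec_mulVec, kp_inv_mul h, Matrix.one_mulVec]

/-- Subspaces stable under the Galois group are stable under the matrices which fix the Tate
classes. -/
lemma stab_GT (F : Facts) (hD : G.Dense) {N : ℕ}
    (hN : 4 * bd (Fintype.card ι ^ 2) (wB G) ≤ N) (hs : IsSS (Set.range (G.rho (Fin N))))
    {κ : Type} [Fintype κ] [DecidableEq κ] {U : Submodule ℂ ((κ → ι) → ℂ)}
    (hU : ∀ g, ∀ x ∈ U, kp κ (G.r g) *ᵥ x ∈ U) {p : Matrix ι ι ℂ} (hp : p ∈ GT G) :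
    ∀ x ∈ U, kp κ p *ᵥ x ∈ U := by
  have h1 : ∀ f : Γ, ∀ r ∈ ({kp κ (G.r f)} : Set (Matrix (κ → ι) (κ → ι) ℂ)), ∀ x ∈ U,
      r *ᵥ x ∈ U := by
    rintro f _ rfl x hx
    exact hU f x hx
  have heps : ∀ x ∈ U, kp κ G.eps *ᵥ x ∈ U := by
    obtain ⟨d⟩ := exists_nd F hD
    exact stable_adjoin (h1 d.f) (F.adj ι Γ G d κ).2
  have hGG : ∀ γ ∈ (cofam G).GG, ∀ x ∈ U, kp κ γ *ᵥ x ∈ U := by
    intro γ hγ
    refine mem_GG_ind (P := fun γ => ∀ x ∈ U, kp κ γ *ᵥ x ∈ U) ?_ ?_ ?_ hγ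
    · intro x hx
      rwa [kp_one, Matrix.one_mulVec]
    · intro d t ht
      exact stable_adjoin (h1 d.f) ((F.adj ι Γ G d κ).1 t ht)
    · intro x y hx hy v hv
      rw [kp_mul, ← Matrix.mulVec_mulVec]
      exact hx _ (hy v hv)
  have hcl : ∀ q : Matrix ι ι ℂ, (cofam G).Cl q → ∀ x ∈ U, kp κ q *ᵥ x ∈ U := by
    intro q hq v hv
    by_contra hc
    obtain ⟨f, hf, hfU⟩ := Submodule.exists_dual_map_eq_bot_of_notMem hc inferInstance
    have hf0 : ∀ u ∈ U, f u = 0 := by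
      intro u hu
      have h2 : f u ∈ U.map f := Submodule.mem_map_of_mem hu
      rwa [hfU, Submodule.mem_bot] at h2
    let b : (κ → ι) → ℂ := fun i => f (Pi.single i 1)
    have hfb : ∀ a : (κ → ι) → ℂ, f a = ∑ i, a i * b i := by
      intro a
      have h2 : a = ∑ i, a i • (Pi.single i 1 : (κ → ι) → ℂ) := by
        ext j
        rw [Finset.sum_apply, Finset.sum_eq_single j]
        · simp
        · intro i _ hi
          rw [Pi.smul_apply, Pi.single_eq_of_ne (Ne.symm hi), smul_zero]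
        · intro h; exact absurd (Finset.mem_univ j) h
      conv_lhs => rw [h2, map_sum]
      refine Finset.sum_congr rfl fun i _ => ?_
      rw [map_smul, smul_eq_mul]
    let P : MvPolynomial (ι × ι) ℂ :=
      ∑ i, (∑ j, kp κ (gm ℂ ι) i j * MvPolynomial.C (v j)) * MvPolynomial.C (b i)
    have hP : ∀ y : Matrix ι ι ℂ, MvPolynomial.aeval (ent y) P = f (kp κ y *ᵥ v) := by
      intro y
      rw [hfb, map_sum]
      refine Finset.sum_congr rfl fun i _ => ?_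
      rw [map_mul, map_sum, MvPolynomial.aeval_C]
      congr 1
      rw [Matrix.mulVec, dotProduct]
      refine Finset.sum_congr rfl fun j _ => ?_
      rw [map_mul, MvPolynomial.aeval_C, kp_apply, map_prod, kp_apply]
      congr 1
      refine Finset.prod_congr rfl fun k _ => ?_
      rw [gm, Matrix.of_apply, MvPolynomial.aeval_X]
      rfl
    have h2 := hq P fun γ hγ => by
      rw [hP]
      exact hf0 _ (hGG γ hγ v hv)
    rw [hP] at h2
    exact hf h2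
  rcases cl_of_fix F hD hN hs (fun κ _ _ _ => hp κ) with h | h
  · exact hcl p h
  · intro x hx
    have h2 : kp κ p = kp κ G.eps * kp κ (G.eps * p) := by
      rw [← kp_mul, ← Matrix.mul_assoc, eps_sq, Matrix.one_mul]
    rw [h2, ← Matrix.mulVec_mulVec]
    exact heps _ (hcl _ h x hx)

/-- Subspaces stable under the Galois group are stable under the operators `s ^ deg`. -/
lemma stab_dl (F : Facts) (hdl : S_AdjD) (hD : G.Dense) {κ : Type} [Fintype κ] [DecidableEq κ]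
    {U : Submodule ℂ ((κ → ι) → ℂ)} (hU : ∀ g, ∀ x ∈ U, kp κ (G.r g) *ᵥ x ∈ U) (s : ℂ) :
    ∀ x ∈ U, kp κ (dl G s) *ᵥ x ∈ U := by
  obtain ⟨d⟩ := exists_nd F hD
  refine stable_adjoin (R := {kp κ (G.r d.f)}) ?_ (hdl ι Γ G d κ s)
  rintro _ rfl x hx
  exact hU d.f x hx

lemma chi_ne (g : Γ) : G.χ g ≠ 0 := by
  intro h
  have h1 := G.χ_mul g g⁻¹
  rw [mul_inv_cancel, G.χ_one, h, zero_mul] at h1
  exact one_ne_zero h1

/-- On a subgroup of finite index the normalised matrices fix the Tate classes with a given number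
of indices. -/
lemma exists_fixK (κ : Type) [Fintype κ] [DecidableEq κ] : ∃ K : Subgroup Γ, K.FiniteIndex ∧
    ∀ g ∈ K, ∀ s : ℂ, s ^ 2 = G.χ g → FixT G (G.r g * dl G s⁻¹) κ := by
  classical
  let T : Set ((κ → ι) → ℂ) := {c | ∃ j, G.Tate j c}
  obtain ⟨b, hbT, hb, hli⟩ := exists_linearIndependent ℂ T
  have hfin : Finite b := hli.finite_of_isNoetherian
  have h1 : ∀ c : b, ∃ (j : ℕ) (K : Subgroup Γ), K.FiniteIndex ∧ G.Hom (2 * j) (c : (κ → ι) → ℂ) ∧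
      ∀ g ∈ K, kp κ (G.r g) *ᵥ (c : (κ → ι) → ℂ) = G.χ g ^ j • (c : (κ → ι) → ℂ) := by
    intro c
    obtain ⟨j, hj, K, hK, h⟩ := hbT c.2
    exact ⟨j, K, hK, hj, h⟩
  choose j K hK hj h using h1
  refine ⟨⨅ c, K c, Subgroup.finiteIndex_iInf hK, fun g hg s hs => ?_⟩
  have hs0 : s ≠ 0 := by
    rintro rfl
    exact chi_ne (G := G) g (by rw [← hs]; norm_num)
  have key : ∀ c ∈ Submodule.span ℂ b, kp κ (G.r g * dl G s⁻¹) *ᵥ c = c := by
    intro c hc
    refine Submodule.span_induction (p := fun c _ => kp κ (G.r g * dl G s⁻¹) *ᵥ c = c)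
      ?_ ?_ ?_ ?_ hc
    · intro c hc
      have hg' : g ∈ K ⟨c, hc⟩ := (Subgroup.mem_iInf.1 hg) ⟨c, hc⟩
      rw [kp_mul, ← Matrix.mulVec_mulVec, kp_dl_hom (hj ⟨c, hc⟩), Matrix.mulVec_smul,
        h ⟨c, hc⟩ g hg', smul_smul, ← hs, ← pow_mul, inv_pow, inv_mul_cancel₀ (pow_ne_zero _ hs0),
        one_smul]
    · exact Matrix.mulVec_zero _
    · intro x y _ _ hx hy
      rw [Matrix.mulVec_add, hx, hy]
    · intro t x _ hx
      rw [Matrix.mulVec_smul, hx]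
  intro j c hc
  apply key
  rw [hb]
  exact Submodule.subset_span ⟨j, hc⟩

lemma tate_rei {κ l : Type} [Fintype κ] [DecidableEq κ] [Fintype l] [DecidableEq l] (e : κ ≃ l)
    {j : ℕ} {c : (κ → ι) → ℂ} (hc : G.Tate j c) : G.Tate j (rei e c) := by
  obtain ⟨h1, K, hK, h2⟩ := hc
  refine ⟨fun i hi => ?_, K, hK, fun g hg => ?_⟩
  · rw [← h1 _ hi]
    exact (Equiv.sum_comp e fun k => G.deg (i k)).symm
  · rw [kp_rei, h2 g hg]
    rfl

lemma fixT_rei {κ l : Type} [Fintype κ] [DecidableEq κ] [Fintype l] [DecidableEq l] (e : κ ≃ l)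
    {p : Matrix ι ι ℂ} (hp : FixT G p κ) : FixT G p l := by
  intro j c hc
  have h1 := hp j _ (tate_rei e.symm hc)
  rw [kp_rei] at h1
  have h2 := congrArg (rei e) h1
  rw [rei_rei, rei_rei, Equiv.symm_trans_self] at h2
  exact h2

/-- On a subgroup of finite index the normalised matrices fix all Tate classes. -/
lemma exists_K (F : Facts) (hD : G.Dense) {N : ℕ} (hN : 4 * bd (Fintype.card ι ^ 2) (wB G) ≤ N)
    (hs : IsSS (Set.range (G.rho (Fin N)))) : ∃ K : Subgroup Γ, K.FiniteIndex ∧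
      ∀ g ∈ K, ∀ s : ℂ, s ^ 2 = G.χ g → G.r g * dl G s⁻¹ ∈ GT G := by
  choose K hK h using fun n : Fin (N + 1) => exists_fixK (G := G) (Fin n)
  refine ⟨⨅ n, K n, Subgroup.finiteIndex_iInf hK, fun g hg s hs' => ?_⟩
  refine fun κ _ _ => fix_all F hD hN hs (fun κ _ _ hκ => ?_) κ
  have h1 := h ⟨Fintype.card κ, by omega⟩ g ((Subgroup.mem_iInf.1 hg) _) s hs'
  exact fixT_rei (Fintype.equivFin κ).symm h1

namespace Both

variable {H : HData ι} {A : ∀ n : ℕ, Submodule ℚ ((Fin (n + 1) → ι) → ℚ)} {N : ℕ}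

lemma weil_mem (B : Both H A G N) (F : Facts) {t : ℂ} (ht : t ≠ 0) : H.l t ∈ GT G :=
  fun κ _ _ => B.fixT F (fun _ _ _ _ ha => B.rf.leQ ha t ht) κ

/-- The adjoint matrices. -/
lemma adj (B : Both H A G N) (F : Facts) {p : Matrix ι ι ℂ} (hp : p ∈ GT G) :
    ∃ y ∈ GT G, (cR H.D.M)ᴴ * cR H.D.M * p = yᴴ * ((cR H.D.M)ᴴ * cR H.D.M) := by
  obtain ⟨Z, hZ⟩ : ∃ Z, Z = cQ H.Qr * H.l Complex.I := ⟨_, rfl⟩
  have hZS : Z = cR H.D.S := by rw [hZ, ← cR_Q, ← cR_C, ← cR_mul, H.D.S_eq]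
  have hZH : Zᴴ = Z := by rw [hZS, cR_conjTranspose, H.D.S_tr]
  have hS : (cR H.D.M)ᴴ * cR H.D.M = Z := by
    rw [hZS, cR_conjTranspose, ← cR_mul, RData.S]
  rw [hS]
  have hpc : p.map conj ∈ GT G := fun κ _ _ => B.conjT F (fun κ _ _ => hp κ) κ
  obtain ⟨h1, -⟩ := form_of_fix (hpc (Unit ⊕ Unit))
  have h2 := inv_of_form h1
  obtain ⟨h, hh⟩ : ∃ h, h = G.Qi * (p.map conj)ᵀ * G.Q := ⟨_, rfl⟩
  rw [← hh] at h2
  have hhT : h ∈ GT G := GT_inv hpc (mul_eq_one_comm.1 h2)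
  have hQh : (p.map conj)ᵀ * cQ H.Qr = cQ H.Qr * h := by
    rw [hh, ← B.hQ, ← Matrix.mul_assoc, ← Matrix.mul_assoc, G.hQ, Matrix.one_mul]
  refine ⟨H.l Complex.I⁻¹ * h * H.l Complex.I, GT_mul (GT_mul
    (B.weil_mem F (inv_ne_zero Complex.I_ne_zero)) hhT) (B.weil_mem F Complex.I_ne_zero), ?_⟩
  have h1 : pᴴ = (p.map conj)ᵀ := by
    ext i j; simp [Matrix.conjTranspose_apply]
  have h2 : Z * (H.l Complex.I⁻¹ * h * H.l Complex.I) = pᴴ * Z := by
    calc Z * (H.l Complex.I⁻¹ * h * H.l Complex.I) =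
        cQ H.Qr * (H.l Complex.I * H.l Complex.I⁻¹) * h * H.l Complex.I := by
          rw [hZ]; simp only [Matrix.mul_assoc]
      _ = (cQ H.Qr * h) * H.l Complex.I := by
          rw [H.l_inv Complex.I_ne_zero, Matrix.mul_one]
      _ = _ := by rw [← hQh, h1, hZ, Matrix.mul_assoc]
  have h3 : (Z * (H.l Complex.I⁻¹ * h * H.l Complex.I))ᴴ = (pᴴ * Z)ᴴ := by rw [h2]
  rw [Matrix.conjTranspose_mul Z, Matrix.conjTranspose_mul pᴴ, hZH,
    Matrix.conjTranspose_conjTranspose] at h3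
  exact h3.symm

lemma Q_deg (G : GData ι Γ) (i j : ι) (h : G.Q i j ≠ 0) : G.deg i = G.deg j := by
  -- the form commutes with the operators `s ^ deg`, since its inverse does
  have hQ' : G.Qi * G.Q = 1 := mul_eq_one_comm.1 G.hQ
  have h1 : dl G 2 * G.Q = G.Q * dl G 2 := by
    have h2 := dl_comm_deg (G := G) G.Q_deg 2
    calc dl G 2 * G.Q = G.Q * (G.Qi * dl G 2) * G.Q := by
          rw [← Matrix.mul_assoc, G.hQ, Matrix.one_mul]
      _ = G.Q * dl G 2 * (G.Qi * G.Q) := by rw [← h2]; simp only [Matrix.mul_assoc]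
      _ = _ := by rw [hQ', Matrix.mul_one]
  have h2 := congrFun (congrFun h1 i) j
  rw [dl, Matrix.diagonal_mul, Matrix.mul_diagonal, mul_comm] at h2
  have h3 := mul_left_cancel₀ h h2
  have h4 : (2 : ℕ) ^ G.deg i = 2 ^ G.deg j := by exact_mod_cast h3
  exact Nat.pow_right_injective le_rfl h4

lemma adj_dl (B : Both H A G N) (F : Facts) (s : ℂ) :
    (cR H.D.M)ᴴ * cR H.D.M * dl G s = (dl G (conj s))ᴴ * ((cR H.D.M)ᴴ * cR H.D.M) := by
  have hS : (cR H.D.M)ᴴ * cR H.D.M = G.Q * H.l Complex.I := by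
    rw [B.hQ, ← cR_Q, ← cR_C, cR_conjTranspose, ← cR_mul, ← cR_mul, ← H.D.S_eq]
    rfl
  have h1 : (dl G (conj s))ᴴ = dl G s := by
    rw [dl, Matrix.diagonal_conjTranspose, dl]
    congr 1
    funext i
    simp
  rw [hS, h1, Matrix.mul_assoc, ← dl_comm (B.weil_mem F Complex.I_ne_zero (Unit ⊕ Unit)),
    ← Matrix.mul_assoc, ← dl_comm_deg (Q_deg G), Matrix.mul_assoc]

/-- **The representation on all arrays is semisimple.** -/
theorem ss_all (B : Both H A G N) (F : Facts) (hdl : S_AdjD) (hrel : S_RelOne) (κ : Type)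
    [Fintype κ] [DecidableEq κ] : IsSS (Set.range (G.rho κ)) := by
  intro U hU
  have hU' : ∀ g, ∀ x ∈ U, kp κ (G.r g) *ᵥ x ∈ U := fun g x hx => hU _ ⟨g, rfl⟩ x hx
  obtain ⟨M, hM⟩ : ∃ M, M = kp κ (cR H.D.M) := ⟨_, rfl⟩
  obtain ⟨Mi, hMi⟩ : ∃ Mi, Mi = kp κ (cR H.D.Mi) := ⟨_, rfl⟩
  have hMM : Mi * M = 1 := by
    rw [hM, hMi, ← kp_mul, ← cR_mul, H.D.hM', cR_one, kp_one]
  let V : Submodule ℂ ((κ → ι) → ℂ) :=
    { carrier := {v | ∀ u ∈ U, star (M *ᵥ u) ⬝ᵥ (M *ᵥ v) = 0}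
      add_mem' := fun {a b} ha hb u hu => by
        rw [Matrix.mulVec_add, dotProduct_add, ha u hu, hb u hu, add_zero]
      zero_mem' := fun u _ => by rw [Matrix.mulVec_zero, dotProduct_zero]
      smul_mem' := fun c v hv u hu => by
        rw [Matrix.mulVec_smul, dotProduct_smul, hv u hu, smul_zero] }
  have hcompl : IsCompl U V := by
    rw [isCompl_iff]
    constructor
    · rw [Submodule.disjoint_def]
      intro v hv hv'
      have h1 : M *ᵥ v = 0 := dotProduct_star_self_eq_zero.1 (hv' v hv)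
      have h2 : Mi *ᵥ (M *ᵥ v) = 0 := by rw [h1, Matrix.mulVec_zero]
      rwa [Matrix.mulVec_mulVec, hMM, Matrix.one_mulVec] at h2
    · rw [codisjoint_iff, eq_top_iff]
      intro v _
      obtain ⟨u, hu, h⟩ := exists_orth M U v
      have h1 : v = u + (v - u) := by abel
      rw [h1]
      exact Submodule.add_mem_sup hu h
  have hstab : ∀ x y : Matrix ι ι ℂ, (cR H.D.M)ᴴ * cR H.D.M * x =
      yᴴ * ((cR H.D.M)ᴴ * cR H.D.M) → (∀ u ∈ U, kp κ y *ᵥ u ∈ U) →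
        ∀ v ∈ V, kp κ x *ᵥ v ∈ V := by
    intro x y hxy hy v hv u hu
    have h0 : Mᴴ * M * kp κ x = (kp κ y)ᴴ * (Mᴴ * M) := by
      have h1 : Mᴴ * M = kp κ ((cR H.D.M)ᴴ * cR H.D.M) := by
        rw [hM, kp_conjTranspose, ← kp_mul]
      rw [h1, ← kp_mul, hxy, kp_conjTranspose, ← kp_mul]
    have h1 : ∀ a b : (κ → ι) → ℂ, star (M *ᵥ a) ⬝ᵥ (M *ᵥ b) = star a ⬝ᵥ ((Mᴴ * M) *ᵥ b) := by
      intro a b
      rw [Matrix.star_mulVec, ← Matrix.dotProduct_mulVec, Matrix.mulVec_mulVec]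
    rw [h1, Matrix.mulVec_mulVec, h0, ← Matrix.mulVec_mulVec, Matrix.dotProduct_mulVec,
      ← Matrix.star_mulVec, ← h1]
    exact hv _ (hy u hu)
  obtain ⟨K, hK, hKG⟩ := exists_K F B.dense B.bound B.ss
  have hKV : ∀ g ∈ K, ∀ x ∈ V, G.rho κ g x ∈ V := by
    intro g hg x hx
    obtain ⟨s, hs⟩ := IsAlgClosed.exists_pow_nat_eq (G.χ g) (n := 2) two_pos
    have hs0 : s ≠ 0 := by
      rintro rfl
      exact chi_ne (G := G) g (by rw [← hs]; norm_num)
    have h1 := hKG g hg s hs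
    obtain ⟨y, hy, hy'⟩ := B.adj F h1
    have h2 : G.r g = G.r g * dl G s⁻¹ * dl G s := by
      rw [Matrix.mul_assoc, dl_mul, inv_mul_cancel₀ hs0, dl_one, Matrix.mul_one]
    rw [GData.rho_apply, h2, kp_mul, ← Matrix.mulVec_mulVec]
    refine hstab _ y hy' (stab_GT F B.dense B.bound B.ss hU' hy) _ ?_
    exact hstab _ _ (B.adj_dl F s) (stab_dl F hdl B.dense hU' _) _ hx
  obtain ⟨W, hW, hUW⟩ := hrel Γ _ (G.rho κ) K hK U hU' ⟨V, hKV, hcompl⟩
  exact ⟨W, fun r hr x hx => by obtain ⟨g, rfl⟩ := hr; exact hW g x hx, hUW⟩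

end Both

end Pool.Agent.N211.BT
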