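import Pool.Agent.N211.BT.Newt
import Pool.Agent.N211.BT.SS

/-!
# The operators `s ^ deg`
-/

namespace Pool.Agent.N211.BT

open Matrix Pool.Agent.N996.BP

theorem adjD : S_AdjD := by
  intro ι _ _ Γ _ G d κ _ _ s
  have h1 : (Matrix.diagonal fun i => s ^ G.deg i) =
      d.P * Matrix.diagonal (fun a => s ^ d.dg a) * d.Pi := by
    have h2 : (Matrix.diagonal fun i => s ^ G.deg i) * d.P =
        d.P * Matrix.diagonal (fun a => s ^ d.dg a) := by
      ext i a
      rw [Matrix.diagonal_mul, Matrix.mul_diagonal]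
      by_cases h : d.P i a = 0
      · rw [h]; ring
      · rw [d.hom i a h]; ring
    rw [← h2, Matrix.mul_assoc, d.inv, Matrix.mul_one]
  rw [h1]
  refine adj_aux d κ _ fun I J h => ?_
  rw [Finset.prod_pow_eq_pow_sum, Finset.prod_pow_eq_pow_sum, (sums_of_prod d h).1]

end Pool.Agent.N211.BT
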