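import Pool.Agent.N211.BT.GDefs
import Pool.Agent.N996.BP.Fin1

/-!
# The cohomology with extended coefficients: bases and linear maps
-/

set_option linter.unusedSectionVars false

open CategoryTheory AlgebraicGeometry TensorProduct

universe u

namespace Pool.Agent.N211.BT

open Module
open Pool.Agent.H914 Pool.Agent.H914.VarClass Pool.Agent.H914.VarClass.Obj
  Pool.Agent.H914.WeilCohomology
open Pool.Agent.Y121.AHS
open Pool.Agent.Y133.Half (pw prj prj_castSucc prj_last pfst psnd wb wb_zero wb_succ)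
open Pool.Agent.N996.BP (IsCoordinateMap Bil kp kp_apply)

variable {k : Type u} [Field k] {𝒱 : VarClass k} {ops : CycleOps 𝒱}
  {W : WeilCohomology.{u, 0} ops} {E : Type} [Field E] [Algebra W.K E] {X Y : 𝒱.Obj}

/-! ### The linear maps -/

/-- The product. -/
noncomputable def mulB (W : WeilCohomology.{u, 0} ops) (E : Type) [Field E] [Algebra W.K E]
    (X : 𝒱.Obj) : HL W E X →ₗ[E] HL W E X →ₗ[E] HL W E X :=
  (LinearMap.mul E (E ⊗[W.K] W.H X) : E ⊗[W.K] W.H X →ₗ[E] E ⊗[W.K] W.H X →ₗ[E] E ⊗[W.K] W.H X)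

lemma mulB_apply (x y : HL W E X) : mulB W E X x y = mulL x y := rfl

/-- The pull-back. -/
noncomputable def mapB (E : Type) [Field E] [Algebra W.K E] (f : X ⟶ Y) :
    HL W E Y →ₗ[E] HL W E X :=
  ((W.map f).toLinearMap.baseChange E : E ⊗[W.K] W.H Y →ₗ[E] E ⊗[W.K] W.H X)

lemma mapB_apply (f : X ⟶ Y) (x : HL W E Y) : mapB E f x = mapL f x := rfl

/-- The trace. -/
noncomputable def trB (W : WeilCohomology.{u, 0} ops) (E : Type) [Field E] [Algebra W.K E]
    (X : 𝒱.Obj) : HL W E X →ₗ[E] E :=
  ((TensorProduct.AlgebraTensorModule.rid W.K E E).toLinearMap ∘ₗ (W.tr X).baseChange E :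
    E ⊗[W.K] W.H X →ₗ[E] E)

lemma trB_apply (x : HL W E X) : trB W E X x = trL x := rfl

lemma twL_eq (c : E) (j : ℕ) (x : HL W E X) : twL c j x = c ^ j • x := rfl

/-! ### Rational classes -/

lemma emL_add (a b : W.H X) : emL W E (a + b) = emL W E a + emL W E b :=
  TensorProduct.tmul_add (1 : E) a b

lemma emL_zero : emL W E (0 : W.H X) = 0 := TensorProduct.tmul_zero _ (1 : E)

lemma emL_smul (r : W.K) (a : W.H X) : emL W E (r • a) = algebraMap W.K E r • emL W E a := by
  change (1 : E) ⊗ₜ[W.K] (r • a) = (algebraMap W.K E r) • ((1 : E) ⊗ₜ[W.K] a)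
  rw [TensorProduct.tmul_smul, algebraMap_smul]

lemma emL_sum {α : Type*} (s : Finset α) (f : α → W.H X) :
    emL W E (∑ i ∈ s, f i) = ∑ i ∈ s, emL W E (f i) := by
  classical
  induction s using Finset.induction_on with
  | empty => rw [Finset.sum_empty, Finset.sum_empty, emL_zero]
  | insert a s ha ih => rw [Finset.sum_insert ha, Finset.sum_insert ha, emL_add, ih]

lemma emL_mul (a b : W.H X) : emL W E (a * b) = mulL (emL W E a) (emL W E b) := by
  have h : (1 : E) ⊗ₜ[W.K] (a * b) = ((1 : E) ⊗ₜ[W.K] a) * ((1 : E) ⊗ₜ[W.K] b) := by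
    rw [Algebra.TensorProduct.tmul_mul_tmul, one_mul]
  exact h

lemma emL_map (f : X ⟶ Y) (a : W.H Y) : emL W E (W.map f a) = mapL f (emL W E a) := by
  have h : (W.map f).toLinearMap.baseChange E ((1 : E) ⊗ₜ[W.K] a) =
      (1 : E) ⊗ₜ[W.K] (W.map f a) := LinearMap.baseChange_tmul _ _ _
  exact h.symm

lemma trL_emL (a : W.H X) : trL (emL W E a) = algebraMap W.K E (W.tr X a) := by
  have h : TensorProduct.AlgebraTensorModule.rid W.K E E
      ((W.tr X).baseChange E ((1 : E) ⊗ₜ[W.K] a)) = algebraMap W.K E (W.tr X a) := by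
    rw [LinearMap.baseChange_tmul, TensorProduct.AlgebraTensorModule.rid_tmul,
      Algebra.smul_def, mul_one]
  exact h

lemma emL_deg {i : ℕ} {a : W.H X} (ha : a ∈ W.gr X i) : IsDeg i (emL W E a) :=
  Submodule.tmul_mem_baseChange_of_mem (1 : E) ha

lemma mapL_deg (f : X ⟶ Y) {i : ℕ} {x : HL W E Y} (hx : IsDeg i x) : IsDeg i (mapL f x) := by
  have h : ∀ x ∈ (W.gr Y i).baseChange E, (W.map f).toLinearMap.baseChange E x ∈
      (W.gr X i).baseChange E := by
    intro x hx
    rw [Submodule.baseChange_eq_span] at hx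
    refine Submodule.span_induction (p := fun x _ => (W.map f).toLinearMap.baseChange E x ∈
      (W.gr X i).baseChange E) ?_ ?_ ?_ ?_ hx
    · rintro _ ⟨a, ha, rfl⟩
      have h1 : (W.map f).toLinearMap.baseChange E ((1 : E) ⊗ₜ[W.K] a) =
        (1 : E) ⊗ₜ[W.K] (W.map f a) := LinearMap.baseChange_tmul _ _ _
      change (W.map f).toLinearMap.baseChange E ((1 : E) ⊗ₜ[W.K] a) ∈ _
      rw [h1]
      exact Submodule.tmul_mem_baseChange_of_mem _ (W.map_mem f ha)
    · rw [map_zero]; exact Submodule.zero_mem _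
    · intro x y _ _ hx hy; rw [map_add]; exact Submodule.add_mem _ hx hy
    · intro c x _ hx; rw [map_smul]; exact Submodule.smul_mem _ _ hx
  exact h x hx

/-! ### Bases -/

/-- The basis of the cohomology with extended coefficients given by a basis. -/
noncomputable def bL (E : Type) [Field E] [Algebra W.K E] {κ : Type} (b : Basis κ W.K (W.H X)) :
    Basis κ E (HL W E X) := (b.baseChange E : Basis κ E (E ⊗[W.K] W.H X))

lemma bL_apply {κ : Type} (b : Basis κ W.K (W.H X)) (j : κ) : bL E b j = emL W E (b j) :=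
  Basis.baseChange_apply E b j

/-- The degrees of the coordinates of a homogeneous class. -/
lemma repr_deg {κ : Type} [Fintype κ] (b : Basis κ W.K (W.H X)) {dg : κ → ℕ}
    (hb : ∀ j, b j ∈ W.gr X (dg j)) {i : ℕ} {x : HL W E X} :
    IsDeg i x ↔ ∀ j, (bL E b).repr x j ≠ 0 → dg j = i := by
  classical
  constructor
  · intro hx
    have h1 : ∀ c ∈ W.gr X i, ∀ j, b.repr c j ≠ 0 → dg j = i := by
      intro c hc j hj
      by_contra hne
      have h2 : c = ∑ l, b.repr c l • b l := (b.sum_repr c).symm
      have h3 : H914.proj (W.isInternal X) (dg j) c = 0 := proj_ne _ hc (Ne.symm hne)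
      have h4 : H914.proj (W.isInternal X) (dg j) c =
          ∑ l, (if dg l = dg j then b.repr c l else 0) • b l := by
        conv_lhs => rw [h2]
        rw [map_sum]
        refine Finset.sum_congr rfl fun l _ => ?_
        rw [map_smul]
        split_ifs with h
        · rw [proj_same _ (h ▸ hb l)]
        · rw [proj_ne _ (hb l) h, smul_zero, zero_smul]
      rw [h4] at h3
      have h5 := Fintype.linearIndependent_iff.1 b.linearIndependent _ h3 j
      rw [if_pos rfl] at h5
      exact hj h5
    have h2 : ∀ x ∈ (W.gr X i).baseChange E, ∀ j,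
        (b.baseChange E).repr x j ≠ 0 → dg j = i := by
      intro x hx
      rw [Submodule.baseChange_eq_span] at hx
      refine Submodule.span_induction (p := fun x _ => ∀ j,
        (b.baseChange E).repr x j ≠ 0 → dg j = i) ?_ ?_ ?_ ?_ hx
      · rintro _ ⟨a, ha, rfl⟩ j hj
        refine h1 a ha j fun h0 => hj ?_
        change (b.baseChange E).repr ((1 : E) ⊗ₜ[W.K] a) j = 0
        rw [Basis.baseChange_repr_tmul, h0, zero_smul]
      · intro j hj
        rw [map_zero] at hj
        exact absurd rfl hj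
      · intro x y _ _ hx hy j hj
        rw [map_add, Finsupp.add_apply] at hj
        by_cases h : (b.baseChange E).repr x j = 0
        · rw [h, zero_add] at hj
          exact hy j hj
        · exact hx j h
      · intro c x _ hx j hj
        rw [map_smul, Finsupp.smul_apply] at hj
        exact hx j (right_ne_zero_of_smul hj)
    exact h2 x hx
  · intro h
    have h1 : x = ∑ j, (bL E b).repr x j • bL E b j := ((bL E b).sum_repr x).symm
    rw [h1]
    refine Submodule.sum_mem (grL W E X i) fun j _ => ?_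
    by_cases h2 : (bL E b).repr x j = 0
    · rw [h2, zero_smul]
      exact Submodule.zero_mem _
    · refine Submodule.smul_mem _ _ ?_
      rw [bL_apply]
      exact emL_deg (h j h2 ▸ hb j)

end Pool.Agent.N211.BT
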