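import Pool.Agent.N211.BT.TG
import Pool.Agent.N211.BT.HLb

/-!
# Averages over the cosets of a subgroup of finite index
-/

set_option linter.unusedSectionVars false

open CategoryTheory AlgebraicGeometry TensorProduct

universe u

namespace Pool.Agent.N211.BT

section Avg

variable {F V : Type} [Field F] [CharZero F] [AddCommGroup V] [Module F V] {K : Type} [Group K]
  (τ : K →* Module.End F V) (D : Subgroup K) [Fintype (K ⧸ D)]

/-- The average. -/
noncomputable def avg : Module.End F V :=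
  ((Fintype.card (K ⧸ D) : F))⁻¹ • ∑ q : K ⧸ D, τ q.out

lemma avg_apply (x : V) : avg τ D x =
    ((Fintype.card (K ⧸ D) : F))⁻¹ • ∑ q : K ⧸ D, τ q.out x := by
  rw [avg, LinearMap.smul_apply, LinearMap.sum_apply]

lemma card_ne : (Fintype.card (K ⧸ D) : F) ≠ 0 := by
  rw [Nat.cast_ne_zero]
  exact Fintype.card_ne_zero

lemma avg_fix {x : V} (h : ∀ g, τ g x = x) : avg τ D x = x := by
  rw [avg_apply, Finset.sum_congr rfl fun q _ => h _, Finset.sum_const, Finset.card_univ,
    ← Nat.cast_smul_eq_nsmul F, smul_smul, inv_mul_cancel₀ (card_ne D), one_smul]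

variable {D} in
lemma apply_out {x : V} (h : ∀ g ∈ D, τ g x = x) (g : K) :
    τ g x = τ (g : K ⧸ D).out x := by
  obtain ⟨d, hd⟩ := QuotientGroup.mk_out_eq_mul D g
  rw [hd, map_mul, Module.End.mul_apply, h d d.2]

lemma avg_inv {x : V} (h : ∀ g ∈ D, τ g x = x) (g : K) : τ g (avg τ D x) = avg τ D x := by
  rw [avg_apply, map_smul, map_sum]
  congr 1
  refine Fintype.sum_equiv (MulAction.toPerm g) _ _ fun q => ?_
  rw [MulAction.toPerm_apply]
  have h1 : g • q = ((g * q.out : K) : K ⧸ D) := by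
    conv_lhs => rw [← QuotientGroup.out_eq' q]
    rfl
  rw [h1, ← apply_out τ h, map_mul, Module.End.mul_apply]

end Avg

open Module Matrix
open Pool.Agent.H914 Pool.Agent.H914.VarClass Pool.Agent.H914.VarClass.Obj
  Pool.Agent.H914.WeilCohomology
open Pool.Agent.Y121.AHS
open Pool.Agent.Y133.Half (pw)

variable {k : Type u} [Field k] {𝒱 : VarClass k} {ops : CycleOps 𝒱} {T : HodgeTheory ops}
  {X : 𝒱.Obj} {E : Type} [Field E] [Algebra T.W.K E] {Γ : Type} [Group Γ]
  (G : GaloisAction T E Γ X)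

/-- The twisted representation. -/
noncomputable def twR (n j : ℕ) : Γ →* Module.End E (HL T.W E (pw X n)) where
  toFun g := ((G.χ g : E)⁻¹ ^ j) • G.ρ n g
  map_one' := by
    rw [map_one, map_one, Units.val_one, inv_one, one_pow, one_smul]
  map_mul' g h := by
    rw [map_mul, map_mul, Units.val_mul, mul_inv, mul_pow, smul_mul_smul_comm]

lemma twR_fix {n j : ℕ} {g : Γ} {x : HL T.W E (pw X n)} :
    twR G n j g x = x ↔ G.ρ n g x = twL (G.χ g : E) j x := by
  have hc : (G.χ g : E) ^ j ≠ 0 := pow_ne_zero _ (Units.ne_zero _)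
  change ((G.χ g : E)⁻¹ ^ j) • G.ρ n g x = x ↔ G.ρ n g x = ((G.χ g : E)) ^ j • x
  rw [inv_pow, inv_smul_eq_iff₀ hc]

/-- Combinations of classes of cycles which are invariant under a subgroup are combinations of
invariant classes of cycles. -/
lemma mem_cycleClasses (hcj : G.Conj) {K : Subgroup Γ} {n j : ℕ} {x : HL T.W E (pw X n)}
    (hx : x ∈ Submodule.span E {y | ∃ z, (pw X n).IsCyc j z ∧
      y = emL T.W E (T.W.cl (pw X n) z)}) (hinv : G.IsInvariant K n j x) :
    x ∈ Submodule.span E (G.cycleClasses K n j) := by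
  classical
  have : CharZero E := charZero_of_injective_algebraMap (algebraMap T.W.K E).injective
  rw [Submodule.mem_span_iff_exists_finset_subset] at hx
  obtain ⟨c, t, ht, -, hx⟩ := hx
  have h1 : ∀ y : t, ∃ Δ : Subgroup Γ, Δ.FiniteIndex ∧ ∀ g ∈ Δ,
      G.ρ n g (y : HL T.W E (pw X n)) = twL (G.χ g : E) j (y : HL T.W E (pw X n)) := by
    rintro ⟨y, hy⟩
    obtain ⟨z, hz, rfl⟩ := ht hy
    exact G.fix n j z hz
  choose Δ hΔ hfix using h1
  obtain ⟨D, hD⟩ : ∃ D : Subgroup K, D = (⨅ y, Δ y).subgroupOf K := ⟨_, rfl⟩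
  have hfi : (⨅ y, Δ y).FiniteIndex := Subgroup.finiteIndex_iInf hΔ
  have hDf : D.FiniteIndex := by
    rw [hD]
    infer_instance
  let _ : Fintype (K ⧸ D) := Fintype.ofFinite _
  obtain ⟨τ, hτ⟩ : ∃ τ : K →* Module.End E (HL T.W E (pw X n)),
      τ = (twR G n j).comp K.subtype := ⟨_, rfl⟩
  have hτa : ∀ g : K, τ g = twR G n j g := fun g => by rw [hτ]; rfl
  have h2 : avg τ D x = x := avg_fix τ D fun g => by
    rw [hτa, twR_fix]
    exact hinv g g.2
  rw [← h2, ← hx, map_sum]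
  refine Submodule.sum_mem _ fun y hy => ?_
  rw [map_smul]
  refine Submodule.smul_mem _ _ (Submodule.subset_span ?_)
  obtain ⟨z, hz, hzy⟩ := ht hy
  have h3 : ∀ g : K, ∃ z', (pw X n).IsCyc j z' ∧
      τ g y = emL T.W E (T.W.cl (pw X n) z') := by
    intro g
    obtain ⟨z', hz', h⟩ := hcj n g j z hz
    refine ⟨z', hz', ?_⟩
    rw [hτa, hzy]
    change ((G.χ (g : Γ) : E)⁻¹ ^ j) • G.ρ n g (emL T.W E (T.W.cl (pw X n) z)) = _
    rw [h, twL_eq, smul_smul, inv_pow, inv_mul_cancel₀ (pow_ne_zero _ (Units.ne_zero _)),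
      one_smul]
  choose z' hz' hz'' using h3
  refine ⟨((Fintype.card (K ⧸ D) : ℚ))⁻¹ • ∑ q : K ⧸ D, z' q.out, ?_, ?_, ?_⟩
  · refine SmVar.IsCyc.smul _ ?_
    refine Finset.sum_induction _ (fun z => (pw X n).IsCyc j z)
      (fun a b ha hb => SmVar.IsCyc.add ha hb) (SmVar.IsCyc.zero _ _) fun q _ => hz' _
  · rw [avg_apply, T.W.cl_smul, emL_smul, map_sum, emL_sum]
    congr 1
    · rw [map_ratCast]
      push_cast
      rfl
    · exact Finset.sum_congr rfl fun q _ => hz'' _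
  · intro g hg
    rw [← twR_fix]
    have h4 := avg_inv τ D (x := y) (fun g hg => by
      rw [hτa, twR_fix]
      have h5 : (g : Γ) ∈ ⨅ y, Δ y := by
        rw [hD] at hg
        exact hg
      exact hfix ⟨y, hy⟩ g ((Subgroup.mem_iInf.1 h5) ⟨y, hy⟩)) ⟨g, hg⟩
    rw [hτa] at h4
    exact h4

end Pool.Agent.N211.BT
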