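import Pool.Agent.N211.BT.Stm

/-!
# The double commutant theorem for semisimple algebras of matrices
-/

set_option linter.unusedSectionVars false

namespace Pool.Agent.N211.BT

open Matrix

variable {N : Type} [Fintype N] [DecidableEq N]

/-- **Double commutant theorem.** -/
theorem mem_of_commutes (G : Subalgebra ℂ (Matrix N N ℂ))
    (hG : IsSS (Matrix.toLin' '' (G : Set (Matrix N N ℂ)))) (P : Matrix N N ℂ)
    (hP : ∀ x, (∀ y ∈ G, x * y = y * x) → P * x = x * P) : P ∈ G := by
  classical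
  -- `N → ℂ` as a module over `G`
  let _ : Module G (N → ℂ) := Module.compHom (N → ℂ)
    ((Matrix.toLinAlgEquiv' (R := ℂ) (n := N)).toAlgHom.toRingHom.comp G.val.toRingHom)
  have hsm : ∀ (x : G) (v : N → ℂ), x • v = (x : Matrix N N ℂ) *ᵥ v := fun x v => rfl
  have hone : ∀ (c : ℂ) (v : N → ℂ), (algebraMap ℂ G c) • v = c • v := by
    intro c v
    rw [hsm]
    change (algebraMap ℂ (Matrix N N ℂ) c) *ᵥ v = _
    rw [Matrix.algebraMap_eq_diagonal]
    ext i
    simp [Matrix.mulVec_diagonal]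
  -- the module is semisimple
  have hss : IsSemisimpleModule G (N → ℂ) := by
    suffices hcl : ComplementedLattice (Submodule G (N → ℂ)) from { toComplementedLattice := hcl }
    refine ⟨fun U => ?_⟩
    let UC : Submodule ℂ (N → ℂ) :=
      { carrier := U
        add_mem' := fun ha hb => U.add_mem ha hb
        zero_mem' := U.zero_mem
        smul_mem' := fun c v hv => by rw [← hone]; exact U.smul_mem _ hv }
    obtain ⟨U', hU', hcompl⟩ := hG UC (by
      rintro _ ⟨y, hy, rfl⟩ x hx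
      exact U.smul_mem (⟨y, hy⟩ : G) hx)
    let V : Submodule G (N → ℂ) :=
      { carrier := U'
        add_mem' := fun ha hb => U'.add_mem ha hb
        zero_mem' := U'.zero_mem
        smul_mem' := fun x v hv => hU' _ ⟨(x : Matrix N N ℂ), x.2, rfl⟩ v hv }
    refine ⟨V, ?_⟩
    rw [isCompl_iff]
    constructor
    · rw [Submodule.disjoint_def]
      intro v hv hv'
      exact (Submodule.disjoint_def.1 hcompl.disjoint) v hv hv'
    · rw [codisjoint_iff, eq_top_iff]
      intro v _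
      have h1 : v ∈ UC ⊔ U' := by
        rw [codisjoint_iff.1 hcompl.codisjoint]
        exact Submodule.mem_top
      obtain ⟨u, hu, z, hz, rfl⟩ := Submodule.mem_sup.1 h1
      exact Submodule.add_mem_sup hu hz
  -- the density theorem
  have hcomm : ∀ (φ : Module.End G (N → ℂ)) (v : N → ℂ), P *ᵥ (φ v) = φ (P *ᵥ v) := by
    intro φ v
    let φC : (N → ℂ) →ₗ[ℂ] (N → ℂ) :=
      { toFun := φ
        map_add' := φ.map_add
        map_smul' := fun c v => by
          have h1 := φ.map_smul (algebraMap ℂ G c) v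
          exact (congrArg φ (hone c v)).symm.trans (h1.trans (hone c (φ v))) }
    have h1 : ∀ w, φ w = LinearMap.toMatrix' φC *ᵥ w := fun w => by
      rw [← Matrix.toLin'_apply, Matrix.toLin'_toMatrix']
      rfl
    have h2 := hP (LinearMap.toMatrix' φC) (fun y hy => by
      apply Matrix.toLin'.injective
      apply LinearMap.ext
      intro w
      rw [Matrix.toLin'_apply, Matrix.toLin'_apply, ← Matrix.mulVec_mulVec,
        ← Matrix.mulVec_mulVec, ← h1, ← h1]
      exact φ.map_smul (⟨y, hy⟩ : G) w)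
    rw [h1, h1, Matrix.mulVec_mulVec, Matrix.mulVec_mulVec, h2]
  let f : Module.End (Module.End G (N → ℂ)) (N → ℂ) :=
    { toFun := fun v => P *ᵥ v
      map_add' := fun v w => Matrix.mulVec_add _ _ _
      map_smul' := fun φ v => hcomm φ v }
  obtain ⟨r, hr⟩ := jacobson_density f (Finset.univ.image fun i : N => (Pi.single i 1 : N → ℂ))
  have h3 : P = (r : Matrix N N ℂ) := by
    ext i j
    have h4 := hr (Pi.single j 1) (Finset.mem_image_of_mem _ (Finset.mem_univ j))
    have h5 : P *ᵥ Pi.single j 1 = (r : Matrix N N ℂ) *ᵥ Pi.single j 1 := h4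
    rw [Matrix.mulVec_single_one, Matrix.mulVec_single_one] at h5
    exact congrFun h5 i
  rw [h3]
  exact r.2

section

variable {M M' : Type*} [AddCommGroup M] [Module ℂ M] [AddCommGroup M'] [Module ℂ M']

/-- Semisimplicity of subrepresentations. -/
lemma IsSS.of_inj {G : Type*} {ρ : G → Module.End ℂ M} {ρ' : G → Module.End ℂ M'}
    (h : IsSS (Set.range ρ')) (j : M →ₗ[ℂ] M') (hj : Function.Injective j)
    (hρ : ∀ g x, ρ' g (j x) = j (ρ g x)) : IsSS (Set.range ρ) := by
  intro U hU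
  obtain ⟨U', hU', hc⟩ := h (U.map j) (by
    rintro _ ⟨g, rfl⟩ _ ⟨x, hx, rfl⟩
    rw [hρ]
    exact ⟨_, hU _ ⟨g, rfl⟩ x hx, rfl⟩)
  refine ⟨U'.comap j, ?_, ?_, ?_⟩
  · rintro _ ⟨g, rfl⟩ x hx
    rw [Submodule.mem_comap, ← hρ]
    exact hU' _ ⟨g, rfl⟩ _ hx
  · rw [Submodule.disjoint_def]
    intro x hx hx'
    apply hj
    rw [map_zero]
    exact (Submodule.disjoint_def.1 hc.disjoint) _ ⟨x, hx, rfl⟩ hx'
  · rw [codisjoint_iff, eq_top_iff]
    intro x _
    have h1 : j x ∈ U.map j ⊔ U' := by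
      rw [codisjoint_iff.1 hc.codisjoint]
      exact Submodule.mem_top
    obtain ⟨_, ⟨u, hu, rfl⟩, z, hz, h2⟩ := Submodule.mem_sup.1 h1
    refine Submodule.mem_sup.2 ⟨u, hu, x - u, ?_, by abel⟩
    rw [Submodule.mem_comap, map_sub, ← h2, add_sub_cancel_left]
    exact hz

/-- Subspaces stable under a set of matrices are stable under the algebra generated by it. -/
lemma stable_adjoin {R : Set (Matrix N N ℂ)} {U : Submodule ℂ (N → ℂ)}
    (hU : ∀ r ∈ R, ∀ x ∈ U, r *ᵥ x ∈ U) {y : Matrix N N ℂ} (hy : y ∈ Algebra.adjoin ℂ R) :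
    ∀ x ∈ U, y *ᵥ x ∈ U := by
  induction hy using Algebra.adjoin_induction with
  | mem y hy => exact hU y hy
  | algebraMap c =>
    intro x hx
    rw [Matrix.algebraMap_eq_diagonal]
    have h1 : (Matrix.diagonal (algebraMap ℂ (N → ℂ) c)) *ᵥ x = c • x := by
      ext i
      simp [Matrix.mulVec_diagonal]
    rw [h1]
    exact U.smul_mem _ hx
  | add y z _ _ hy hz => intro x hx; rw [Matrix.add_mulVec]; exact U.add_mem (hy x hx) (hz x hx)
  | mul y z _ _ hy hz =>
    intro x hx
    rw [← Matrix.mulVec_mulVec]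
    exact hy _ (hz x hx)

lemma IsSS.adjoin {R : Set (Matrix N N ℂ)} (h : IsSS (Matrix.toLin' '' R)) :
    IsSS (Matrix.toLin' '' (Algebra.adjoin ℂ R : Set (Matrix N N ℂ))) := by
  intro U hU
  obtain ⟨U', hU', hc⟩ := h U (by
    rintro _ ⟨y, hy, rfl⟩ x hx
    exact hU _ ⟨y, Algebra.subset_adjoin hy, rfl⟩ x hx)
  refine ⟨U', ?_, hc⟩
  rintro _ ⟨y, hy, rfl⟩ x hx
  exact stable_adjoin (fun r hr x hx => hU' _ ⟨r, hr, rfl⟩ x hx) hy x hx

end

end Pool.Agent.N211.BT
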