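import Pool.Agent.N211.BT.Defs
import Pool.Agent.N211.BT.DC
import Pool.Agent.N996.BP.RFam

/-!
# Basic facts about Galois data in coordinates
-/

set_option linter.unusedSectionVars false

namespace Pool.Agent.N211.BT

open Matrix Polynomial Pool.Agent.N996.BP Pool.Agent.R940

variable {ι : Type} [Fintype ι] [DecidableEq ι] {Γ : Type} [Group Γ] {G : GData ι Γ}

/-- The matrices on arrays which preserve the total degree. -/
def degAlg (G : GData ι Γ) (κ : Type) [Fintype κ] [DecidableEq κ] :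
    Subalgebra ℂ (Matrix (κ → ι) (κ → ι) ℂ) where
  carrier := {X | ∀ i j, X i j ≠ 0 → ∑ k, G.deg (i k) = ∑ k, G.deg (j k)}
  mul_mem' {X Y} hX hY i j h := by
    rw [Matrix.mul_apply] at h
    obtain ⟨a, _, ha⟩ := Finset.exists_ne_zero_of_sum_ne_zero h
    exact (hX i a (left_ne_zero_of_mul ha)).trans (hY a j (right_ne_zero_of_mul ha))
  add_mem' {X Y} hX hY i j h := by
    rw [Matrix.add_apply] at h
    by_cases h1 : X i j = 0
    · rw [h1, zero_add] at h
      exact hY i j h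
    · exact hX i j h1
  algebraMap_mem' c i j h := by
    rw [Matrix.algebraMap_eq_diagonal] at h
    by_cases h1 : i = j
    · rw [h1]
    · exact absurd (Matrix.diagonal_apply_ne _ h1) h

lemma mem_degAlg {κ : Type} [Fintype κ] [DecidableEq κ] {X : Matrix (κ → ι) (κ → ι) ℂ} :
    X ∈ degAlg G κ ↔ ∀ i j, X i j ≠ 0 → ∑ k, G.deg (i k) = ∑ k, G.deg (j k) := Iff.rfl

lemma kp_mem_degAlg {κ : Type} [Fintype κ] [DecidableEq κ] {y : Matrix ι ι ℂ}
    (hy : ∀ i j, y i j ≠ 0 → G.deg i = G.deg j) : kp κ y ∈ degAlg G κ := by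
  intro i j h
  rw [kp_apply] at h
  exact Finset.sum_congr rfl fun k _ => hy _ _ (Finset.prod_ne_zero_iff.1 h k (Finset.mem_univ k))

/-- The component of degree `m`. -/
def cmpn (G : GData ι Γ) {κ : Type} [Fintype κ] (m : ℕ) (c : (κ → ι) → ℂ) : (κ → ι) → ℂ :=
  fun i => if ∑ k, G.deg (i k) = m then c i else 0

lemma cmpn_hom {κ : Type} [Fintype κ] (m : ℕ) (c : (κ → ι) → ℂ) : G.Hom m (cmpn G m c) := by
  intro i hi
  by_contra h
  exact hi (if_neg h)

lemma cmpn_comm {κ : Type} [Fintype κ] [DecidableEq κ] {X : Matrix (κ → ι) (κ → ι) ℂ}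
    (hX : X ∈ degAlg G κ) (m : ℕ) (c : (κ → ι) → ℂ) :
    X *ᵥ cmpn G m c = cmpn G m (X *ᵥ c) := by
  funext i
  rw [cmpn, Matrix.mulVec, dotProduct, Matrix.mulVec, dotProduct]
  split_ifs with h
  · refine Finset.sum_congr rfl fun j _ => ?_
    by_cases h1 : X i j = 0
    · rw [h1, zero_mul, zero_mul]
    · rw [cmpn, if_pos ((hX i j h1).symm.trans h)]
  · refine Finset.sum_eq_zero fun j _ => ?_
    by_cases h1 : X i j = 0
    · rw [h1, zero_mul]
    · rw [cmpn, if_neg fun h2 => h ((hX i j h1).trans h2), mul_zero]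

/-- The sum of the components. -/
lemma sum_cmpn {κ : Type} [Fintype κ] [DecidableEq κ] (c : (κ → ι) → ℂ) :
    c = ∑ m ∈ Finset.univ.image (fun i : κ → ι => ∑ k, G.deg (i k)), cmpn G m c := by
  funext i
  rw [Finset.sum_apply, Finset.sum_eq_single (∑ k, G.deg (i k))]
  · rw [cmpn, if_pos rfl]
  · intro m _ hm
    rw [cmpn, if_neg (Ne.symm hm)]
  · intro h
    exact absurd (Finset.mem_image_of_mem _ (Finset.mem_univ i)) h

lemma kp_diagonal {κ : Type} [Fintype κ] [DecidableEq κ] (v : ι → ℂ) :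
    kp κ (Matrix.diagonal v) = Matrix.diagonal fun i : κ → ι => ∏ k, v (i k) := by
  ext i j
  rw [kp_apply]
  by_cases h : i = j
  · subst h
    rw [Matrix.diagonal_apply_eq]
    exact Finset.prod_congr rfl fun k _ => Matrix.diagonal_apply_eq _ _
  · rw [Matrix.diagonal_apply_ne _ h]
    obtain ⟨k, hk⟩ := Function.ne_iff.1 h
    exact Finset.prod_eq_zero (Finset.mem_univ k) (Matrix.diagonal_apply_ne _ hk)

lemma kp_eps_apply {κ : Type} [Fintype κ] [DecidableEq κ] (c : (κ → ι) → ℂ) (i : κ → ι) :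
    (kp κ G.eps *ᵥ c) i = (-1) ^ (∑ k, G.deg (i k)) * c i := by
  rw [GData.eps, kp_diagonal, Matrix.mulVec_diagonal, Finset.prod_pow_eq_pow_sum]

lemma eps_sq : G.eps * G.eps = 1 := by
  rw [GData.eps, Matrix.diagonal_mul_diagonal, ← Matrix.diagonal_one]
  congr 1
  funext i
  rw [← mul_pow]
  norm_num

lemma eps_ucol : UCol G.o G.eps := by
  intro i
  rw [GData.eps]
  split_ifs with h
  · rw [h, Matrix.diagonal_apply_eq, G.deg_o, pow_zero]
  · exact Matrix.diagonal_apply_ne _ h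

lemma eps_comm {y : Matrix ι ι ℂ} (hy : ∀ i j, y i j ≠ 0 → G.deg i = G.deg j) :
    G.eps * y = y * G.eps := by
  ext i j
  rw [GData.eps, Matrix.diagonal_mul, Matrix.mul_diagonal]
  by_cases h : y i j = 0
  · rw [h, mul_zero, zero_mul]
  · rw [hy i j h, mul_comm]

/-- Homogeneous arrays of even degree are fixed by the parity operator. -/
lemma eps_even {κ : Type} [Fintype κ] [DecidableEq κ] {j : ℕ} {c : (κ → ι) → ℂ}
    (hc : G.Hom (2 * j) c) : kp κ G.eps *ᵥ c = c := by
  funext i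
  rw [kp_eps_apply]
  by_cases h : c i = 0
  · rw [h, mul_zero]
  · rw [hc i h, pow_mul]
    norm_num

lemma even_of_eps {κ : Type} [Fintype κ] [DecidableEq κ] {c : (κ → ι) → ℂ}
    (hc : kp κ G.eps *ᵥ c = c) (i : κ → ι) (hi : c i ≠ 0) : ∃ j, ∑ k, G.deg (i k) = 2 * j := by
  have h1 := congrFun hc i
  rw [kp_eps_apply] at h1
  rcases Nat.even_or_odd (∑ k, G.deg (i k)) with h | h
  · obtain ⟨j, hj⟩ := h
    exact ⟨j, by omega⟩
  · rw [h.neg_one_pow] at h1
    exfalso
    apply hi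
    have h2 : c i = - c i := by linear_combination -h1
    exact self_eq_neg.1 h2

/-! ### The unit and the form -/

lemma tate_uni (κ : Type) [Fintype κ] [DecidableEq κ] : G.Tate 0 (uni ℂ G.o κ) := by
  refine ⟨fun i hi => ?_, ⊤, inferInstance, fun g _ => ?_⟩
  · rw [mul_zero]
    refine Finset.sum_eq_zero fun k _ => ?_
    have h1 : i k = G.o := by
      by_contra h
      apply hi
      rw [uni]
      exact Finset.prod_eq_zero (Finset.mem_univ k) (if_neg h)
    rw [h1, G.deg_o]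
  · rw [pow_zero, one_smul, kp_uni]
    funext i
    rw [uni]
    exact Finset.prod_congr rfl fun k _ => G.r_o g (i k)

lemma ucol_of_uni {o : ι} {p : Matrix ι ι ℂ} (h0 : kp Unit p *ᵥ uni ℂ o Unit = uni ℂ o Unit) :
    UCol o p := by
  intro i
  rw [kp_uni] at h0
  have h2 := congrFun h0 fun _ => i
  rw [uni, Fintype.prod_unique, Fintype.prod_unique] at h2
  exact h2

/-- The component of degree `m` of a matrix. -/
def blk (G : GData ι Γ) (m : ℕ) (B : Matrix ι ι ℂ) : Matrix ι ι ℂ :=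
  Matrix.of fun i j => if G.deg i = m then B i j else 0

lemma arr_unit_fix {p B : Matrix ι ι ℂ} :
    kp (Unit ⊕ Unit) p *ᵥ arr (kp Unit B) = arr (kp Unit B) ↔ p * B * pᵀ = B := by
  rw [kp_arr, ← kp_transpose, ← kp_mul, ← kp_mul]
  constructor
  · intro h
    have h2 := congrArg mat h
    rw [mat_arr, mat_arr] at h2
    ext i j
    have h4 := congrFun (congrFun h2 fun _ => i) fun _ => j
    rw [kp_apply, kp_apply, Fintype.prod_unique, Fintype.prod_unique] at h4
    exact h4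
  · intro h
    rw [h]

lemma tate_blk (m : ℕ) : G.Tate m (arr (kp Unit (blk G m G.Qi))) := by
  refine ⟨fun i hi => ?_, ⊤, inferInstance, fun g _ => ?_⟩
  · rw [arr, kp_apply, Fintype.prod_unique, blk, Matrix.of_apply] at hi
    have h1 : G.deg ((i ∘ Sum.inl) default) = m := by
      by_contra h
      exact hi (if_neg h)
    rw [if_pos h1] at hi
    have h2 := G.Q_deg _ _ hi
    rw [Fintype.sum_sum_type, Fintype.sum_unique, Fintype.sum_unique]
    have h3 : G.deg (i (Sum.inl default)) = m := h1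
    have h4 : G.deg (i (Sum.inl default)) = G.deg (i (Sum.inr default)) := h2
    omega
  · rw [kp_arr, ← kp_transpose, ← kp_mul, ← kp_mul]
    have h1 : G.r g * blk G m G.Qi * (G.r g)ᵀ = G.χ g ^ m • blk G m G.Qi := by
      ext i j
      have h2 : (G.r g * blk G m G.Qi * (G.r g)ᵀ) i j =
          if G.deg i = m then (G.r g * G.Qi * (G.r g)ᵀ) i j else 0 := by
        rw [Matrix.mul_apply, Matrix.mul_apply]
        simp only [Matrix.mul_apply, Finset.sum_mul]
        split_ifs with h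
        · refine Finset.sum_congr rfl fun a _ => Finset.sum_congr rfl fun b _ => ?_
          by_cases h3 : G.r g i b = 0
          · rw [h3, zero_mul, zero_mul, zero_mul, zero_mul]
          · rw [blk, Matrix.of_apply, if_pos ((G.r_deg _ _ _ h3).symm.trans h)]
        · refine Finset.sum_eq_zero fun a _ => Finset.sum_eq_zero fun b _ => ?_
          by_cases h3 : G.r g i b = 0
          · rw [h3, zero_mul, zero_mul]
          · rw [blk, Matrix.of_apply, if_neg fun h4 => h ((G.r_deg _ _ _ h3).trans h4), mul_zero,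
              zero_mul]
      rw [h2, Matrix.smul_apply, blk, Matrix.of_apply]
      split_ifs with h
      · rw [G.Q_inv, h, smul_eq_mul]
      · rw [smul_zero]
    rw [h1]
    ext i
    rw [arr, kp_apply, Fintype.prod_unique, Pi.smul_apply, arr, kp_apply, Fintype.prod_unique]
    rfl

lemma sum_blk (B : Matrix ι ι ℂ) : B = ∑ m ∈ Finset.univ.image G.deg, blk G m B := by
  ext i j
  rw [Matrix.sum_apply, Finset.sum_eq_single (G.deg i)]
  · rw [blk, Matrix.of_apply, if_pos rfl]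
  · intro m _ hm
    rw [blk, Matrix.of_apply, if_neg (Ne.symm hm)]
  · intro h
    exact absurd (Finset.mem_image_of_mem _ (Finset.mem_univ i)) h

/-- A matrix which fixes the Tate classes on the square preserves the form and commutes with the
parity operator. -/
lemma form_of_fix {p : Matrix ι ι ℂ} (hp : ∀ (j : ℕ) (c : (Unit ⊕ Unit → ι) → ℂ), G.Tate j c →
    kp (Unit ⊕ Unit) p *ᵥ c = c) : p * G.Qi * pᵀ = G.Qi ∧ G.eps * p = p * G.eps := by
  have h0 : ∀ m, p * blk G m G.Qi * pᵀ = blk G m G.Qi := fun m =>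
    arr_unit_fix.1 (hp m _ (tate_blk m))
  have h1 : p * G.Qi * pᵀ = G.Qi := by
    conv_lhs => rw [sum_blk (G := G) G.Qi]
    rw [Matrix.mul_sum, Matrix.sum_mul, Finset.sum_congr rfl fun m _ => h0 m]
    exact (sum_blk _).symm
  refine ⟨h1, ?_⟩
  have h2 : ∀ m, G.eps * blk G m G.Qi = (-1 : ℂ) ^ m • blk G m G.Qi := by
    intro m
    ext i j
    rw [GData.eps, Matrix.diagonal_mul, Matrix.smul_apply, blk, Matrix.of_apply, smul_eq_mul]
    split_ifs with h
    · rw [h]
    · rw [mul_zero, mul_zero]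
  have h3 : p * (G.eps * G.Qi) * pᵀ = G.eps * G.Qi := by
    have h4 : G.eps * G.Qi = ∑ m ∈ Finset.univ.image G.deg, (-1 : ℂ) ^ m • blk G m G.Qi := by
      conv_lhs => rw [sum_blk (G := G) G.Qi]
      rw [Matrix.mul_sum]
      exact Finset.sum_congr rfl fun m _ => h2 m
    rw [h4, Matrix.mul_sum, Matrix.sum_mul]
    refine Finset.sum_congr rfl fun m _ => ?_
    rw [Matrix.mul_smul, Matrix.smul_mul, h0]
  have hQ' : G.Qi * G.Q = 1 := mul_eq_one_comm.1 G.hQ
  have h5 : p * (G.Qi * pᵀ * G.Q) = 1 := by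
    calc p * (G.Qi * pᵀ * G.Q) = (p * G.Qi * pᵀ) * G.Q := by simp only [Matrix.mul_assoc]
      _ = 1 := by rw [h1, hQ']
  have h6 : (G.Qi * pᵀ * G.Q) * p = 1 := mul_eq_one_comm.1 h5
  have h7 : p * G.eps * (G.Qi * pᵀ * G.Q) = G.eps * (p * (G.Qi * pᵀ * G.Q)) := by
    calc p * G.eps * (G.Qi * pᵀ * G.Q) = (p * (G.eps * G.Qi) * pᵀ) * G.Q := by
          simp only [Matrix.mul_assoc]
      _ = G.eps * (p * G.Qi * pᵀ) * G.Q := by rw [h3, h1]
      _ = _ := by simp only [Matrix.mul_assoc]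
  calc G.eps * p = G.eps * (p * (G.Qi * pᵀ * G.Q)) * p := by rw [h5, Matrix.mul_one]
    _ = p * G.eps * (G.Qi * pᵀ * G.Q) * p := by rw [h7]
    _ = p * G.eps * ((G.Qi * pᵀ * G.Q) * p) := by simp only [Matrix.mul_assoc]
    _ = p * G.eps := by rw [h6, Matrix.mul_one]

lemma inv_of_form {p : Matrix ι ι ℂ} (h1 : p * G.Qi * pᵀ = G.Qi) :
    p * (G.Qi * pᵀ * G.Q) = 1 := by
  have hQ' : G.Qi * G.Q = 1 := mul_eq_one_comm.1 G.hQ
  calc p * (G.Qi * pᵀ * G.Q) = (p * G.Qi * pᵀ) * G.Q := by simp only [Matrix.mul_assoc]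
    _ = 1 := by rw [h1, hQ']

/-! ### Semisimplicity on small powers -/

lemma uni_fix (κ : Type) [Fintype κ] [DecidableEq κ] (g : Γ) :
    kp κ (G.r g) *ᵥ uni ℂ G.o κ = uni ℂ G.o κ := by
  rw [kp_uni]
  funext i
  rw [uni]
  exact Finset.prod_congr rfl fun k _ => G.r_o g (i k)

/-- Reindexing as a linear map. -/
def reiL {κ l : Type} (e : κ ≃ l) : ((κ → ι) → ℂ) →ₗ[ℂ] ((l → ι) → ℂ) where
  toFun := rei e
  map_add' _ _ := rfl
  map_smul' _ _ := rfl

/-- The product with a fixed array as a linear map. -/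
def tensL {κ l : Type} (b : (l → ι) → ℂ) : ((κ → ι) → ℂ) →ₗ[ℂ] ((κ ⊕ l → ι) → ℂ) where
  toFun a := tens a b
  map_add' a a' := by ext i; simp [tens, add_mul]
  map_smul' c a := by ext i; simp [tens, mul_assoc]

lemma isSS_small {N : ℕ} (h : IsSS (Set.range (G.rho (Fin N)))) (κ : Type) [Fintype κ]
    [DecidableEq κ] (hκ : Fintype.card κ ≤ N) : IsSS (Set.range (G.rho κ)) := by
  let l : Type := Fin (N - Fintype.card κ)
  have hc : Fintype.card (κ ⊕ l) = Fintype.card (Fin N) := by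
    rw [Fintype.card_sum, Fintype.card_fin, Fintype.card_fin]
    omega
  let e : κ ⊕ l ≃ Fin N := Fintype.equivOfCardEq hc
  refine IsSS.of_inj (ρ := fun g => G.rho κ g) (ρ' := fun g => G.rho (Fin N) g) h
    ((reiL e).comp (tensL (uni ℂ G.o l))) ?_ ?_
  · intro a a' haa
    funext i
    have h1 : rei e (tens a (uni ℂ G.o l)) = rei e (tens a' (uni ℂ G.o l)) := haa
    have h2 := congrArg (rei e.symm) h1
    rw [rei_rei, rei_rei, Equiv.self_trans_symm] at h2
    have h3 := congrFun h2 (Sum.elim i fun _ => G.o)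
    have h4 : ∀ b : (κ → ι) → ℂ, rei (Equiv.refl (κ ⊕ l)) (tens b (uni ℂ G.o l))
        (Sum.elim i fun _ => G.o) = b i := by
      intro b
      change tens b (uni ℂ G.o l) (Sum.elim i fun _ => G.o) = b i
      rw [tens_elim, uni]
      simp
    rw [h4, h4] at h3
    exact h3
  · intro g x
    change kp (Fin N) (G.r g) *ᵥ rei e (tens x (uni ℂ G.o l)) =
      rei e (tens (kp κ (G.r g) *ᵥ x) (uni ℂ G.o l))
    rw [kp_rei, kp_tens, uni_fix]

end Pool.Agent.N211.BT
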