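import Pool.Agent.N211.BT.Stm

/-!
# Burnside: semisimple representations with finitely many eigenvalues have finite image
-/

set_option autoImplicit false

namespace Pool.Agent.N211.BT

namespace BurnAux

open Module Polynomial

section nil

variable {M : Type*} [AddCommGroup M] [Module ℂ M] [FiniteDimensional ℂ M]

omit [FiniteDimensional ℂ M] in
theorem trace_mul_aeval (x : Module.End ℂ M)
    (h : ∀ k : ℕ, 0 < k → LinearMap.trace ℂ M (x ^ k) = 0) (r : ℂ[X]) :
    LinearMap.trace ℂ M (x * aeval x r) = 0 := by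
  induction r using Polynomial.induction_on' with
  | add p q hp hq => rw [map_add, mul_add, map_add, hp, hq, add_zero]
  | monomial n a =>
    have h1 : x * aeval x (monomial n a) = a • x ^ (n + 1) := by
      rw [aeval_monomial, ← mul_assoc, ← Algebra.commutes, mul_assoc, ← pow_succ',
        ← Algebra.smul_def]
    rw [h1, map_smul, h _ (Nat.succ_pos n), smul_zero]

theorem nil_of_trace (x : Module.End ℂ M)
    (h : ∀ k : ℕ, 0 < k → LinearMap.trace ℂ M (x ^ k) = 0) : IsNilpotent x := by
  have hP0 : x.charpoly ≠ 0 := (LinearMap.charpoly_monic x).ne_zero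
  obtain ⟨q, hq, hnd⟩ := Polynomial.exists_eq_pow_rootMultiplicity_mul_and_not_dvd _ hP0 0
  set a := x.charpoly.rootMultiplicity 0 with ha
  rw [map_zero, sub_zero] at hq hnd
  have hco : IsCoprime ((X : ℂ[X]) ^ (a + 1)) q :=
    ((Polynomial.irreducible_X).coprime_iff_not_dvd.2 hnd).pow_left
  obtain ⟨u, v, huv⟩ := hco
  have hCH : aeval x (X ^ a * q) = 0 := by
    rw [← hq]; exact LinearMap.aeval_self_charpoly x
  set e : Module.End ℂ M := aeval x (u * X ^ (a + 1)) with he
  have hid : IsIdempotentElem e := by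
    have h1 : (u * X ^ (a + 1)) * (u * X ^ (a + 1)) =
        u * X ^ (a + 1) - (u * v * X) * (X ^ a * q) := by
      have : u * X ^ (a + 1) = 1 - v * q := by rw [← huv]; ring
      calc (u * X ^ (a + 1)) * (u * X ^ (a + 1)) = (u * X ^ (a + 1)) * (1 - v * q) := by
            rw [this]
        _ = u * X ^ (a + 1) - (u * v * X) * (X ^ a * q) := by ring
    show e * e = e
    rw [he, ← map_mul, h1, map_sub, map_mul _ (u * v * X), hCH, mul_zero, sub_zero]
  have htr : LinearMap.trace ℂ M e = 0 := by
    have h1 : u * X ^ (a + 1) = X * (u * X ^ a) := by ring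
    rw [he, h1, map_mul, aeval_X]
    exact trace_mul_aeval x h _
  have he0 : e = 0 := (LinearMap.IsIdempotentElem.trace_eq_zero_iff hid).1 htr
  refine ⟨a, ?_⟩
  have h2 : X ^ a = X ^ a * (u * X ^ (a + 1)) + v * (X ^ a * q) := by
    calc (X : ℂ[X]) ^ a = X ^ a * (u * X ^ (a + 1) + v * q) := by rw [huv, mul_one]
      _ = _ := by ring
  calc x ^ a = aeval x ((X : ℂ[X]) ^ a) := by rw [map_pow, aeval_X]
    _ = aeval x ((X : ℂ[X]) ^ a) * e + aeval x v * aeval x (X ^ a * q) := by
        conv_lhs => rw [h2]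
        rw [map_add, map_mul, map_mul _ v]
    _ = 0 := by rw [he0, hCH, mul_zero, mul_zero, add_zero]

end nil

section ss

variable {M : Type*} [AddCommGroup M] [Module ℂ M]

theorem stable_adjoin (R : Set (Module.End ℂ M)) (U : Submodule ℂ M)
    (hU : ∀ r ∈ R, ∀ x ∈ U, r x ∈ U) :
    ∀ r ∈ Algebra.adjoin ℂ R, ∀ x ∈ U, r x ∈ U := by
  intro r hr
  induction hr using Algebra.adjoin_induction with
  | mem r hr => exact hU r hr
  | algebraMap c => intro x hx; simpa [Algebra.algebraMap_eq_smul_one] using U.smul_mem c hx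
  | add r s _ _ h1 h2 => intro x hx; exact U.add_mem (h1 x hx) (h2 x hx)
  | mul r s _ _ h1 h2 => intro x hx; exact h1 _ (h2 x hx)

theorem semisimple (R : Set (Module.End ℂ M)) (hR : IsSS R) :
    IsSemisimpleModule (Algebra.adjoin ℂ R) M := by
  refine (isSemisimpleModule_iff _ _).2 ⟨fun U => ?_⟩
  obtain ⟨U', hs, hc⟩ := hR (U.restrictScalars ℂ) (fun r hr x hx => by
    exact U.smul_mem (⟨r, Algebra.subset_adjoin hr⟩ : Algebra.adjoin ℂ R) hx)
  have hs' := stable_adjoin R U' hs
  refine ⟨{ carrier := U', add_mem' := fun ha hb => U'.add_mem ha hb, zero_mem' := U'.zero_mem,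
            smul_mem' := fun c x hx => hs' c.1 c.2 x hx }, ?_⟩
  rw [isCompl_iff, Submodule.disjoint_def, codisjoint_iff, Submodule.eq_top_iff'] at hc ⊢
  refine ⟨fun x hx hx' => hc.1 x hx hx', fun x => ?_⟩
  obtain ⟨y, hy, z, hz, hyz⟩ := Submodule.mem_sup.1 (hc.2 x)
  exact Submodule.mem_sup.2 ⟨y, hy, z, hz, hyz⟩

variable [FiniteDimensional ℂ M]

/-- the radical of the trace form -/
def J (A : Subalgebra ℂ (Module.End ℂ M)) : Ideal A where
  carrier := {x | ∀ y : A, LinearMap.trace ℂ M ((x : Module.End ℂ M) * y) = 0}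
  add_mem' := by
    intro x x' hx hx' y
    rw [Subalgebra.coe_add, add_mul, map_add, hx y, hx' y, add_zero]
  zero_mem' := by intro y; simp
  smul_mem' := by
    intro c x hx y
    have := hx (y * c)
    rw [Subalgebra.coe_mul, ← mul_assoc, LinearMap.trace_mul_comm, ← mul_assoc] at this
    rwa [smul_eq_mul, Subalgebra.coe_mul]

theorem J_nil (A : Subalgebra ℂ (Module.End ℂ M)) (x : A) (hx : x ∈ J A) : IsNilpotent x := by
  have h1 : IsNilpotent (x : Module.End ℂ M) := by
    refine nil_of_trace _ fun k hk => ?_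
    obtain ⟨k, rfl⟩ := Nat.exists_eq_succ_of_ne_zero hk.ne'
    rw [pow_succ']
    have := hx (x ^ k)
    rwa [Subalgebra.coe_pow] at this
  obtain ⟨n, hn⟩ := h1
  exact ⟨n, Subtype.ext (by rw [Subalgebra.coe_pow, hn]; rfl)⟩

theorem J_le (A : Subalgebra ℂ (Module.End ℂ M)) : J A ≤ Ring.jacobson A := by
  intro x hx
  rw [← Ideal.jacobson_bot, Ideal.mem_jacobson_iff]
  intro y
  have hyx : IsNilpotent (y * x) := J_nil A _ ((J A).mul_mem_left y hx)
  obtain ⟨z, hz⟩ := (hyx.isUnit_one_add).exists_left_inv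
  refine ⟨z, ?_⟩
  have : z * y * x + z - 1 = z * (1 + y * x) - 1 := by rw [mul_add, mul_one, mul_assoc]; abel
  rw [this, hz, sub_self]
  exact Submodule.zero_mem _

theorem eq_zero_of_trace (R : Set (Module.End ℂ M)) (hR : IsSS R) (x : Module.End ℂ M)
    (hx : x ∈ Algebra.adjoin ℂ R)
    (h : ∀ y ∈ Algebra.adjoin ℂ R, LinearMap.trace ℂ M (x * y) = 0) : x = 0 := by
  have := semisimple R hR
  have h1 : (⟨x, hx⟩ : Algebra.adjoin ℂ R) ∈ J (Algebra.adjoin ℂ R) := fun y => h y y.2
  have h2 := IsSemisimpleModule.jacobson_le_annihilator (Algebra.adjoin ℂ R) M (J_le _ h1)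
  rw [Module.mem_annihilator] at h2
  ext m
  exact h2 m

end ss

theorem finite_sums (S : Set ℂ) (hS : S.Finite) (d : ℕ) :
    {t : ℂ | ∃ m : Multiset ℂ, Multiset.card m = d ∧ (∀ a ∈ m, a ∈ S) ∧ m.sum = t}.Finite := by
  classical
  refine Set.Finite.subset
    (((d • hS.toFinset.val).powerset.toFinset.image Multiset.sum).finite_toSet) ?_
  rintro t ⟨m, hm, hmS, rfl⟩
  rw [Finset.mem_coe, Finset.mem_image]
  refine ⟨m, ?_, rfl⟩
  rw [Multiset.mem_toFinset, Multiset.mem_powerset, Multiset.le_iff_count]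
  intro a
  rw [Multiset.count_nsmul]
  by_cases ha : a ∈ m
  · have h1 : a ∈ hS.toFinset.val := by
      rw [Finset.mem_val, Set.Finite.mem_toFinset]; exact hmS a ha
    rw [Multiset.count_eq_one_of_mem hS.toFinset.nodup h1, mul_one, ← hm]
    exact Multiset.count_le_card a m
  · rw [Multiset.count_eq_zero_of_notMem ha]; exact Nat.zero_le _

theorem main (G : Type) [Group G] (M : Type) [AddCommGroup M] [Module ℂ M]
    [FiniteDimensional ℂ M] (ρ : G →* Module.End ℂ M) (hss : IsSS (Set.range ρ))
    (S : Set ℂ) (hS : S.Finite) (hev : ∀ g μ, (ρ g).HasEigenvalue μ → μ ∈ S) :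
    (Set.range ρ).Finite := by
  classical
  set d := Module.finrank ℂ M with hd
  set T := {t : ℂ | ∃ m : Multiset ℂ, Multiset.card m = d ∧ (∀ a ∈ m, a ∈ S) ∧ m.sum = t} with hT
  have hTf : T.Finite := finite_sums S hS d
  have htr : ∀ g, LinearMap.trace ℂ M (ρ g) ∈ T := by
    intro g
    have hsp : (ρ g).charpoly.Splits := IsAlgClosed.splits _
    refine ⟨(ρ g).charpoly.roots, ?_, ?_, ?_⟩
    · rw [← hsp.natDegree_eq_card_roots, LinearMap.charpoly_natDegree]
    · intro a ha
      refine hev g a ?_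
      rw [Module.End.hasEigenvalue_iff_isRoot_charpoly]
      exact (Polynomial.mem_roots'.1 ha).2
    · exact (Module.End.trace_eq_sum_roots_charpoly_of_splits hsp).symm
  -- the algebra spanned by the image
  have hspan : (Subalgebra.toSubmodule (Algebra.adjoin ℂ (Set.range ρ))) =
      Submodule.span ℂ (Set.range ρ) := by
    rw [Algebra.adjoin_eq_span]
    congr 1
    have : (Submonoid.closure (Set.range ρ)) = MonoidHom.mrange ρ := by
      rw [← MonoidHom.coe_mrange, Submonoid.closure_eq]
    rw [this, MonoidHom.coe_mrange]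
  obtain ⟨s, hs, hspan'⟩ := (Submodule.fg_span_iff_fg_span_finset_subset (R := ℂ) (Set.range ρ)).1
    (IsNoetherian.noetherian _)
  -- the injection
  have hinj : Function.Injective
      (fun (a : Set.range ρ) => (fun b : s => (⟨LinearMap.trace ℂ M ((a : Module.End ℂ M) * b), by
        obtain ⟨g, hg⟩ := a.2
        obtain ⟨g', hg'⟩ := hs b.2
        rw [← hg, ← hg', ← map_mul]
        exact htr _⟩ : T))) := by
    intro a a' haa
    have h1 : ∀ b ∈ s, LinearMap.trace ℂ M ((a : Module.End ℂ M) * b) =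
        LinearMap.trace ℂ M ((a' : Module.End ℂ M) * b) := by
      intro b hb
      have := congrFun haa ⟨b, hb⟩
      exact congrArg Subtype.val this
    have h20 : ∀ y ∈ Submodule.span ℂ (s : Set (Module.End ℂ M)),
        LinearMap.trace ℂ M (((a : Module.End ℂ M) - a') * y) = 0 := by
      intro y hy'
      induction hy' using Submodule.span_induction with
      | mem b hb => rw [sub_mul, map_sub, h1 b hb, sub_self]
      | zero => rw [mul_zero, map_zero]
      | add x y hx hy h3 h4 => rw [mul_add, map_add, h3, h4, add_zero]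
      | smul c x hx h3 => rw [mul_smul_comm, map_smul, h3, smul_zero]
    have h2 : ∀ y ∈ Algebra.adjoin ℂ (Set.range ρ),
        LinearMap.trace ℂ M (((a : Module.End ℂ M) - a') * y) = 0 := by
      intro y hy
      refine h20 y ?_
      rw [← hspan', ← hspan]; exact hy
    have h3 : (a : Module.End ℂ M) - a' ∈ Algebra.adjoin ℂ (Set.range ρ) :=
      sub_mem (Algebra.subset_adjoin a.2) (Algebra.subset_adjoin a'.2)
    exact Subtype.ext (sub_eq_zero.1 (eq_zero_of_trace _ hss _ h3 h2))
  have : Finite T := hTf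
  have : Finite (Set.range ρ) := Finite.of_injective _ hinj
  exact Set.toFinite _

end BurnAux

/-- Burnside: a semisimple representation whose eigenvalues lie in a finite set has finite
image. -/
theorem burnside : S_Burnside := by
  intro G _ M _ _ _ ρ hss S hS hev
  exact BurnAux.main G M ρ hss S hS hev

end Pool.Agent.N211.BT
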