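import Pool.Agent.N211.BT.Gen

/-!
# Matrices whose Kronecker power of large degree is a combination of those of the group belong to
# the Zariski closure of the group
-/

set_option linter.unusedSectionVars false

namespace Pool.Agent.N211.BT

open Matrix Pool.Agent.N996.BP

variable {ι : Type} [Fintype ι] [DecidableEq ι]

/-- Substitution as a homomorphism. -/
noncomputable def sbsH (x : Matrix ι ι ℂ) : MvPolynomial (ι × ι) ℂ →ₐ[ℂ] MvPolynomial (ι × ι) ℂ :=
  MvPolynomial.aeval (fun p : ι × ι =>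
    ∑ a, MvPolynomial.C (x p.1 a) * MvPolynomial.X (a, p.2))

lemma sbsH_apply (x : Matrix ι ι ℂ) (f : MvPolynomial (ι × ι) ℂ) : sbsH x f = sbs x f := rfl

lemma totalDegree_sbs (x : Matrix ι ι ℂ) (f : MvPolynomial (ι × ι) ℂ) :
    (sbs x f).totalDegree ≤ f.totalDegree := by
  classical
  rw [sbs, MvPolynomial.aeval_def, MvPolynomial.eval₂_eq']
  refine MvPolynomial.totalDegree_finsetSum_le fun β hβ => ?_
  refine (MvPolynomial.totalDegree_mul _ _).trans ?_
  have h0 : (algebraMap ℂ (MvPolynomial (ι × ι) ℂ) (MvPolynomial.coeff β f)).totalDegree = 0 :=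
    MvPolynomial.totalDegree_C _
  rw [h0, zero_add]
  refine (MvPolynomial.totalDegree_finsetProd _ _).trans ?_
  have h1 : ∀ p : ι × ι, (∑ a, MvPolynomial.C (x p.1 a) *
      (MvPolynomial.X (a, p.2) : MvPolynomial (ι × ι) ℂ)).totalDegree ≤ 1 := by
    intro p
    refine MvPolynomial.totalDegree_finsetSum_le fun a _ => ?_
    refine (MvPolynomial.totalDegree_mul _ _).trans ?_
    rw [MvPolynomial.totalDegree_C, zero_add]
    exact (MvPolynomial.totalDegree_X _).le
  have h2 : ∑ p : ι × ι, ((∑ a, MvPolynomial.C (x p.1 a) *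
      (MvPolynomial.X (a, p.2) : MvPolynomial (ι × ι) ℂ)) ^ β p).totalDegree ≤ ∑ p, β p := by
    refine Finset.sum_le_sum fun p _ => ?_
    refine (MvPolynomial.totalDegree_pow _ _).trans ?_
    calc β p * _ ≤ β p * 1 := Nat.mul_le_mul_left _ (h1 p)
      _ = β p := Nat.mul_one _
  refine h2.trans ?_
  have h3 : ∑ p, β p = β.sum fun _ e => e :=
    (Finsupp.sum_fintype β (fun _ e => e) fun _ => rfl).symm
  rw [h3]
  exact MvPolynomial.le_totalDegree hβ

lemma sbs_injective {q q' : Matrix ι ι ℂ} (h : q * q' = 1) : Function.Injective (sbsH q) := by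
  rw [injective_iff_map_eq_zero]
  intro f hf
  have h1 := aeval_sbs (R := MvPolynomial (ι × ι) ℂ) q f
    (q'.map (algebraMap ℂ (MvPolynomial (ι × ι) ℂ)) * gm ℂ ι)
  rw [← sbsH_apply, hf, map_zero, ← Matrix.mul_assoc, ← Matrix.map_mul, h,
    Matrix.map_one _ (map_zero _) (map_one _), Matrix.one_mul] at h1
  have h2 : MvPolynomial.aeval (ent (gm ℂ ι)) f = f := by
    have h3 : (MvPolynomial.aeval (ent (gm ℂ ι)) : MvPolynomial (ι × ι) ℂ →ₐ[ℂ] _) =
        AlgHom.id ℂ _ := by
      apply MvPolynomial.algHom_ext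
      intro i
      rw [MvPolynomial.aeval_X]
      rfl
    rw [h3]
    rfl
  rw [h2] at h1
  exact h1.symm

section

variable {E : Type} [Field E] [Algebra ℂ E]

/-- A relation represented by a linear function of the Kronecker power is preserved by matrices
whose Kronecker powers are combinations of those of `Z`. -/
lemma rel_of_span {g : Matrix ι ι E} {o : ι} (hg : UCol o g) (Z : Set (Matrix ι ι ℂ))
    (hZ : ∀ δ ∈ Z, UCol o δ) {κ : Type} [Fintype κ] [DecidableEq κ] {q : Matrix ι ι ℂ}
    (hq : kp κ q ∈ Submodule.span ℂ (kp κ '' Z)) (hqu : UCol o q)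
    {f : MvPolynomial (ι × ι) ℂ} {φ : Matrix (κ → ι) (κ → ι) ℂ} (hφ : Rep o κ f φ)
    (hf : ∀ δ ∈ Z, MvPolynomial.aeval (ent (δ.map (algebraMap ℂ E) * g)) f = 0) :
    MvPolynomial.aeval (ent (q.map (algebraMap ℂ E) * g)) f = 0 := by
  rw [hφ E _ ((hqu.map (algebraMap ℂ E)).mul hg)]
  have key : ∀ x ∈ Submodule.span ℂ (kp κ '' Z),
      ∑ i, ∑ j, algebraMap ℂ E (φ i j) * (x.map (algebraMap ℂ E) * kp κ g) i j = 0 := by
    intro x hx
    induction hx using Submodule.span_induction with
    | mem x hx =>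
      obtain ⟨γ, hγ, rfl⟩ := hx
      have h1 := hf γ hγ
      rw [hφ E _ (((hZ γ hγ).map (algebraMap ℂ E)).mul hg)] at h1
      rw [← h1]
      refine Finset.sum_congr rfl fun i _ => Finset.sum_congr rfl fun j _ => ?_
      rw [kp_mul, kp_map]
    | zero =>
      refine Finset.sum_eq_zero fun i _ => Finset.sum_eq_zero fun j _ => ?_
      have : (0 : Matrix (κ → ι) (κ → ι) ℂ).map (algebraMap ℂ E) = 0 :=
        Matrix.map_zero _ (map_zero _)
      rw [this, Matrix.zero_mul, Matrix.zero_apply, mul_zero]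
    | add x y _ _ hx hy =>
      have h1 : (x + y).map (algebraMap ℂ E) = x.map (algebraMap ℂ E) + y.map (algebraMap ℂ E) :=
        Matrix.map_add _ (map_add _) _ _
      rw [h1, Matrix.add_mul]
      simp only [Matrix.add_apply, mul_add, Finset.sum_add_distrib]
      rw [hx, hy, add_zero]
    | smul c x _ hx =>
      have h1 : (c • x).map (algebraMap ℂ E) = algebraMap ℂ E c • x.map (algebraMap ℂ E) := by
        ext i j
        simp
      rw [h1, Matrix.smul_mul]
      have h2 : ∀ i j, algebraMap ℂ E (φ i j) * (algebraMap ℂ E c • (x.map (algebraMap ℂ E) *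
          kp κ g)) i j = algebraMap ℂ E c * (algebraMap ℂ E (φ i j) * (x.map (algebraMap ℂ E) *
          kp κ g) i j) := by
        intro i j
        rw [Matrix.smul_apply, smul_eq_mul]
        ring
      simp only [h2, ← Finset.mul_sum]
      rw [hx, mul_zero]
  have h2 := key _ hq
  rw [← h2]
  refine Finset.sum_congr rfl fun i _ => Finset.sum_congr rfl fun j _ => ?_
  rw [kp_mul, kp_map]

end

variable (C : CoFam ι)

/-- The group and its translate by the involution. -/
def ZZ (ε : Matrix ι ι ℂ) : Set (Matrix ι ι ℂ) := {x | x ∈ C.GG ∨ ∃ γ ∈ C.GG, x = ε * γ}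

variable {C}

/-- **Matrices whose Kronecker power of large degree is a combination of those of the group and of
its translate by an involution belong to the closure of the group or of the translate.** -/
theorem cl_of_span {o : ι} (ho : ∀ γ ∈ C.GG, UCol o γ) {ε p p' : Matrix ι ι ℂ} (hε2 : ε * ε = 1)
    (hεo : UCol o ε) (hpp' : p * p' = 1) (hpo : UCol o p)
    (hεp : ε * p = p * ε) {D : ℕ} (hD : 2 * bd (Fintype.card ι ^ 2) C.w ≤ D)
    (hp : kp (Fin D) p ∈ Submodule.span ℂ (kp (Fin D) '' ZZ C ε)) :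
    C.Cl p ∨ C.Cl (ε * p) := by
  classical
  obtain ⟨R, hR⟩ : ∃ R, R = Fintype.card ι ^ 2 := ⟨_, rfl⟩
  obtain ⟨B, hB⟩ : ∃ B, B = ((2 * C.w + 1) * (R + 1)) ^ R := ⟨_, rfl⟩
  obtain ⟨D', hD'⟩ : ∃ D', D' = bd R C.w := ⟨_, rfl⟩
  have hDB : D' = (R + 1) * B := by rw [hD', hB, bd]
  rw [← hR, ← hD'] at hD
  have hp'p : p' * p = 1 := mul_eq_one_comm.1 hpp'
  obtain ⟨r, E, _, _, g, hr, hg, hst⟩ := exists_gn C
  have hZ : ∀ δ ∈ ZZ C ε, UCol o δ := by
    rintro δ (h | ⟨γ, h, rfl⟩)
    · exact ho δ h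
    · exact hεo.mul (ho γ h)
  have hgu : UCol o g := by
    intro i
    have h0 := hg.van (MvPolynomial.X (i, o) - MvPolynomial.C (if i = o then 1 else 0)) (by
      intro γ hγ
      rw [map_sub, MvPolynomial.aeval_X, MvPolynomial.aeval_C]
      have := ho γ hγ i
      change γ i o - _ = 0
      rw [this, sub_eq_zero]
      split_ifs <;> simp)
    rw [map_sub, MvPolynomial.aeval_X, MvPolynomial.aeval_C, sub_eq_zero] at h0
    change g i o = _
    have h1 : g i o = algebraMap ℂ E (if i = o then 1 else 0) := h0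
    rw [h1]
    split_ifs <;> simp
  -- relations of the generic point and of its translate
  have hJ : ∀ f : MvPolynomial (ι × ι) ℂ, f.totalDegree ≤ D →
      MvPolynomial.aeval (ent g) f = 0 →
      MvPolynomial.aeval (ent (ε.map (algebraMap ℂ E) * g)) f = 0 →
      MvPolynomial.aeval (ent (p.map (algebraMap ℂ E) * g)) f = 0 := by
    intro f hf h1 h2
    obtain ⟨φ, hφ⟩ := exists_rep o hf
    refine rel_of_span hgu _ hZ hp hpo hφ ?_
    rintro δ (h | ⟨γ, h, rfl⟩)
    · exact hst δ h f h1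
    · rw [← aeval_sbs] at h2
      have h3 := hst γ h _ h2
      rw [aeval_sbs, ← Matrix.mul_assoc, ← Matrix.map_mul] at h3
      exact h3
  -- dichotomy
  have hdich : ∃ q q' : Matrix ι ι ℂ, q * q' = 1 ∧ (q = p ∨ q = ε * p) ∧
      ∀ f : MvPolynomial (ι × ι) ℂ, f.totalDegree ≤ D' → MvPolynomial.aeval (ent g) f = 0 →
        MvPolynomial.aeval (ent (q.map (algebraMap ℂ E) * g)) f = 0 := by
    by_cases h : ∀ f : MvPolynomial (ι × ι) ℂ, f.totalDegree ≤ D' →
        MvPolynomial.aeval (ent g) f = 0 →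
        MvPolynomial.aeval (ent (p.map (algebraMap ℂ E) * g)) f = 0
    · exact ⟨p, p', hpp', Or.inl rfl, h⟩
    · push Not at h
      obtain ⟨f₁, hf₁, h1, h2⟩ := h
      refine ⟨ε * p, p' * ε, ?_, Or.inr rfl, ?_⟩
      · calc ε * p * (p' * ε) = ε * (p * p') * ε := by simp only [Matrix.mul_assoc]
          _ = 1 := by rw [hpp', Matrix.mul_one, hε2]
      · intro f₂ hf₂ h3
        have h4 := hJ (f₁ * sbs ε f₂) ?_ ?_ ?_
        · rw [map_mul, mul_eq_zero] at h4
          have h5 := h4.resolve_left h2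
          rw [aeval_sbs, ← Matrix.mul_assoc, ← Matrix.map_mul] at h5
          exact h5
        · refine (MvPolynomial.totalDegree_mul _ _).trans ?_
          have := totalDegree_sbs ε f₂
          omega
        · rw [map_mul, h1, zero_mul]
        · rw [map_mul, aeval_sbs, ← Matrix.mul_assoc, ← Matrix.map_mul, hε2,
            Matrix.map_one _ (map_zero _) (map_one _), Matrix.one_mul, h3, mul_zero]
  obtain ⟨q, q', hqq', hq, hlow⟩ := hdich
  have hq'q : q' * q = 1 := mul_eq_one_comm.1 hqq'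
  -- equality in low degrees
  have hlow' : ∀ f : MvPolynomial (ι × ι) ℂ, f.totalDegree ≤ D' →
      (MvPolynomial.aeval (ent g) f = 0 ↔
        MvPolynomial.aeval (ent (q.map (algebraMap ℂ E) * g)) f = 0) := by
    let V := MvPolynomial.restrictTotalDegree (ι × ι) ℂ D'
    have hVfd : FiniteDimensional ℂ V := by
      change FiniteDimensional ℂ (MvPolynomial.restrictTotalDegree (ι × ι) ℂ D')
      infer_instance
    let a : MvPolynomial (ι × ι) ℂ →ₗ[ℂ] E := (MvPolynomial.aeval (ent g)).toLinearMap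
    let b : MvPolynomial (ι × ι) ℂ →ₗ[ℂ] E :=
      (MvPolynomial.aeval (ent (q.map (algebraMap ℂ E) * g))).toLinearMap
    let A : Submodule ℂ (MvPolynomial (ι × ι) ℂ) := V ⊓ LinearMap.ker a
    let B : Submodule ℂ (MvPolynomial (ι × ι) ℂ) := V ⊓ LinearMap.ker b
    have hAV : A ≤ V := inf_le_left
    have hBV : B ≤ V := inf_le_left
    have hA : FiniteDimensional ℂ A := Submodule.finiteDimensional_of_le hAV
    have hBf : FiniteDimensional ℂ B := Submodule.finiteDimensional_of_le hBV
    have hAB : A ≤ B := by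
      intro f hf
      have h1 := (Submodule.mem_inf.1 hf).1
      have h2 := LinearMap.mem_ker.1 (Submodule.mem_inf.1 hf).2
      exact Submodule.mem_inf.2 ⟨h1, LinearMap.mem_ker.2 (hlow f
        ((MvPolynomial.mem_restrictTotalDegree _ _ _).1 h1) h2)⟩
    have hBA : Module.finrank ℂ B ≤ Module.finrank ℂ A := by
      have hinj : Function.Injective (sbsH q).toLinearMap := sbs_injective hqq'
      rw [(Submodule.equivMapOfInjective (sbsH q).toLinearMap hinj B).finrank_eq]
      apply Submodule.finrank_mono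
      rintro _ ⟨f, hf, rfl⟩
      have h1 := (MvPolynomial.mem_restrictTotalDegree _ _ _).1 (Submodule.mem_inf.1 hf).1
      have h2 := LinearMap.mem_ker.1 (Submodule.mem_inf.1 hf).2
      refine Submodule.mem_inf.2 ⟨(MvPolynomial.mem_restrictTotalDegree _ _ _).2
        ((totalDegree_sbs q f).trans h1), LinearMap.mem_ker.2 ?_⟩
      change MvPolynomial.aeval (ent g) (sbs q f) = 0
      rw [aeval_sbs]
      exact h2
    have hEq : A = B := Submodule.eq_of_le_of_finrank_le hAB hBA
    intro f hf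
    refine ⟨hlow f hf, fun h => ?_⟩
    have h1 : f ∈ B := Submodule.mem_inf.2 ⟨(MvPolynomial.mem_restrictTotalDegree _ _ _).2 hf,
      LinearMap.mem_ker.2 h⟩
    rw [← hEq] at h1
    exact LinearMap.mem_ker.1 (Submodule.mem_inf.1 h1).2
  obtain ⟨κ', _, _, lam, hc, hx, hx'⟩ := exists_common hg.tr (Tr.sbs hg.tr hq'q)
  obtain ⟨T, hT, hTc⟩ := exists_box κ' B
  rw [hc] at hT hTc
  have hker : ∀ f : MvPolynomial (ι × ι) ℂ, MvPolynomial.aeval (ent g) f = 0 →
      MvPolynomial.aeval (ent (q.map (algebraMap ℂ E) * g)) f = 0 := by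
    intro f hf
    refine ker_of_low lam hx hx' hlow' (Vd g D') (fun f hf => mem_Vd.2 ⟨f, hf, rfl⟩) T
      (fun β hβ => ?_) ?_ f hf
    · refine (hT β hβ).trans ?_
      rw [hDB]
      exact Nat.mul_le_mul_right _ (by omega)
    · rw [hTc]
      refine lt_of_le_of_lt (hg.dim D') ?_
      rw [hD', hB]
      exact bd_lt (by omega)
  have hcl : C.Cl q := by
    intro f hf
    have h1 : MvPolynomial.aeval (ent g) (sbs q f) = 0 := by
      rw [aeval_sbs]
      exact hker f (hg.van f hf)
    have h2 := hg.spc _ h1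
    rw [aeval_sbs, Matrix.mul_one] at h2
    exact h2
  rcases hq with rfl | rfl
  · exact Or.inl hcl
  · exact Or.inr hcl

end Pool.Agent.N211.BT
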