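import Mathlib
import Pool.Agent.N996.BP.Kp

/-!
# Statements of auxiliary facts for the bounded power theorem for the Tate conjecture
-/

namespace Pool.Agent.N211.BT

open Matrix

/-- Every subspace stable under the operators in `R` has a complement stable under them. -/
def IsSS {M : Type*} [AddCommGroup M] [Module ℂ M] (R : Set (Module.End ℂ M)) : Prop :=
  ∀ U : Submodule ℂ M, (∀ r ∈ R, ∀ x ∈ U, r x ∈ U) →
    ∃ U' : Submodule ℂ M, (∀ r ∈ R, ∀ x ∈ U', r x ∈ U') ∧ IsCompl U U'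

/-- Burnside: a semisimple representation in which the eigenvalues of all elements belong to one
finite set has finite image. -/
def S_Burnside : Prop := ∀ (G : Type) [Group G] (M : Type) [AddCommGroup M] [Module ℂ M]
  [FiniteDimensional ℂ M] (ρ : G →* Module.End ℂ M), IsSS (Set.range ρ) →
  ∀ S : Set ℂ, S.Finite → (∀ g μ, (ρ g).HasEigenvalue μ → μ ∈ S) → (Set.range ρ).Finite

/-- There are finitely many roots of unity of bounded degree. -/
def S_Fin : Prop := ∀ B : ℕ,
  {x : ℂ | (∃ m : ℕ, 0 < m ∧ x ^ m = 1) ∧ (minpoly ℚ x).natDegree ≤ B}.Finite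

/-- Semisimplicity passes from subgroups of finite index to the group. -/
def S_Rel : Prop := ∀ (G : Type) [Group G] (M : Type) [AddCommGroup M] [Module ℂ M]
  [FiniteDimensional ℂ M] (ρ : G →* Module.End ℂ M) (K : Subgroup G), K.FiniteIndex →
  IsSS (ρ '' (K : Set G)) → IsSS (Set.range ρ)

/-- Clifford: if the group acts semisimply, normalises the set `R` of operators, and all its stable
subspaces are stable under `R`, then `R` acts semisimply. -/
def S_Cliff : Prop := ∀ (G : Type) [Group G] (M : Type) [AddCommGroup M] [Module ℂ M]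
  [FiniteDimensional ℂ M] (ρ : G →* Module.End ℂ M) (R : Set (Module.End ℂ M)),
  IsSS (Set.range ρ) → (∀ g, ∀ r ∈ R, ρ g * r * ρ g⁻¹ ∈ R) →
  (∀ U : Submodule ℂ M, (∀ g, ∀ x ∈ U, ρ g x ∈ U) → ∀ r ∈ R, ∀ x ∈ U, r x ∈ U) → IsSS R

/-- The multiplicative Jordan decomposition of a graded invertible matrix and of its Kronecker
powers. -/
def S_Jord : Prop := ∀ (ι : Type) [Fintype ι] [DecidableEq ι] (F : Matrix ι ι ℂ) (deg : ι → ℕ),
  IsUnit F → (∀ i j, F i j ≠ 0 → deg i = deg j) →
  ∃ (P Pi : Matrix ι ι ℂ) (lam : ι → ℂ) (dg : ι → ℕ), P * Pi = 1 ∧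
    (∀ i a, P i a ≠ 0 → deg i = dg a) ∧
    P * Matrix.diagonal lam * Pi ∈ Algebra.adjoin ℂ {F} ∧
    IsNilpotent (F - P * Matrix.diagonal lam * Pi) ∧
    ∀ (κ : Type) [Fintype κ] [DecidableEq κ],
      Pool.Agent.N996.BP.kp κ (P * Matrix.diagonal lam * Pi) ∈
        Algebra.adjoin ℂ {Pool.Agent.N996.BP.kp κ F} ∧
      IsNilpotent (Pool.Agent.N996.BP.kp κ F -
        Pool.Agent.N996.BP.kp κ (P * Matrix.diagonal lam * Pi))

end Pool.Agent.N211.BT
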