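import Mathlib
import Pool.Agent.N211.BT.Stm

/-!
# Finitely many roots of unity of bounded degree
-/

set_option autoImplicit false

namespace Pool.Agent.N211.BT

namespace FinAux

open Nat

/-- Every prime power dividing a number with totient at most `B` is at most `2 * B`. -/
theorem pp_le {k B p a : ℕ} (hk : 0 < k) (h : φ k ≤ B) (hp : p.Prime) (ha : 0 < a)
    (hd : p ^ a ∣ k) : p ^ a ≤ 2 * B := by
  have h1 : φ (p ^ a) ≤ φ k :=
    Nat.le_of_dvd (Nat.totient_pos.2 hk) (Nat.totient_dvd_of_dvd hd)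
  rw [Nat.totient_prime_pow hp ha] at h1
  obtain ⟨b, rfl⟩ : ∃ b, a = b + 1 := ⟨a - 1, by omega⟩
  have h2 : p ≤ 2 * (p - 1) := by have := hp.two_le; omega
  calc p ^ (b + 1) = p ^ b * p := pow_succ _ _
    _ ≤ p ^ b * (2 * (p - 1)) := Nat.mul_le_mul_left _ h2
    _ = 2 * (p ^ (b + 1 - 1) * (p - 1)) := by simp; ring
    _ ≤ 2 * B := by omega

/-- A number with totient at most `B` divides `(2 * B)!`. -/
theorem dvd_fact {k B : ℕ} (hk : 0 < k) (h : φ k ≤ B) : k ∣ (2 * B)! := by
  rw [Nat.dvd_iff_prime_pow_dvd_dvd]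
  intro p a hp hd
  rcases Nat.eq_zero_or_pos a with rfl | ha
  · simp
  · exact Nat.dvd_factorial (pow_pos hp.pos _) (pp_le hk h hp ha hd)

end FinAux

/-- There are finitely many roots of unity of bounded degree. -/
theorem fin : S_Fin := by
  intro B
  have hfin : (((Polynomial.nthRoots ((2 * B).factorial) (1 : ℂ)).toFinset : Finset ℂ) :
      Set ℂ).Finite := Finset.finite_toSet _
  refine hfin.subset ?_
  rintro x ⟨⟨m, hm, hx⟩, hB⟩
  have hord : 0 < orderOf x := orderOf_pos_iff.2 (isOfFinOrder_iff_pow_eq_one.2 ⟨m, hm, hx⟩)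
  have hprim : IsPrimitiveRoot x (orderOf x) := IsPrimitiveRoot.orderOf x
  have hdeg : (minpoly ℚ x).natDegree = (orderOf x).totient := by
    rw [← Polynomial.cyclotomic_eq_minpoly_rat hprim hord, Polynomial.natDegree_cyclotomic]
  rw [hdeg] at hB
  have hdvd := FinAux.dvd_fact hord hB
  have h1 : x ^ (2 * B).factorial = 1 := orderOf_dvd_iff_pow_eq_one.1 hdvd
  simp only [Finset.mem_coe, Multiset.mem_toFinset]
  rw [Polynomial.mem_nthRoots (Nat.factorial_pos _)]
  exact h1

end Pool.Agent.N211.BT
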