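import Pool.Agent.N211.BT.Stm

/-!
# The multiplicative Jordan decomposition of Kronecker powers
-/

set_option autoImplicit false

namespace Pool.Agent.N211.BT

open Matrix Pool.Agent.N996.BP

namespace Jordaux

variable {ι : Type} [Fintype ι] [DecidableEq ι]

/-- matrices as endomorphisms -/
noncomputable def T (n : Type) [Fintype n] [DecidableEq n] :
    Matrix n n ℂ ≃ₐ[ℂ] Module.End ℂ (n → ℂ) := toLinAlgEquiv'

theorem T_apply {n : Type} [Fintype n] [DecidableEq n] (A : Matrix n n ℂ) (v : n → ℂ) :
    T n A v = A *ᵥ v := rfl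

theorem diag_ss (P Pi : Matrix ι ι ℂ) (h : P * Pi = 1) (lam : ι → ℂ) :
    (T ι (P * diagonal lam * Pi)).IsSemisimple := by
  have h' : Pi * P = 1 := mul_eq_one_comm.1 h
  set p : Polynomial ℂ := ∏ μ ∈ Finset.univ.image lam, (Polynomial.X - Polynomial.C μ) with hp
  have hsf : Squarefree p := by
    apply Polynomial.Separable.squarefree
    rw [hp, Polynomial.separable_prod_X_sub_C_iff']
    exact fun x _ y _ h => h
  refine Module.End.isSemisimple_of_squarefree_aeval_eq_zero hsf ?_
  have e1 : Polynomial.aeval (T ι (P * diagonal lam * Pi)) p =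
      T ι (Polynomial.aeval (P * diagonal lam * Pi) p) :=
    Polynomial.aeval_algHom_apply (T ι : Matrix ι ι ℂ →ₐ[ℂ] Module.End ℂ (ι → ℂ)) _ _
  have e2 : ∀ q : Polynomial ℂ, Polynomial.aeval (P * diagonal lam * Pi) q * P =
      P * Polynomial.aeval (diagonal lam) q := by
    intro q
    have hsc : SemiconjBy P (diagonal lam) (P * diagonal lam * Pi) := by
      unfold SemiconjBy
      rw [Matrix.mul_assoc, h', Matrix.mul_one]
    induction q using Polynomial.induction_on' with
    | add a b ha hb => rw [map_add, map_add, add_mul, mul_add, ha, hb]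
    | monomial n c =>
      rw [Polynomial.aeval_monomial, Polynomial.aeval_monomial, mul_assoc,
        ← (hsc.pow_right n).eq, ← mul_assoc, ← mul_assoc, Algebra.commutes]
  have e3 : Polynomial.aeval (diagonal lam : Matrix ι ι ℂ) p = 0 := by
    have : Polynomial.aeval (diagonal lam : Matrix ι ι ℂ) p =
        diagonal (fun i => Polynomial.eval (lam i) p) := by
      have h1 := Polynomial.aeval_algHom_apply (Matrix.diagonalAlgHom (n := ι) (α := ℂ) ℂ) lam p
      have h2 : (Matrix.diagonalAlgHom (n := ι) (α := ℂ) ℂ) lam = diagonal lam := rfl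
      rw [h2] at h1
      rw [h1]
      show diagonal (Polynomial.aeval lam p) = _
      congr 1
      funext i
      have h3 := Polynomial.aeval_algHom_apply (_root_.Pi.evalAlgHom ℂ (fun _ : ι => ℂ) i) lam p
      rw [_root_.Pi.evalAlgHom_apply, _root_.Pi.evalAlgHom_apply] at h3
      rw [← h3, Polynomial.coe_aeval_eq_eval]
    rw [this]
    ext i j
    rw [Matrix.diagonal_apply]
    split_ifs with hij
    · rw [hp, Polynomial.eval_prod]
      exact Finset.prod_eq_zero (Finset.mem_image_of_mem lam (Finset.mem_univ i)) (by simp)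
    · rfl
  have e4 : Polynomial.aeval (P * diagonal lam * Pi) p = 0 := by
    have := e2 p
    rw [e3, Matrix.mul_zero] at this
    calc Polynomial.aeval (P * diagonal lam * Pi) p
        = Polynomial.aeval (P * diagonal lam * Pi) p * P * Pi := by
          rw [Matrix.mul_assoc (Polynomial.aeval (P * diagonal lam * Pi) p) P Pi, h, Matrix.mul_one]
      _ = 0 := by rw [this, Matrix.zero_mul]
  rw [e1, e4, map_zero]

/-- Kronecker products of families -/
def kpf {κ : Type} [Fintype κ] (g : κ → Matrix ι ι ℂ) : Matrix (κ → ι) (κ → ι) ℂ :=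
  Matrix.of fun i j => ∏ k, g k (i k) (j k)

variable {κ : Type} [Fintype κ] [DecidableEq κ]

theorem kpf_const (g : Matrix ι ι ℂ) : kpf (fun _ : κ => g) = kp κ g := rfl

theorem kpf_mul (g h : κ → Matrix ι ι ℂ) : kpf (fun k => g k * h k) = kpf g * kpf h := by
  ext i j
  simp only [kpf, Matrix.of_apply, Matrix.mul_apply]
  rw [Finset.prod_univ_sum]
  refine Finset.sum_congr (by ext; simp) fun a _ => ?_
  rw [Finset.prod_mul_distrib]

theorem kpf_one : kpf (fun _ : κ => (1 : Matrix ι ι ℂ)) = 1 := kp_one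

theorem kpf_pow (g : κ → Matrix ι ι ℂ) (m : ℕ) : kpf g ^ m = kpf (fun k => g k ^ m) := by
  induction m with
  | zero => simp only [pow_zero]; exact kpf_one.symm
  | succ m ih => rw [pow_succ, ih, ← kpf_mul]; simp only [pow_succ]

theorem kpf_commute {g h : κ → Matrix ι ι ℂ} (H : ∀ k, Commute (g k) (h k)) :
    Commute (kpf g) (kpf h) := by
  show kpf g * kpf h = kpf h * kpf g
  rw [← kpf_mul, ← kpf_mul]
  congr 1
  funext k
  exact H k

theorem kpf_zero {g : κ → Matrix ι ι ℂ} {a : κ} (h : g a = 0) : kpf g = 0 := by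
  ext i j
  simp only [kpf, Matrix.of_apply, Matrix.zero_apply]
  exact Finset.prod_eq_zero (Finset.mem_univ a) (by rw [h]; rfl)

theorem kpf_nil {g : κ → Matrix ι ι ℂ} {a : κ} (h : IsNilpotent (g a)) : IsNilpotent (kpf g) := by
  obtain ⟨m, hm⟩ := h
  exact ⟨m, by rw [kpf_pow]; exact kpf_zero (a := a) hm⟩

theorem kpf_sub {g h u : κ → Matrix ι ι ℂ} {a : κ} (H : ∀ k, k ≠ a → g k = h k ∧ u k = h k)
    (Ha : u a = g a - h a) : kpf g - kpf h = kpf u := by
  ext i j
  simp only [kpf, Matrix.of_apply, Matrix.sub_apply]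
  rw [← Finset.mul_prod_erase _ _ (Finset.mem_univ a), ← Finset.mul_prod_erase _ _
    (Finset.mem_univ a), ← Finset.mul_prod_erase (a := a) _ (fun k => u k (i k) (j k))
    (Finset.mem_univ a), Ha]
  have h1 : ∏ k ∈ Finset.univ.erase a, g k (i k) (j k) =
      ∏ k ∈ Finset.univ.erase a, h k (i k) (j k) :=
    Finset.prod_congr rfl fun k hk => by rw [(H k (Finset.ne_of_mem_erase hk)).1]
  have h2 : ∏ k ∈ Finset.univ.erase a, u k (i k) (j k) =
      ∏ k ∈ Finset.univ.erase a, h k (i k) (j k) :=
    Finset.prod_congr rfl fun k hk => by rw [(H k (Finset.ne_of_mem_erase hk)).2]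
  rw [h1, h2, Matrix.sub_apply]
  ring

theorem kp_nil {F S : Matrix ι ι ℂ} (hc : Commute F S) (hn : IsNilpotent (F - S)) :
    IsNilpotent (kp κ F - kp κ S) := by
  let K : Finset κ → κ → Matrix ι ι ℂ := fun t k => if k ∈ t then F else S
  have hKc : ∀ t k, Commute (K t k) F ∧ Commute (K t k) S := by
    intro t k
    simp only [K]
    split_ifs
    · exact ⟨Commute.refl _, hc⟩
    · exact ⟨hc.symm, Commute.refl _⟩
  have hKK : ∀ t t' k, Commute (K t k) (K t' k) := by
    intro t t' k
    have := hKc t k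
    show Commute (K t k) (if k ∈ t' then F else S)
    split_ifs
    · exact this.1
    · exact this.2
  have main : ∀ t : Finset κ, IsNilpotent (kpf (K t) - kpf (K ∅)) := by
    intro t
    induction t using Finset.induction_on with
    | empty => rw [sub_self]; exact IsNilpotent.zero
    | insert a t ha ih =>
      have e : kpf (K (insert a t)) - kpf (K ∅) =
          (kpf (K (insert a t)) - kpf (K t)) + (kpf (K t) - kpf (K ∅)) := by abel
      have hsub : kpf (K (insert a t)) - kpf (K t) =
          kpf (fun k => if k = a then F - S else K t k) := by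
        refine kpf_sub (a := a) (fun k hk => ⟨?_, ?_⟩) ?_
        · simp only [K, Finset.mem_insert, hk, false_or]
        · simp only [if_neg hk]
        · simp only [if_true, K, Finset.mem_insert_self, if_neg ha]
      rw [e]
      refine Commute.isNilpotent_add ?_ ?_ ih
      · refine Commute.sub_left ?_ ?_ <;> refine Commute.sub_right ?_ ?_ <;>
          exact kpf_commute fun k => hKK _ _ k
      · rw [hsub]
        refine kpf_nil (a := a) ?_
        simp only [if_true]
        exact hn
  have h := main Finset.univ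
  have e1 : K Finset.univ = fun _ => F := by
    funext k; simp only [K, Finset.mem_univ, if_true]
  have e2 : K ∅ = fun _ => S := by
    funext k; simp only [K, Finset.notMem_empty, if_false]
  rw [e1, e2] at h
  exact h

theorem kp_diag (lam : ι → ℂ) : kp κ (diagonal lam) = diagonal (fun i => ∏ k, lam (i k)) := by
  ext i j
  rw [kp_apply, Matrix.diagonal_apply]
  split_ifs with h
  · subst h
    exact Finset.prod_congr rfl fun k _ => Matrix.diagonal_apply_eq _ _
  · obtain ⟨k, hk⟩ := Function.ne_iff.1 h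
    exact Finset.prod_eq_zero (Finset.mem_univ k) (Matrix.diagonal_apply_ne _ hk)

theorem adj_back {n : Type} [Fintype n] [DecidableEq n] {A X : Matrix n n ℂ}
    (h : T n X ∈ Algebra.adjoin ℂ {T n A}) : X ∈ Algebra.adjoin ℂ {A} := by
  have h1 := AlgHom.map_adjoin_singleton (T n : Matrix n n ℂ →ₐ[ℂ] Module.End ℂ (n → ℂ)) A
  have h2 : T n X ∈ (Algebra.adjoin ℂ {A}).map
      (T n : Matrix n n ℂ →ₐ[ℂ] Module.End ℂ (n → ℂ)) := by
    rw [h1]; exact h
  obtain ⟨y, hy, hyX⟩ := (Subalgebra.mem_map).1 h2
  have : y = X := (T n).injective hyX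
  rw [← this]; exact hy

theorem kp_mem {F P Pi : Matrix ι ι ℂ} {lam : ι → ℂ} (h : P * Pi = 1)
    (hc : Commute F (P * diagonal lam * Pi)) (hn : IsNilpotent (F - P * diagonal lam * Pi)) :
    kp κ (P * diagonal lam * Pi) ∈ Algebra.adjoin ℂ {kp κ F} := by
  obtain ⟨S, hS⟩ : ∃ S, S = P * diagonal lam * Pi := ⟨_, rfl⟩
  rw [← hS] at hc hn ⊢
  have hss : (T (κ → ι) (kp κ S)).IsSemisimple := by
    have : kp κ S = kp κ P * diagonal (fun i => ∏ k, lam (i k)) * kp κ Pi := by
      rw [hS, kp_mul, kp_mul, kp_diag]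
    rw [this]
    exact diag_ss _ _ (kp_inv_mul h) _
  have hnn := kp_nil (κ := κ) hc hn
  have hcc : Commute (kp κ F) (kp κ S) := kpf_commute fun _ => hc
  obtain ⟨f, hf0⟩ : ∃ f, f = T (κ → ι) (kp κ F) := ⟨_, rfl⟩
  obtain ⟨n, hn', s, hs, hnil, hs', hf⟩ :=
    Module.End.exists_isNilpotent_isSemisimple (f := f)
  have hns : Commute n s := by
    have h1 : Commute f s := Algebra.commute_of_mem_adjoin_self hs
    exact (Algebra.commute_of_mem_adjoin_singleton_of_commute hn' h1.symm).symm
  have hnn' : IsNilpotent (T (κ → ι) (kp κ F - kp κ S)) := hnn.map (T (κ → ι))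
  have hcc' : Commute (T (κ → ι) (kp κ F - kp κ S)) (T (κ → ι) (kp κ S)) :=
    (hcc.sub_left (Commute.refl _)).map (T (κ → ι))
  have hsum : n + s = T (κ → ι) (kp κ F - kp κ S) + T (κ → ι) (kp κ S) := by
    rw [← hf, ← map_add, sub_add_cancel, hf0]
  have := Module.End.isNilpotent_isSemisimple_unique hnil hs' hnn' hss hns hcc' hsum
  apply adj_back
  rw [← this.2, ← hf0]
  exact hs

end Jordaux

open Jordaux in
/-- **the multiplicative Jordan decomposition of Kronecker powers** -/
theorem jord : S_Jord := by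
  intro ι _ _ F deg _ hdeg
  classical
  -- the additive Jordan decomposition
  obtain ⟨f, hf0⟩ : ∃ f, f = T ι F := ⟨_, rfl⟩
  obtain ⟨n, hn, s, hs, hnil, hss, hf⟩ :=
    Module.End.exists_isNilpotent_isSemisimple (f := f)
  obtain ⟨S, hS⟩ : ∃ S, T ι S = s := (T ι).surjective s
  have hSF : S ∈ Algebra.adjoin ℂ {F} := by
    apply adj_back
    rw [hS, ← hf0]; exact hs
  have hcFS : Commute F S := Algebra.commute_of_mem_adjoin_self hSF
  have hNS : IsNilpotent (F - S) := by
    have h1 : T ι (F - S) = n := by rw [map_sub, hS, ← hf0, hf]; abel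
    have h2 : F - S = (T ι).symm n := by rw [← h1, AlgEquiv.symm_apply_apply]
    rw [h2]
    exact hnil.map (T ι).symm
  -- the degree operator
  obtain ⟨D, hD⟩ : ∃ D : Matrix ι ι ℂ, D = diagonal fun i => (deg i : ℂ) := ⟨_, rfl⟩
  have hDF : Commute D F := by
    show D * F = F * D
    ext i j
    rw [hD, Matrix.diagonal_mul, Matrix.mul_diagonal]
    by_cases h : F i j = 0
    · rw [h]; ring
    · rw [hdeg i j h]; ring
  have hDS : Commute D S := Algebra.commute_of_mem_adjoin_singleton_of_commute hSF hDF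
  have hdss : (T ι D).IsSemisimple := by
    have := diag_ss (1 : Matrix ι ι ℂ) 1 (by rw [Matrix.one_mul]) (fun i => (deg i : ℂ))
    rw [Matrix.one_mul, Matrix.mul_one, ← hD] at this
    exact this
  -- the simultaneous eigenspaces
  let g : Bool → Module.End ℂ (ι → ℂ) := fun b => if b then s else T ι D
  have hg : ∀ i j, Commute (g i) (g j) := by
    have h1 : Commute (T ι D) s := by rw [← hS]; exact hDS.map (T ι)
    intro i j
    rcases i with _ | _ <;> rcases j with _ | _
    · exact Commute.refl _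
    · exact h1
    · exact h1.symm
    · exact Commute.refl _
  have hgss : ∀ i, (g i).IsSemisimple := by
    intro i
    rcases i with _ | _
    · exact hdss
    · exact hss
  let W : (Bool → ℂ) → Submodule ℂ (ι → ℂ) := fun χ => ⨅ i, (g i).maxGenEigenspace (χ i)
  have hmaps : ∀ i j φ, Set.MapsTo (g i) ((g j).maxGenEigenspace φ) ((g j).maxGenEigenspace φ) :=
    fun i j φ => Module.End.mapsTo_maxGenEigenspace_of_comm (hg j i) φ
  have hind : iSupIndep W := Module.End.independent_iInf_maxGenEigenspace_of_forall_mapsTo g hmaps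
  have htop : ⨆ χ, W χ = ⊤ :=
    Module.End.iSup_iInf_maxGenEigenspace_eq_top_of_forall_mapsTo g hmaps
      (fun i => Module.End.iSup_maxGenEigenspace_eq_top (g i))
  have hint : DirectSum.IsInternal W :=
    DirectSum.isInternal_submodule_of_iSupIndep_of_iSup_eq_top hind htop
  let b0 := hint.collectedBasis (fun χ => Module.finBasis ℂ (W χ))
  let e := b0.indexEquiv (_root_.Pi.basisFun ℂ ι)
  let b := b0.reindex e
  have hbW : ∀ a, b a ∈ W (e.symm a).1 := by
    intro a
    show b0.reindex e a ∈ _
    rw [Module.Basis.reindex_apply]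
    exact hint.collectedBasis_mem _ _
  have heig : ∀ a i, (g i) (b a) = (e.symm a).1 i • b a := by
    intro a i
    have h1 : b a ∈ (g i).maxGenEigenspace ((e.symm a).1 i) := (Submodule.mem_iInf _).1 (hbW a) i
    rw [(hgss i).isFinitelySemisimple.maxGenEigenspace_eq_eigenspace] at h1
    exact Module.End.mem_eigenspace_iff.1 h1
  let lam : ι → ℂ := fun a => (e.symm a).1 true
  have hlam : ∀ a, S *ᵥ (b a) = lam a • b a := by
    intro a
    have := heig a true
    rw [← T_apply, hS]
    exact this
  have hdeg' : ∀ a i, (deg i : ℂ) * b a i = (e.symm a).1 false * b a i := by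
    intro a i
    have h1 := congrFun (heig a false) i
    have h2 : (g false) (b a) = D *ᵥ b a := rfl
    rw [h2, hD, Matrix.mulVec_diagonal] at h1
    exact h1
  have hex : ∀ a, ∃ i, b a i ≠ 0 := by
    intro a
    by_contra hcon
    push Not at hcon
    exact b.ne_zero a (funext hcon)
  choose ia hia using hex
  let P : Matrix ι ι ℂ := Matrix.of fun i a => b a i
  let Q : Matrix ι ι ℂ := b.toMatrix (_root_.Pi.basisFun ℂ ι)
  have hP : P = (_root_.Pi.basisFun ℂ ι).toMatrix b := by
    ext i a
    rw [Module.Basis.toMatrix_apply, _root_.Pi.basisFun_repr]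
    rfl
  have hPQ : P * Q = 1 := by
    rw [hP]
    exact Module.Basis.toMatrix_mul_toMatrix_flip _ _
  have hSP : S * P = P * diagonal lam := by
    ext i a
    rw [Matrix.mul_diagonal]
    have := congrFun (hlam a) i
    rw [Pi.smul_apply, smul_eq_mul] at this
    rw [mul_comm]
    exact this
  have hPS : P * diagonal lam * Q = S := by
    rw [← hSP, Matrix.mul_assoc, hPQ, Matrix.mul_one]
  refine ⟨P, Q, lam, fun a => deg (ia a), hPQ, ?_, ?_, ?_, ?_⟩
  · intro i a hPia
    have h1 := mul_right_cancel₀ hPia (hdeg' a i)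
    have h2 := mul_right_cancel₀ (hia a) (hdeg' a (ia a))
    have h3 : (deg i : ℂ) = deg (ia a) := by rw [h1, h2]
    exact_mod_cast h3
  · rw [hPS]; exact hSF
  · rw [hPS]; exact hNS
  · intro κ _ _
    constructor
    · exact kp_mem hPQ (by rw [hPS]; exact hcFS) (by rw [hPS]; exact hNS)
    · rw [hPS]
      exact kp_nil hcFS hNS

end Pool.Agent.N211.BT
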