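import Pool.Agent.N211.BT.Cl
import Pool.Agent.N211.BT.Burn
import Pool.Agent.N211.BT.Cliff
import Pool.Agent.N211.BT.Fin
import Pool.Agent.N211.BT.Jord
import Pool.Agent.R940.Tor

/-!
# Galois representations in coordinates

`ι` is the index set of a homogeneous basis of the cohomology of a variety `X` (of all degrees), and
arrays `c : (κ → ι) → ℂ` are the classes on the power of `X` with factors indexed by `κ`.
-/

namespace Pool.Agent.N211.BT

open Matrix Polynomial Pool.Agent.N996.BP Pool.Agent.R940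

variable {ι : Type} [Fintype ι] [DecidableEq ι]

/-- A Galois representation in coordinates: `r g` is the matrix of the action on the cohomology,
`χ g` describes the action on the Tate twist (`χ g = q` for a geometric Frobenius element), `deg` are
the degrees of the basis vectors, `o` is the index of the unit, `Q` is the form and `Qi` its inverse. -/
structure GData (ι : Type) [Fintype ι] [DecidableEq ι] (Γ : Type) [Group Γ] where
  /-- the matrices -/
  r : Γ → Matrix ι ι ℂ
  /-- the character -/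
  χ : Γ → ℂ
  /-- the degrees -/
  deg : ι → ℕ
  /-- the index of the unit -/
  o : ι
  /-- the form -/
  Q : Matrix ι ι ℂ
  /-- its inverse -/
  Qi : Matrix ι ι ℂ
  r_one : r 1 = 1
  r_mul : ∀ g h, r (g * h) = r g * r h
  χ_one : χ 1 = 1
  χ_mul : ∀ g h, χ (g * h) = χ g * χ h
  r_deg : ∀ g i j, r g i j ≠ 0 → deg i = deg j
  r_o : ∀ g, UCol o (r g)
  deg_o : deg o = 0
  hQ : Q * Qi = 1
  Q_deg : ∀ i j, Qi i j ≠ 0 → deg i = deg j
  Q_inv : ∀ g i j, (r g * Qi * (r g)ᵀ) i j = χ g ^ deg i * Qi i j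

variable {Γ : Type} [Group Γ] (G : GData ι Γ)

namespace GData

/-- The array is homogeneous of degree `m`. -/
def Hom {κ : Type} [Fintype κ] (m : ℕ) (c : (κ → ι) → ℂ) : Prop :=
  ∀ i, c i ≠ 0 → ∑ k, G.deg (i k) = m

/-- The array is a Tate class of degree `2 j`: it is homogeneous, and a subgroup of finite index
acts on it by `χ ^ j`. -/
def Tate {κ : Type} [Fintype κ] [DecidableEq κ] (j : ℕ) (c : (κ → ι) → ℂ) : Prop :=
  G.Hom (2 * j) c ∧ ∃ K : Subgroup Γ, K.FiniteIndex ∧ ∀ g ∈ K, kp κ (G.r g) *ᵥ c = G.χ g ^ j • c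

/-- The element has the properties of a Frobenius element at a place of degree one: `χ f = p` is a
prime number, and on the part of degree `i` it satisfies a monic polynomial with integral
coefficients, of degree at most `|ι|`, whose complex roots have absolute value `p ^ (i / 2)`. -/
def IsFrob (f : Γ) (p : ℕ) : Prop :=
  p.Prime ∧ G.χ f = p ∧ ∃ Pz : ℕ → ℤ[X], ∀ i, (Pz i).Monic ∧ (Pz i).natDegree ≤ Fintype.card ι ∧
    (∀ y : ℂ, aeval y (Pz i) = 0 → ‖y‖ ^ 2 = (p : ℝ) ^ i) ∧
    ∀ v : ι → ℂ, (∀ j, v j ≠ 0 → G.deg j = i) → aeval (G.r f) (Pz i) *ᵥ v = 0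

/-- The values of a polynomial in the matrix entries and the character. -/
noncomputable def ev (F : MvPolynomial (Option (ι × ι)) ℂ) (g : Γ) : ℂ :=
  MvPolynomial.eval (fun x => x.elim (G.χ g) fun p => G.r g p.1 p.2) F

/-- The Frobenius elements are Zariski dense. -/
def Dense : Prop := ∀ F : MvPolynomial (Option (ι × ι)) ℂ,
  (∀ f p, G.IsFrob f p → G.ev F f = 0) → ∀ g, G.ev F g = 0

/-- The operators of the group on the arrays. -/
noncomputable def rho (κ : Type) [Fintype κ] [DecidableEq κ] :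
    Γ →* Module.End ℂ ((κ → ι) → ℂ) where
  toFun g := Matrix.toLin' (kp κ (G.r g))
  map_one' := by rw [G.r_one, kp_one, Matrix.toLin'_one]; rfl
  map_mul' g h := by rw [G.r_mul, kp_mul, Matrix.toLin'_mul]; rfl

lemma rho_apply {κ : Type} [Fintype κ] [DecidableEq κ] (g : Γ) (c : (κ → ι) → ℂ) :
    G.rho κ g c = kp κ (G.r g) *ᵥ c := rfl

end GData

/-- The common denominator of the slopes. -/
def den (ι : Type) [Fintype ι] : ℕ := (Fintype.card ι).factorial

/-- Newton data: an element with the properties of a Frobenius element, an eigenbasis (the columns of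
`P`) of its semisimple part, the eigenvalues `lam` and the degrees `dg`, and an embedding of the field
generated by the eigenvalues into the algebraic closure of the `p`-adic numbers. -/
structure ND where
  /-- the element -/
  f : Γ
  /-- the prime number -/
  p : ℕ
  /-- it is a prime number -/
  hp : Fact p.Prime
  frob : G.IsFrob f p
  /-- the eigenbasis -/
  P : Matrix ι ι ℂ
  /-- the inverse matrix -/
  Pi : Matrix ι ι ℂ
  /-- the eigenvalues -/
  lam : ι → ℂ
  /-- the degrees -/
  dg : ι → ℕ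
  inv : P * Pi = 1
  hom : ∀ i a, P i a ≠ 0 → G.deg i = dg a
  adj : ∀ (κ : Type) [Fintype κ] [DecidableEq κ],
    kp κ (P * Matrix.diagonal lam * Pi) ∈ Algebra.adjoin ℂ {kp κ (G.r f)} ∧
      IsNilpotent (kp κ (G.r f) - kp κ (P * Matrix.diagonal lam * Pi))
  weil : IsWeilFamily p 1 (den ι) lam dg
  root : ∃ Pz : ℕ → ℤ[X], ∀ i, (Pz i).Monic ∧ (Pz i).natDegree ≤ Fintype.card ι ∧
    ∀ a, aeval (lam a) (Pz (dg a)) = 0
  /-- the embedding -/
  ψ : EF lam →ₐ[ℚ] PadicAlgCl p

namespace ND

attribute [instance] ND.hp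

variable {G}

/-- The weights. -/
noncomputable def wt (d : ND G) (a : ι) : ℤ := row d.weil d.ψ a

/-- The cocharacter. -/
noncomputable def l (d : ND G) (t : ℂ) : Matrix ι ι ℂ :=
  d.P * Matrix.diagonal (fun a => t ^ d.wt a) * d.Pi

/-- The semisimple part. -/
noncomputable def s (d : ND G) : Matrix ι ι ℂ := d.P * Matrix.diagonal d.lam * d.Pi

end ND

/-- The parity operator. -/
def GData.eps : Matrix ι ι ℂ := Matrix.diagonal fun i => (-1) ^ G.deg i

/-- The array is fixed by all Newton cocharacters. -/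
def GData.Fixed {κ : Type} [Fintype κ] [DecidableEq κ] (c : (κ → ι) → ℂ) : Prop :=
  ∀ (d : ND G) (t : ℂ), t ≠ 0 → kp κ (d.l t) *ᵥ c = c

/-! ### The statements -/

/-- Existence of Newton data for all elements with the properties of a Frobenius element. -/
def S_Ex : Prop := ∀ (ι : Type) [Fintype ι] [DecidableEq ι] (Γ : Type) [Group Γ] (G : GData ι Γ)
  (f : Γ) (p : ℕ), G.IsFrob f p → ∃ d : ND G, d.f = f ∧ d.p = p

/-- Conjugates of Newton data. -/
def S_Conj : Prop := ∀ (ι : Type) [Fintype ι] [DecidableEq ι] (Γ : Type) [Group Γ] (G : GData ι Γ)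
  (d : ND G) (g : Γ), ∃ d' : ND G, ∀ t : ℂ, d'.l t = G.r g * d.l t * G.r g⁻¹

/-- Operators which are functions of the semisimple part. -/
def S_Adj : Prop := ∀ (ι : Type) [Fintype ι] [DecidableEq ι] (Γ : Type) [Group Γ] (G : GData ι Γ)
  (d : ND G) (κ : Type) [Fintype κ] [DecidableEq κ],
  (∀ t : ℂ, t ≠ 0 → kp κ (d.l t) ∈ Algebra.adjoin ℂ {kp κ (G.r d.f)}) ∧
    kp κ G.eps ∈ Algebra.adjoin ℂ {kp κ (G.r d.f)}

/-- Tate classes are fixed by the Newton cocharacters. -/
def S_Fix : Prop := ∀ (ι : Type) [Fintype ι] [DecidableEq ι] (Γ : Type) [Group Γ] (G : GData ι Γ)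
  (κ : Type) [Fintype κ] [DecidableEq κ] (j : ℕ) (c : (κ → ι) → ℂ), G.Tate j c → G.Fixed c

/-- Homogeneous arrays of even degree which are fixed by the Newton cocharacters are Tate classes, if
the group acts semisimply. -/
def S_Tate : Prop := ∀ (ι : Type) [Fintype ι] [DecidableEq ι] (Γ : Type) [Group Γ] (G : GData ι Γ),
  G.Dense → ∀ (κ : Type) [Fintype κ] [DecidableEq κ], IsSS (Set.range (G.rho κ)) →
  ∀ (j : ℕ) (c : (κ → ι) → ℂ), G.Hom (2 * j) c → G.Fixed c → G.Tate j c

end Pool.Agent.N211.BT
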