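import Pool.Agent.N211.BT.GD

/-!
# The Frobenius elements are Zariski dense
-/

set_option linter.unusedSectionVars false

open CategoryTheory AlgebraicGeometry TensorProduct

universe u

namespace Pool.Agent.N211.BT

open Module Matrix
open Pool.Agent.H914 Pool.Agent.H914.VarClass Pool.Agent.H914.VarClass.Obj
  Pool.Agent.H914.WeilCohomology
open Pool.Agent.Y121.AHS
open Pool.Agent.Y133.Half (pw)
open Pool.Agent.N996.BP (cQ totalBetti)

variable {k : Type u} [Field k] {𝒱 : VarClass k} {ops : CycleOps 𝒱} {T : HodgeTheory ops}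
  {X : 𝒱.Obj} {E : Type} [Field E] [Algebra T.W.K E] {Γ : Type} [Group Γ]
  (G : GaloisAction T E Γ X) {ι : Type} [Fintype ι] [DecidableEq ι]
  (e : Basis ι T.W.K (T.W.H X))

lemma toMatrix_rho0 (g : Γ) : LinearMap.toMatrixAlgEquiv (bL E e) (rho0 G g) = rE G e g := by
  ext i j
  rw [LinearMap.toMatrixAlgEquiv_apply, bL_apply]
  rfl

lemma aeval_rE (g : Γ) (P : Polynomial ℤ) (i j : ι) :
    (Polynomial.aeval (rE G e g) P) i j =
      (bL E e).repr ((Polynomial.aeval (rho0 G g) P) (emL T.W E (e j))) i := by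
  have h1 := Polynomial.aeval_algHom_apply
    ((LinearMap.toMatrixAlgEquiv (bL E e)).toAlgHom.restrictScalars ℤ) (rho0 G g) P
  have h2 : ((LinearMap.toMatrixAlgEquiv (bL E e)).toAlgHom.restrictScalars ℤ) (rho0 G g) =
      rE G e g := toMatrix_rho0 G e g
  rw [h2] at h1
  rw [h1, ← bL_apply]
  exact LinearMap.toMatrixAlgEquiv_apply _ _ _ _

lemma aeval_rC [Algebra E ℂ] (g : Γ) (P : Polynomial ℤ) :
    Polynomial.aeval (rC G e g) P = (Polynomial.aeval (rE G e g) P).map (algebraMap E ℂ) := by
  exact Polynomial.aeval_algHom_apply ((algebraMap E ℂ).mapMatrix (m := ι)).toIntAlgHom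
    (rE G e g) P

variable [Algebra E ℂ] {deg : ι → ℕ} (he : ∀ j, e j ∈ T.W.gr X (deg j))
    {o : ι} (heo : e o = 1) (hdo : deg o = 0) (Qr Qir : Matrix ι ι ℚ) (hQ : Qr * Qir = 1)
    (hr : ∀ g, (∀ i j, Qr i j ≠ 0 → deg i = deg j) ∧ (rC G e g)ᵀ * cQ Qr * rC G e g =
      Matrix.diagonal (fun i => (algebraMap E ℂ (G.χ g)) ^ deg i) * cQ Qr)

/-- Frobenius elements in coordinates. -/
lemma isFrob {f : Γ} {p : ℕ} (h : G.IsFrobenius f p) :
    (gdata G e he heo hdo Qr Qir hQ hr).IsFrob f p := by
  obtain ⟨hp, hχ, hP⟩ := h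
  choose P hP using hP
  refine ⟨hp, ?_, P, fun i => ?_⟩
  · change algebraMap E ℂ (G.χ f) = p
    rw [hχ, map_natCast]
  · obtain ⟨h1, h2, h3, h4⟩ := hP i
    refine ⟨h1, ?_, h3, fun v hv => ?_⟩
    · have h5 : totalBetti T X = Fintype.card ι := finrank_eq_card_basis e
      rw [← h5]
      exact h2
    · change Polynomial.aeval (rC G e f) (P i) *ᵥ v = 0
      rw [aeval_rC]
      funext a
      rw [Matrix.mulVec, dotProduct, Pi.zero_apply]
      refine Finset.sum_eq_zero fun j _ => ?_
      by_cases hj : v j = 0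
      · rw [hj, mul_zero]
      · have h5 : Polynomial.aeval (rho0 G f) (P i) (emL T.W E (e j)) = 0 := by
          have h6 : IsDeg i (emL T.W E (e j)) := hv j hj ▸ emL_deg (he j)
          exact h4 (emL T.W E (e j)) h6
        rw [Matrix.map_apply, aeval_rE, h5, map_zero, Finsupp.zero_apply, map_zero, zero_mul]

/-- The entries of the matrices and the character. -/
noncomputable def ent0 (g : Γ) : Option (ι × ι) → E := fun x =>
  x.elim (G.χ g : E) fun p => rE G e g p.1 p.2

variable [TopologicalSpace Γ] [TopologicalSpace E]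

lemma cont_ent0 (hG : G.IsArithmetic) (x : Option (ι × ι)) :
    Continuous fun g => ent0 G e g x := by
  rcases x with _ | ⟨i, j⟩
  · exact hG.cont_χ
  · exact hG.cont (emL T.W E (e j)) ((bL E e).coord i)

/-- **The Frobenius elements are Zariski dense.** -/
theorem dense [IsTopologicalRing E] [T2Space E] (hG : G.IsArithmetic) :
    (gdata G e he heo hdo Qr Qir hQ hr).Dense := by
  intro F hF
  have hev : ∀ g, (gdata G e he heo hdo Qr Qir hQ hr).ev F g =
      ∑ β ∈ F.support, (∏ x, ent0 G e g x ^ β x) • F.coeff β := by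
    intro g
    have h0 : (fun x : Option (ι × ι) => x.elim ((gdata G e he heo hdo Qr Qir hQ hr).χ g)
        fun p => (gdata G e he heo hdo Qr Qir hQ hr).r g p.1 p.2) =
        fun x => algebraMap E ℂ (ent0 G e g x) := by
      funext x
      rcases x with _ | ⟨i, j⟩ <;> rfl
    rw [GData.ev, h0, MvPolynomial.eval_eq']
    refine Finset.sum_congr rfl fun β _ => ?_
    rw [Algebra.smul_def, map_prod, mul_comm]
    simp only [map_pow]
  let B := Module.Basis.ofVectorSpace E ℂ
  have hrepr : ∀ g b, B.repr ((gdata G e he heo hdo Qr Qir hQ hr).ev F g) b =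
      ∑ β ∈ F.support, (∏ x, ent0 G e g x ^ β x) * B.repr (F.coeff β) b := by
    intro g b
    rw [hev, map_sum, Finsupp.finsetSum_apply]
    refine Finset.sum_congr rfl fun β _ => ?_
    rw [map_smul, Finsupp.smul_apply, smul_eq_mul]
  have hcont : ∀ b, Continuous fun g => ∑ β ∈ F.support,
      (∏ x, ent0 G e g x ^ β x) * B.repr (F.coeff β) b := by
    intro b
    refine continuous_finsetSum _ fun β _ => Continuous.mul ?_ continuous_const
    exact continuous_finsetProd _ fun x _ => (cont_ent0 G e hG x).pow _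
  intro g
  apply B.repr.injective
  ext b
  rw [hrepr, map_zero, Finsupp.zero_apply]
  have h1 := Continuous.ext_on hG.dense (hcont b) continuous_const (g := fun _ => (0 : E)) ?_
  · exact congrFun h1 g
  · rintro f ⟨p, hf⟩
    have h2 := hrepr f b
    rw [hF f p (isFrob G e he heo hdo Qr Qir hQ hr hf), map_zero, Finsupp.zero_apply] at h2
    exact h2.symm

end Pool.Agent.N211.BT
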