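import Pool.Agent.N211.BT.Act
import Pool.Agent.N211.BT.HD

/-!
# The Galois data of a variety in coordinates
-/

set_option linter.unusedSectionVars false

open CategoryTheory AlgebraicGeometry TensorProduct

universe u

namespace Pool.Agent.N211.BT

open Module Matrix
open Pool.Agent.H914 Pool.Agent.H914.VarClass Pool.Agent.H914.VarClass.Obj
  Pool.Agent.H914.WeilCohomology
open Pool.Agent.Y121.AHS
open Pool.Agent.Y133.Half (pw)
open Pool.Agent.N996.BP (IsPolarisation RForm Bil extBil formC kp kp_apply cQ UCol)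

variable {k : Type u} [Field k] {𝒱 : VarClass k} {ops : CycleOps 𝒱} {T : HodgeTheory ops}
  {X : 𝒱.Obj} {ψ : RForm T.W X}

/-! ### The form -/

/-- The extension of the form as a bilinear map. -/
noncomputable def extB {K A : Type} [Field K] [Ring A] [Algebra K A] (E : Type) [Field E]
    [Algebra K E] (ψ : Bil K A) : (E ⊗[K] A) →ₗ[E] (E ⊗[K] A) →ₗ[E] E :=
  (LinearMap.BilinForm.baseChange E ψ : LinearMap.BilinForm E (TensorProduct K E A))

lemma extB_em {K A : Type} [Field K] [Ring A] [Algebra K A] (E : Type) [Field E]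
    [Algebra K E] (ψ : Bil K A) (a b : A) :
    extB E ψ ((1 : E) ⊗ₜ[K] a) ((1 : E) ⊗ₜ[K] b) = algebraMap K E (ψ a b) := by
  rw [extB, LinearMap.BilinForm.baseChange_tmul, Algebra.smul_def, mul_one, mul_one]

/-- The form vanishes on classes of different degrees. -/
lemma form_deg (h : IsPolarisation T X ψ) {i j : ℕ} (hij : i ≠ j) {a b : T.W.H X}
    (ha : a ∈ T.W.gr X i) (hb : b ∈ T.W.gr X j) : ψ a b = 0 := by
  have key : ∀ x y : ℂ ⊗[T.W.K] T.W.H X, x ∈ grL T.W ℂ X i → y ∈ grL T.W ℂ X j →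
      extB ℂ ψ x y = 0 := by
    intro x y hx hy
    rw [T.span X i] at hx
    rw [T.span X j] at hy
    refine Submodule.iSup_induction
      (fun r : {r : ℤ × ℤ // r.1 + r.2 = (i : ℤ)} => (T.pq X r.1.1 r.1.2))
      (motive := fun x => extB ℂ ψ x y = 0) hx ?_ ?_ ?_
    · rintro ⟨⟨p, q⟩, hr⟩ x hx
      refine Submodule.iSup_induction
        (fun r : {r : ℤ × ℤ // r.1 + r.2 = (j : ℤ)} => (T.pq X r.1.1 r.1.2))
        (motive := fun y => extB ℂ ψ x y = 0) hy ?_ ?_ ?_
      · rintro ⟨⟨r, s⟩, hr'⟩ y hy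
        refine h.orth p q r s x y hx hy ?_
        by_contra hc
        push Not at hc
        obtain ⟨h1, h2⟩ := hc
        have h3 : p + q = (i : ℤ) := hr
        have h4 : r + s = (j : ℤ) := hr'
        apply hij
        have h5 : (i : ℤ) = j := by rw [← h3, ← h4, h1, h2, add_comm]
        exact_mod_cast h5
      · exact map_zero _
      · intro y z hy hz
        exact (map_add (extB ℂ ψ x) y z).trans
          ((congrArg₂ (· + ·) hy hz).trans (add_zero (0 : ℂ)))
    · exact LinearMap.map_zero₂ (extB ℂ ψ) y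
    · intro x z hx hz
      exact (LinearMap.map_add₂ (extB ℂ ψ) x z y).trans
        ((congrArg₂ (· + ·) hx hz).trans (add_zero (0 : ℂ)))
  have h1 := key ((1 : ℂ) ⊗ₜ[T.W.K] a) ((1 : ℂ) ⊗ₜ[T.W.K] b) (emL_deg ha) (emL_deg hb)
  rw [extB_em] at h1
  exact (map_eq_zero (algebraMap T.W.K ℂ)).1 h1

/-! ### Matrices -/

section Mat

variable {ι : Type} [Fintype ι] [DecidableEq ι]

/-- The inverse of a form which is invariant up to a character. -/
lemma qinv {Q Qi r : Matrix ι ι ℂ} {deg : ι → ℕ} {c : ℂ} (hc : c ≠ 0) (hQ : Q * Qi = 1)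
    (hQd : ∀ i j, Q i j ≠ 0 → deg i = deg j) (hr : ∀ i j, r i j ≠ 0 → deg i = deg j)
    (h : rᵀ * Q * r = Matrix.diagonal (fun i => c ^ deg i) * Q) (i j : ι) :
    (r * Qi * rᵀ) i j = c ^ deg i * Qi i j := by
  obtain ⟨D, hD⟩ : ∃ D : Matrix ι ι ℂ, D = Matrix.diagonal fun i => c ^ deg i := ⟨_, rfl⟩
  obtain ⟨Di, hDi⟩ : ∃ D : Matrix ι ι ℂ, D = Matrix.diagonal fun i => (c⁻¹) ^ deg i := ⟨_, rfl⟩
  have hDD : D * Di = 1 := by
    rw [hD, hDi, Matrix.diagonal_mul_diagonal, ← Matrix.diagonal_one]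
    congr 1
    funext i
    rw [← mul_pow, mul_inv_cancel₀ hc, one_pow]
  have hDD' := mul_eq_one_comm.1 hDD
  have hcomm : ∀ y : Matrix ι ι ℂ, (∀ i j, y i j ≠ 0 → deg i = deg j) → D * y = y * D := by
    intro y hy
    ext i j
    rw [hD, Matrix.diagonal_mul, Matrix.mul_diagonal]
    by_cases h : y i j = 0
    · rw [h, mul_zero, zero_mul]
    · rw [hy i j h, mul_comm]
  have hQ' : Qi * Q = 1 := mul_eq_one_comm.1 hQ
  rw [← hD] at h
  obtain ⟨M, hM⟩ : ∃ M, M = Qi * rᵀ * Q := ⟨_, rfl⟩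
  have h1 : M * r = D := by
    calc M * r = Qi * (rᵀ * Q * r) := by rw [hM]; simp only [Matrix.mul_assoc]
      _ = Qi * Q * D := by rw [h, hcomm Q hQd, Matrix.mul_assoc]
      _ = D := by rw [hQ', Matrix.one_mul]
  have h2 : (Di * M) * r = 1 := by rw [Matrix.mul_assoc, h1, hDD']
  have h3 : r * (Di * M) = 1 := mul_eq_one_comm.1 h2
  have h4 : r * M = D := by
    have h5 : Di * r = r * Di := by
      calc Di * r = Di * (r * D) * Di := by
            rw [Matrix.mul_assoc, Matrix.mul_assoc, hDD, Matrix.mul_one]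
        _ = Di * D * r * Di := by rw [← hcomm r hr]; simp only [Matrix.mul_assoc]
        _ = r * Di := by rw [hDD', Matrix.one_mul]
    calc r * M = D * (Di * (r * M)) := by rw [← Matrix.mul_assoc, hDD, Matrix.one_mul]
      _ = D * (r * (Di * M)) := by rw [← Matrix.mul_assoc Di, h5, Matrix.mul_assoc]
      _ = D := by rw [h3, Matrix.mul_one]
  have h5 : r * Qi * rᵀ = D * Qi := by
    calc r * Qi * rᵀ = r * (Qi * rᵀ * Q) * Qi := by
          simp only [Matrix.mul_assoc]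
          rw [hQ, Matrix.mul_one]
      _ = D * Qi := by rw [← hM, h4]
  rw [h5, hD, Matrix.diagonal_mul]

/-- The inverse of a homogeneous matrix is homogeneous. -/
lemma inv_deg {Q Qi : Matrix ι ι ℂ} {deg : ι → ℕ} (hQ : Q * Qi = 1)
    (hQd : ∀ i j, Q i j ≠ 0 → deg i = deg j) (i j : ι) (h : Qi i j ≠ 0) : deg i = deg j := by
  have hQ' : Qi * Q = 1 := mul_eq_one_comm.1 hQ
  obtain ⟨D, hD⟩ : ∃ D : Matrix ι ι ℂ, D = Matrix.diagonal fun i => (2 : ℂ) ^ deg i := ⟨_, rfl⟩
  have hcomm : D * Q = Q * D := by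
    ext i j
    rw [hD, Matrix.diagonal_mul, Matrix.mul_diagonal]
    by_cases h : Q i j = 0
    · rw [h, mul_zero, zero_mul]
    · rw [hQd i j h, mul_comm]
  have h1 : Qi * D = D * Qi := by
    calc Qi * D = Qi * (D * Q) * Qi := by
          rw [Matrix.mul_assoc, Matrix.mul_assoc, hQ, Matrix.mul_one]
      _ = Qi * Q * D * Qi := by rw [hcomm]; simp only [Matrix.mul_assoc]
      _ = D * Qi := by rw [hQ', Matrix.one_mul]
  have h2 := congrFun (congrFun h1 i) j
  rw [hD, Matrix.diagonal_mul, Matrix.mul_diagonal, mul_comm] at h2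
  have h3 := mul_right_cancel₀ h h2
  have h4 : (2 : ℕ) ^ deg j = 2 ^ deg i := by exact_mod_cast h3
  exact (Nat.pow_right_injective le_rfl h4).symm

end Mat

variable {E : Type} [Field E] [Algebra T.W.K E] {Γ : Type} [Group Γ]
  (G : GaloisAction T E Γ X) {ι : Type} [Fintype ι] [DecidableEq ι]
  (e : Basis ι T.W.K (T.W.H X))

/-- The matrix of the form. -/
lemma rE_form {deg : ι → ℕ} (he : ∀ j, e j ∈ T.W.gr X (deg j)) (hG : G.Respects ψ)
    {P : Matrix ι ι ℚ} (hP : ∀ i j, ψ (e i) (e j) = ((P i j : ℚ) : T.W.K)) (g : Γ) :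
    (rE G e g)ᵀ * (P.map fun q : ℚ => (q : E)) * rE G e g =
      Matrix.diagonal (fun i => (G.χ g : E) ^ deg i) * (P.map fun q : ℚ => (q : E)) := by
  ext i j
  have h1 : extB E ψ (rho0 G g (emL T.W E (e i))) (rho0 G g (emL T.W E (e j))) =
      (G.χ g : E) ^ deg i * extB E ψ ((1 : E) ⊗ₜ[T.W.K] e i) ((1 : E) ⊗ₜ[T.W.K] e j) :=
    hG g (deg i) (emL T.W E (e i)) (emL T.W E (e j)) (emL_deg (he i))
  rw [extB_em, hP, map_ratCast] at h1
  have h2 : ∀ l, rho0 G g (emL T.W E (e l)) =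
      ∑ a, rE G e g a l • ((1 : E) ⊗ₜ[T.W.K] (e a) : E ⊗[T.W.K] T.W.H X) := fun l => act_e G e g l
  rw [h2, h2] at h1
  rw [Matrix.diagonal_mul, Matrix.map_apply, ← h1, map_sum (extB E ψ), LinearMap.sum_apply,
    Matrix.mul_apply]
  have h3 : ∀ a, (extB E ψ (rE G e g a i • ((1 : E) ⊗ₜ[T.W.K] (e a))))
      (∑ b, rE G e g b j • ((1 : E) ⊗ₜ[T.W.K] (e b) : E ⊗[T.W.K] T.W.H X)) =
      ∑ b, rE G e g a i * (P a b : E) * rE G e g b j := by
    intro a
    rw [map_smul, LinearMap.smul_apply, map_sum, Finset.smul_sum]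
    refine Finset.sum_congr rfl fun b _ => ?_
    rw [map_smul, extB_em, hP, map_ratCast, smul_eq_mul, smul_eq_mul]
    ring
  rw [Finset.sum_congr rfl fun a _ => h3 a, Finset.sum_comm]
  refine Finset.sum_congr rfl fun b _ => ?_
  rw [Matrix.mul_apply, Finset.sum_mul]
  refine Finset.sum_congr rfl fun a _ => ?_
  rw [Matrix.transpose_apply, Matrix.map_apply]

variable [Algebra E ℂ]

/-- The matrices of the action over the complex numbers. -/
noncomputable def rC (g : Γ) : Matrix ι ι ℂ := (rE G e g).map (algebraMap E ℂ)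

lemma rC_form {deg : ι → ℕ} (he : ∀ j, e j ∈ T.W.gr X (deg j)) (hψ : IsPolarisation T X ψ)
    (hG : G.Respects ψ) {P : Matrix ι ι ℚ} (hP : ∀ i j, ψ (e i) (e j) = ((P i j : ℚ) : T.W.K))
    {c : ℚ} {Qr : Matrix ι ι ℚ} (hQr : Qr = c • Pᵀ) (g : Γ) :
    (∀ i j, Qr i j ≠ 0 → deg i = deg j) ∧ (rC G e g)ᵀ * cQ Qr * rC G e g =
      Matrix.diagonal (fun i => (algebraMap E ℂ (G.χ g)) ^ deg i) * cQ Qr := by
  have hPd : ∀ i j, P i j ≠ 0 → deg i = deg j := by
    intro i j hij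
    by_contra hne
    have h1 := form_deg hψ hne (he i) (he j)
    rw [hP] at h1
    exact hij (by exact_mod_cast h1)
  refine ⟨?_, ?_⟩
  · intro i j hij
    rw [hQr, Matrix.smul_apply, Matrix.transpose_apply] at hij
    exact (hPd j i (right_ne_zero_of_mul hij)).symm
  have h1 := rE_form G e he hG hP g
  have h2 : ((rE G e g)ᵀ * (P.map fun q : ℚ => (q : E)) * rE G e g).map (algebraMap E ℂ) =
      (Matrix.diagonal (fun i => (G.χ g : E) ^ deg i) * (P.map fun q : ℚ => (q : E))).map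
        (algebraMap E ℂ) := congrArg (fun M : Matrix ι ι E => M.map (algebraMap E ℂ)) h1
  rw [Matrix.map_mul, Matrix.map_mul, Matrix.map_mul] at h2
  have h3 : (P.map fun q : ℚ => (q : E)).map (algebraMap E ℂ) = cQ P := by
    ext i j
    simp [cQ]
  have h4 : (rE G e g)ᵀ.map (algebraMap E ℂ) = (rC G e g)ᵀ := rfl
  have h5 : (Matrix.diagonal fun i => (G.χ g : E) ^ deg i).map (algebraMap E ℂ) =
      Matrix.diagonal (fun i => (algebraMap E ℂ (G.χ g)) ^ deg i) := by
    rw [Matrix.diagonal_map (map_zero _)]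
    congr 1
    funext i
    rw [map_pow]
  rw [h3, h4, h5] at h2
  have h6 : cQ Qr = (c : ℂ) • (cQ P)ᵀ := by
    ext i j
    rw [hQr]
    simp [cQ]
  have h7 := congrArg Matrix.transpose h2
  rw [Matrix.transpose_mul, Matrix.transpose_mul, Matrix.transpose_mul,
    Matrix.transpose_transpose, Matrix.diagonal_transpose] at h7
  have h8 : (cQ P)ᵀ * Matrix.diagonal (fun i => (algebraMap E ℂ (G.χ g)) ^ deg i) =
      Matrix.diagonal (fun i => (algebraMap E ℂ (G.χ g)) ^ deg i) * (cQ P)ᵀ := by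
    ext i j
    rw [Matrix.mul_diagonal, Matrix.diagonal_mul, Matrix.transpose_apply]
    by_cases h : P j i = 0
    · simp [cQ, h]
    · rw [hPd j i h, mul_comm]
  rw [h8] at h7
  rw [h6, Matrix.mul_smul, Matrix.smul_mul, Matrix.mul_smul, Matrix.mul_assoc]
  congr 1

/-- The data in coordinates. -/
noncomputable def gdata {deg : ι → ℕ} (he : ∀ j, e j ∈ T.W.gr X (deg j))
    {o : ι} (heo : e o = 1) (hdo : deg o = 0) (Qr Qir : Matrix ι ι ℚ) (hQ : Qr * Qir = 1)
    (hr : ∀ g, (∀ i j, Qr i j ≠ 0 → deg i = deg j) ∧ (rC G e g)ᵀ * cQ Qr * rC G e g =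
      Matrix.diagonal (fun i => (algebraMap E ℂ (G.χ g)) ^ deg i) * cQ Qr) : GData ι Γ where
  r g := rC G e g
  χ g := algebraMap E ℂ (G.χ g)
  deg := deg
  o := o
  Q := cQ Qr
  Qi := cQ Qir
  r_one := by rw [rC, rE_one, Matrix.map_one _ (map_zero _) (map_one _)]
  r_mul g h := by rw [rC, rE_mul, Matrix.map_mul]; rfl
  χ_one := by rw [map_one, Units.val_one, map_one]
  χ_mul g h := by rw [map_mul, Units.val_mul, map_mul]
  r_deg g i j h := rE_deg G he g i j fun h0 => h (by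
    rw [rC, Matrix.map_apply, h0, map_zero])
  r_o g i := by
    rw [rC, Matrix.map_apply, rE_o G heo]
    split_ifs
    · exact map_one _
    · exact map_zero _
  deg_o := hdo
  hQ := by rw [← N996.BP.cQ_mul, hQ, N996.BP.cQ_one]
  Q_deg := by
    refine inv_deg (Q := cQ Qr) (by rw [← N996.BP.cQ_mul, hQ, N996.BP.cQ_one]) ?_
    intro i j h
    refine (hr 1).1 i j fun h0 => h ?_
    rw [cQ, Matrix.map_apply, h0, Rat.cast_zero]
  Q_inv g := by
    refine qinv (Q := cQ Qr) ((map_ne_zero _).2 (Units.ne_zero _))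
      (by rw [← N996.BP.cQ_mul, hQ, N996.BP.cQ_one]) ?_ ?_ (hr g).2
    · intro i j h
      refine (hr 1).1 i j fun h0 => h ?_
      rw [cQ, Matrix.map_apply, h0, Rat.cast_zero]
    · intro i j h
      exact rE_deg G he g i j fun h0 => h (by rw [rC, Matrix.map_apply, h0, map_zero])

end Pool.Agent.N211.BT
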