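import Pool.Agent.N996.BP.Defs

/-!
# Galois representations on the cohomology of the powers of a variety: definitions

In the intended use `F` is a finitely generated subfield of the field of complex numbers, `k` is its
algebraic closure, the varieties are the smooth projective ones over `k`, `T` is the theory
`X ↦ H(X, ℚ)` given by the embedding of `k`, the variety `X` is defined over `F`, `E` is the field
of `ℓ`-adic numbers and `Γ` is the Galois group of `k` over `F`. By the comparison theorem
`HL T.W E Y` is the `ℓ`-adic cohomology `⨁ H^i(Y, ℚ_ℓ)`. As the Tate twists are suppressed there is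
a character `χ`, the inverse of the cyclotomic character, such that `Γ` acts on the classes of
cycles of codimension `j` defined over `F` by `χ ^ j`.
-/

open CategoryTheory AlgebraicGeometry

universe u

namespace Pool.Agent.N211.BT

open Pool.Agent.H914 Pool.Agent.H914.VarClass Pool.Agent.H914.VarClass.Obj
  Pool.Agent.H914.WeilCohomology
open Pool.Agent.Y121.AHS Pool.Agent.N996.BP
open Pool.Agent.Y133.Half (pw)

/-- The extension of a rational bilinear form to coefficients in `E`,
`(s ⊗ a, t ⊗ b) ↦ s t ψ(a, b)`. -/
noncomputable def extBilE {K A : Type} [Field K] [Ring A] [Algebra K A] (E : Type) [Field E]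
    [Algebra K E] (ψ : Bil K A) (x y : Ext K E A) : E :=
  (LinearMap.BilinForm.baseChange E ψ : LinearMap.BilinForm E (TensorProduct K E A))
    (show TensorProduct K E A from x) (show TensorProduct K E A from y)

/-- Every `Δ`-stable subspace of `P` has a `Δ`-stable complement in `P`: for a stable subspace `P`
this says that the representation `P` of the subgroup `Δ` is semisimple. -/
def IsSemisimpleOn {E Γ V : Type} [Field E] [Group Γ] [AddCommGroup V] [Module E V]
    (ρ : Representation E Γ V) (Δ : Subgroup Γ) (P : Submodule E V) : Prop :=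
  ∀ U ≤ P, (∀ g ∈ Δ, ∀ x ∈ U, ρ g x ∈ U) →
    ∃ U' ≤ P, (∀ g ∈ Δ, ∀ x ∈ U', ρ g x ∈ U') ∧ U ⊓ U' = ⊥ ∧ U ⊔ U' = P

variable {k : Type u} [Field k] {𝒱 : VarClass k} {ops : CycleOps 𝒱}

/-- The action of the group `Γ` on the cohomology with coefficients in `E` of the powers of `X`
(`pw X n` is `X ^ (n + 1)`): the maps respect the products, the degrees and the pull-backs along
the coordinate maps, an element `g` multiplies the trace by the power `χ g ^ dim`, and for all `g` in
a subgroup of finite index it maps the class of a cycle of codimension `j` to its product with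
`χ g ^ j`. -/
structure GaloisAction (T : HodgeTheory ops) (E : Type) [Field E] [Algebra T.W.K E] (Γ : Type)
    [Group Γ] (X : 𝒱.Obj) where
  /-- the character through which the group acts on the Tate twist -/
  χ : Γ →* Eˣ
  /-- the representations -/
  ρ : ∀ n : ℕ, Representation E Γ (HL T.W E (pw X n))
  mul : ∀ n g x y, ρ n g (mulL x y) = mulL (ρ n g x) (ρ n g y)
  deg : ∀ n g i x, IsDeg i x → IsDeg i (ρ n g x)
  map : ∀ (n m : ℕ) (f : pw X m ⟶ pw X n), IsCoordinateMap f → ∀ g x,
    ρ m g (mapL f x) = mapL f (ρ n g x)
  tr : ∀ n g x, trL (ρ n g x) = (χ g : E) ^ (pw X n).dim * trL x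
  fix : ∀ n j z, (pw X n).IsCyc j z → ∃ Δ : Subgroup Γ, Δ.FiniteIndex ∧ ∀ g ∈ Δ,
    ρ n g (emL T.W E (T.W.cl (pw X n) z)) = twL (χ g : E) j (emL T.W E (T.W.cl (pw X n) z))

namespace GaloisAction

variable {T : HodgeTheory ops} {E : Type} [Field E] [Algebra T.W.K E] {Γ : Type} [Group Γ]
  {X : 𝒱.Obj} (G : GaloisAction T E Γ X)

/-- An element `g` maps the class of a cycle of codimension `j` to the product of `χ g ^ j` with the
class of another cycle (the conjugate cycle). -/
def Conj : Prop := ∀ n g j z, (pw X n).IsCyc j z → ∃ z', (pw X n).IsCyc j z' ∧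
  G.ρ n g (emL T.W E (T.W.cl (pw X n) z)) = twL (G.χ g : E) j (emL T.W E (T.W.cl (pw X n) z'))

/-- The form `ψ` on `H(X)` is compatible with the action: `ψ(g x, g y) = χ g ^ i ψ(x, y)` for `x` of
degree `i`. (This holds for the form given by the intersection form, the Lefschetz decomposition
with respect to a divisor defined over `F` and signs.) -/
def Respects (ψ : RForm T.W X) : Prop :=
  ∀ g i (x y : HL T.W E (pw X 0)), IsDeg i x →
    extBilE E ψ (G.ρ 0 g x) (G.ρ 0 g y) = (G.χ g : E) ^ i * extBilE E ψ x y

/-- The element `f` has the properties of a geometric Frobenius element at a place with residue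
field `𝔽_p` where `X` has good reduction: `χ f = p`, and on `H^i(X)` it satisfies a monic equation
with integral coefficients, of degree at most the total Betti number, all of whose complex roots
have absolute value `p ^ (i / 2)`. (By Deligne's theorem the characteristic polynomial is such a
polynomial.) -/
def IsFrobenius (f : Γ) (p : ℕ) : Prop :=
  p.Prime ∧ (G.χ f : E) = p ∧ ∀ i : ℕ, ∃ P : Polynomial ℤ, P.Monic ∧
    P.natDegree ≤ totalBetti T X ∧
    (∀ y : ℂ, Polynomial.aeval y P = 0 → ‖y‖ ^ 2 = (p : ℝ) ^ i) ∧
    ∀ x : HL T.W E (pw X 0), IsDeg i x → Polynomial.aeval (G.ρ 0 f) P x = 0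

/-- The action on `H(X)` is continuous and the Frobenius elements are dense (Chebotarev; the places
of degree one suffice). -/
structure IsArithmetic [TopologicalSpace Γ] [TopologicalSpace E] : Prop where
  cont : ∀ (x : HL T.W E (pw X 0)) (φ : Module.Dual E (HL T.W E (pw X 0))),
    Continuous fun g => φ (G.ρ 0 g x)
  cont_χ : Continuous fun g => (G.χ g : E)
  dense : Dense {f | ∃ p, G.IsFrobenius f p}

/-- The class `x` on `X ^ (n + 1)` is invariant under `Δ` after the `j`-th Tate twist. -/
def IsInvariant (Δ : Subgroup Γ) (n j : ℕ) (x : HL T.W E (pw X n)) : Prop :=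
  ∀ g ∈ Δ, G.ρ n g x = twL (G.χ g : E) j x

/-- The classes of the algebraic cycles of codimension `j` on `X ^ (n + 1)` which are invariant
under `Δ`. (These are the classes of the rational combinations of subvarieties which are defined
over the fixed field of `Δ`.) -/
def cycleClasses (Δ : Subgroup Γ) (n j : ℕ) : Set (HL T.W E (pw X n)) :=
  {x | ∃ z, (pw X n).IsCyc j z ∧ x = emL T.W E (T.W.cl (pw X n) z) ∧ G.IsInvariant Δ n j x}

/-- The Tate conjecture and the semisimplicity conjecture for `X ^ (n + 1)` over the finite extension
of `F` with the Galois group `Δ`: for every `j` the representation of `Δ` on the cohomology of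
degree `2 j` is semisimple, and every class of degree `2 j` which is invariant under `Δ` (after the
`j`-th Tate twist) is a linear combination with coefficients in `E` of classes of algebraic cycles
defined over this extension. -/
structure TateConjecture (n : ℕ) (Δ : Subgroup Γ) : Prop where
  semisimple : ∀ j, IsSemisimpleOn (G.ρ n) Δ (grL T.W E (pw X n) (2 * j))
  surjective : ∀ j x, IsDeg (2 * j) x → G.IsInvariant Δ n j x →
    x ∈ Submodule.span E (G.cycleClasses Δ n j)

end GaloisAction

/-- The explicit exponent. -/
def tateExponent (b : ℕ) : ℕ := (4 * b * b.factorial * (b ^ 2 + 1)) ^ (b ^ 2 + 1)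

end Pool.Agent.N211.BT
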