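import Pool.Agent.N996.BP.Gen2
import Pool.Agent.N996.BP.FixAll

/-!
# Groups generated by bounded families of cocharacters: generic points

(Adapted from `Pool.Agent.N996.BP.Gen` and `Gen2`, where the family consists of the conjugates of one
cocharacter.)
-/

set_option linter.unusedSectionVars false

namespace Pool.Agent.N211.BT

open Matrix LaurentPolynomial Pool.Agent.N996.BP

variable {ι : Type} [Fintype ι] [DecidableEq ι]

/-- A family of cocharacters with weights between `-w` and `w`. -/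
structure CoFam (ι : Type) [Fintype ι] [DecidableEq ι] where
  /-- the index type -/
  S : Type
  /-- the bound -/
  w : ℕ
  /-- the projectors -/
  π : S → ℤ → Matrix ι ι ℂ
  h1 : ∀ s, ∑ k ∈ Finset.Icc (-w : ℤ) w, π s k = 1

namespace CoFam

variable (C : CoFam ι)

/-- The cocharacters. -/
noncomputable def l (s : C.S) (t : ℂ) : Matrix ι ι ℂ := lt C.w (C.π s) t

lemma l_apply (s : C.S) (t : ℂ) :
    C.l s t = ∑ k ∈ Finset.Icc (-C.w : ℤ) C.w, t ^ k • C.π s k := rfl

/-- The generators. -/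
def gens : Set (Matrix ι ι ℂ) := {g | ∃ (s : C.S) (t : ℂ), t ≠ 0 ∧ g = C.l s t}

/-- The monoid generated by the cocharacters. -/
def GG : Submonoid (Matrix ι ι ℂ) := Submonoid.closure C.gens

/-- The polynomial vanishes on the monoid. -/
def Van (f : MvPolynomial (ι × ι) ℂ) : Prop :=
  ∀ γ ∈ C.GG, MvPolynomial.aeval (ent γ) f = 0

/-- The matrix belongs to the Zariski closure of the monoid. -/
def Cl (p : Matrix ι ι ℂ) : Prop := ∀ f, C.Van f → MvPolynomial.aeval (ent p) f = 0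

end CoFam

variable (C : CoFam ι)

section Unit

variable {L : Type} [CommRing L] [Algebra ℂ L]

/-- The cocharacter at a unit. -/
noncomputable def lu (s : C.S) (T : Lˣ) : Matrix ι ι L :=
  ∑ k ∈ Finset.Icc (-C.w : ℤ) C.w, ((T ^ k : Lˣ) : L) • (C.π s k).map (algebraMap ℂ L)

lemma lu_map {L' : Type} [CommRing L'] [Algebra ℂ L'] (f : L →ₐ[ℂ] L') (s : C.S) (T : Lˣ) :
    (lu C s T).map f = lu C s (Units.map (f : L →* L') T) := by
  rw [lu, lu]
  ext i j
  rw [Matrix.map_apply, Matrix.sum_apply, Matrix.sum_apply, map_sum]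
  refine Finset.sum_congr rfl fun k _ => ?_
  rw [Matrix.smul_apply, Matrix.smul_apply, smul_eq_mul, smul_eq_mul, map_mul, Matrix.map_apply,
    Matrix.map_apply, ← map_zpow, Units.coe_map]
  congr 1
  exact AlgHom.commutes f _

lemma lu_one (s : C.S) : lu C s (1 : Lˣ) = 1 := by
  have h3 : (1 : Matrix ι ι L) = (1 : Matrix ι ι ℂ).map (algebraMap ℂ L) :=
    (Matrix.map_one _ (map_zero _) (map_one _)).symm
  rw [h3, ← C.h1 s, lu]
  ext i j
  rw [Matrix.sum_apply, Matrix.map_apply, Matrix.sum_apply, map_sum]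
  refine Finset.sum_congr rfl fun k _ => ?_
  rw [_root_.one_zpow, Units.val_one, one_smul]
  rfl

lemma lu_complex (s : C.S) {t : ℂ} (ht : t ≠ 0) : lu C s (Units.mk0 t ht) = C.l s t := by
  rw [lu, C.l_apply]
  ext i j
  rw [Matrix.sum_apply, Matrix.sum_apply]
  refine Finset.sum_congr rfl fun k _ => ?_
  rw [Matrix.smul_apply, Matrix.smul_apply, smul_eq_mul, smul_eq_mul,
    Units.val_zpow_eq_zpow_val, Units.val_mk0]
  rfl

end Unit

/-- The universal next point: the product of the cocharacter and the generic matrix. -/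
noncomputable def unx (s : C.S) : Matrix ι ι ((MvPolynomial (ι × ι) ℂ)[T;T⁻¹]) :=
  lu C s (⟨T 1, T (-1), by rw [← T_add]; simp, by rw [← T_add]; simp⟩ :
    ((MvPolynomial (ι × ι) ℂ)[T;T⁻¹])ˣ) * (gm ℂ ι).map LaurentPolynomial.C

/-- The evaluation of the universal next point. -/
noncomputable def evu {E L : Type} [CommRing E] [Algebra ℂ E] [CommRing L] [Algebra ℂ L]
    [Algebra E L] [IsScalarTower ℂ E L] (g : Matrix ι ι E) (u : Lˣ) :
    (MvPolynomial (ι × ι) ℂ)[T;T⁻¹] →ₐ[ℂ] L :=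
  { LaurentPolynomial.eval₂ ((algebraMap E L).comp
      ((MvPolynomial.aeval (ent g) : MvPolynomial (ι × ι) ℂ →ₐ[ℂ] E) :
        MvPolynomial (ι × ι) ℂ →+* E)) u with
    commutes' := fun r => by
      have h1 : algebraMap ℂ ((MvPolynomial (ι × ι) ℂ)[T;T⁻¹]) r =
        LaurentPolynomial.C (MvPolynomial.C r) := rfl
      change LaurentPolynomial.eval₂ _ u _ = _
      rw [h1, eval₂_C, RingHom.comp_apply, RingHom.coe_coe, MvPolynomial.aeval_C,
        ← IsScalarTower.algebraMap_apply] }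

lemma evu_apply {E L : Type} [CommRing E] [Algebra ℂ E] [CommRing L] [Algebra ℂ L]
    [Algebra E L] [IsScalarTower ℂ E L] (g : Matrix ι ι E) (u : Lˣ)
    (F : (MvPolynomial (ι × ι) ℂ)[T;T⁻¹]) : evu g u F =
      LaurentPolynomial.eval₂ ((algebraMap E L).comp
      ((MvPolynomial.aeval (ent g) : MvPolynomial (ι × ι) ℂ →ₐ[ℂ] E) :
        MvPolynomial (ι × ι) ℂ →+* E)) u F := rfl

lemma unx_map {E L : Type} [CommRing E] [Algebra ℂ E] [CommRing L] [Algebra ℂ L]
    [Algebra E L] [IsScalarTower ℂ E L] (g : Matrix ι ι E) (s : C.S) (u : Lˣ) :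
    (unx C s).map (evu g u) = lu C s u * g.map (algebraMap E L) := by
  have h0 : (unx C s).map (evu g u) = ((lu C s (⟨T 1, T (-1), by rw [← T_add]; simp,
      by rw [← T_add]; simp⟩ : ((MvPolynomial (ι × ι) ℂ)[T;T⁻¹])ˣ)).map (evu g u)) *
      (((gm ℂ ι).map LaurentPolynomial.C).map (evu g u)) := by
    rw [unx]
    exact Matrix.map_mul (f := ((evu g u : (MvPolynomial (ι × ι) ℂ)[T;T⁻¹] →ₐ[ℂ] L) :
      (MvPolynomial (ι × ι) ℂ)[T;T⁻¹] →+* L))
  rw [h0]
  congr 1
  · have h1 := lu_map C (evu (L := L) g u) s (⟨T 1, T (-1), by rw [← T_add]; simp,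
      by rw [← T_add]; simp⟩ : ((MvPolynomial (ι × ι) ℂ)[T;T⁻¹])ˣ)
    rw [h1]
    congr 1
    ext
    change evu g u (T 1) = u
    rw [evu_apply, eval₂_T, zpow_one]
  · ext i j
    rw [Matrix.map_apply, Matrix.map_apply, Matrix.map_apply, evu_apply, eval₂_C,
      RingHom.comp_apply, RingHom.coe_coe, gm, Matrix.of_apply, MvPolynomial.aeval_X]
    rfl

/-- A polynomial which vanishes on the monoid vanishes at the next point. -/
lemma van_next {E L : Type} [CommRing E] [Algebra ℂ E] [CommRing L] [Algebra ℂ L]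
    [Algebra E L] [IsScalarTower ℂ E L] {g : Matrix ι ι E}
    (hg : ∀ f, C.Van f → MvPolynomial.aeval (ent g) f = 0) (s : C.S) (u : Lˣ)
    {f : MvPolynomial (ι × ι) ℂ} (hf : C.Van f) :
    MvPolynomial.aeval (ent (lu C s u * g.map (algebraMap E L))) f = 0 := by
  obtain ⟨F, hF⟩ : ∃ F, F = MvPolynomial.aeval (ent (unx C s)) f := ⟨_, rfl⟩
  obtain ⟨n, F', hF'⟩ := exists_T_pow F
  have key : ∀ {E' L' : Type} [CommRing E'] [Algebra ℂ E'] [CommRing L'] [Algebra ℂ L']
      [Algebra E' L'] [IsScalarTower ℂ E' L'] (g' : Matrix ι ι E') (u' : L'ˣ),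
      MvPolynomial.aeval (ent (lu C s u' * g'.map (algebraMap E' L'))) f * ((u' ^ n : L'ˣ) : L') =
        Polynomial.eval₂ ((algebraMap E' L').comp ((MvPolynomial.aeval (ent g') :
          MvPolynomial (ι × ι) ℂ →ₐ[ℂ] E') : MvPolynomial (ι × ι) ℂ →+* E')) (u' : L') F' := by
    intro E' L' _ _ _ _ _ _ g' u'
    rw [← eval₂_toLaurent, hF', ← evu_apply, map_mul, hF, aeval_ent_map, unx_map]
    congr 1
    rw [evu_apply, eval₂_T_n, Units.val_pow_eq_pow_val]
  have hcoef : ∀ k, C.Van (F'.coeff k) := by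
    intro k γ hγ
    have h1 : F'.map ((MvPolynomial.aeval (ent γ) : MvPolynomial (ι × ι) ℂ →ₐ[ℂ] ℂ) :
        MvPolynomial (ι × ι) ℂ →+* ℂ) = 0 := by
      apply Polynomial.eq_zero_of_infinite_isRoot
      refine Set.Infinite.mono (s := {t : ℂ | t ≠ 0}) ?_ (Set.Finite.infinite_compl
        (Set.finite_singleton (0 : ℂ)))
      intro t ht
      have h2 := key γ (Units.mk0 t ht)
      rw [Set.mem_ofPred_eq, Polynomial.IsRoot.def, Polynomial.eval_map]
      have h3 : γ.map (algebraMap ℂ ℂ) = γ := by ext; rfl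
      have h4 : ((algebraMap ℂ ℂ).comp ((MvPolynomial.aeval (ent γ) :
          MvPolynomial (ι × ι) ℂ →ₐ[ℂ] ℂ) : MvPolynomial (ι × ι) ℂ →+* ℂ)) =
          ((MvPolynomial.aeval (ent γ) : MvPolynomial (ι × ι) ℂ →ₐ[ℂ] ℂ) :
            MvPolynomial (ι × ι) ℂ →+* ℂ) := by
        ext <;> rfl
      rw [h3, h4, Units.val_mk0, lu_complex C s ht, hf (C.l s t * γ) (Submonoid.mul_mem _
        (Submonoid.subset_closure ⟨s, t, ht, rfl⟩) hγ), zero_mul] at h2
      exact h2.symm
    have h2 := congrArg (fun P => Polynomial.coeff P k) h1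
    simp only [Polynomial.coeff_map, Polynomial.coeff_zero] at h2
    exact h2
  have h1 := key g u
  have h2 : Polynomial.eval₂ ((algebraMap E L).comp ((MvPolynomial.aeval (ent g) :
      MvPolynomial (ι × ι) ℂ →ₐ[ℂ] E) : MvPolynomial (ι × ι) ℂ →+* E)) (u : L) F' = 0 := by
    rw [Polynomial.eval₂_eq_sum_range]
    refine Finset.sum_eq_zero fun k _ => ?_
    rw [RingHom.comp_apply, RingHom.coe_coe, hg _ (hcoef k), map_zero, zero_mul]
  rw [h2] at h1
  exact (Units.mul_left_eq_zero _).1 h1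

section Field

variable {E : Type} [Field E] [Algebra ℂ E]

/-- A generic point with `r` parameters. -/
structure IsGn (E : Type) [Field E] [Algebra ℂ E] (g : Matrix ι ι E) (r : ℕ) : Prop where
  tr : Tr ℂ (ent g) r
  dim : ∀ d, Module.finrank ℂ (Vd g d) ≤ (2 * C.w * d + 1) ^ r
  van : ∀ f : MvPolynomial (ι × ι) ℂ, C.Van f → MvPolynomial.aeval (ent g) f = 0
  spc : ∀ f : MvPolynomial (ι × ι) ℂ, MvPolynomial.aeval (ent g) f = 0 →
    MvPolynomial.aeval (ent (1 : Matrix ι ι ℂ)) f = 0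

lemma isGn_zero : IsGn C ℂ (1 : Matrix ι ι ℂ) 0 := by
  refine ⟨Tr.zero _, fun d => ?_, fun f hf => hf 1 (Submonoid.one_mem _), fun f hf => hf⟩
  rw [pow_zero]
  calc Module.finrank ℂ (Vd (1 : Matrix ι ι ℂ) d) ≤ Module.finrank ℂ ℂ :=
        Submodule.finrank_le _
    _ = 1 := Module.finrank_self ℂ

variable {E' : Type} [Field E'] [Algebra ℂ E'] [Algebra E E'] [IsScalarTower ℂ E E']

/-- The dimension bound for the next generic point. -/
lemma Vd_nx (s : C.S) (T : E'ˣ) (g : Matrix ι ι E) (d : ℕ) :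
    Vd (lu C s T * g.map (algebraMap E E')) d ≤ LV (T : E') (Vd g d) (C.w * d) := by
  obtain ⟨g', hg'⟩ : ∃ g', g' = lu C s T * g.map (algebraMap E E') := ⟨_, rfl⟩
  rw [← hg']
  have hT : (T : E') ≠ 0 := T.ne_zero
  have hent : ∀ i j, g' i j ∈ LV (T : E') (Vd g 1) C.w := by
    intro i j
    rw [hg', Matrix.mul_apply]
    refine Submodule.sum_mem _ fun a _ => ?_
    rw [lu, Matrix.sum_apply, Finset.sum_mul]
    refine Submodule.sum_mem _ fun k hk => ?_
    rw [Matrix.smul_apply, smul_eq_mul, Matrix.map_apply,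
      Matrix.map_apply, Units.val_zpow_eq_zpow_val, mul_assoc, ← Algebra.smul_def, mul_smul_comm]
    exact Submodule.smul_mem _ _ (Submodule.subset_span ⟨k, hk, g a j, Vd_ent a j, rfl⟩)
  have hone : ∀ z : E', z ∈ Set.range (algebraMap ℂ E') → z ∈ LV (T : E') (Vd g 0) 0 := by
    rintro _ ⟨c, rfl⟩
    refine Submodule.subset_span ⟨0, by simp, algebraMap ℂ E c, Vd_algebraMap 0 c, ?_⟩
    rw [zpow_zero, one_mul, ← IsScalarTower.algebraMap_apply]
  have hpow : ∀ (i j : ι) (n : ℕ), g' i j ^ n ∈ LV (T : E') (Vd g n) (C.w * n) := by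
    intro i j n
    induction n with
    | zero =>
      rw [pow_zero]
      exact hone 1 ⟨1, map_one _⟩
    | succ n ih =>
      rw [pow_succ]
      have := LV_mul hT (fun v hv v' hv' => Vd_mul hv hv') ih (hent i j)
      rwa [← Nat.mul_succ] at this
  have hprod : ∀ (s : Finset (ι × ι)) (β : ι × ι → ℕ),
      ∏ p ∈ s, g' p.1 p.2 ^ β p ∈
        LV (T : E') (Vd g (∑ p ∈ s, β p)) (C.w * ∑ p ∈ s, β p) := by
    intro s β
    induction s using Finset.induction_on with
    | empty =>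
      rw [Finset.prod_empty, Finset.sum_empty]
      exact hone 1 ⟨1, map_one _⟩
    | insert a s ha ih =>
      rw [Finset.prod_insert ha, Finset.sum_insert ha, Nat.mul_add]
      exact LV_mul hT (fun v hv v' hv' => Vd_mul hv hv') (hpow _ _ _) ih
  intro z hz
  rw [mem_Vd] at hz
  obtain ⟨f, hf, rfl⟩ := hz
  rw [MvPolynomial.aeval_def, MvPolynomial.eval₂_eq']
  refine Submodule.sum_mem _ fun β hβ => ?_
  rw [← Algebra.smul_def]
  refine Submodule.smul_mem _ _ ?_
  have h1 := hprod Finset.univ β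
  have h2 : ∑ p, β p ≤ d := by
    have h3 : ∑ p, β p = β.sum fun _ e => e :=
      (Finsupp.sum_fintype β (fun _ e => e) fun _ => rfl).symm
    rw [h3]
    exact (MvPolynomial.le_totalDegree hβ).trans hf
  exact LV_mono (Vd_mono h2) (Nat.mul_le_mul_left _ h2) h1

/-- The next point. -/
noncomputable def nx (s : C.S) (g : Matrix ι ι E) : Matrix ι ι (E[T;T⁻¹]) :=
  lu C s (TU E) * g.map (algebraMap E (E[T;T⁻¹]))

lemma nx_spec (s : C.S) (g : Matrix ι ι E) (u : Eˣ) :
    (nx C s g).map (spec u) = lu C s u * g := by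
  have h1 : (nx C s g).map (spec u) = (lu C s (TU E)).map (spec u) *
      (g.map (algebraMap E (E[T;T⁻¹]))).map (spec u) := by
    rw [nx]
    exact Matrix.map_mul (f := ((spec u : E[T;T⁻¹] →ₐ[E] E) : E[T;T⁻¹] →+* E))
  rw [h1]
  have h2 := lu_map C ((spec u : E[T;T⁻¹] →ₐ[E] E).restrictScalars ℂ) s (TU E)
  have h3 : Units.map (((spec u : E[T;T⁻¹] →ₐ[E] E).restrictScalars ℂ : E[T;T⁻¹] →ₐ[ℂ] E) :
      E[T;T⁻¹] →* E) (TU E) = u := spec_TU u
  rw [h3] at h2
  congr 1
  ext i j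
  rw [Matrix.map_apply, Matrix.map_apply]
  exact (spec u).commutes _

/-- If the next point has no more independent functions, then it satisfies the same relations. -/
lemma nx_rel {g : Matrix ι ι E} {r : ℕ} (hr : Tr ℂ (ent g) r) (s : C.S)
    (hn : ¬ Tr ℂ (ent ((nx C s g).map (algebraMap (E[T;T⁻¹]) (FractionRing (E[T;T⁻¹])))))
      (r + 1)) (f : MvPolynomial (ι × ι) ℂ) (hf : MvPolynomial.aeval (ent g) f = 0) :
    MvPolynomial.aeval (ent (nx C s g)) f = 0 := by
  classical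
  by_contra hz
  obtain ⟨κ, _, G, rfl, hG⟩ := hr
  let j : E[T;T⁻¹] →ₐ[ℂ] FractionRing (E[T;T⁻¹]) := IsScalarTower.toAlgHom ℂ _ _
  have hj : Function.Injective j := IsFractionRing.injective (E[T;T⁻¹]) _
  have h1 : ¬ AlgebraicIndependent ℂ (fun o : Option κ =>
      MvPolynomial.aeval (ent ((nx C s g).map (algebraMap (E[T;T⁻¹]) (FractionRing (E[T;T⁻¹])))))
        ((fun o : Option κ => o.elim f G) o)) := fun h =>
    hn ⟨Option κ, inferInstance, fun o => o.elim f G, Fintype.card_option, h⟩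
  rw [algebraicIndependent_iff] at h1
  push Not at h1
  obtain ⟨P, hP, hP0⟩ := h1
  have h2 : MvPolynomial.aeval (fun o : Option κ => o.elim
      (MvPolynomial.aeval (ent (nx C s g)) f)
      (fun i => MvPolynomial.aeval (ent (nx C s g)) (G i))) P = 0 := by
    apply hj
    rw [map_zero, ← hP]
    have h3 : ∀ (y : Option κ → E[T;T⁻¹]), j (MvPolynomial.aeval y P) =
        MvPolynomial.aeval (fun o => j (y o)) P := by
      intro y
      have h : (j.comp (MvPolynomial.aeval y)) = MvPolynomial.aeval (fun o => j (y o)) := by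
        apply MvPolynomial.algHom_ext
        intro i
        rw [AlgHom.comp_apply, MvPolynomial.aeval_X, MvPolynomial.aeval_X]
      exact DFunLike.congr_fun h P
    rw [h3]
    congr 2
    funext o
    rcases o with _ | i
    · exact aeval_ent_map j (nx C s g) f
    · exact aeval_ent_map j (nx C s g) (G i)
  rw [aeval_option] at h2
  obtain ⟨Q, hQ⟩ : ∃ Q, Q = MvPolynomial.optionEquivLeft ℂ κ P := ⟨_, rfl⟩
  have hQ0 : Q ≠ 0 := by
    rw [hQ]
    exact (map_ne_zero_iff _ (MvPolynomial.optionEquivLeft ℂ κ).injective).2 hP0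
  rw [← hQ] at h2
  obtain ⟨Q₁, hQ₁, hnd⟩ := Polynomial.exists_eq_pow_rootMultiplicity_mul_and_not_dvd Q hQ0 0
  rw [hQ₁, Polynomial.eval₂_mul, Polynomial.eval₂_pow, Polynomial.eval₂_sub, Polynomial.eval₂_X,
    Polynomial.C_0, Polynomial.eval₂_zero, sub_zero, mul_eq_zero] at h2
  have h3 := h2.resolve_left (pow_ne_zero _ hz)
  -- specialisation
  have h4 := congrArg (spec (1 : Eˣ)) h3
  rw [map_zero] at h4
  have h5 : spec (1 : Eˣ) (Polynomial.eval₂ ((MvPolynomial.aeval (fun i =>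
      MvPolynomial.aeval (ent (nx C s g)) (G i)) : MvPolynomial κ ℂ →ₐ[ℂ] E[T;T⁻¹]) :
        MvPolynomial κ ℂ →+* E[T;T⁻¹]) (MvPolynomial.aeval (ent (nx C s g)) f) Q₁) =
      Polynomial.eval₂ ((MvPolynomial.aeval (fun i => MvPolynomial.aeval (ent g) (G i)) :
        MvPolynomial κ ℂ →ₐ[ℂ] E) : MvPolynomial κ ℂ →+* E) (MvPolynomial.aeval (ent g) f) Q₁ := by
    have hs : ∀ p : MvPolynomial (ι × ι) ℂ, spec (1 : Eˣ) (MvPolynomial.aeval (ent (nx C s g)) p) =
        MvPolynomial.aeval (ent g) p := by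
      intro p
      have := aeval_ent_map ((spec (1 : Eˣ)).restrictScalars ℂ) (nx C s g) p
      have h6 : (nx C s g).map ((spec (1 : Eˣ)).restrictScalars ℂ) = g := by
        have := nx_spec C s g 1
        rw [lu_one, Matrix.one_mul] at this
        exact this
      rw [h6] at this
      exact this
    have h7 := Polynomial.hom_eval₂ Q₁ ((MvPolynomial.aeval (fun i =>
      MvPolynomial.aeval (ent (nx C s g)) (G i)) : MvPolynomial κ ℂ →ₐ[ℂ] E[T;T⁻¹]) :
        MvPolynomial κ ℂ →+* E[T;T⁻¹]) ((spec (1 : Eˣ) : E[T;T⁻¹] →ₐ[E] E) : E[T;T⁻¹] →+* E)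
          (MvPolynomial.aeval (ent (nx C s g)) f)
    have h8 : (((spec (1 : Eˣ) : E[T;T⁻¹] →ₐ[E] E) : E[T;T⁻¹] →+* E).comp
        ((MvPolynomial.aeval (fun i => MvPolynomial.aeval (ent (nx C s g)) (G i)) :
          MvPolynomial κ ℂ →ₐ[ℂ] E[T;T⁻¹]) : MvPolynomial κ ℂ →+* E[T;T⁻¹])) =
        ((MvPolynomial.aeval (fun i => MvPolynomial.aeval (ent g) (G i)) :
          MvPolynomial κ ℂ →ₐ[ℂ] E) : MvPolynomial κ ℂ →+* E) := by
      apply MvPolynomial.ringHom_ext
      · intro a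
        simp only [RingHom.comp_apply, RingHom.coe_coe, MvPolynomial.aeval_C]
        exact ((spec (1 : Eˣ)).restrictScalars ℂ).commutes a
      · intro i
        simp only [RingHom.comp_apply, RingHom.coe_coe, MvPolynomial.aeval_X]
        exact hs _
    rw [h8] at h7
    refine h7.trans ?_
    congr 1
    exact hs f
  rw [h5, hf, Polynomial.eval₂_at_zero] at h4
  apply hnd
  rw [Polynomial.C_0, sub_zero, Polynomial.X_dvd_iff]
  exact (algebraicIndependent_iff.1 hG) _ h4

/-- The next point is generic if it has one more independent function. -/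
lemma nx_isGn {g : Matrix ι ι E} {r : ℕ} (hg : IsGn C E g r) (s : C.S)
    (hn : Tr ℂ (ent ((nx C s g).map (algebraMap (E[T;T⁻¹]) (FractionRing (E[T;T⁻¹])))))
      (r + 1)) :
    IsGn C (FractionRing (E[T;T⁻¹]))
      ((nx C s g).map (algebraMap (E[T;T⁻¹]) (FractionRing (E[T;T⁻¹])))) (r + 1) := by
  let j : E[T;T⁻¹] →ₐ[ℂ] FractionRing (E[T;T⁻¹]) := IsScalarTower.toAlgHom ℂ _ _
  have he : (nx C s g).map (algebraMap (E[T;T⁻¹]) (FractionRing (E[T;T⁻¹]))) =
      lu C s (Units.map (j : E[T;T⁻¹] →* FractionRing (E[T;T⁻¹])) (TU E)) *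
        g.map (algebraMap E (FractionRing (E[T;T⁻¹]))) := by
    rw [← lu_map C j, nx]
    refine (Matrix.map_mul (f := (j : E[T;T⁻¹] →+* FractionRing (E[T;T⁻¹])))).trans ?_
    congr 1
  refine ⟨hn, fun d => ?_, fun f hf => ?_, fun f hf => ?_⟩
  · rw [he]
    have h1 := Vd_nx C s (Units.map (j : E[T;T⁻¹] →* FractionRing (E[T;T⁻¹])) (TU E)) g d
    obtain ⟨h2, h3⟩ := LV_finrank (E' := FractionRing (E[T;T⁻¹]))
      ((Units.map (j : E[T;T⁻¹] →* FractionRing (E[T;T⁻¹])) (TU E) :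
        (FractionRing (E[T;T⁻¹]))ˣ) : FractionRing (E[T;T⁻¹])) (Vd g d) (C.w * d)
    refine (Submodule.finrank_mono h1).trans (h3.trans ?_)
    have h4 := hg.dim d
    rw [mul_assoc] at h4
    rw [pow_succ, mul_comm, mul_assoc]
    exact Nat.mul_le_mul_right _ h4
  · rw [he]
    exact van_next C hg.van s _ hf
  · apply hg.spc
    have h1 : j (MvPolynomial.aeval (ent (nx C s g)) f) = 0 := by
      rw [aeval_ent_map j]
      exact hf
    have h2 : MvPolynomial.aeval (ent (nx C s g)) f = 0 := by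
      apply IsFractionRing.injective (E[T;T⁻¹]) (FractionRing (E[T;T⁻¹]))
      rw [map_zero]
      exact h1
    have h3 := aeval_ent_map ((spec (1 : Eˣ)).restrictScalars ℂ) (nx C s g) f
    rw [h2, map_zero] at h3
    have h4 : (nx C s g).map ((spec (1 : Eˣ)).restrictScalars ℂ) = g := by
      have := nx_spec C s g 1
      rw [lu_one, Matrix.one_mul] at this
      exact this
    rw [h4] at h3
    exact h3.symm

/-- **Existence of a generic point with a stable ideal of relations.** -/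
theorem exists_gn : ∃ (r : ℕ) (E : Type) (_ : Field E) (_ : Algebra ℂ E) (g : Matrix ι ι E),
    r ≤ Fintype.card ι ^ 2 ∧ IsGn C E g r ∧
      ∀ γ ∈ C.GG, ∀ f : MvPolynomial (ι × ι) ℂ, MvPolynomial.aeval (ent g) f = 0 →
        MvPolynomial.aeval (ent (γ.map (algebraMap ℂ E) * g)) f = 0 := by
  classical
  have hb : ∀ r, (∃ (E : Type) (_ : Field E) (_ : Algebra ℂ E) (g : Matrix ι ι E),
      IsGn C E g r) → r ≤ Fintype.card ι ^ 2 := by
    rintro r ⟨E, _, _, g, hg⟩
    have := hg.tr.le_card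
    rwa [Fintype.card_prod, ← sq] at this
  obtain ⟨r, hr, hmax⟩ : ∃ r, (∃ (E : Type) (_ : Field E) (_ : Algebra ℂ E) (g : Matrix ι ι E),
      IsGn C E g r) ∧ ¬ (∃ (E : Type) (_ : Field E) (_ : Algebra ℂ E) (g : Matrix ι ι E),
        IsGn C E g (r + 1)) := by
    by_contra hcon
    push Not at hcon
    have hall : ∀ r, ∃ (E : Type) (_ : Field E) (_ : Algebra ℂ E) (g : Matrix ι ι E),
        IsGn C E g r := by
      intro r
      induction r with
      | zero => exact ⟨ℂ, inferInstance, inferInstance, 1, isGn_zero C⟩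
      | succ r ih => exact hcon r ih
    have := hb _ (hall (Fintype.card ι ^ 2 + 1))
    omega
  have hr' := hb r hr
  obtain ⟨E, _, _, g, hg⟩ := hr
  refine ⟨r, E, inferInstance, inferInstance, g, hr', hg, ?_⟩
  have hstep : ∀ (s : C.S) (f : MvPolynomial (ι × ι) ℂ), MvPolynomial.aeval (ent g) f = 0 →
      ∀ u : Eˣ, MvPolynomial.aeval (ent (lu C s u * g)) f = 0 := by
    intro s f hf u
    have h1 : ¬ Tr ℂ (ent ((nx C s g).map (algebraMap (E[T;T⁻¹]) (FractionRing (E[T;T⁻¹])))))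
        (r + 1) := fun h => hmax ⟨_, inferInstance, inferInstance, _, nx_isGn C hg s h⟩
    have h2 := nx_rel C hg.tr s h1 f hf
    have h3 := aeval_ent_map ((spec u).restrictScalars ℂ) (nx C s g) f
    rw [h2, map_zero] at h3
    have h4 : (nx C s g).map ((spec u).restrictScalars ℂ) = lu C s u * g := nx_spec C s g u
    rw [h4] at h3
    exact h3.symm
  intro γ hγ
  induction hγ using Submonoid.closure_induction with
  | mem x hx =>
    obtain ⟨s, t, ht, rfl⟩ := hx
    intro f hf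
    have h1 := hstep s f hf (Units.map ((algebraMap ℂ E : ℂ →+* E) : ℂ →* E) (Units.mk0 t ht))
    have h2 := lu_map C (Algebra.ofId ℂ E) s (Units.mk0 t ht)
    rw [lu_complex C s ht] at h2
    have h3 : (C.l s t).map (algebraMap ℂ E) = lu C s (Units.map
        ((algebraMap ℂ E : ℂ →+* E) : ℂ →* E) (Units.mk0 t ht)) := h2
    rw [h3]
    exact h1
  | one =>
    intro f hf
    rw [Matrix.map_one _ (map_zero _) (map_one _), Matrix.one_mul]
    exact hf
  | mul x y _ _ hx hy =>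
    intro f hf
    have hmul : (x * y).map (algebraMap ℂ E) * g =
        x.map (algebraMap ℂ E) * (y.map (algebraMap ℂ E) * g) := by
      rw [Matrix.map_mul, Matrix.mul_assoc]
    rw [hmul, ← aeval_sbs]
    exact hy (sbs x f) (by rw [aeval_sbs]; exact hx f hf)

end Field

end Pool.Agent.N211.BT
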