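import Pool.Agent.N211.BT.Stm

/-!
# Statements of auxiliary facts about semisimplicity over other fields
-/

namespace Pool.Agent.N211.BT

open Matrix Pool.Agent.N996.BP

section

variable {F : Type} [Field F] {M : Type} [AddCommGroup M] [Module F M]

/-- The subspace `P` is stable under the operators in `R`. -/
def Stab (R : Set (Module.End F M)) (P : Submodule F M) : Prop := ∀ r ∈ R, ∀ x ∈ P, r x ∈ P

/-- Every subspace of `P` which is stable under the operators in `R` has a stable complement
in `P`. -/
def SSOn (R : Set (Module.End F M)) (P : Submodule F M) : Prop :=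
  ∀ U ≤ P, Stab R U → ∃ U' ≤ P, Stab R U' ∧ U ⊓ U' = ⊥ ∧ U ⊔ U' = P

end

/-- The homogeneous arrays of degree `m`. -/
def homS (F : Type) [Field F] {ι : Type} (deg : ι → ℕ) (κ : Type) [Fintype κ] (m : ℕ) :
    Submodule F ((κ → ι) → F) where
  carrier := {c | ∀ i, c i ≠ 0 → ∑ k, deg (i k) = m}
  add_mem' {a b} ha hb i h := by
    by_cases h1 : a i = 0
    · refine hb i fun h2 => h ?_
      rw [Pi.add_apply, h1, h2, add_zero]
    · exact ha i h1
  zero_mem' i h := absurd rfl h
  smul_mem' r a ha i h := ha i fun h1 => h (by rw [Pi.smul_apply, h1, smul_zero])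

/-- The operators of the group on the arrays. -/
noncomputable def opsF {F : Type} [Field F] {ι : Type} [Fintype ι] [DecidableEq ι] {Γ : Type}
    (r : Γ → Matrix ι ι F) (κ : Type) [Fintype κ] [DecidableEq κ] :
    Set (Module.End F ((κ → ι) → F)) := Set.range fun g => Matrix.toLin' (kp κ (r g))

/-- Sums of semisimple representations are semisimple. -/
def S_Sum : Prop := ∀ (F : Type) [Field F] (M : Type) [AddCommGroup M] [Module F M]
  [FiniteDimensional F M] (R : Set (Module.End F M)) (α : Type) (P : α → Submodule F M),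
  (∀ a, Stab R (P a)) → (∀ a, SSOn R (P a)) → SSOn R (⨆ a, P a)

/-- If the tensor product of `V` with a nonzero representation is contained in a semisimple
representation, then `V` is semisimple (Serre). -/
def S_Serre : Prop := ∀ (F : Type) [Field F] [CharZero F] (ι : Type) [Fintype ι] [DecidableEq ι]
  (Γ : Type) [Group Γ] (r : Γ → Matrix ι ι F) (deg : ι → ℕ), r 1 = 1 →
  (∀ g h, r (g * h) = r g * r h) → (∀ g i j, r g i j ≠ 0 → deg i = deg j) →
  ∀ (κ : Type) [Fintype κ] [DecidableEq κ] (m : ℕ) (a : ι),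
    SSOn (opsF r (κ ⊕ Unit)) (homS F deg (κ ⊕ Unit) (m + deg a)) →
    SSOn (opsF r κ) (homS F deg κ m)

/-- If the arrays of even degree with one more index form semisimple representations, then the
representation on all arrays is semisimple. -/
def S_Even : Prop := ∀ (F : Type) [Field F] [CharZero F] (ι : Type) [Fintype ι] [DecidableEq ι]
  (Γ : Type) [Group Γ] (r : Γ → Matrix ι ι F) (deg : ι → ℕ), r 1 = 1 →
  (∀ g h, r (g * h) = r g * r h) → (∀ g i j, r g i j ≠ 0 → deg i = deg j) →
  ∀ (o : ι), deg o = 0 → ∀ (κ : Type) [Fintype κ] [DecidableEq κ],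
    (∀ j, SSOn (opsF r (κ ⊕ Unit)) (homS F deg (κ ⊕ Unit) (2 * j))) →
    SSOn (opsF r κ) ⊤

/-- Semisimplicity is preserved by the extension of the coefficients to the complex numbers. -/
def S_Up : Prop := ∀ (E : Type) [Field E] [CharZero E] [Algebra E ℂ] (N : Type) [Fintype N]
  [DecidableEq N] (R : Set (Matrix N N E)), SSOn (F := E) (M := N → E) (Matrix.toLin' '' R) ⊤ →
    IsSS (Matrix.toLin' '' ((fun y : Matrix N N E => y.map (algebraMap E ℂ)) '' R))

/-- Semisimplicity descends from the complex numbers. -/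
def S_Down : Prop := ∀ (E : Type) [Field E] [CharZero E] [Algebra E ℂ] (N : Type) [Fintype N]
  [DecidableEq N] (R : Set (Matrix N N E)),
    IsSS (Matrix.toLin' '' ((fun y : Matrix N N E => y.map (algebraMap E ℂ)) '' R)) →
      SSOn (F := E) (M := N → E) (Matrix.toLin' '' R) ⊤

/-- The complex solutions of homogeneous linear equations with coefficients in `E` are
combinations of solutions in `E`. -/
def S_Solve : Prop := ∀ (E : Type) [Field E] [Algebra E ℂ] (m : Type) [Fintype m]
  (L : Set (m → E)) (c : m → ℂ), (∀ l ∈ L, ∑ i, algebraMap E ℂ (l i) * c i = 0) →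
  c ∈ Submodule.span ℂ {x : m → ℂ | ∃ a : m → E, (∀ l ∈ L, ∑ i, l i * a i = 0) ∧
    x = fun i => algebraMap E ℂ (a i)}

/-- Vectors with coordinates in `E` which are complex combinations of rational vectors of a
subspace are combinations of them with coefficients in `E`. -/
def S_Desc : Prop := ∀ (E : Type) [Field E] [Algebra E ℂ] (m : Type) [Fintype m]
  (V : Submodule ℚ (m → ℚ)) (h : m → E),
  (fun i => algebraMap E ℂ (h i)) ∈
    Submodule.span ℂ {x : m → ℂ | ∃ a ∈ V, x = fun i => (a i : ℂ)} →
  h ∈ Submodule.span E {x : m → E | ∃ a ∈ V, x = fun i => (a i : E)}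

/-- Relative Maschke for one subspace: a stable subspace which has a complement stable under a
subgroup of finite index has a stable complement. -/
def S_RelOne : Prop := ∀ (G : Type) [Group G] (M : Type) [AddCommGroup M] [Module ℂ M]
  [FiniteDimensional ℂ M] (ρ : G →* Module.End ℂ M) (K : Subgroup G), K.FiniteIndex →
  ∀ U : Submodule ℂ M, (∀ g, ∀ x ∈ U, ρ g x ∈ U) →
    (∃ U' : Submodule ℂ M, (∀ g ∈ K, ∀ x ∈ U', ρ g x ∈ U') ∧ IsCompl U U') →
    ∃ U' : Submodule ℂ M, (∀ g, ∀ x ∈ U', ρ g x ∈ U') ∧ IsCompl U U'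

end Pool.Agent.N211.BT
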