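import Pool.Agent.N211.BT.Core
import Pool.Agent.N211.BT.Stm2
import Pool.Agent.N996.BP.Core

/-!
# Tate classes are combinations of algebraic classes
-/

set_option linter.unusedSectionVars false

namespace Pool.Agent.N211.BT

open Matrix Pool.Agent.N996.BP ComplexConjugate

variable {ι : Type} [Fintype ι] [DecidableEq ι] {H : HData ι}
  {A : ∀ n : ℕ, Submodule ℚ ((Fin (n + 1) → ι) → ℚ)}

/-! ### The real span of the algebraic classes is a family -/

lemma uniQ' (hA : RFam H A) (hu : uni ℚ H.D.o Unit ∈ AQ A Unit) (κ : Type) [Fintype κ]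
    [DecidableEq κ] : uni ℚ H.D.o κ ∈ AQ A κ := by
  refine fin_ind (P := fun κ _ _ => uni ℚ H.D.o κ ∈ AQ A κ) ?_ ?_ ?_ κ
  · intro κ l _ _ _ _ e ih
    have h1 := hA.rei e ih
    convert h1 using 1
    ext i
    rw [uni, N996.BP.rei, uni]
    exact (Equiv.prod_comp e fun k => if i k = H.D.o then (1 : ℚ) else 0).symm
  · exact hA.empty _
  · intro κ _ _ ih
    have h3 := hA.tensQ ih hu
    convert h3 using 1
    ext i
    rw [uni, Fintype.prod_sum_type]
    rfl

lemma invQ' (hA : RFam H A) (hi : arr (kp Unit H.Qir) ∈ AQ A (Unit ⊕ Unit)) (κ : Type)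
    [Fintype κ] [DecidableEq κ] : arr (kp κ H.Qir) ∈ AQ A (κ ⊕ κ) := by
  refine fin_ind (P := fun κ _ _ => arr (kp κ H.Qir) ∈ AQ A (κ ⊕ κ)) ?_ ?_ ?_ κ
  · intro κ l _ _ _ _ e ih
    have h1 := hA.rei (Equiv.sumCongr e e) ih
    convert h1 using 1
    ext i
    rw [arr, N996.BP.rei, arr, ← kp_reindex e]
    rfl
  · exact hA.empty _
  · intro κ _ _ ih
    let e : (κ ⊕ κ) ⊕ (Unit ⊕ Unit) ≃ (κ ⊕ Unit) ⊕ (κ ⊕ Unit) :=
      { toFun := Sum.elim (Sum.elim (fun k => Sum.inl (Sum.inl k)) fun k => Sum.inr (Sum.inl k))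
          (Sum.elim (fun k => Sum.inl (Sum.inr k)) fun k => Sum.inr (Sum.inr k))
        invFun := Sum.elim (Sum.elim (fun k => Sum.inl (Sum.inl k)) fun k => Sum.inr (Sum.inl k))
          (Sum.elim (fun k => Sum.inl (Sum.inr k)) fun k => Sum.inr (Sum.inr k))
        left_inv := by rintro ((k | k) | (k | k)) <;> rfl
        right_inv := by rintro ((k | k) | (k | k)) <;> rfl }
    have h3 := hA.rei e (hA.tensQ ih hi)
    convert h3 using 1
    ext i
    obtain ⟨i₁, i₂, rfl⟩ : ∃ i₁ i₂, i = Sum.elim i₁ i₂ := ⟨i ∘ Sum.inl, i ∘ Sum.inr, by simp⟩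
    rw [arr_elim]
    have h4 : i₁ = Sum.elim (i₁ ∘ Sum.inl) (i₁ ∘ Sum.inr) := by simp
    have h5 : i₂ = Sum.elim (i₂ ∘ Sum.inl) (i₂ ∘ Sum.inr) := by simp
    conv_lhs => rw [h4, h5]
    rw [kp_sum]
    rfl

/-- The real span is a family. -/
lemma isFam' (hA : RFam H A) (hu : uni ℚ H.D.o Unit ∈ AQ A Unit)
    (hi : arr (kp Unit H.Qir) ∈ AQ A (Unit ⊕ Unit)) : IsFam H.D (fun κ _ => AR A κ) where
  reiM κ l _ _ e a ha := by
    refine AR_ind (P := fun a => N996.BP.rei e a ∈ AR A l) ?_ ?_ ha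
    · intro a ha c
      exact Submodule.smul_mem _ c (AR_of (hA.rei e ha))
    · intro x y hx hy
      exact Submodule.add_mem _ hx hy
  tensM κ l _ _ a b ha hb := by
    refine AR_ind (P := fun a => N996.BP.tens a b ∈ AR A (κ ⊕ l)) ?_ ?_ ha
    · intro a ha c
      refine AR_ind (P := fun b => N996.BP.tens (c • fun i => (a i : ℝ)) b ∈ AR A (κ ⊕ l)) ?_ ?_ hb
      · intro b hb d
        have h1 : N996.BP.tens (c • fun i => (a i : ℝ)) (d • fun i => (b i : ℝ)) =
            (c * d) • fun i => ((N996.BP.tens a b) i : ℝ) := by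
          ext i
          simp only [N996.BP.tens, Pi.smul_apply, smul_eq_mul, Rat.cast_mul]
          ring
        rw [h1]
        exact Submodule.smul_mem _ _ (AR_of (hA.tensQ ha hb))
      · intro x y hx hy
        have h1 : N996.BP.tens (c • fun i => (a i : ℝ)) (x + y) =
            N996.BP.tens (c • fun i => (a i : ℝ)) x + N996.BP.tens (c • fun i => (a i : ℝ)) y := by
          ext i
          simp only [N996.BP.tens, Pi.add_apply]
          ring
        rw [h1]
        exact Submodule.add_mem _ hx hy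
    · intro x y hx hy
      have h1 : N996.BP.tens (x + y) b = N996.BP.tens x b + N996.BP.tens y b := by
        ext i
        simp only [N996.BP.tens, Pi.add_apply]
        ring
      rw [h1]
      exact Submodule.add_mem _ hx hy
  contrM κ l _ _ _ _ a ha := by
    refine AR_ind (P := fun a => N996.BP.contr H.D.Q a ∈ AR A κ) ?_ ?_ ha
    · intro a ha c
      rw [RFam.contr_cast]
      exact Submodule.smul_mem _ _ (AR_of (hA.contrQ ha))
    · intro x y hx hy
      have h1 : N996.BP.contr H.D.Q (x + y) = N996.BP.contr H.D.Q x + N996.BP.contr H.D.Q y := by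
        ext i
        simp only [N996.BP.contr, Pi.add_apply, mul_add, Finset.sum_add_distrib]
      rw [h1]
      exact Submodule.add_mem _ hx hy
  fix κ _ _ a ha := by
    refine AR_ind (P := fun a => kp κ H.D.C *ᵥ a = a) ?_ ?_ ha
    · intro a ha c
      rw [Matrix.mulVec_smul]
      congr 1
      have h1 := hA.leQ ha Complex.I Complex.I_ne_zero
      rw [← cR_C, kp_cR] at h1
      ext i
      have h2 := congrFun h1 i
      rw [Matrix.mulVec, dotProduct] at h2 ⊢
      have h3 : ((∑ j, kp κ H.D.C i j * (a j : ℝ) : ℝ) : ℂ) = (((a i : ℝ)) : ℂ) := by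
        push_cast
        exact h2
      exact_mod_cast h3
    · intro x y hx hy
      rw [Matrix.mulVec_add, hx, hy]
  invM κ _ _ := by
    have h1 := AR_of (invQ' hA hi κ)
    convert h1 using 1
    ext i
    rw [arr, arr, kp_apply, kp_apply, Rat.cast_prod, H.hQir]
    rfl
  uniM κ _ := by
    classical
    have h1 := AR_of (uniQ' hA hu κ)
    convert h1 using 1
    ext i
    rw [uni, uni, Rat.cast_prod]
    refine Finset.prod_congr rfl fun k _ => ?_
    split_ifs <;> simp

/-! ### The complex span -/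

/-- The complex span of the algebraic classes. -/
def AC (A : ∀ n : ℕ, Submodule ℚ ((Fin (n + 1) → ι) → ℚ)) (κ : Type) :
    Submodule ℂ ((κ → ι) → ℂ) :=
  Submodule.span ℂ {x | ∃ a ∈ AQ A κ, x = fun i => (a i : ℂ)}

lemma AC_of_AR {κ : Type} {h : (κ → ι) → ℝ} (hh : h ∈ AR A κ) :
    (fun i => (h i : ℂ)) ∈ AC A κ := by
  refine AR_ind (P := fun h => (fun i => ((h i : ℝ) : ℂ)) ∈ AC A κ) ?_ ?_ hh
  · intro a ha c
    have h1 : (fun i => (((c • fun i => ((a i : ℚ) : ℝ)) i : ℝ) : ℂ)) =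
        (c : ℂ) • fun i => ((a i : ℚ) : ℂ) := by
      ext i; simp
    rw [h1]
    exact Submodule.smul_mem _ _ (Submodule.subset_span ⟨a, ha, rfl⟩)
  · intro x y hx hy
    have h1 : (fun i => (((x + y) i : ℝ) : ℂ)) = (fun i => (x i : ℂ)) + fun i => (y i : ℂ) := by
      ext i; simp
    rw [h1]
    exact Submodule.add_mem _ hx hy

/-- Rational arrays in the complex span belong to the family. -/
lemma AQ_of_AC (hd : S_Desc) {κ : Type} [Fintype κ] [DecidableEq κ] {a : (κ → ι) → ℚ}
    (ha : (fun i => (a i : ℂ)) ∈ AC A κ) : a ∈ AQ A κ := by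
  have h1 := hd ℚ (κ → ι) (AQ A κ) a (by
    have h2 : (fun i => algebraMap ℚ ℂ (a i)) = fun i => (a i : ℂ) := by
      ext i; simp
    rw [h2]
    exact ha)
  have h3 : {x : (κ → ι) → ℚ | ∃ a ∈ AQ A κ, x = fun i => (Rat.cast (a i) : ℚ)} =
      (AQ A κ : Set _) := by
    ext x
    constructor
    · rintro ⟨a, ha, rfl⟩
      simpa using ha
    · intro hx
      exact ⟨x, hx, by ext i; simp⟩
  rw [h3, Submodule.span_eq] at h1
  exact h1

variable {Γ : Type} [Group Γ] {G : GData ι Γ}

/-- The data for the Hodge structure, the algebraic classes and the Galois representation. -/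
structure Both (H : HData ι) (A : ∀ n : ℕ, Submodule ℚ ((Fin (n + 1) → ι) → ℚ)) (G : GData ι Γ)
    (N : ℕ) : Prop where
  rf : RFam H A
  dense : G.Dense
  bound : 4 * bd (Fintype.card ι ^ 2) (wB G) ≤ N
  ss : IsSS (Set.range (G.rho (Fin N)))
  ho : G.o = H.D.o
  hQ : G.Q = cQ H.Qr
  hQi : G.Qi = cQ H.Qir
  tate : ∀ (κ : Type) [Fintype κ] [DecidableEq κ], ∀ a ∈ AQ A κ,
    ca a ∈ Submodule.span ℂ {c | ∃ j, G.Tate j c}
  alg : ∀ (κ : Type) [Fintype κ] [DecidableEq κ], Fintype.card κ ≤ N → ∀ j c, G.Tate j c →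
    c ∈ AC A κ

variable {N : ℕ}

namespace Both

lemma uni (B : Both H A G N) (hd : S_Desc) : uni ℚ H.D.o Unit ∈ AQ A Unit := by
  have hb := one_le_bd (Fintype.card ι ^ 2) (wB G)
  have hN := B.bound
  have h1 := B.alg Unit (by rw [Fintype.card_unit]; omega) 0 _ (tate_uni Unit)
  refine AQ_of_AC hd ?_
  convert h1 using 1
  ext i
  rw [N996.BP.uni, N996.BP.uni, Rat.cast_prod, B.ho]
  refine Finset.prod_congr rfl fun k _ => ?_
  split_ifs <;> simp

lemma inv (B : Both H A G N) (hd : S_Desc) : arr (kp Unit H.Qir) ∈ AQ A (Unit ⊕ Unit) := by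
  have hb := one_le_bd (Fintype.card ι ^ 2) (wB G)
  have hN := B.bound
  refine AQ_of_AC hd ?_
  have h1 : (fun i => ((arr (kp Unit H.Qir) i : ℚ) : ℂ)) =
      ∑ m ∈ Finset.univ.image G.deg, arr (kp Unit (blk G m G.Qi)) := by
    ext i
    rw [Finset.sum_apply]
    have h2 := congrFun (congrFun (sum_blk (G := G) G.Qi) ((i ∘ Sum.inl) default))
      ((i ∘ Sum.inr) default)
    rw [Matrix.sum_apply] at h2
    have h3 : ((arr (kp Unit H.Qir) i : ℚ) : ℂ) =
        G.Qi ((i ∘ Sum.inl) default) ((i ∘ Sum.inr) default) := by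
      rw [arr, kp_apply, Fintype.prod_unique, B.hQi]
      rfl
    rw [h3, h2]
    refine Finset.sum_congr rfl fun m _ => ?_
    rw [arr, kp_apply, Fintype.prod_unique]
  rw [h1]
  exact Submodule.sum_mem _ fun m _ => B.alg _ (by
    rw [Fintype.card_sum, Fintype.card_unit]; omega) m _ (tate_blk m)

/-- Matrices which fix the algebraic classes fix the Tate classes. -/
lemma fixT (B : Both H A G N) (F : Facts) {p : Matrix ι ι ℂ}
    (hp : ∀ (κ : Type) [Fintype κ] [DecidableEq κ], ∀ a ∈ AQ A κ, kp κ p *ᵥ ca a = ca a)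
    (κ : Type) [Fintype κ] [DecidableEq κ] : FixT G p κ := by
  refine fix_all F B.dense B.bound B.ss (fun κ _ _ hκ j c hc => ?_) κ
  have h1 := B.alg κ hκ j c hc
  refine Submodule.span_induction (p := fun c _ => kp κ p *ᵥ c = c) ?_ ?_ ?_ ?_ h1
  · rintro _ ⟨a, ha, rfl⟩
    exact hp κ a ha
  · exact Matrix.mulVec_zero _
  · intro x y _ _ hx hy
    rw [Matrix.mulVec_add, hx, hy]
  · intro t x _ hx
    rw [Matrix.mulVec_smul, hx]

/-- Matrices which fix the Tate classes fix the algebraic classes. -/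
lemma fixA (B : Both H A G N) {p : Matrix ι ι ℂ} {κ : Type} [Fintype κ] [DecidableEq κ]
    (hp : FixT G p κ) {a : (κ → ι) → ℚ} (ha : a ∈ AQ A κ) : kp κ p *ᵥ ca a = ca a := by
  refine Submodule.span_induction (p := fun c _ => kp κ p *ᵥ c = c) ?_ ?_ ?_ ?_ (B.tate κ a ha)
  · rintro c ⟨j, hc⟩
    exact hp j c hc
  · exact Matrix.mulVec_zero _
  · intro x y _ _ hx hy
    rw [Matrix.mulVec_add, hx, hy]
  · intro t x _ hx
    rw [Matrix.mulVec_smul, hx]

lemma kp_conj {κ : Type} [Fintype κ] (g : Matrix ι ι ℂ) :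
    kp κ (g.map conj) = (kp κ g).map conj := by
  ext i j
  simp [kp_apply]

lemma mulVec_conj {m : Type} [Fintype m] (g : Matrix m m ℂ) (c : m → ℂ) :
    (g.map conj) *ᵥ (fun i => conj (c i)) = fun i => conj ((g *ᵥ c) i) := by
  ext i
  rw [Matrix.mulVec, dotProduct, Matrix.mulVec, dotProduct, map_sum]
  refine Finset.sum_congr rfl fun j _ => ?_
  rw [Matrix.map_apply, map_mul]

/-- The complex conjugate matrices. -/
lemma conjT (B : Both H A G N) (F : Facts) {p : Matrix ι ι ℂ}
    (hp : ∀ (κ : Type) [Fintype κ] [DecidableEq κ], FixT G p κ)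
    (κ : Type) [Fintype κ] [DecidableEq κ] : FixT G (p.map conj) κ := by
  refine B.fixT F (fun κ _ _ a ha => ?_) κ
  have h1 := B.fixA (hp κ) ha
  have h2 : ca a = fun i => conj (ca a i) := by
    ext i
    simp [ca]
  rw [kp_conj, h2, mulVec_conj, h1]

/-- The Weil operator fixes the Tate classes. -/
lemma weilT (B : Both H A G N) (F : Facts) (κ : Type) [Fintype κ] [DecidableEq κ] :
    FixT G (H.l Complex.I) κ :=
  B.fixT F (fun _ _ _ _ ha => B.rf.leQ ha Complex.I Complex.I_ne_zero) κ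

/-- **Tate classes are combinations of algebraic classes.** -/
theorem mem_AC (B : Both H A G N) (F : Facts) (hd : S_Desc) {κ : Type} [Fintype κ] [DecidableEq κ]
    {j : ℕ} {c : (κ → ι) → ℂ} (hc : G.Tate j c) : c ∈ AC A κ := by
  have hfam := isFam' B.rf (B.uni hd) (B.inv hd)
  have hC : kp κ (H.l Complex.I) *ᵥ c = c := B.weilT F κ j c hc
  have hCr : ∀ i, ∑ k, ((kp κ H.D.C i k : ℝ) : ℂ) * c k = c i := by
    intro i
    rw [← cR_C, kp_cR] at hC
    exact congrFun hC i
  -- a matrix which fixes the family fixes the conjugate classes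
  have hfix : ∀ g : Matrix ι ι ℂ, (∀ (l : Type) [Fintype l] [DecidableEq l], ∀ a ∈ AR A l,
      kp l g *ᵥ (fun j => ((a j : ℝ) : ℂ)) = fun j => ((a j : ℝ) : ℂ)) →
      kp κ g *ᵥ c = c ∧ kp κ g *ᵥ (fun i => conj (c i)) = fun i => conj (c i) := by
    intro g hg
    have h1 : ∀ (κ : Type) [Fintype κ] [DecidableEq κ], FixT G g κ := by
      refine fun κ _ _ => B.fixT F (fun κ _ _ a ha => ?_) κ
      have h2 := hg κ _ (AR_of ha)
      simp only [Complex.ofReal_ratCast] at h2
      exact h2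
    have h2 := B.conjT F h1 κ j c hc
    refine ⟨h1 κ j c hc, ?_⟩
    have h3 : (kp κ g) = (kp κ (g.map conj)).map conj := by
      rw [← kp_conj, Matrix.map_map]
      congr 1
      ext i j
      simp
    rw [h3, mulVec_conj, h2]
  have hre : (fun i => (c i).re) ∈ AR A κ := by
    refine mem_of_fixed (κ := κ) hfam _ ?_ ?_
    · ext i
      rw [Matrix.mulVec, dotProduct]
      have h1 := congrArg Complex.re (hCr i)
      rw [Complex.re_sum] at h1
      rw [← h1]
      refine Finset.sum_congr rfl fun k _ => ?_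
      rw [Complex.re_ofReal_mul]
    · intro g hg
      obtain ⟨h1, h2⟩ := hfix g hg
      have h3 : (fun i => (((c i).re : ℝ) : ℂ)) = (2 : ℂ)⁻¹ • (c + fun i => conj (c i)) := by
        ext i
        rw [Pi.smul_apply, Pi.add_apply, Complex.add_conj, smul_eq_mul]
        push_cast
        ring
      rw [h3, Matrix.mulVec_smul, Matrix.mulVec_add, h1, h2]
  have him : (fun i => (c i).im) ∈ AR A κ := by
    refine mem_of_fixed (κ := κ) hfam _ ?_ ?_
    · ext i
      rw [Matrix.mulVec, dotProduct]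
      have h1 := congrArg Complex.im (hCr i)
      rw [Complex.im_sum] at h1
      rw [← h1]
      refine Finset.sum_congr rfl fun k _ => ?_
      rw [Complex.im_ofReal_mul]
    · intro g hg
      obtain ⟨h1, h2⟩ := hfix g hg
      have h3 : (fun i => (((c i).im : ℝ) : ℂ)) =
          (2 * Complex.I : ℂ)⁻¹ • (c - fun i => conj (c i)) := by
        ext i
        rw [Pi.smul_apply, Pi.sub_apply, Complex.sub_conj, smul_eq_mul]
        have h4 : (2 * Complex.I : ℂ) ≠ 0 := mul_ne_zero two_ne_zero Complex.I_ne_zero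
        field_simp
        push_cast
        ring
      rw [h3, Matrix.mulVec_smul, Matrix.mulVec_sub, h1, h2]
  have h1 : c = (fun i => (((c i).re : ℝ) : ℂ)) + Complex.I • fun i => (((c i).im : ℝ) : ℂ) := by
    ext i
    rw [Pi.add_apply, Pi.smul_apply, smul_eq_mul, mul_comm]
    exact (Complex.re_add_im (c i)).symm
  rw [h1]
  exact Submodule.add_mem _ (AC_of_AR hre) (Submodule.smul_mem _ _ (AC_of_AR him))

end Both

end Pool.Agent.N211.BT
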