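import Pool.Agent.N211.BT.Mem

/-!
# Membership without the assumption that the classes of the family are Tate classes
-/

set_option linter.unusedSectionVars false

namespace Pool.Agent.N211.BT

open Matrix ComplexConjugate Pool.Agent.N996.BP

variable {ι : Type} [Fintype ι] [DecidableEq ι] {A : ∀ n : ℕ, Submodule ℚ ((Fin (n + 1) → ι) → ℚ)}
  {H : HData ι} {Γ : Type} [Group Γ] {G : GData ι Γ}

/-- The data, without the assumption that the classes of the family are Tate classes. -/
structure Semi (H : HData ι) (A : ∀ n : ℕ, Submodule ℚ ((Fin (n + 1) → ι) → ℚ)) (G : GData ι Γ)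
    (N : ℕ) : Prop where
  rf : RFam H A
  dense : G.Dense
  bound : 4 * bd (Fintype.card ι ^ 2) (wB G) ≤ N
  ss : IsSS (Set.range (G.rho (Fin N)))
  ho : G.o = H.D.o
  hQ : G.Q = cQ H.Qr
  hQi : G.Qi = cQ H.Qir
  alg : ∀ (κ : Type) [Fintype κ] [DecidableEq κ], Fintype.card κ ≤ N → ∀ j c, G.Tate j c →
    c ∈ AC A κ

variable {N : ℕ}

namespace Semi

lemma uni (B : Semi H A G N) (hd : S_Desc) : uni ℚ H.D.o Unit ∈ AQ A Unit := by
  have hb := one_le_bd (Fintype.card ι ^ 2) (wB G)
  have hN := B.bound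
  have h1 := B.alg Unit (by rw [Fintype.card_unit]; omega) 0 _ (tate_uni Unit)
  refine AQ_of_AC hd ?_
  convert h1 using 1
  ext i
  rw [N996.BP.uni, N996.BP.uni, Rat.cast_prod, B.ho]
  refine Finset.prod_congr rfl fun k _ => ?_
  split_ifs <;> simp

lemma inv (B : Semi H A G N) (hd : S_Desc) : arr (kp Unit H.Qir) ∈ AQ A (Unit ⊕ Unit) := by
  have hb := one_le_bd (Fintype.card ι ^ 2) (wB G)
  have hN := B.bound
  refine AQ_of_AC hd ?_
  have h1 : (fun i => ((arr (kp Unit H.Qir) i : ℚ) : ℂ)) =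
      ∑ m ∈ Finset.univ.image G.deg, arr (kp Unit (blk G m G.Qi)) := by
    ext i
    rw [Finset.sum_apply]
    have h2 := congrFun (congrFun (sum_blk (G := G) G.Qi) ((i ∘ Sum.inl) default))
      ((i ∘ Sum.inr) default)
    rw [Matrix.sum_apply] at h2
    have h3 : ((arr (kp Unit H.Qir) i : ℚ) : ℂ) =
        G.Qi ((i ∘ Sum.inl) default) ((i ∘ Sum.inr) default) := by
      rw [arr, kp_apply, Fintype.prod_unique, B.hQi]
      rfl
    rw [h3, h2]
    refine Finset.sum_congr rfl fun m _ => ?_
    rw [arr, kp_apply, Fintype.prod_unique]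
  rw [h1]
  exact Submodule.sum_mem _ fun m _ => B.alg _ (by
    rw [Fintype.card_sum, Fintype.card_unit]; omega) m _ (tate_blk m)

/-- Matrices which fix the classes of the family fix the Tate classes. -/
lemma fixT (B : Semi H A G N) (F : Facts) {p : Matrix ι ι ℂ}
    (hp : ∀ (κ : Type) [Fintype κ] [DecidableEq κ], ∀ a ∈ AQ A κ, kp κ p *ᵥ ca a = ca a)
    (κ : Type) [Fintype κ] [DecidableEq κ] : FixT G p κ := by
  refine fix_all F B.dense B.bound B.ss (fun κ _ _ hκ j c hc => ?_) κ
  have h1 := B.alg κ hκ j c hc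
  refine Submodule.span_induction (p := fun c _ => kp κ p *ᵥ c = c) ?_ ?_ ?_ ?_ h1
  · rintro _ ⟨a, ha, rfl⟩
    exact hp κ a ha
  · exact Matrix.mulVec_zero _
  · intro x y _ _ hx hy
    rw [Matrix.mulVec_add, hx, hy]
  · intro t x _ hx
    rw [Matrix.mulVec_smul, hx]

/-- The Weil operator fixes the Tate classes. -/
lemma weilT (B : Semi H A G N) (F : Facts) (κ : Type) [Fintype κ] [DecidableEq κ] :
    FixT G (H.l Complex.I) κ :=
  B.fixT F (fun _ _ _ _ ha => B.rf.leQ ha Complex.I Complex.I_ne_zero) κ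

/-- **Tate classes are combinations of classes of the family.** -/
theorem mem_AC (B : Semi H A G N) (F : Facts) (hd : S_Desc) {κ : Type} [Fintype κ] [DecidableEq κ]
    {j : ℕ} {c : (κ → ι) → ℂ} (hc : G.Tate j c) : c ∈ AC A κ := by
  have hfam := isFam' B.rf (B.uni hd) (B.inv hd)
  have hC : kp κ (H.l Complex.I) *ᵥ c = c := B.weilT F κ j c hc
  have hCr : ∀ i, ∑ k, ((kp κ H.D.C i k : ℝ) : ℂ) * c k = c i := by
    intro i
    rw [← cR_C, kp_cR] at hC
    exact congrFun hC i
  -- a matrix which fixes the family fixes the conjugate classes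
  have hfix : ∀ g : Matrix ι ι ℂ, (∀ (l : Type) [Fintype l] [DecidableEq l], ∀ a ∈ AR A l,
      kp l g *ᵥ (fun j => ((a j : ℝ) : ℂ)) = fun j => ((a j : ℝ) : ℂ)) →
      kp κ g *ᵥ c = c ∧ kp κ g *ᵥ (fun i => conj (c i)) = fun i => conj (c i) := by
    intro g hg
    have h0 : ∀ (κ : Type) [Fintype κ] [DecidableEq κ], ∀ a ∈ AQ A κ, kp κ g *ᵥ ca a = ca a := by
      intro κ _ _ a ha
      have h2 := hg κ _ (AR_of ha)
      simp only [Complex.ofReal_ratCast] at h2
      exact h2
    have h1 := B.fixT F h0 κ j c hc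
    have h2 := B.fixT F (p := g.map conj) (fun κ _ _ a ha => by
      have h2 : ca a = fun i => conj (ca a i) := by
        ext i
        simp [ca]
      rw [Both.kp_conj, h2, Both.mulVec_conj, h0 κ a ha]) κ j c hc
    refine ⟨h1, ?_⟩
    have h3 : (kp κ g) = (kp κ (g.map conj)).map conj := by
      rw [← Both.kp_conj, Matrix.map_map]
      congr 1
      ext i j
      simp
    rw [h3, Both.mulVec_conj, h2]
  have hre : (fun i => (c i).re) ∈ AR A κ := by
    refine mem_of_fixed (κ := κ) hfam _ ?_ ?_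
    · ext i
      rw [Matrix.mulVec, dotProduct]
      have h1 := congrArg Complex.re (hCr i)
      rw [Complex.re_sum] at h1
      rw [← h1]
      refine Finset.sum_congr rfl fun k _ => ?_
      rw [Complex.re_ofReal_mul]
    · intro g hg
      obtain ⟨h1, h2⟩ := hfix g hg
      have h3 : (fun i => (((c i).re : ℝ) : ℂ)) = (2 : ℂ)⁻¹ • (c + fun i => conj (c i)) := by
        ext i
        rw [Pi.smul_apply, Pi.add_apply, Complex.add_conj, smul_eq_mul]
        push_cast
        ring
      rw [h3, Matrix.mulVec_smul, Matrix.mulVec_add, h1, h2]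
  have him : (fun i => (c i).im) ∈ AR A κ := by
    refine mem_of_fixed (κ := κ) hfam _ ?_ ?_
    · ext i
      rw [Matrix.mulVec, dotProduct]
      have h1 := congrArg Complex.im (hCr i)
      rw [Complex.im_sum] at h1
      rw [← h1]
      refine Finset.sum_congr rfl fun k _ => ?_
      rw [Complex.im_ofReal_mul]
    · intro g hg
      obtain ⟨h1, h2⟩ := hfix g hg
      have h3 : (fun i => (((c i).im : ℝ) : ℂ)) =
          (2 * Complex.I : ℂ)⁻¹ • (c - fun i => conj (c i)) := by
        ext i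
        rw [Pi.smul_apply, Pi.sub_apply, Complex.sub_conj, smul_eq_mul]
        have h4 : (2 * Complex.I : ℂ) ≠ 0 := mul_ne_zero two_ne_zero Complex.I_ne_zero
        field_simp
        push_cast
        ring
      rw [h3, Matrix.mulVec_smul, Matrix.mulVec_sub, h1, h2]
  have h1 : c = (fun i => (((c i).re : ℝ) : ℂ)) + Complex.I • fun i => (((c i).im : ℝ) : ℂ) := by
    ext i
    rw [Pi.add_apply, Pi.smul_apply, smul_eq_mul, mul_comm]
    exact (Complex.re_add_im (c i)).symm
  rw [h1]
  exact Submodule.add_mem _ (AC_of_AR hre) (Submodule.smul_mem _ _ (AC_of_AR him))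

end Semi

end Pool.Agent.N211.BT
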