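import Pool.Agent.N211.BT.Defs
import Pool.Agent.R940.Slope

/-!
# Newton data: existence, conjugates, functions of the semisimple part
-/

set_option autoImplicit false

namespace Pool.Agent.N211.BT

open Matrix Polynomial Pool.Agent.N996.BP Pool.Agent.R940

namespace Newtaux

lemma aeval_of_minpoly {K A : Type*} [Field K] [CharZero K] [Field A] [CharZero A] {x : K}
    {P : ℤ[X]} (h : aeval x P = 0) {y : A} (hy : aeval y (minpoly ℚ x) = 0) : aeval y P = 0 := by
  have h1 : aeval x (P.map (Int.castRingHom ℚ)) = 0 := by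
    rw [aeval_def, eval₂_map]
    rw [aeval_def] at h
    rw [← h]
    congr 1
    exact RingHom.ext_int _ _
  obtain ⟨Q, hQ⟩ := minpoly.dvd ℚ x h1
  have h2 : aeval y (P.map (Int.castRingHom ℚ)) = 0 := by rw [hQ, map_mul, hy, zero_mul]
  rw [aeval_def, eval₂_map] at h2
  rw [aeval_def, ← h2]
  congr 1
  exact RingHom.ext_int _ _

lemma slope_of {p : ℕ} [hp : Fact p.Prime] {P : ℤ[X]} (hP0 : P.Monic) {n : ℕ}
    (hdeg : P.natDegree ≤ n) {i : ℕ}
    (harch : ∀ y : ℂ, aeval y P = 0 → ‖y‖ ^ 2 = (p : ℝ) ^ i) {y : PadicAlgCl p}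
    (hy : aeval y P = 0) : ∃ m : ℤ, ‖y‖ ^ n.factorial = ((p : ℝ) ^ 1) ^ (-m) := by
  have hy0 : y ≠ 0 := by
    rintro rfl
    rw [aeval_def, eval₂_at_zero] at hy
    have h1 : P.coeff 0 = 0 := by
      have : (algebraMap ℤ (PadicAlgCl p)) (P.coeff 0) = 0 := hy
      rw [eq_intCast] at this
      exact_mod_cast this
    have h2 := harch 0 (by
      rw [aeval_def, eval₂_at_zero, h1, map_zero])
    rw [norm_zero, zero_pow two_ne_zero] at h2
    have h3 : (0 : ℝ) < (p : ℝ) ^ i := pow_pos (by exact_mod_cast hp.out.pos) i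
    exact h3.ne h2
  set Q : ℚ_[p][X] := P.map (Int.castRingHom ℚ_[p]) with hQ
  have hQ0 : Q ≠ 0 := (hP0.map _).ne_zero
  have hQy : aeval y Q = 0 := by
    rw [hQ, aeval_def, eval₂_map]
    rw [aeval_def] at hy
    rw [← hy]
    congr 1
  obtain ⟨N, m, hN, hNle, h⟩ := exists_slope hQ0 hQy hy0
  have hNb : N ∣ n.factorial := by
    apply Nat.dvd_factorial hN
    refine hNle.trans ?_
    rw [hQ, hP0.natDegree_map]
    exact hdeg
  obtain ⟨c, hc⟩ := hNb
  refine ⟨m * c, ?_⟩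
  rw [hc, pow_mul, h, ← zpow_natCast, ← _root_.zpow_mul, pow_one]
  congr 1
  ring

variable {ι : Type} [Fintype ι] [DecidableEq ι]

/-- Polynomials in a matrix act on an eigenvector by scalars. -/
lemma aeval_eig {F : Matrix ι ι ℂ} {u : ι → ℂ} {c : ℂ} (h : F *ᵥ u = c • u) (q : ℤ[X]) :
    aeval F q *ᵥ u = aeval c q • u := by
  have hp : ∀ n : ℕ, (F ^ n) *ᵥ u = c ^ n • u := by
    intro n
    induction n with
    | zero => rw [pow_zero, Matrix.one_mulVec, pow_zero, one_smul]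
    | succ n ih =>
      rw [pow_succ, ← Matrix.mulVec_mulVec, h, Matrix.mulVec_smul, ih, smul_smul, pow_succ,
        mul_comm]
  induction q using Polynomial.induction_on' with
  | add a b ha hb => rw [map_add, map_add, Matrix.add_mulVec, ha, hb, add_smul]
  | monomial n a =>
    rw [Polynomial.aeval_monomial, Polynomial.aeval_monomial, Algebra.algebraMap_eq_smul_one,
      Algebra.algebraMap_eq_smul_one, smul_mul_assoc, smul_mul_assoc, one_mul, one_mul,
      Matrix.smul_mulVec, hp, smul_assoc]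

/-- The eigenvalues of the semisimple part are roots of the polynomials which kill the
eigenvectors. -/
lemma root_of {F P W : Matrix ι ι ℂ} {lam : ι → ℂ} (hP : P * W = 1)
    (hS : P * Matrix.diagonal lam * W ∈ Algebra.adjoin ℂ {F})
    (hN : IsNilpotent (F - P * Matrix.diagonal lam * W)) (a : ι) (q : ℤ[X])
    (hq : aeval F q *ᵥ (fun i => P i a) = 0) : aeval (lam a) q = 0 := by
  classical
  have hW : W * P = 1 := mul_eq_one_comm.1 hP
  obtain ⟨S, hSd⟩ : ∃ S, S = P * Matrix.diagonal lam * W := ⟨_, rfl⟩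
  have hSP : S * P = P * Matrix.diagonal lam := by
    rw [hSd, Matrix.mul_assoc, hW, Matrix.mul_one]
  rw [← hSd] at hS hN
  obtain ⟨v, hv⟩ : ∃ v : ι → ℂ, v = fun i => P i a := ⟨_, rfl⟩
  rw [← hv] at hq
  have hSv : S *ᵥ v = lam a • v := by
    have h1 : ∀ i, (S *ᵥ v) i = (S * P) i a := by
      intro i
      rw [hv, Matrix.mul_apply]
      rfl
    funext i
    rw [h1, hSP, Matrix.mul_diagonal, Pi.smul_apply, smul_eq_mul, mul_comm, hv]
  have hv0 : v ≠ 0 := by
    intro h0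
    have h1 : (W * P) a a = 0 := by
      rw [Matrix.mul_apply]
      refine Finset.sum_eq_zero fun i _ => ?_
      have : P i a = 0 := by
        have := congrFun h0 i
        rw [hv] at this
        exact this
      rw [this, mul_zero]
    rw [hW, Matrix.one_apply_eq] at h1
    exact one_ne_zero h1
  have hcFS : Commute F S := Algebra.commute_of_mem_adjoin_self hS
  obtain ⟨n, hnd⟩ : ∃ n, n = F - S := ⟨_, rfl⟩
  rw [← hnd] at hN
  have hcqF : Commute (aeval F q) F := by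
    have := (Commute.all (X : ℤ[X]) q).map (aeval F : ℤ[X] →ₐ[ℤ] Matrix ι ι ℂ)
    rw [aeval_X] at this
    exact this.symm
  have hcqS : Commute (aeval F q) S := Algebra.commute_of_mem_adjoin_singleton_of_commute hS hcqF
  have hcqn : Commute (aeval F q) n := by rw [hnd]; exact hcqF.sub_right hcqS
  have hcnS : Commute n S := by rw [hnd]; exact hcFS.sub_left (Commute.refl _)
  have hex : ∃ k, n ^ k *ᵥ v = 0 := by
    obtain ⟨k, hk⟩ := hN
    exact ⟨k, by rw [hk, Matrix.zero_mulVec]⟩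
  obtain ⟨k, hk, hkm⟩ : ∃ k, n ^ (k + 1) *ᵥ v = 0 ∧ n ^ k *ᵥ v ≠ 0 := by
    have h1 := Nat.find_spec hex
    have h2 : Nat.find hex ≠ 0 := by
      intro h0
      rw [h0, pow_zero, Matrix.one_mulVec] at h1
      exact hv0 h1
    obtain ⟨k, hk⟩ := Nat.exists_eq_succ_of_ne_zero h2
    refine ⟨k, ?_, ?_⟩
    · rw [hk] at h1; exact h1
    · exact Nat.find_min hex (by omega)
  obtain ⟨u, hu⟩ : ∃ u, u = n ^ k *ᵥ v := ⟨_, rfl⟩
  rw [← hu] at hkm
  have hnu : n *ᵥ u = 0 := by
    rw [hu, Matrix.mulVec_mulVec, ← pow_succ', hk]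
  have hSu : S *ᵥ u = lam a • u := by
    rw [hu, Matrix.mulVec_mulVec, ← (hcnS.pow_left k).eq, ← Matrix.mulVec_mulVec, hSv,
      Matrix.mulVec_smul]
  have hFu : F *ᵥ u = lam a • u := by
    have : F = n + S := by rw [hnd]; abel
    rw [this, Matrix.add_mulVec, hnu, hSu, zero_add]
  have hqu : aeval F q *ᵥ u = 0 := by
    rw [hu, Matrix.mulVec_mulVec, (hcqn.pow_right k).eq, ← Matrix.mulVec_mulVec, hq,
      Matrix.mulVec_zero]
  rw [aeval_eig hFu] at hqu
  exact (smul_eq_zero.1 hqu).resolve_right hkm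

/-- Polynomials and conjugation. -/
lemma aeval_conj {R : Type*} [CommRing R] [Algebra R ℂ] {N : Type*} [Fintype N] [DecidableEq N]
    {u w : Matrix N N ℂ} (h : u * w = 1) (y : Matrix N N ℂ) (q : R[X]) :
    aeval (u * y * w) q = u * aeval y q * w := by
  have h' : w * u = 1 := mul_eq_one_comm.1 h
  have hp : ∀ n : ℕ, (u * y * w) ^ n = u * y ^ n * w := by
    intro n
    induction n with
    | zero => rw [pow_zero, pow_zero, Matrix.mul_one, h]
    | succ n ih =>
      rw [pow_succ, ih, pow_succ]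
      calc u * y ^ n * w * (u * y * w) = u * y ^ n * (w * u) * y * w := by
            simp only [Matrix.mul_assoc]
        _ = u * (y ^ n * y) * w := by rw [h', Matrix.mul_one]; simp only [Matrix.mul_assoc]
  induction q using Polynomial.induction_on' with
  | add a b ha hb => rw [map_add, map_add, ha, hb, Matrix.mul_add, Matrix.add_mul]
  | monomial n a =>
    rw [Polynomial.aeval_monomial, Polynomial.aeval_monomial, Algebra.algebraMap_eq_smul_one,
      smul_mul_assoc, smul_mul_assoc, one_mul, one_mul, hp, Matrix.mul_smul, Matrix.smul_mul]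

lemma adjoin_conj {N : Type*} [Fintype N] [DecidableEq N]
    {u w : Matrix N N ℂ} (h : u * w = 1) {x y : Matrix N N ℂ}
    (hx : x ∈ Algebra.adjoin ℂ {y}) : u * x * w ∈ Algebra.adjoin ℂ {u * y * w} := by
  rw [Algebra.adjoin_singleton_eq_range_aeval] at hx ⊢
  obtain ⟨q, hq⟩ := hx
  refine ⟨q, ?_⟩
  have h1 := aeval_conj h y q
  have h2 : aeval y q = x := hq
  rw [h2] at h1
  exact h1

lemma nil_conj {N : Type*} [Fintype N] [DecidableEq N]
    {u w : Matrix N N ℂ} (h : u * w = 1) {x : Matrix N N ℂ} (hx : IsNilpotent x) :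
    IsNilpotent (u * x * w) := by
  obtain ⟨n, hn⟩ := hx
  refine ⟨n, ?_⟩
  have h1 := aeval_conj (R := ℂ) h x (X ^ n)
  rw [map_pow, aeval_X, map_pow, aeval_X, hn, Matrix.mul_zero, Matrix.zero_mul] at h1
  exact h1

lemma aeval_diag {N : Type*} [Fintype N] [DecidableEq N] (lam : N → ℂ) (q : ℂ[X]) :
    aeval (Matrix.diagonal lam : Matrix N N ℂ) q =
      Matrix.diagonal (fun i => Polynomial.eval (lam i) q) := by
  induction q using Polynomial.induction_on' with
  | add a b ha hb =>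
    rw [map_add, ha, hb, Matrix.diagonal_add]
    simp only [Polynomial.eval_add]
  | monomial n a =>
    rw [Polynomial.aeval_monomial, Algebra.algebraMap_eq_smul_one, smul_mul_assoc, one_mul,
      Matrix.diagonal_pow]
    ext i j
    by_cases hij : i = j
    · subst hij
      simp
    · simp [Matrix.diagonal_apply_ne _ hij]

/-- Operators which are functions of a diagonalizable operator. -/
lemma fun_mem {N : Type*} [Fintype N] [DecidableEq N] {P W : Matrix N N ℂ} (h : P * W = 1)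
    (D E : N → ℂ) (hDE : ∀ a b, D a = D b → E a = E b) :
    P * Matrix.diagonal E * W ∈ Algebra.adjoin ℂ {P * Matrix.diagonal D * W} := by
  classical
  let r : ℂ → ℂ := fun x => if hx : ∃ a, D a = x then E hx.choose else 0
  let q : ℂ[X] := Lagrange.interpolate (Finset.univ.image D) id r
  have hq : ∀ a, Polynomial.eval (D a) q = E a := by
    intro a
    have h1 := Lagrange.eval_interpolate_at_node (s := Finset.univ.image D) (v := id) r
      (Set.injOn_id _) (i := D a) (Finset.mem_image_of_mem D (Finset.mem_univ a))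
    have hx : ∃ b, D b = D a := ⟨a, rfl⟩
    have h2 : r (D a) = E a := by
      simp only [r]
      rw [dif_pos hx]
      exact hDE _ _ hx.choose_spec
    rw [h2] at h1
    exact h1
  rw [Algebra.adjoin_singleton_eq_range_aeval]
  refine ⟨q, ?_⟩
  have h1 := aeval_conj h (Matrix.diagonal D) q
  have h2 : (fun i => Polynomial.eval (D i) q) = E := funext hq
  rw [aeval_diag, h2] at h1
  exact h1

lemma prod_zpow' {K : Type*} [Field K] {x : K} (hx : x ≠ 0) {κ : Type*} (s : Finset κ)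
    (f : κ → ℤ) : ∏ l ∈ s, x ^ f l = x ^ ∑ l ∈ s, f l := by
  classical
  induction s using Finset.cons_induction with
  | empty => simp
  | cons a s ha ih => rw [Finset.prod_cons, Finset.sum_cons, ih, zpow_add₀ hx]

end Newtaux

open Newtaux

/-- **Existence of Newton data** -/
theorem ex : S_Ex := by
  intro ι _ _ Γ _ G f p hf
  obtain ⟨hp, hχ, Pz, hPz⟩ := id hf
  have hpf : Fact p.Prime := ⟨hp⟩
  have hunit : IsUnit (G.r f) := by
    have h1 : G.r f * G.r f⁻¹ = 1 := by rw [← G.r_mul, mul_inv_cancel, G.r_one]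
    have h2 : G.r f⁻¹ * G.r f = 1 := by rw [← G.r_mul, inv_mul_cancel, G.r_one]
    exact ⟨⟨G.r f, G.r f⁻¹, h1, h2⟩, rfl⟩
  obtain ⟨P, W, lam, dg, hPW, hhom, hS, hN, hκ⟩ := jord ι (G.r f) G.deg hunit (G.r_deg f)
  have hroot : ∀ a, aeval (lam a) (Pz (dg a)) = 0 := by
    intro a
    refine root_of hPW hS hN a _ ?_
    exact (hPz (dg a)).2.2.2 _ fun j hj => hhom j a hj
  have hweil : IsWeilFamily p 1 (den ι) lam dg := by
    refine ⟨?_, ?_, ?_⟩
    · intro l
      exact ⟨Pz (dg l), (hPz _).1, hroot l⟩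
    · intro l y hy
      rw [pow_one]
      exact (hPz _).2.2.1 y (aeval_of_minpoly (hroot l) hy)
    · intro l y hy
      exact slope_of (hPz (dg l)).1 (hPz _).2.1 (hPz _).2.2.1 (aeval_of_minpoly (hroot l) hy)
  have := isAlg_EF hweil
  exact ⟨⟨f, p, hpf, hf, P, W, lam, dg, hPW, hhom, fun κ _ _ => hκ κ, hweil,
    ⟨Pz, fun i => ⟨(hPz i).1, (hPz i).2.1, hroot⟩⟩, IsAlgClosed.lift⟩, rfl, rfl⟩

/-- **Conjugates of Newton data** -/
theorem conj : S_Conj := by
  intro ι _ _ Γ _ G d g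
  have hgg : G.r g * G.r g⁻¹ = 1 := by rw [← G.r_mul, mul_inv_cancel, G.r_one]
  have hgg' : G.r g⁻¹ * G.r g = 1 := by rw [← G.r_mul, inv_mul_cancel, G.r_one]
  have hr : G.r (g * d.f * g⁻¹) = G.r g * G.r d.f * G.r g⁻¹ := by rw [G.r_mul, G.r_mul]
  have hfrob : G.IsFrob (g * d.f * g⁻¹) d.p := by
    obtain ⟨hp, hχ, Pz, hPz⟩ := d.frob
    refine ⟨hp, ?_, Pz, fun i => ⟨(hPz i).1, (hPz i).2.1, (hPz i).2.2.1, fun v hv => ?_⟩⟩
    · have h1 : G.χ g * G.χ g⁻¹ = 1 := by rw [← G.χ_mul, mul_inv_cancel, G.χ_one]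
      rw [G.χ_mul, G.χ_mul, hχ]
      linear_combination (d.p : ℂ) * h1
    · rw [hr, aeval_conj hgg, ← Matrix.mulVec_mulVec, ← Matrix.mulVec_mulVec]
      have h2 : aeval (G.r d.f) (Pz i) *ᵥ (G.r g⁻¹ *ᵥ v) = 0 := by
        refine (hPz i).2.2.2 _ fun j hj => ?_
        obtain ⟨k, -, hk⟩ := Finset.exists_ne_zero_of_sum_ne_zero (s := Finset.univ)
          (f := fun k => G.r g⁻¹ j k * v k) hj
        rw [G.r_deg g⁻¹ j k (left_ne_zero_of_mul hk)]
        exact hv k (right_ne_zero_of_mul hk)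
      rw [h2, Matrix.mulVec_zero]
  have hs : ∀ D : Matrix ι ι ℂ, (G.r g * d.P) * D * (d.Pi * G.r g⁻¹) =
      G.r g * (d.P * D * d.Pi) * G.r g⁻¹ := by
    intro D
    simp only [Matrix.mul_assoc]
  refine ⟨⟨g * d.f * g⁻¹, d.p, d.hp, hfrob, G.r g * d.P, d.Pi * G.r g⁻¹, d.lam, d.dg, ?_, ?_, ?_,
    d.weil, d.root, d.ψ⟩, fun t => hs _⟩
  · calc G.r g * d.P * (d.Pi * G.r g⁻¹) = G.r g * (d.P * d.Pi) * G.r g⁻¹ := by
          simp only [Matrix.mul_assoc]
      _ = 1 := by rw [d.inv, Matrix.mul_one, hgg]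
  · intro i a hia
    rw [Matrix.mul_apply] at hia
    obtain ⟨k, -, hk⟩ := Finset.exists_ne_zero_of_sum_ne_zero hia
    rw [G.r_deg g i k (left_ne_zero_of_mul hk)]
    exact d.hom k a (right_ne_zero_of_mul hk)
  · intro κ _ _
    rw [hs, hr, kp_mul, kp_mul, kp_mul, kp_mul]
    obtain ⟨h1, h2⟩ := d.adj κ
    have hk : kp κ (G.r g) * kp κ (G.r g⁻¹) = 1 := kp_inv_mul hgg
    refine ⟨adjoin_conj hk h1, ?_⟩
    have h3 := nil_conj hk h2
    rwa [Matrix.mul_sub, Matrix.sub_mul] at h3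

section

variable {ι : Type} [Fintype ι] [DecidableEq ι] {Γ : Type} [Group Γ] {G : GData ι Γ}

lemma sums_of_prod (d : ND G) {κ : Type} [Fintype κ] {I J : κ → ι}
    (h : ∏ k, d.lam (I k) = ∏ k, d.lam (J k)) :
    ∑ k, d.dg (I k) = ∑ k, d.dg (J k) ∧ ∑ k, d.wt (I k) = ∑ k, d.wt (J k) := by
  have hp1 : 1 < (d.p : ℝ) := by exact_mod_cast d.hp.out.one_lt
  have hpe : 1 < (d.p : ℝ) ^ 1 := by rw [pow_one]; exact hp1
  have hdg : ∑ k, d.dg (I k) = ∑ k, d.dg (J k) := by
    have h1 : ∀ I : κ → ι, ‖∏ k, d.lam (I k)‖ ^ 2 = ((d.p : ℝ) ^ 1) ^ ∑ k, d.dg (I k) := by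
      intro I
      rw [norm_prod, ← Finset.prod_pow, ← Finset.prod_pow_eq_pow_sum]
      exact Finset.prod_congr rfl fun k _ => d.weil.arch (I k) (d.lam (I k)) (minpoly.aeval _ _)
    have h2 := h1 I
    rw [h, h1 J] at h2
    exact (pow_right_injective₀ (zero_lt_one.trans hpe) hpe.ne' h2).symm
  have hmm : ∑ k, mm d.weil d.ψ (I k) = ∑ k, mm d.weil d.ψ (J k) := by
    have h0 : ∏ k, el d.lam (I k) = ∏ k, el d.lam (J k) := by
      apply (algebraMap (EF d.lam) ℂ).injective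
      rw [map_prod, map_prod]
      exact h
    have h1 : ∀ I : κ → ι, ‖d.ψ (∏ k, el d.lam (I k))‖ ^ (den ι) =
        ((d.p : ℝ) ^ 1) ^ (-∑ k, mm d.weil d.ψ (I k)) := by
      intro I
      rw [map_prod, norm_prod, ← Finset.prod_pow, ← Finset.sum_neg_distrib,
        ← prod_zpow' (zero_lt_one.trans hpe).ne']
      exact Finset.prod_congr rfl fun k _ => mm_spec d.weil d.ψ (I k)
    have h2 := h1 I
    rw [h0, h1 J] at h2
    have h3 := zpow_right_injective₀ (zero_lt_one.trans hpe) hpe.ne' h2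
    have h4 : -∑ k, mm d.weil d.ψ (J k) = -∑ k, mm d.weil d.ψ (I k) := h3
    linarith
  refine ⟨hdg, ?_⟩
  have h1 : ∀ I : κ → ι, ∑ k, d.wt (I k) =
      2 * ∑ k, mm d.weil d.ψ (I k) - (den ι : ℤ) * ((∑ k, d.dg (I k) : ℕ) : ℤ) := by
    intro I
    push_cast
    rw [Finset.mul_sum, Finset.mul_sum, ← Finset.sum_sub_distrib]
    rfl
  rw [h1 I, h1 J, hmm, hdg]

lemma adj_aux (d : ND G) (κ : Type) [Fintype κ] [DecidableEq κ] (w : ι → ℂ)
    (hw : ∀ I J : κ → ι, ∏ k, d.lam (I k) = ∏ k, d.lam (J k) → ∏ k, w (I k) = ∏ k, w (J k)) :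
    kp κ (d.P * Matrix.diagonal w * d.Pi) ∈ Algebra.adjoin ℂ {kp κ (G.r d.f)} := by
  have h1 : ∀ w : ι → ℂ, kp κ (d.P * Matrix.diagonal w * d.Pi) =
      kp κ d.P * Matrix.diagonal (fun I : κ → ι => ∏ k, w (I k)) * kp κ d.Pi := by
    intro w
    rw [kp_mul, kp_mul, Jordaux.kp_diag]
  have h2 := fun_mem (kp_inv_mul (κ := κ) d.inv) (fun I : κ → ι => ∏ k, d.lam (I k))
    (fun I : κ → ι => ∏ k, w (I k)) hw
  rw [← h1, ← h1] at h2
  have h3 : Algebra.adjoin ℂ {kp κ (d.P * Matrix.diagonal d.lam * d.Pi)} ≤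
      Algebra.adjoin ℂ {kp κ (G.r d.f)} := by
    refine Algebra.adjoin_le ?_
    rw [Set.singleton_subset_iff]
    exact (d.adj κ).1
  exact h3 h2

end

/-- **Operators which are functions of the semisimple part** -/
theorem adj : S_Adj := by
  intro ι _ _ Γ _ G d κ _ _
  constructor
  · intro t ht
    refine adj_aux d κ _ fun I J h => ?_
    rw [prod_zpow' ht, prod_zpow' ht, (sums_of_prod d h).2]
  · have h1 : G.eps = d.P * Matrix.diagonal (fun a => (-1 : ℂ) ^ d.dg a) * d.Pi := by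
      have h2 : G.eps * d.P = d.P * Matrix.diagonal (fun a => (-1 : ℂ) ^ d.dg a) := by
        ext i a
        rw [GData.eps, Matrix.diagonal_mul, Matrix.mul_diagonal]
        by_cases h : d.P i a = 0
        · rw [h]; ring
        · rw [d.hom i a h]; ring
      rw [← h2, Matrix.mul_assoc, d.inv, Matrix.mul_one]
    rw [h1]
    refine adj_aux d κ _ fun I J h => ?_
    rw [Finset.prod_pow_eq_pow_sum, Finset.prod_pow_eq_pow_sum, (sums_of_prod d h).1]

end Pool.Agent.N211.BT
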