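import Pool.Agent.N211.BT.Dens
import Pool.Agent.N211.BT.All
import Pool.Agent.N211.BT.Mem

/-!
# Tate classes in coordinates
-/

set_option linter.unusedSectionVars false

open CategoryTheory AlgebraicGeometry TensorProduct

universe u

namespace Pool.Agent.N211.BT

open Module Matrix
open Pool.Agent.H914 Pool.Agent.H914.VarClass Pool.Agent.H914.VarClass.Obj
  Pool.Agent.H914.WeilCohomology
open Pool.Agent.Y121.AHS
open Pool.Agent.W536.RR (algSpan_induction cl_mem_algSpan)
open Pool.Agent.H281R3.HT (algSpan)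
open Pool.Agent.Y133.Half (pw wb algSys)
open Pool.Agent.N996.BP (cQ ca kp kp_apply totalBetti isCoordinateMap_iff)
open Pool.Agent.N996.BP.Geo (clw arrc mem_arrc clw_add clw_smul clw_zero up_down isCd_up
  isCd_down)

variable {k : Type u} [Field k] {𝒱 : VarClass k} {ops : CycleOps 𝒱} {T : HodgeTheory ops}
  {X : 𝒱.Obj} {E : Type} [Field E] [Algebra T.W.K E] {Γ : Type} [Group Γ]
  (G : GaloisAction T E Γ X) {ι : Type} [Fintype ι] [DecidableEq ι]
  (e : Basis ι T.W.K (T.W.H X)) (deg : ι → ℕ)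

/-- The Tate arrays with coefficients in `E`. -/
def TateE (K : Subgroup Γ) {n : ℕ} (j : ℕ) (a : (Fin (n + 1) → ι) → E) : Prop :=
  (∀ w, a w ≠ 0 → ∑ i, deg (w i) = 2 * j) ∧
    ∀ g ∈ K, kp (Fin (n + 1)) (rE G e g) *ᵥ a = (G.χ g : E) ^ j • a

variable {deg}

lemma tateE_iff (he : ∀ j, e j ∈ T.W.gr X (deg j)) {K : Subgroup Γ} {n j : ℕ}
    {x : HL T.W E (pw X n)} :
    TateE G e deg K j (phi e E n x) ↔ IsDeg (2 * j) x ∧ G.IsInvariant K n j x := by
  rw [TateE, phi_deg e he]
  refine and_congr_right fun _ => forall₂_congr fun g _ => ?_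
  rw [← phi_act, twL_eq, ← map_smul, (phi e E n).injective.eq_iff]

/-- Every class is a rational combination of words. -/
lemma exists_clw (n : ℕ) (c : T.W.H (pw X n)) : ∃ a, clw e n a = c := by
  choose q hq using fun w => T.rat ((wb e n).repr c w)
  refine ⟨q, ?_⟩
  rw [clw]
  simp only [hq]
  exact (wb e n).sum_repr c

lemma clw_inj (n : ℕ) {a b : (Fin (n + 1) → ι) → ℚ} (h : clw e n a = clw e n b) : a = b := by
  funext w
  have h1 : ∀ a : (Fin (n + 1) → ι) → ℚ, (wb e n).repr (clw e n a) w = (a w : T.W.K) := by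
    intro a
    have h2 := (wb e n).equivFun_symm_apply fun w => ((a w : ℚ) : T.W.K)
    have h3 : clw e n a = (wb e n).equivFun.symm fun w => ((a w : ℚ) : T.W.K) := h2.symm
    rw [h3, ← (wb e n).equivFun_apply, LinearEquiv.apply_symm_apply]
  have h4 := h1 a
  rw [h, h1 b] at h4
  exact_mod_cast h4.symm

section Data

variable [Algebra E ℂ] (he : ∀ j, e j ∈ T.W.gr X (deg j))
    {o : ι} (heo : e o = 1) (hdo : deg o = 0) (Qr Qir : Matrix ι ι ℚ) (hQ : Qr * Qir = 1)
    (hr : ∀ g, (∀ i j, Qr i j ≠ 0 → deg i = deg j) ∧ (rC G e g)ᵀ * cQ Qr * rC G e g =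
      Matrix.diagonal (fun i => (algebraMap E ℂ (G.χ g)) ^ deg i) * cQ Qr)

lemma tate_of_tateE {K : Subgroup Γ} (hK : K.FiniteIndex) {n j : ℕ}
    {a : (Fin (n + 1) → ι) → E} (ha : TateE G e deg K j a) :
    (gdata G e he heo hdo Qr Qir hQ hr).Tate j fun w => algebraMap E ℂ (a w) := by
  refine ⟨fun w hw => ha.1 w fun h => hw (by simp only [h, map_zero]), K, hK, fun g hg => ?_⟩
  funext w
  have h1 := congrArg (algebraMap E ℂ) (congrFun (ha.2 g hg) w)
  rw [Pi.smul_apply, smul_eq_mul, map_mul, map_pow] at h1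
  rw [Pi.smul_apply, smul_eq_mul]
  refine Eq.trans ?_ h1
  rw [mulVec, mulVec, dotProduct, dotProduct, map_sum]
  refine Finset.sum_congr rfl fun v _ => ?_
  rw [map_mul, kp_apply, kp_apply, map_prod]
  rfl

/-- Tate arrays are combinations of Tate arrays with coefficients in `E`. -/
lemma exists_tateE {n j : ℕ} {c : (Fin (n + 1) → ι) → ℂ}
    (hc : (gdata G e he heo hdo Qr Qir hQ hr).Tate j c) :
    ∃ K : Subgroup Γ, K.FiniteIndex ∧ c ∈ Submodule.span ℂ
      {x | ∃ a : (Fin (n + 1) → ι) → E, TateE G e deg K j a ∧ x = fun w => algebraMap E ℂ (a w)} := by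
  obtain ⟨h1, K, hK, h2⟩ := hc
  refine ⟨K, hK, ?_⟩
  let L : Set ((Fin (n + 1) → ι) → E) := {l | (∃ w, (∑ i, deg (w i)) ≠ 2 * j ∧
    l = Pi.single w 1) ∨ ∃ g ∈ K, ∃ w, l = fun v => kp (Fin (n + 1)) (rE G e g) w v -
      if v = w then (G.χ g : E) ^ j else 0}
  have h3 := solve E _ L c ?_
  · refine Submodule.span_mono ?_ h3
    rintro _ ⟨a, ha, rfl⟩
    refine ⟨a, ⟨?_, ?_⟩, rfl⟩
    · intro w hw
      by_contra hne
      apply hw
      have h4 := ha _ (Or.inl ⟨w, hne, rfl⟩)
      simpa [Pi.single_apply] using h4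
    · intro g hg
      funext w
      have h4 := ha _ (Or.inr ⟨g, hg, w, rfl⟩)
      simp only [sub_mul, Finset.sum_sub_distrib, ite_mul, zero_mul, Finset.sum_ite_eq',
        Finset.mem_univ, if_true] at h4
      rw [Pi.smul_apply, smul_eq_mul, ← sub_eq_zero]
      exact h4
  · rintro l (⟨w, hw, rfl⟩ | ⟨g, hg, w, rfl⟩)
    · have h4 : c w = 0 := by
        by_contra h
        exact hw (h1 w h)
      rw [Finset.sum_eq_single w, h4, mul_zero]
      · intro v _ hv
        rw [Pi.single_eq_of_ne hv, map_zero, zero_mul]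
      · intro h
        exact absurd (Finset.mem_univ w) h
    · have h4 := congrFun (h2 g hg) w
      rw [Pi.smul_apply, smul_eq_mul, ← sub_eq_zero] at h4
      simp only [map_sub, sub_mul, Finset.sum_sub_distrib]
      refine Eq.trans ?_ h4
      congr 1
      · rw [mulVec, dotProduct]
        refine Finset.sum_congr rfl fun v _ => ?_
        rw [kp_apply, kp_apply, map_prod]
        rfl
      · rw [Finset.sum_eq_single w, if_pos rfl, map_pow]
        · rfl
        · intro v _ hv
          rw [if_neg hv, map_zero, zero_mul]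
        · intro h
          exact absurd (Finset.mem_univ w) h

/-- The arrays of algebraic classes are combinations of Tate arrays. -/
lemma tate_of_alg {n : ℕ} {q : (Fin (n + 1) → ι) → ℚ} (hq : clw e n q ∈ algSpan T.W (pw X n)) :
    ca q ∈ Submodule.span ℂ {c | ∃ j, (gdata G e he heo hdo Qr Qir hQ hr).Tate j c} := by
  have key : ∀ x : T.W.H (pw X n), x ∈ algSpan T.W (pw X n) → ∀ q, clw e n q = x →
      ca q ∈ Submodule.span ℂ {c | ∃ j, (gdata G e he heo hdo Qr Qir hQ hr).Tate j c} := by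
    intro x hx
    refine algSpan_induction (p := fun x => ∀ q, clw e n q = x → ca q ∈ Submodule.span ℂ
      {c | ∃ j, (gdata G e he heo hdo Qr Qir hQ hr).Tate j c}) ?_ ?_ ?_ ?_ hx
    · intro q hq
      have h1 : q = 0 := clw_inj e n (by rw [hq, clw_zero])
      rw [h1]
      have h2 : ca (0 : (Fin (n + 1) → ι) → ℚ) = 0 := by
        funext w; simp [ca]
      rw [h2]
      exact Submodule.zero_mem _
    · intro a b ha hb q hq
      obtain ⟨qa, rfl⟩ := exists_clw e n a
      obtain ⟨qb, rfl⟩ := exists_clw e n b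
      have h1 : q = qa + qb := clw_inj e n (by rw [hq, clw_add])
      have h2 : ca (qa + qb) = ca qa + ca qb := by
        funext w; simp [ca]
      rw [h1, h2]
      exact Submodule.add_mem _ (ha _ rfl) (hb _ rfl)
    · intro t a ha q hq
      obtain ⟨qa, rfl⟩ := exists_clw e n a
      obtain ⟨t, rfl⟩ := T.rat t
      have h1 : q = t • qa := clw_inj e n (by rw [hq, clw_smul])
      have h2 : ca (t • qa) = (t : ℂ) • ca qa := by
        funext w; simp [ca]
      rw [h1, h2]
      exact Submodule.smul_mem _ _ (ha _ rfl)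
    · intro j z hz q hq
      refine Submodule.subset_span ⟨j, ?_⟩
      obtain ⟨Δ, hΔ, h1⟩ := G.fix n j z hz
      have h2 : TateE G e deg Δ j (phi e E n (emL T.W E (clw e n q))) := by
        rw [tateE_iff G e he, hq]
        exact ⟨emL_deg (T.W.cl_mem hz), h1⟩
      rw [phi_clw] at h2
      have h3 := tate_of_tateE G e he heo hdo Qr Qir hQ hr hΔ h2
      convert h3 using 1
      funext w
      rw [map_ratCast]
      rfl
  exact key _ hq q rfl

variable {N : ℕ}

include e in
/-- The Tate conjecture for a power implies it for the smaller powers. -/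
lemma mem_cyc {K : Subgroup Γ} (hT : G.TateConjecture N K) {n : ℕ} (hn : n ≤ N) {j : ℕ}
    {x : HL T.W E (pw X n)} (hx : IsDeg (2 * j) x) (hx' : G.IsInvariant K n j x) :
    x ∈ Submodule.span E {y | ∃ z, (pw X n).IsCyc j z ∧ y = emL T.W E (T.W.cl (pw X n) z)} := by
  have h1 : mapB E (N996.BP.Geo.down X hn) x ∈ Submodule.span E (G.cycleClasses K N j) := by
    refine hT.surjective j _ (mapL_deg (N996.BP.Geo.down X hn) hx) fun g hg => ?_
    refine (G.map n N (N996.BP.Geo.down X hn) (isCoordinateMap_iff.2 (isCd_down hn)) g x).trans ?_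
    rw [hx' g hg]
    exact map_smul (mapB E (N996.BP.Geo.down X hn)) _ x
  have h2 : mapB E (N996.BP.Geo.up X n N) (mapB E (N996.BP.Geo.down X hn) x) = x := by
    have h3 : ∀ x : HL T.W E (pw X n), mapB E (N996.BP.Geo.up X n N) (mapB E (N996.BP.Geo.down X hn) x) = x := by
      intro x
      rw [← sum_phi e n x]
      simp only [map_sum, map_smul]
      refine Finset.sum_congr rfl fun w _ => ?_
      rw [mapB_apply, mapB_apply, ← emL_map, ← emL_map, ← T.W.map_comp, up_down, T.W.map_id]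
    exact h3 x
  rw [← h2]
  refine Submodule.span_induction (p := fun y _ => mapB E (N996.BP.Geo.up X n N) y ∈ Submodule.span E
    {y | ∃ z, (pw X n).IsCyc j z ∧ y = emL T.W E (T.W.cl (pw X n) z)}) ?_ ?_ ?_ ?_ h1
  · rintro _ ⟨z, hz, rfl, -⟩
    refine Submodule.subset_span ⟨ops.pull (N996.BP.Geo.up X n N) z, ops.pull_mem _ hz, ?_⟩
    rw [mapB_apply, ← emL_map, T.W.cl_pull]
  · rw [map_zero]; exact Submodule.zero_mem _
  · intro x y _ _ hx hy; rw [map_add]; exact Submodule.add_mem _ hx hy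
  · intro c x _ hx; rw [map_smul]; exact Submodule.smul_mem _ _ hx

/-- Tate arrays with few indices are combinations of arrays of algebraic classes. -/
lemma alg_of_tate (hT : ∀ K : Subgroup Γ, K.FiniteIndex → G.TateConjecture N K) {n : ℕ}
    (hn : n ≤ N) {j : ℕ} {c : (Fin (n + 1) → ι) → ℂ}
    (hc : (gdata G e he heo hdo Qr Qir hQ hr).Tate j c) :
    c ∈ Submodule.span ℂ {x | ∃ a ∈ arrc e ((algSys T.W).csys X) n, x = ca a} := by
  obtain ⟨K, hK, h1⟩ := exists_tateE G e he heo hdo Qr Qir hQ hr hc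
  refine Submodule.span_le.2 ?_ h1
  rintro _ ⟨a, ha, rfl⟩
  obtain ⟨x, rfl⟩ : ∃ x, phi e E n x = a := (phi e E n).surjective a
  rw [tateE_iff G e he] at ha
  have h2 := mem_cyc G e (hT K hK) hn ha.1 ha.2
  refine Submodule.span_induction (p := fun x _ => (fun w => algebraMap E ℂ (phi e E n x w)) ∈
    Submodule.span ℂ {x | ∃ a ∈ arrc e ((algSys T.W).csys X) n, x = ca a}) ?_ ?_ ?_ ?_ h2
  · rintro _ ⟨z, hz, rfl⟩
    obtain ⟨q, hq⟩ := exists_clw e n (T.W.cl (pw X n) z)
    refine Submodule.subset_span ⟨q, ?_, ?_⟩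
    · rw [mem_arrc, hq]
      exact cl_mem_algSpan hz
    · rw [← hq, phi_clw]
      funext w
      rw [map_ratCast]
      rfl
  · have h3 : (fun w => algebraMap E ℂ (phi e E n 0 w)) = 0 := by
      funext w
      rw [map_zero, Pi.zero_apply, map_zero, Pi.zero_apply]
    rw [h3]
    exact Submodule.zero_mem _
  · intro x y _ _ hx hy
    have h3 : (fun w => algebraMap E ℂ (phi e E n (x + y) w)) =
        (fun w => algebraMap E ℂ (phi e E n x w)) + fun w => algebraMap E ℂ (phi e E n y w) := by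
      funext w
      rw [map_add, Pi.add_apply, map_add, Pi.add_apply]
    rw [h3]
    exact Submodule.add_mem _ hx hy
  · intro t x _ hx
    have h3 : (fun w => algebraMap E ℂ (phi e E n (t • x) w)) =
        algebraMap E ℂ t • fun w => algebraMap E ℂ (phi e E n x w) := by
      funext w
      rw [map_smul, Pi.smul_apply, smul_eq_mul, map_mul, Pi.smul_apply, smul_eq_mul]
    rw [h3]
    exact Submodule.smul_mem _ _ hx

/-- Rational arrays which are combinations of Tate arrays are arrays of algebraic classes. -/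
lemma alg_of_span (hT : ∀ K : Subgroup Γ, K.FiniteIndex → G.TateConjecture N K) {n : ℕ}
    (hn : n ≤ N) {q : (Fin (n + 1) → ι) → ℚ}
    (hq : ca q ∈ Submodule.span ℂ {c | ∃ j, (gdata G e he heo hdo Qr Qir hQ hr).Tate j c}) :
    clw e n q ∈ algSpan T.W (pw X n) := by
  have h1 : ca q ∈ Submodule.span ℂ {x | ∃ a ∈ arrc e ((algSys T.W).csys X) n, x = ca a} := by
    refine Submodule.span_le.2 ?_ hq
    rintro c ⟨j, hc⟩
    exact alg_of_tate G e he heo hdo Qr Qir hQ hr hT hn hc
  have h2 := desc ℚ (Fin (n + 1) → ι) (arrc e ((algSys T.W).csys X) n) q (by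
    have h2 : (fun i => algebraMap ℚ ℂ (q i)) = ca q := by
      ext i; simp [ca]
    rw [h2]
    exact h1)
  have h3 : {x : (Fin (n + 1) → ι) → ℚ | ∃ a ∈ arrc e ((algSys T.W).csys X) n,
      x = fun i => (Rat.cast (a i) : ℚ)} = (arrc e ((algSys T.W).csys X) n : Set _) := by
    ext x
    constructor
    · rintro ⟨a, ha, rfl⟩
      simpa using ha
    · intro hx
      exact ⟨x, hx, by ext i; simp⟩
  rw [h3, Submodule.span_eq] at h2
  exact h2

end Data

end Pool.Agent.N211.BT
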