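import Pool.Agent.N211.BT.TG2

/-!
# The families of arrays
-/

set_option linter.unusedSectionVars false

open CategoryTheory AlgebraicGeometry TensorProduct

universe u

namespace Pool.Agent.N211.BT

open Module Matrix
open Pool.Agent.H914 Pool.Agent.H914.VarClass Pool.Agent.H914.VarClass.Obj
  Pool.Agent.H914.WeilCohomology
open Pool.Agent.Y121.AHS
open Pool.Agent.W536.RR (algSpan_induction cl_mem_algSpan)
open Pool.Agent.H281R3.HT (algSpan)
open Pool.Agent.Y133.Half (pw wb wb_zero wb_succ algSys PH pfst psnd exists_dual_class ClassPred xp)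
open Pool.Agent.Y121.AH (hodgePred)
open Pool.Agent.N996.BP (cQ ca kp kp_apply totalBetti isCoordinateMap_iff HData RFam AQ rei mG)
open Pool.Agent.N996.BP.Geo (clw arrc mem_arrc clw_add clw_smul clw_zero up_down isCd_up
  isCd_down dp sum_snoc Fx inv_iff inv_cls arrc_perm arrc_tens arrc_contr)

variable {k : Type u} [Field k] {𝒱 : VarClass k} {ops : CycleOps 𝒱} {T : HodgeTheory ops}
  {X : 𝒱.Obj} {E : Type} [Field E] [Algebra T.W.K E] {Γ : Type} [Group Γ]
  (G : GaloisAction T E Γ X) {ι : Type} [Fintype ι] [DecidableEq ι]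
  (e : Basis ι T.W.K (T.W.H X)) {deg : ι → ℕ}

include e in
lemma deg_le (he : ∀ j, e j ∈ T.W.gr X (deg j)) (j : ι) : deg j ≤ 2 * X.dim := by
  by_contra h
  push Not at h
  have h1 := he j
  rw [T.W.gr_eq_bot X (deg j) h, Submodule.mem_bot] at h1
  exact e.ne_zero j h1

lemma dim_pw_one : (pw X 1).dim = 2 * X.dim := by
  have h1 : (pw X 1).dim = X.dim + X.dim := dim_prod X X
  omega

section Data

variable [Algebra E ℂ] (he : ∀ j, e j ∈ T.W.gr X (deg j))
    {o : ι} (heo : e o = 1) (hdo : deg o = 0) (Qr Qir : Matrix ι ι ℚ) (hQ : Qr * Qir = 1)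
    (hr : ∀ g, (∀ i j, Qr i j ≠ 0 → deg i = deg j) ∧ (rC G e g)ᵀ * cQ Qr * rC G e g =
      Matrix.diagonal (fun i => (algebraMap E ℂ (G.χ g)) ^ deg i) * cQ Qr) {N : ℕ}

include he heo hdo hQ hr in
/-- The class of the form is algebraic. -/
lemma exists_q (hT : ∀ K : Subgroup Γ, K.FiniteIndex → G.TateConjecture N K) (hN : 1 ≤ N) :
    ∃ q ∈ algSpan T.W (pw X 1), ∀ w, T.W.tr (pw X 1) (wb e 1 w * q) =
      ((Qr (w 0) (w 1) : ℚ) : T.W.K) := by
  have h1 : ∀ i : Fin ((pw X 1).dim + 1), ∃ q ∈ algSpan T.W (pw X 1),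
      ∀ w, T.W.tr (pw X 1) (wb e 1 w * q) = ((Qp deg Qr i w : ℚ) : T.W.K) := by
    intro i
    obtain ⟨q, h1, h2, h3⟩ := exists_qp G e he Qr hr i ((pw X 1).dim - i) (by omega)
    refine ⟨q, ?_, h1⟩
    obtain ⟨a, ha⟩ := exists_clw e 1 q
    rw [← ha]
    apply alg_of_span G e he heo hdo Qr Qir hQ hr hT hN
    refine Submodule.subset_span ⟨(pw X 1).dim - i, ?_⟩
    have h4 : TateE G e deg ⊤ ((pw X 1).dim - i) (phi e E 1 (emL T.W E (clw e 1 a))) := by
      rw [tateE_iff G e he, ha]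
      exact ⟨emL_deg h2, h3⟩
    rw [phi_clw] at h4
    have h5 := tate_of_tateE G e he heo hdo Qr Qir hQ hr inferInstance h4
    convert h5 using 1
    funext w
    rw [map_ratCast]
    rfl
  choose q hq hq' using h1
  refine ⟨∑ i, q i, Submodule.sum_mem _ fun i _ => hq i, fun w => ?_⟩
  rw [Finset.mul_sum, map_sum]
  have h2 : deg (w 0) < (pw X 1).dim + 1 := by
    have := deg_le e he (w 0)
    rw [dim_pw_one]
    omega
  rw [Finset.sum_eq_single ⟨deg (w 0), h2⟩, hq', Qp, if_pos rfl]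
  · intro i _ hi
    rw [hq', Qp, if_neg fun h => hi (Fin.ext h.symm), Rat.cast_zero]
  · intro h
    exact absurd (Finset.mem_univ _) h

variable {Qr Qir}

include he heo hdo hQ hr in
/-- The arrays of the algebraic classes form a family. -/
lemma rfam {H : HData ι} (hHQ : H.Qr = Qr) {hF : DirectSum.IsInternal (Fx (toH T) X)}
    (hH : ∀ t : ℂ, t ≠ 0 → H.l t = mG hF e (fun k => t ^ k))
    (hT : ∀ K : Subgroup Γ, K.FiniteIndex → G.TateConjecture N K) (hN : 1 ≤ N) :
    RFam H (fun n => arrc e ((algSys T.W).csys X) n) := by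
  let p : ι → Fin 2 := fun j => ⟨deg j % 2, Nat.mod_lt _ two_pos⟩
  have hp : ∀ j, e j ∈ PH T.W X (p j : ℕ) := fun j =>
    PH.of' (by change deg j % 2 = (deg j % 2) % 2; omega) (he j)
  have hdp : dp T.W X ∈ ((algSys T.W).csys X).C 1 := dp_mem G e he heo hdo Qr Qir hQ hr hT hN
  obtain ⟨q, hq, hqQ⟩ := exists_q G e he heo hdo Qr Qir hQ hr hT hN
  have hqE : (show T.W.H (X.prod X) from q) ∈ PH T.W (X.prod X) 0 := (algSys T.W).even hq
  have hqQ' : ∀ i j, T.W.tr (X.prod X) (xp T.W (e i) (e j) * (show T.W.H (X.prod X) from q)) =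
      ((H.Qr i j : ℚ) : T.W.K) := by
    intro i j
    have h3 := hqQ (Fin.snoc (α := fun _ => ι) (fun _ : Fin (0 + 1) => i) j)
    have h4 : wb e (0 + 1) (Fin.snoc (α := fun _ => ι) (fun _ : Fin (0 + 1) => i) j) =
        xp T.W (e i) (e j) := by
      rw [wb_snoc']
      have h5 : wb e 0 (fun _ => i) = e i := wb_zero e _
      rw [h5]
      rfl
    have h6 : T.W.tr (pw X 1) (wb e 1 (Fin.snoc (α := fun _ => ι) (fun _ : Fin (0 + 1) => i) j) *
        q) = T.W.tr (X.prod X) (xp T.W (e i) (e j) * (show T.W.H (X.prod X) from q)) := by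
      rw [← h4]
      rfl
    rw [← h6, h3, hHQ]
    rfl
  exact
    { perm := fun n σ a ha => arrc_perm hp hdp n σ ha
      tens := fun n m a b ha hb => arrc_tens e n m ha hb
      contr := fun n a ha => arrc_contr (fun j => ⟨_, hp j⟩) hq hqE hqQ' n ha
      le := fun n a ha => (inv_cls (T := toH T) e hH n a).1
        (inv_iff.2 (ClassPred.alg_le (Q := hodgePred (toH T)) ha)) }

end Data

end Pool.Agent.N211.BT
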