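import Pool.Agent.N211.BT.TG3
import Pool.Agent.N211.BT.SS

/-!
# The arrays with general index sets, and semisimplicity
-/

set_option linter.unusedSectionVars false

open CategoryTheory AlgebraicGeometry TensorProduct

universe u

namespace Pool.Agent.N211.BT

open Module Matrix
open Pool.Agent.H914 Pool.Agent.H914.VarClass Pool.Agent.H914.VarClass.Obj
  Pool.Agent.H914.WeilCohomology
open Pool.Agent.Y121.AHS
open Pool.Agent.H281R3.HT (algSpan)
open Pool.Agent.Y133.Half (pw wb algSys)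
open Pool.Agent.N996.BP (cQ ca kp kp_apply kp_one kp_mul totalBetti HData RFam AQ rei rei_rei bd)
open Pool.Agent.N996.BP.Geo (clw arrc mem_arrc)

variable {k : Type u} [Field k] {𝒱 : VarClass k} {ops : CycleOps 𝒱} {T : HodgeTheory ops}
  {X : 𝒱.Obj} {E : Type} [Field E] [Algebra T.W.K E] {Γ : Type} [Group Γ]
  (G : GaloisAction T E Γ X) {ι : Type} [Fintype ι] [DecidableEq ι]
  (e : Basis ι T.W.K (T.W.H X)) {deg : ι → ℕ}

section Data

variable [Algebra E ℂ] (he : ∀ j, e j ∈ T.W.gr X (deg j))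
    {o : ι} (heo : e o = 1) (hdo : deg o = 0) {Qr Qir : Matrix ι ι ℚ} (hQ : Qr * Qir = 1)
    (hr : ∀ g, (∀ i j, Qr i j ≠ 0 → deg i = deg j) ∧ (rC G e g)ᵀ * cQ Qr * rC G e g =
      Matrix.diagonal (fun i => (algebraMap E ℂ (G.χ g)) ^ deg i) * cQ Qr) {N : ℕ}

lemma tateQ {κ : Type} [Fintype κ] [DecidableEq κ] {a : (κ → ι) → ℚ}
    (ha : a ∈ AQ (fun n => arrc e ((algSys T.W).csys X) n) κ) :
    ca a ∈ Submodule.span ℂ {c | ∃ j, (gdata G e he heo hdo Qr Qir hQ hr).Tate j c} := by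
  rcases isEmpty_or_nonempty κ with hκ | hκ
  · refine Submodule.subset_span ⟨0, ?_, ⊤, inferInstance, fun g _ => ?_⟩
    · intro i _
      rw [mul_zero, Finset.univ_eq_empty, Finset.sum_empty]
    · funext i
      rw [mulVec, dotProduct, Fintype.sum_subsingleton _ i, kp_apply, Finset.univ_eq_empty,
        Finset.prod_empty, one_mul, pow_zero, one_smul]
  · obtain ⟨n, ⟨f⟩⟩ := RFam.exists_eqv κ
    have h1 := tate_of_alg G e he heo hdo Qr Qir hQ hr (ha n f)
    have h2 : ca a = reiL f.symm (ca (rei f a)) := by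
      funext i
      change (a i : ℂ) = ((a ((i ∘ f.symm) ∘ f) : ℚ) : ℂ)
      congr 2
      funext x
      simp
    rw [h2]
    refine Submodule.span_induction (p := fun c _ => reiL f.symm c ∈ Submodule.span ℂ
      {c | ∃ j, (gdata G e he heo hdo Qr Qir hQ hr).Tate j c}) ?_ ?_ ?_ ?_ h1
    · rintro c ⟨j, hc⟩
      exact Submodule.subset_span ⟨j, tate_rei f.symm hc⟩
    · rw [map_zero]; exact Submodule.zero_mem _
    · intro x y _ _ hx hy; rw [map_add]; exact Submodule.add_mem _ hx hy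
    · intro t x _ hx; rw [map_smul]; exact Submodule.smul_mem _ _ hx

lemma algQ {H : HData ι} (hA : RFam H (fun n => arrc e ((algSys T.W).csys X) n))
    (hT : ∀ K : Subgroup Γ, K.FiniteIndex → G.TateConjecture N K) {κ : Type} [Fintype κ]
    [DecidableEq κ] (hκ : Fintype.card κ ≤ N) {j : ℕ} {c : (κ → ι) → ℂ}
    (hc : (gdata G e he heo hdo Qr Qir hQ hr).Tate j c) :
    c ∈ AC (fun n => arrc e ((algSys T.W).csys X) n) κ := by
  rcases isEmpty_or_nonempty κ with hκ' | hκ'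
  · have h1 : c = c (fun x => (IsEmpty.false x).elim) • (fun i : κ → ι =>
        (((fun _ => 1 : (κ → ι) → ℚ) i : ℚ) : ℂ)) := by
      funext i
      rw [Pi.smul_apply, Rat.cast_one, smul_eq_mul, mul_one]
      congr 1
      funext x
      exact (IsEmpty.false x).elim
    rw [h1]
    exact Submodule.smul_mem _ _ (Submodule.subset_span ⟨_, hA.empty _, rfl⟩)
  · obtain ⟨n, ⟨f⟩⟩ := RFam.exists_eqv κ
    have hn : n ≤ N := by
      have := Fintype.card_congr f
      rw [Fintype.card_fin] at this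
      omega
    have h1 := alg_of_tate G e he heo hdo Qr Qir hQ hr hT hn (tate_rei f hc)
    have h2 : c = reiL f.symm (rei f c) := by
      funext i
      change c i = c ((i ∘ f.symm) ∘ f)
      congr 1
      funext x
      simp
    rw [h2]
    refine Submodule.span_induction (p := fun c _ => reiL f.symm c ∈
      AC (fun n => arrc e ((algSys T.W).csys X) n) κ) ?_ ?_ ?_ ?_ h1
    · rintro _ ⟨a, ha, rfl⟩
      refine Submodule.subset_span ⟨rei f.symm a, hA.of f ?_, rfl⟩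
      rw [rei_rei, Equiv.symm_trans_self]
      exact ha
    · rw [map_zero]; exact Submodule.zero_mem _
    · intro x y _ _ hx hy; rw [map_add]; exact Submodule.add_mem _ hx hy
    · intro t x _ hx; rw [map_smul]; exact Submodule.smul_mem _ _ hx

end Data

/-! ### Semisimplicity -/

/-- Transport of semisimplicity. -/
lemma ssOn_tr {F V V' : Type} [Field F] [AddCommGroup V] [Module F V] [AddCommGroup V']
    [Module F V'] (φ : V ≃ₗ[F] V') {α : Type} {S : Set α} {op : α → Module.End F V}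
    {op' : α → Module.End F V'} (h : ∀ a ∈ S, ∀ x, φ (op a x) = op' a (φ x))
    {P : Submodule F V} {P' : Submodule F V'} (hP : ∀ x, φ x ∈ P' ↔ x ∈ P)
    (hs : SSOn (op '' S) P) : SSOn (op' '' S) P' := by
  intro U hU hst
  obtain ⟨U', h1, h2, h3, h4⟩ := hs (U.comap φ.toLinearMap) (fun x hx => (hP x).1 (hU hx)) (by
    rintro _ ⟨a, ha, rfl⟩ x hx
    have h5 : φ (op a x) ∈ U := by
      rw [h a ha]
      exact hst _ ⟨a, ha, rfl⟩ _ hx
    exact h5)
  have hφ : ∀ V₀ : Submodule F V', (V₀.comap φ.toLinearMap).map φ.toLinearMap = V₀ := fun V₀ =>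
    Submodule.map_comap_eq_of_surjective φ.surjective V₀
  have hPm : P.map φ.toLinearMap = P' := by
    rw [← hφ P']
    congr 1
    ext x
    exact (hP x).symm
  refine ⟨U'.map φ.toLinearMap, ?_, ?_, ?_, ?_⟩
  · rw [← hPm]
    exact Submodule.map_mono h1
  · rintro _ ⟨a, ha, rfl⟩ _ ⟨x, hx, rfl⟩
    exact ⟨op a x, h2 _ ⟨a, ha, rfl⟩ x hx, h a ha x⟩
  · rw [← hφ U, ← Submodule.map_inf _ φ.injective, h3, Submodule.map_bot]
  · rw [← hφ U, ← Submodule.map_sup, h4, hPm]

/-- Semisimplicity of a stable subspace. -/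
lemma ssOn_le {F V : Type} [Field F] [AddCommGroup V] [Module F V] {R : Set (Module.End F V)}
    {P Q : Submodule F V} (hPQ : P ≤ Q) (hP : Stab R P) (hs : SSOn R Q) : SSOn R P := by
  intro U hU hst
  obtain ⟨U', h1, h2, h3, h4⟩ := hs U (hU.trans hPQ) hst
  refine ⟨U' ⊓ P, inf_le_right, fun r hr x hx => ⟨h2 r hr x hx.1, hP r hr x hx.2⟩, ?_, ?_⟩
  · rw [← inf_assoc, h3, bot_inf_eq]
  · rw [← sup_inf_assoc_of_le U' hU, h4]
    exact inf_eq_right.2 hPQ

lemma isSemisimpleOn_iff {E Γ V : Type} [Field E] [Group Γ] [AddCommGroup V] [Module E V]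
    {ρ : Representation E Γ V} {Δ : Subgroup Γ} {P : Submodule E V} :
    IsSemisimpleOn ρ Δ P ↔ SSOn ((fun g => ρ g) '' (Δ : Set Γ)) P := by
  have h : ∀ U : Submodule E V, (∀ g ∈ Δ, ∀ x ∈ U, ρ g x ∈ U) ↔
      Stab ((fun g => ρ g) '' (Δ : Set Γ)) U := by
    intro U
    constructor
    · rintro h _ ⟨g, hg, rfl⟩ x hx
      exact h g hg x hx
    · intro h g hg x hx
      exact h _ ⟨g, hg, rfl⟩ x hx
  constructor
  · intro hs U hU hst
    obtain ⟨U', h1, h2, h3, h4⟩ := hs U hU ((h U).2 hst)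
    exact ⟨U', h1, (h U').1 h2, h3, h4⟩
  · intro hs U hU hst
    obtain ⟨U', h1, h2, h3, h4⟩ := hs U hU ((h U).1 hst)
    exact ⟨U', h1, (h U').2 h2, h3, h4⟩

/-- Subgroups of finite index of a group which acts semisimply act semisimply. -/
lemma isSS_sub {M : Type} [AddCommGroup M] [Module ℂ M] [FiniteDimensional ℂ M]
    (ρ : Γ →* Module.End ℂ M) (h : IsSS (Set.range ρ)) (Δ : Subgroup Γ) (hΔ : Δ.FiniteIndex) :
    IsSS (ρ '' (Δ : Set Γ)) := by
  have h1 : IsSS (ρ '' (Δ.normalCore : Set Γ)) := by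
    refine cliff Γ M ρ _ h ?_ ?_
    · rintro g _ ⟨x, hx, rfl⟩
      refine ⟨g * x * g⁻¹, Subgroup.Normal.conj_mem inferInstance x hx g, ?_⟩
      rw [map_mul, map_mul]
    · rintro U hU _ ⟨x, _, rfl⟩ v hv
      exact hU x v hv
  have h2 : IsSS ((ρ.comp Δ.subtype) '' ((Δ.normalCore.subgroupOf Δ : Subgroup Δ) : Set Δ)) := by
    have h3 : (ρ.comp Δ.subtype) '' ((Δ.normalCore.subgroupOf Δ : Subgroup Δ) : Set Δ) =
        ρ '' (Δ.normalCore : Set Γ) := by
      ext y
      constructor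
      · rintro ⟨x, hx, rfl⟩
        exact ⟨x, hx, rfl⟩
      · rintro ⟨x, hx, rfl⟩
        exact ⟨⟨x, Subgroup.normalCore_le Δ hx⟩, hx, rfl⟩
    rw [h3]
    exact h1
  have h4 : Δ.normalCore.FiniteIndex := inferInstance
  have h3 := rel Δ M (ρ.comp Δ.subtype) (Δ.normalCore.subgroupOf Δ) inferInstance h2
  have h5 : Set.range (ρ.comp Δ.subtype) = ρ '' (Δ : Set Γ) := by
    ext y
    constructor
    · rintro ⟨x, rfl⟩
      exact ⟨x, x.2, rfl⟩
    · rintro ⟨x, hx, rfl⟩
      exact ⟨⟨x, hx⟩, rfl⟩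
  rwa [h5] at h3

end Pool.Agent.N211.BT
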