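import Pool.Agent.N211.BT.TG4

/-!
# Semisimplicity in coordinates, and the bound
-/

set_option linter.unusedSectionVars false

open CategoryTheory AlgebraicGeometry TensorProduct

universe u

namespace Pool.Agent.N211.BT

open Module Matrix
open Pool.Agent.H914 Pool.Agent.H914.VarClass Pool.Agent.H914.VarClass.Obj
  Pool.Agent.H914.WeilCohomology
open Pool.Agent.Y121.AHS
open Pool.Agent.H281R3.HT (algSpan)
open Pool.Agent.Y133.Half (pw wb algSys)
open Pool.Agent.N996.BP (cQ ca kp kp_apply kp_one kp_mul kp_rei totalBetti HData RFam AQ rei rei_rei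
  bd)
open Pool.Agent.N996.BP.Geo (clw arrc mem_arrc)

variable {k : Type u} [Field k] {𝒱 : VarClass k} {ops : CycleOps 𝒱} {T : HodgeTheory ops}
  {X : 𝒱.Obj} {E : Type} [Field E] [Algebra T.W.K E] {Γ : Type} [Group Γ]
  (G : GaloisAction T E Γ X) {ι : Type} [Fintype ι] [DecidableEq ι]
  (e : Basis ι T.W.K (T.W.H X)) {deg : ι → ℕ}

/-- Reindexing over a field. -/
def reiE (F : Type) [Field F] (ι : Type) [Fintype ι] [DecidableEq ι] {κ l : Type} (f : κ ≃ l) :
    ((κ → ι) → F) ≃ₗ[F] ((l → ι) → F) where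
  toFun := rei f
  invFun := rei f.symm
  map_add' _ _ := rfl
  map_smul' _ _ := rfl
  left_inv a := by rw [rei_rei, Equiv.self_trans_symm]; rfl
  right_inv a := by rw [rei_rei, Equiv.symm_trans_self]; rfl

/-- Semisimplicity of the arrays and reindexing. -/
lemma ssOn_rei {F : Type} [Field F] {r : Γ → Matrix ι ι F} {κ l : Type} [Fintype κ] [DecidableEq κ]
    [Fintype l] [DecidableEq l] (f : κ ≃ l) {m : ℕ} (h : SSOn (opsF r κ) (homS F deg κ m)) :
    SSOn (opsF r l) (homS F deg l m) := by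
  have h1 := ssOn_tr (reiE F ι f) (S := (Set.univ : Set Γ))
    (op := fun g => Matrix.toLin' (kp κ (r g))) (op' := fun g => Matrix.toLin' (kp l (r g)))
    (fun g _ x => (kp_rei f (r g) x).symm) (P := homS F deg κ m) (P' := homS F deg l m) ?_ ?_
  · rwa [Set.image_univ] at h1
  · intro c
    constructor
    · intro hc i hi
      have h2 := hc (i ∘ f.symm) (by
        change c ((i ∘ f.symm) ∘ f) ≠ 0
        have h3 : (i ∘ f.symm) ∘ f = i := by
          funext x; simp
        rwa [h3])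
      rw [← h2]
      exact (Equiv.sum_comp f.symm fun k => deg (i k)).symm
    · intro hc i hi
      have h2 := hc (i ∘ f) hi
      rw [← h2]
      exact (Equiv.sum_comp f fun k => deg (i k)).symm
  · rw [Set.image_univ]
    exact h

section Data

variable [Algebra E ℂ] (he : ∀ j, e j ∈ T.W.gr X (deg j))
    {o : ι} (heo : e o = 1) (hdo : deg o = 0) {Qr Qir : Matrix ι ι ℚ} (hQ : Qr * Qir = 1)
    (hr : ∀ g, (∀ i j, Qr i j ≠ 0 → deg i = deg j) ∧ (rC G e g)ᵀ * cQ Qr * rC G e g =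
      Matrix.diagonal (fun i => (algebraMap E ℂ (G.χ g)) ^ deg i) * cQ Qr) {N : ℕ}

lemma kp_rC (κ : Type) [Fintype κ] [DecidableEq κ] (g : Γ) :
    kp κ (rC G e g) = (kp κ (rE G e g)).map (algebraMap E ℂ) := by
  ext i j
  rw [kp_apply, Matrix.map_apply, kp_apply, map_prod]
  rfl

/-- The group acts semisimply on the arrays. -/
lemma ss_arrays (hT : G.TateConjecture N ⊤) :
    IsSS (Set.range ((gdata G e he heo hdo Qr Qir hQ hr).rho (Fin N))) := by
  have : CharZero E := charZero_of_injective_algebraMap (algebraMap T.W.K E).injective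
  have h1 : ∀ j, SSOn (opsF (rE G e) (Fin (N + 1))) (homS E deg (Fin (N + 1)) (2 * j)) := by
    intro j
    have h := isSemisimpleOn_iff.1 (hT.semisimple j)
    have h1 := ssOn_tr (phi e E N) (op := fun g => G.ρ N g)
      (op' := fun g => Matrix.toLin' (kp (Fin (N + 1)) (rE G e g)))
      (fun g _ x => phi_act G e N g x) (P' := homS E deg (Fin (N + 1)) (2 * j))
      (fun x => (phi_deg e he).symm) h
    rw [Subgroup.coe_top, Set.image_univ] at h1
    exact h1
  have h2 : ∀ j, SSOn (opsF (rE G e) (Fin N ⊕ Unit)) (homS E deg (Fin N ⊕ Unit) (2 * j)) := by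
    intro j
    exact ssOn_rei (Fintype.equivOfCardEq (by simp)) (h1 j)
  have h3 := even E ι Γ (rE G e) deg (rE_one G e) (rE_mul G e) (fun g i j => rE_deg G he g i j)
    o hdo (Fin N) h2
  have h4 := up E (Fin N → ι) (Set.range fun g => kp (Fin N) (rE G e g)) (by
    rw [← Set.range_comp]
    exact h3)
  rw [← Set.range_comp, ← Set.range_comp] at h4
  have h5 : Set.range ((gdata G e he heo hdo Qr Qir hQ hr).rho (Fin N)) =
      Set.range (Matrix.toLin' ∘ (fun y : Matrix (Fin N → ι) (Fin N → ι) E =>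
        y.map (algebraMap E ℂ)) ∘ fun g => kp (Fin N) (rE G e g)) := by
    congr 1
    funext g
    exact congrArg Matrix.toLin' (kp_rC G e (Fin N) g)
  rw [h5]
  exact h4

/-- Semisimplicity over the complex numbers implies semisimplicity. -/
lemma ss_classes {n : ℕ} (h : IsSS (Set.range ((gdata G e he heo hdo Qr Qir hQ hr).rho
    (Fin (n + 1))))) (Δ : Subgroup Γ) (hΔ : Δ.FiniteIndex) (i : ℕ) :
    IsSemisimpleOn (G.ρ n) Δ (grL T.W E (pw X n) i) := by
  have : CharZero E := charZero_of_injective_algebraMap (algebraMap T.W.K E).injective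
  have h1 := isSS_sub _ h Δ hΔ
  have h2 := down E (Fin (n + 1) → ι)
    ((fun g => kp (Fin (n + 1)) (rE G e g)) '' (Δ : Set Γ)) (by
      rw [← Set.image_comp, ← Set.image_comp]
      have h5 : (⇑((gdata G e he heo hdo Qr Qir hQ hr).rho (Fin (n + 1)))) =
          (Matrix.toLin' ∘ (fun y : Matrix (Fin (n + 1) → ι) (Fin (n + 1) → ι) E =>
            y.map (algebraMap E ℂ)) ∘ fun g => kp (Fin (n + 1)) (rE G e g)) := by
        funext g
        exact congrArg Matrix.toLin' (kp_rC G e (Fin (n + 1)) g)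
      rw [← Function.comp_assoc] at h5
      rw [Function.comp_assoc]
      rw [Function.comp_assoc] at h5
      rw [← h5]
      exact h1)
  rw [← Set.image_comp] at h2
  have h3 := ssOn_tr (phi e E n).symm (S := (Δ : Set Γ))
    (op := fun g => Matrix.toLin' (kp (Fin (n + 1)) (rE G e g))) (op' := fun g => G.ρ n g)
    (fun g _ x => by
      rw [LinearEquiv.symm_apply_eq, phi_act, LinearEquiv.apply_symm_apply]
      rfl) (P := ⊤) (P' := ⊤) (fun x => ⟨fun _ => trivial, fun _ => trivial⟩) h2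
  rw [isSemisimpleOn_iff]
  refine ssOn_le le_top ?_ h3
  rintro _ ⟨g, _, rfl⟩ x hx
  exact G.deg n g i x hx

end Data

/-! ### The bound -/

lemma bd_le {b w : ℕ} (hb : 1 ≤ b) (hw : w ≤ b.factorial * (2 * (b - 1))) :
    4 * bd (b ^ 2) w + 1 ≤ tateExponent b := by
  obtain ⟨F, hF⟩ : ∃ F, F = b.factorial := ⟨_, rfl⟩
  have hF1 : 1 ≤ F := hF ▸ Nat.factorial_pos b
  obtain ⟨c, rfl⟩ : ∃ c, b = c + 1 := ⟨b - 1, by omega⟩
  obtain ⟨B, hB⟩ : ∃ B, B = (c + 1) ^ 2 := ⟨_, rfl⟩
  have hB1 : B ≠ 0 := by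
    rw [hB]
    positivity
  rw [bd, tateExponent, ← hF, ← hB]
  rw [← hF, Nat.add_sub_cancel] at hw
  obtain ⟨P, hP⟩ : ∃ P, P = 4 * (c + 1) * F := ⟨_, rfl⟩
  rw [← hP]
  have h1 : 2 * w + 1 < P := by
    rw [hP]
    nlinarith
  have h2 : 4 ≤ P := by
    rw [hP]
    nlinarith [Nat.zero_le (c * F)]
  have h3 : ((2 * w + 1) * (B + 1)) ^ B < (P * (B + 1)) ^ B :=
    Nat.pow_lt_pow_left (Nat.mul_lt_mul_of_pos_right h1 (Nat.succ_pos B)) hB1
  have h4 : 4 * ((B + 1) * ((2 * w + 1) * (B + 1)) ^ B) + 1 ≤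
      4 * ((B + 1) * (P * (B + 1)) ^ B) := by
    have h5 : (B + 1) * ((2 * w + 1) * (B + 1)) ^ B < (B + 1) * (P * (B + 1)) ^ B :=
      Nat.mul_lt_mul_of_pos_left h3 (Nat.succ_pos B)
    omega
  refine h4.trans ?_
  rw [pow_succ]
  calc 4 * ((B + 1) * (P * (B + 1)) ^ B) = (P * (B + 1)) ^ B * (4 * (B + 1)) := by ring
    _ ≤ (P * (B + 1)) ^ B * (P * (B + 1)) :=
        Nat.mul_le_mul_left _ (Nat.mul_le_mul_right _ h2)

end Pool.Agent.N211.BT
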