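import Pool.Agent.N211.BT.TG5
import Pool.Agent.N211.BT.Avg
import Pool.Agent.N211.BT.HD

/-!
# The bounded power theorem for the Tate conjecture
-/

set_option linter.unusedSectionVars false

open CategoryTheory AlgebraicGeometry TensorProduct

universe u

namespace Pool.Agent.N211.BT

open Module Matrix
open Pool.Agent.H914 Pool.Agent.H914.VarClass Pool.Agent.H914.VarClass.Obj
  Pool.Agent.H914.WeilCohomology
open Pool.Agent.Y121.AHS
open Pool.Agent.W536.RR (algSpan_induction cl_mem_algSpan)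
open Pool.Agent.H281R3.HT (algSpan)
open Pool.Agent.Y133.Half (pw wb algSys finrank_pw)
open Pool.Agent.N996.BP (cQ ca kp kp_apply totalBetti HData RFam AQ rei bd IsPolarisation RForm)
open Pool.Agent.N996.BP.Geo (clw arrc mem_arrc exists_ubasis dim_lt Fx)

variable {k : Type u} [Field k] {𝒱 : VarClass k} {ops : CycleOps 𝒱}

section Proj

variable {W : WeilCohomology.{u, 0} ops} {Y : 𝒱.Obj} (E : Type) [Field E] [Algebra W.K E]

/-- The projection to the part of degree `i`. -/
noncomputable def prE (Y : 𝒱.Obj) (i : ℕ) : HL W E Y →ₗ[E] HL W E Y :=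
  ((proj (W.isInternal Y) i).baseChange E : E ⊗[W.K] W.H Y →ₗ[E] E ⊗[W.K] W.H Y)

lemma prE_em (i : ℕ) (c : W.H Y) : prE E Y i (emL W E c) = emL W E (proj (W.isInternal Y) i c) :=
  LinearMap.baseChange_tmul _ _ _

lemma prE_same {i : ℕ} {x : HL W E Y} (hx : IsDeg i x) : prE E Y i x = x := by
  have h : ∀ x ∈ (W.gr Y i).baseChange E, (proj (W.isInternal Y) i).baseChange E x = x := by
    intro x hx
    rw [Submodule.baseChange_eq_span] at hx
    refine Submodule.span_induction (p := fun x _ =>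
      (proj (W.isInternal Y) i).baseChange E x = x) ?_ ?_ ?_ ?_ hx
    · rintro _ ⟨a, ha, rfl⟩
      change (proj (W.isInternal Y) i).baseChange E ((1 : E) ⊗ₜ[W.K] a) = (1 : E) ⊗ₜ[W.K] a
      rw [LinearMap.baseChange_tmul, proj_same _ ha]
    · rw [map_zero]
    · intro x y _ _ hx hy; rw [map_add, hx, hy]
    · intro c x _ hx; rw [map_smul, hx]
  exact h x hx

variable {E}

/-- Homogeneous combinations of algebraic classes. -/
lemma span_alg {j : ℕ} {x : HL W E Y}
    (hx : x ∈ Submodule.span E {y | ∃ c ∈ algSpan W Y, y = emL W E c}) (hd : IsDeg (2 * j) x) :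
    x ∈ Submodule.span E {y | ∃ z, Y.IsCyc j z ∧ y = emL W E (W.cl Y z)} := by
  rw [← prE_same E hd]
  refine Submodule.span_induction (p := fun x _ => prE E Y (2 * j) x ∈
    Submodule.span E {y | ∃ z, Y.IsCyc j z ∧ y = emL W E (W.cl Y z)}) ?_ ?_ ?_ ?_ hx
  · rintro _ ⟨c, hc, rfl⟩
    rw [prE_em]
    refine algSpan_induction (p := fun c => emL W E (proj (W.isInternal Y) (2 * j) c) ∈
      Submodule.span E {y | ∃ z, Y.IsCyc j z ∧ y = emL W E (W.cl Y z)}) ?_ ?_ ?_ ?_ hc
    · rw [map_zero, emL_zero]; exact Submodule.zero_mem _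
    · intro a b ha hb; rw [map_add, emL_add]; exact Submodule.add_mem _ ha hb
    · intro t a ha; rw [map_smul, emL_smul]; exact Submodule.smul_mem _ _ ha
    · intro i z hz
      by_cases hij : i = j
      · subst hij
        rw [proj_same _ (W.cl_mem hz)]
        exact Submodule.subset_span ⟨z, hz, rfl⟩
      · rw [proj_ne _ (W.cl_mem hz) (by omega), emL_zero]
        exact Submodule.zero_mem _
  · rw [map_zero]; exact Submodule.zero_mem _
  · intro x y _ _ hx hy; rw [map_add]; exact Submodule.add_mem _ hx hy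
  · intro c x _ hx; rw [map_smul]; exact Submodule.smul_mem _ _ hx

end Proj

variable {T : HodgeTheory ops}
  {X : 𝒱.Obj} {E : Type} [Field E] [Algebra T.W.K E] {Γ : Type} [Group Γ]
  (G : GaloisAction T E Γ X) {ι : Type} [Fintype ι] [DecidableEq ι]
  (e : Basis ι T.W.K (T.W.H X)) {deg : ι → ℕ}

section Data

variable [Algebra E ℂ] (he : ∀ j, e j ∈ T.W.gr X (deg j))
    {o : ι} (heo : e o = 1) (hdo : deg o = 0) {Qr Qir : Matrix ι ι ℚ} (hQ : Qr * Qir = 1)
    (hr : ∀ g, (∀ i j, Qr i j ≠ 0 → deg i = deg j) ∧ (rC G e g)ᵀ * cQ Qr * rC G e g =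
      Matrix.diagonal (fun i => (algebraMap E ℂ (G.χ g)) ^ deg i) * cQ Qr) {N : ℕ}

/-- The Tate classes on all powers are combinations of the classes of cycles. -/
lemma tate_alg (hcj : G.Conj) {H : HData ι} (B : Both H (fun n => arrc e ((algSys T.W).csys X) n)
    (gdata G e he heo hdo Qr Qir hQ hr) N) {K : Subgroup Γ} (hK : K.FiniteIndex) {n j : ℕ}
    {x : HL T.W E (pw X n)} (hx : IsDeg (2 * j) x) (hinv : G.IsInvariant K n j x) :
    x ∈ Submodule.span E (G.cycleClasses K n j) := by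
  refine mem_cycleClasses G hcj (span_alg ?_ hx) hinv
  have h1 : TateE G e deg K j (phi e E n x) := (tateE_iff G e he).2 ⟨hx, hinv⟩
  have h2 := B.mem_AC facts desc (tate_of_tateE G e he heo hdo Qr Qir hQ hr hK h1)
  have h3 := desc E (Fin (n + 1) → ι)
    (AQ (fun n => arrc e ((algSys T.W).csys X) n) (Fin (n + 1))) (phi e E n x) h2
  have h4 : x = (phi e E n).symm (phi e E n x) := ((phi e E n).symm_apply_apply x).symm
  rw [h4]
  refine Submodule.span_induction (p := fun c _ => (phi e E n).symm c ∈ Submodule.span E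
    {y | ∃ c ∈ algSpan T.W (pw X n), y = emL T.W E c}) ?_ ?_ ?_ ?_ h3
  · rintro _ ⟨a, ha, rfl⟩
    refine Submodule.subset_span ⟨clw e n a, ?_, ?_⟩
    · exact B.rf.mem_iff.1 ha
    · rw [LinearEquiv.symm_apply_eq, phi_clw]
  · rw [map_zero]; exact Submodule.zero_mem _
  · intro x y _ _ hx hy; rw [map_add]; exact Submodule.add_mem _ hx hy
  · intro c x _ hx; rw [map_smul]; exact Submodule.smul_mem _ _ hx

end Data

lemma deg_unit {W : WeilCohomology.{u, 0} ops} {e : Basis ι W.K (W.H X)}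
    (he : ∀ j, e j ∈ W.gr X (deg j)) {o : ι} (heo : e o = 1) : deg o = 0 := by
  by_contra h
  have h1 : proj (W.isInternal X) (deg o) (e o) = e o := proj_same _ (he o)
  have h2 : proj (W.isInternal X) (deg o) (e o) = 0 := by
    rw [heo]
    exact proj_ne _ (W.one_mem X) (Ne.symm h)
  rw [h2] at h1
  exact e.ne_zero o h1.symm

lemma hQ_of (H : HData ι) : H.Qr * H.Qir = 1 := by
  have h1 := H.D.hQ
  rw [H.hQr, H.hQir] at h1
  ext i j
  have h2 := congrFun (congrFun h1 i) j
  have h3 : (((H.Qr * H.Qir) i j : ℚ) : ℝ) = (((1 : Matrix ι ι ℚ) i j : ℚ) : ℝ) := by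
    rw [Matrix.mul_apply] at h2 ⊢
    push_cast
    refine Eq.trans ?_ (h2.trans ?_)
    · rfl
    · rw [Matrix.one_apply, Matrix.one_apply]
      split_ifs <;> simp
  exact_mod_cast h3

variable {ψ : RForm T.W X}

/-- **The bounded power theorem for the Tate conjecture.** -/
theorem bounded_power (hcj : G.Conj) (h : IsPolarisation T X ψ) (hR : G.Respects ψ) [TopologicalSpace Γ]
    [TopologicalSpace E] [IsTopologicalRing E] [T2Space E] (hA : G.IsArithmetic)
    (hE : Nonempty (E →+* ℂ))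
    (hT : ∀ Δ : Subgroup Γ, Δ.FiniteIndex →
      G.TateConjecture (tateExponent (totalBetti T X) - 1) Δ)
    (n : ℕ) (Δ : Subgroup Γ) (hΔ : Δ.FiniteIndex) :
    G.TateConjecture n Δ ∧ ∀ i, IsSemisimpleOn (G.ρ n) Δ (grL T.W E (pw X n) i) := by
  classical
  obtain ⟨φ⟩ := hE
  rcases subsingleton_or_nontrivial (T.W.H X) with hs | hs
  · have h1 : Subsingleton (T.W.H (pw X n)) := by
      have h2 : finrank T.W.K (T.W.H (pw X n)) = 0 := by
        rw [finrank_pw, finrank_zero_of_subsingleton, zero_pow (Nat.succ_ne_zero n)]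
      exact finrank_zero_iff.1 h2
    have h2 : Subsingleton (HL T.W E (pw X n)) := by
      have h3 : Subsingleton (E ⊗[T.W.K] T.W.H (pw X n)) := inferInstance
      exact h3
    have h3 : ∀ i, IsSemisimpleOn (G.ρ n) Δ (grL T.W E (pw X n) i) := by
      intro i U hU hst
      exact ⟨U, hU, hst, Subsingleton.elim _ _, Subsingleton.elim _ _⟩
    refine ⟨⟨fun j => h3 _, fun j x _ _ => ?_⟩, h3⟩
    rw [Subsingleton.elim x 0]
    exact Submodule.zero_mem _
  let _ : Algebra E ℂ := φ.toAlgebra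
  obtain ⟨ι, _, _, e, o, deg, heo, hdeg⟩ := exists_ubasis T.W X
  have hdo : deg o = 0 := deg_unit hdeg heo
  have ho : (1 : ℂ) ⊗ₜ[T.W.K] e o ∈ Fx (toH T) X (0, 0) := by
    rw [heo]
    have h1 := (N996.BP.Geo.isHodge_one (T := toH T) (X := X)).2
    exact h1
  obtain ⟨H, hHo, -, hH, P, c, -, hP, hQr⟩ := exists_hdata' h.isPHS e o ho
  have hQ := hQ_of H
  have hr := fun g => rC_form G e hdeg h hR hP hQr g
  obtain ⟨b, hb⟩ : ∃ b, b = totalBetti T X := ⟨_, rfl⟩
  have hcard : Fintype.card ι = b := hb ▸ (finrank_eq_card_basis e).symm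
  obtain ⟨N, hN⟩ : ∃ N, N = tateExponent b - 1 := ⟨_, rfl⟩
  rw [← hb, ← hN] at hT
  have hbound : 4 * bd (Fintype.card ι ^ 2)
      (wB (gdata G e hdeg heo hdo H.Qr H.Qir hQ hr)) ≤ N := by
    have : Nontrivial ((toH T).W.H X) := hs
    have h1 : X.dim + 1 ≤ b := hb ▸ dim_lt (toH T) X
    have h2 : Finset.univ.sup deg ≤ 2 * (b - 1) :=
      Finset.sup_le fun j _ => (deg_le e hdeg j).trans (by omega)
    have h3 : wB (gdata G e hdeg heo hdo H.Qr H.Qir hQ hr) ≤ b.factorial * (2 * (b - 1)) := by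
      rw [wB, den, hcard]
      exact Nat.mul_le_mul_left _ h2
    have h4 := bd_le (by omega) h3
    rw [hcard]
    omega
  have h1N : 1 ≤ N := by
    have := one_le_bd (Fintype.card ι ^ 2) (wB (gdata G e hdeg heo hdo H.Qr H.Qir hQ hr))
    omega
  have hfam := rfam G e hdeg heo hdo hQ hr rfl hH hT h1N
  have B : Both H (fun n => arrc e ((algSys T.W).csys X) n)
      (gdata G e hdeg heo hdo H.Qr H.Qir hQ hr) N :=
    { rf := hfam
      dense := dense G e hdeg heo hdo H.Qr H.Qir hQ hr hA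
      bound := hbound
      ss := ss_arrays G e hdeg heo hdo hQ hr (hT ⊤ inferInstance)
      ho := hHo.symm
      hQ := rfl
      hQi := rfl
      tate := fun κ _ _ a ha => tateQ G e hdeg heo hdo hQ hr ha
      alg := fun κ _ _ hκ j c hc => algQ G e hdeg heo hdo hQ hr hfam hT hκ hc }
  have hss : ∀ i, IsSemisimpleOn (G.ρ n) Δ (grL T.W E (pw X n) i) := fun i =>
    ss_classes G e hdeg heo hdo hQ hr (B.ss_all facts adjD relOne (Fin (n + 1))) Δ hΔ i
  exact ⟨⟨fun j => hss _, fun j x hx hinv => tate_alg G e hdeg heo hdo hQ hr hcj B hΔ hx hinv⟩, hss⟩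

end Pool.Agent.N211.BT
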