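import Pool.Agent.N211.BT.TG6
import Pool.Agent.N211.BT.Mem2
import Pool.Agent.Y133.Half.PredSys

/-!
# Tate classes and general systems of classes
-/

set_option linter.unusedSectionVars false

open CategoryTheory AlgebraicGeometry TensorProduct

universe u

namespace Pool.Agent.N211.BT

open Module Matrix
open Pool.Agent.H914 Pool.Agent.H914.VarClass Pool.Agent.H914.VarClass.Obj
  Pool.Agent.H914.WeilCohomology
open Pool.Agent.Y121.AHS
open Pool.Agent.W536.RR (algSpan_induction cl_mem_algSpan)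
open Pool.Agent.H281R3.HT (algSpan)
open Pool.Agent.Y133.Half (pw wb wb_zero wb_succ algSys PH pfst psnd exists_dual_class ClassPred xp
  finrank_pw)
open Pool.Agent.Y121.AH (hodgePred)
open Pool.Agent.N996.BP (cQ ca kp kp_apply totalBetti isCoordinateMap_iff HData RFam AQ rei rei_rei mG
  bd IsPolarisation RForm)
open Pool.Agent.N996.BP.Geo (clw arrc mem_arrc clw_add clw_smul clw_zero up_down isCd_up
  isCd_down dp sum_snoc Fx inv_iff inv_cls arrc_perm arrc_tens arrc_contr exists_ubasis dim_lt)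

variable {k : Type u} [Field k] {𝒱 : VarClass k} {ops : CycleOps 𝒱} {T : HodgeTheory ops}
  {X : 𝒱.Obj} {E : Type} [Field E] [Algebra T.W.K E] {Γ : Type} [Group Γ]
  (G : GaloisAction T E Γ X) {ι : Type} [Fintype ι] [DecidableEq ι]
  (e : Basis ι T.W.K (T.W.H X)) {deg : ι → ℕ} (Q : ClassPred T.W)

/-- The Tate classes on `X ^ (N + 1)` are combinations of classes of the system. -/
def TateIn (N : ℕ) : Prop := ∀ K : Subgroup Γ, K.FiniteIndex → ∀ j (x : HL T.W E (pw X N)),
  IsDeg (2 * j) x → G.IsInvariant K N j x →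
    x ∈ Submodule.span E {y | ∃ c, Q.P (pw X N) j c ∧ y = emL T.W E c}

variable {Q} {N : ℕ}

include e in
/-- Smaller powers. -/
lemma TateIn.mono (hT : TateIn G Q N) {n : ℕ} (hn : n ≤ N) : TateIn G Q n := by
  intro K hK j x hx hx'
  have h1 : mapB E (N996.BP.Geo.down X hn) x ∈ Submodule.span E
      {y | ∃ c, Q.P (pw X N) j c ∧ y = emL T.W E c} := by
    refine hT K hK j _ (mapL_deg (N996.BP.Geo.down X hn) hx) fun g hg => ?_
    refine (G.map n N (N996.BP.Geo.down X hn) (isCoordinateMap_iff.2 (isCd_down hn)) g x).trans ?_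
    rw [hx' g hg]
    exact map_smul (mapB E (N996.BP.Geo.down X hn)) _ x
  have h2 : mapB E (N996.BP.Geo.up X n N) (mapB E (N996.BP.Geo.down X hn) x) = x := by
    have h3 : ∀ x : HL T.W E (pw X n), mapB E (N996.BP.Geo.up X n N)
        (mapB E (N996.BP.Geo.down X hn) x) = x := by
      intro x
      rw [← sum_phi e n x]
      simp only [map_sum, map_smul]
      refine Finset.sum_congr rfl fun w _ => ?_
      rw [mapB_apply, mapB_apply, ← emL_map, ← emL_map, ← T.W.map_comp, up_down, T.W.map_id]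
    exact h3 x
  rw [← h2]
  refine Submodule.span_induction (p := fun y _ => mapB E (N996.BP.Geo.up X n N) y ∈
    Submodule.span E {y | ∃ c, Q.P (pw X n) j c ∧ y = emL T.W E c}) ?_ ?_ ?_ ?_ h1
  · rintro _ ⟨c, hc, rfl⟩
    refine Submodule.subset_span ⟨T.W.map (N996.BP.Geo.up X n N) c, Q.map _ hc, ?_⟩
    rw [mapB_apply, ← emL_map]
  · rw [map_zero]; exact Submodule.zero_mem _
  · intro x y _ _ hx hy; rw [map_add]; exact Submodule.add_mem _ hx hy
  · intro c x _ hx; rw [map_smul]; exact Submodule.smul_mem _ _ hx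

section Data

variable [Algebra E ℂ] (he : ∀ j, e j ∈ T.W.gr X (deg j))
    {o : ι} (heo : e o = 1) (hdo : deg o = 0) (Qr Qir : Matrix ι ι ℚ) (hQ : Qr * Qir = 1)
    (hr : ∀ g, (∀ i j, Qr i j ≠ 0 → deg i = deg j) ∧ (rC G e g)ᵀ * cQ Qr * rC G e g =
      Matrix.diagonal (fun i => (algebraMap E ℂ (G.χ g)) ^ deg i) * cQ Qr)

/-- Tate arrays with few indices are combinations of arrays of classes of the system. -/
lemma q_of_tate (hT : TateIn G Q N) {n : ℕ}
    (hn : n ≤ N) {j : ℕ} {c : (Fin (n + 1) → ι) → ℂ}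
    (hc : (gdata G e he heo hdo Qr Qir hQ hr).Tate j c) :
    c ∈ Submodule.span ℂ {x | ∃ a ∈ arrc e (Q.sys.csys X) n, x = ca a} := by
  obtain ⟨K, hK, h1⟩ := exists_tateE G e he heo hdo Qr Qir hQ hr hc
  refine Submodule.span_le.2 ?_ h1
  rintro _ ⟨a, ha, rfl⟩
  obtain ⟨x, rfl⟩ : ∃ x, phi e E n x = a := (phi e E n).surjective a
  rw [tateE_iff G e he] at ha
  have h2 := hT.mono G e hn K hK j x ha.1 ha.2
  refine Submodule.span_induction (p := fun x _ => (fun w => algebraMap E ℂ (phi e E n x w)) ∈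
    Submodule.span ℂ {x | ∃ a ∈ arrc e (Q.sys.csys X) n, x = ca a}) ?_ ?_ ?_ ?_ h2
  · rintro _ ⟨z, hz, rfl⟩
    obtain ⟨q, hq⟩ := exists_clw e n z
    refine Submodule.subset_span ⟨q, ?_, ?_⟩
    · rw [mem_arrc, hq]
      exact ClassPred.sp_of hz
    · rw [← hq, phi_clw]
      funext w
      rw [map_ratCast]
      rfl
  · have h3 : (fun w => algebraMap E ℂ (phi e E n 0 w)) = 0 := by
      funext w
      rw [map_zero, Pi.zero_apply, map_zero, Pi.zero_apply]
    rw [h3]
    exact Submodule.zero_mem _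
  · intro x y _ _ hx hy
    have h3 : (fun w => algebraMap E ℂ (phi e E n (x + y) w)) =
        (fun w => algebraMap E ℂ (phi e E n x w)) + fun w => algebraMap E ℂ (phi e E n y w) := by
      funext w
      rw [map_add, Pi.add_apply, map_add, Pi.add_apply]
    rw [h3]
    exact Submodule.add_mem _ hx hy
  · intro t x _ hx
    have h3 : (fun w => algebraMap E ℂ (phi e E n (t • x) w)) =
        algebraMap E ℂ t • fun w => algebraMap E ℂ (phi e E n x w) := by
      funext w
      rw [map_smul, Pi.smul_apply, smul_eq_mul, map_mul, Pi.smul_apply, smul_eq_mul]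
    rw [h3]
    exact Submodule.smul_mem _ _ hx

/-- Rational arrays which are combinations of Tate arrays are arrays of classes of the system. -/
lemma q_of_span (hT : TateIn G Q N) {n : ℕ}
    (hn : n ≤ N) {q : (Fin (n + 1) → ι) → ℚ}
    (hq : ca q ∈ Submodule.span ℂ {c | ∃ j, (gdata G e he heo hdo Qr Qir hQ hr).Tate j c}) :
    clw e n q ∈ Q.sp (pw X n) := by
  have h1 : ca q ∈ Submodule.span ℂ {x | ∃ a ∈ arrc e (Q.sys.csys X) n, x = ca a} := by
    refine Submodule.span_le.2 ?_ hq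
    rintro c ⟨j, hc⟩
    exact q_of_tate G e he heo hdo Qr Qir hQ hr hT hn hc
  have h2 := desc ℚ (Fin (n + 1) → ι) (arrc e (Q.sys.csys X) n) q (by
    have h2 : (fun i => algebraMap ℚ ℂ (q i)) = ca q := by
      ext i; simp [ca]
    rw [h2]
    exact h1)
  have h3 : {x : (Fin (n + 1) → ι) → ℚ | ∃ a ∈ arrc e (Q.sys.csys X) n,
      x = fun i => (Rat.cast (a i) : ℚ)} = (arrc e (Q.sys.csys X) n : Set _) := by
    ext x
    constructor
    · rintro ⟨a, ha, rfl⟩
      simpa using ha
    · intro hx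
      exact ⟨x, hx, by ext i; simp⟩
  rw [h3, Submodule.span_eq] at h2
  exact h2

include he heo hdo hQ hr in
/-- The class of the parity operator is in the system. -/
lemma dp_memQ (hT : TateIn G Q N) (hN : 1 ≤ N) : dp T.W X ∈ Q.sp (pw X 1) := by
  obtain ⟨q, hq⟩ := exists_clw e 1 (show T.W.H (pw X 1) from T.W.push (diag X) 1)
  rw [dp_clw e he hq]
  apply q_of_span G e he heo hdo Qr Qir hQ hr hT hN
  have h1 : clw e 1 q ∈ algSpan T.W (pw X 1) := by
    rw [hq]
    exact (algSys T.W).push (diag X) ((algSys T.W).one X)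
  have h2 := tate_of_alg G e he heo hdo Qr Qir hQ hr h1
  have h3 : ca (fun w : Fin (1 + 1) → ι => (-1) ^ deg (w 0) * q w) =
      fun w => (-1 : ℂ) ^ deg (w 0) * ca q w := by
    funext w
    simp [ca]
  rw [h3]
  refine Submodule.span_induction (p := fun c _ => (fun w => (-1 : ℂ) ^ deg (w 0) * c w) ∈
    Submodule.span ℂ {c | ∃ j, (gdata G e he heo hdo Qr Qir hQ hr).Tate j c}) ?_ ?_ ?_ ?_ h2
  · rintro c ⟨j, hc⟩
    exact Submodule.subset_span ⟨j, tate_twist G e he heo hdo Qr Qir hQ hr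
      (fun v => (-1 : ℂ) ^ v 0) hc⟩
  · have h4 : (fun w : Fin (1 + 1) → ι => (-1 : ℂ) ^ deg (w 0) *
        (0 : (Fin (1 + 1) → ι) → ℂ) w) = 0 := by
      funext w
      simp
    rw [h4]
    exact Submodule.zero_mem _
  · intro x y _ _ hx hy
    have h4 : (fun w => (-1 : ℂ) ^ deg (w 0) * (x + y) w) =
        (fun w => (-1 : ℂ) ^ deg (w 0) * x w) + fun w => (-1 : ℂ) ^ deg (w 0) * y w := by
      funext w
      simp only [Pi.add_apply]
      ring
    rw [h4]
    exact Submodule.add_mem _ hx hy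
  · intro t x _ hx
    have h4 : (fun w => (-1 : ℂ) ^ deg (w 0) * (t • x) w) =
        t • fun w => (-1 : ℂ) ^ deg (w 0) * x w := by
      funext w
      simp only [Pi.smul_apply, smul_eq_mul]
      ring
    rw [h4]
    exact Submodule.smul_mem _ _ hx

include he heo hdo hQ hr in
/-- The class of the form is in the system. -/
lemma exists_qQ (hT : TateIn G Q N) (hN : 1 ≤ N) :
    ∃ q ∈ Q.sp (pw X 1), ∀ w, T.W.tr (pw X 1) (wb e 1 w * q) =
      ((Qr (w 0) (w 1) : ℚ) : T.W.K) := by
  have h1 : ∀ i : Fin ((pw X 1).dim + 1), ∃ q ∈ Q.sp (pw X 1),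
      ∀ w, T.W.tr (pw X 1) (wb e 1 w * q) = ((Qp deg Qr i w : ℚ) : T.W.K) := by
    intro i
    obtain ⟨q, h1, h2, h3⟩ := exists_qp G e he Qr hr i ((pw X 1).dim - i) (by omega)
    refine ⟨q, ?_, h1⟩
    obtain ⟨a, ha⟩ := exists_clw e 1 q
    rw [← ha]
    apply q_of_span G e he heo hdo Qr Qir hQ hr hT hN
    refine Submodule.subset_span ⟨(pw X 1).dim - i, ?_⟩
    have h4 : TateE G e deg ⊤ ((pw X 1).dim - i) (phi e E 1 (emL T.W E (clw e 1 a))) := by
      rw [tateE_iff G e he, ha]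
      exact ⟨emL_deg h2, h3⟩
    rw [phi_clw] at h4
    have h5 := tate_of_tateE G e he heo hdo Qr Qir hQ hr inferInstance h4
    convert h5 using 1
    funext w
    rw [map_ratCast]
    rfl
  choose q hq hq' using h1
  refine ⟨∑ i, q i, Submodule.sum_mem _ fun i _ => hq i, fun w => ?_⟩
  rw [Finset.mul_sum, map_sum]
  have h2 : deg (w 0) < (pw X 1).dim + 1 := by
    have := deg_le e he (w 0)
    rw [dim_pw_one]
    omega
  rw [Finset.sum_eq_single ⟨deg (w 0), h2⟩, hq', Qp, if_pos rfl]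
  · intro i _ hi
    rw [hq', Qp, if_neg fun h => hi (Fin.ext h.symm), Rat.cast_zero]
  · intro h
    exact absurd (Finset.mem_univ _) h

variable {Qr Qir}

include he heo hdo hQ hr in
/-- The arrays of the classes form a family. -/
lemma rfamQ (hle : ∀ Z, Q.sp Z ≤ (hodgePred (toH T)).sp Z)
    {H : HData ι} (hHQ : H.Qr = Qr) {hF : DirectSum.IsInternal (Fx (toH T) X)}
    (hH : ∀ t : ℂ, t ≠ 0 → H.l t = mG hF e (fun k => t ^ k))
    (hT : TateIn G Q N) (hN : 1 ≤ N) :
    RFam H (fun n => arrc e (Q.sys.csys X) n) := by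
  let p : ι → Fin 2 := fun j => ⟨deg j % 2, Nat.mod_lt _ two_pos⟩
  have hp : ∀ j, e j ∈ PH T.W X (p j : ℕ) := fun j =>
    PH.of' (by change deg j % 2 = (deg j % 2) % 2; omega) (he j)
  have hdp : dp T.W X ∈ (Q.sys.csys X).C 1 := dp_memQ G e he heo hdo Qr Qir hQ hr hT hN
  obtain ⟨q, hq, hqQ⟩ := exists_qQ G e he heo hdo Qr Qir hQ hr hT hN
  have hqE : (show T.W.H (X.prod X) from q) ∈ PH T.W (X.prod X) 0 := Q.sys.even hq
  have hqQ' : ∀ i j, T.W.tr (X.prod X) (xp T.W (e i) (e j) * (show T.W.H (X.prod X) from q)) =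
      ((H.Qr i j : ℚ) : T.W.K) := by
    intro i j
    have h3 := hqQ (Fin.snoc (α := fun _ => ι) (fun _ : Fin (0 + 1) => i) j)
    have h4 : wb e (0 + 1) (Fin.snoc (α := fun _ => ι) (fun _ : Fin (0 + 1) => i) j) =
        xp T.W (e i) (e j) := by
      rw [wb_snoc']
      have h5 : wb e 0 (fun _ => i) = e i := wb_zero e _
      rw [h5]
      rfl
    have h6 : T.W.tr (pw X 1) (wb e 1 (Fin.snoc (α := fun _ => ι) (fun _ : Fin (0 + 1) => i) j) *
        q) = T.W.tr (X.prod X) (xp T.W (e i) (e j) * (show T.W.H (X.prod X) from q)) := by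
      rw [← h4]
      rfl
    rw [← h6, h3, hHQ]
    rfl
  exact
    { perm := fun n σ a ha => arrc_perm hp hdp n σ ha
      tens := fun n m a b ha hb => arrc_tens e n m ha hb
      contr := fun n a ha => arrc_contr (fun j => ⟨_, hp j⟩) hq hqE hqQ' n ha
      le := fun n a ha => (inv_cls (T := toH T) e hH n a).1
        (inv_iff.2 (hle _ ha)) }

/-- The arrays of classes which are Tate classes. -/
lemma tate_of_q (hfix : ∀ n j c, Q.P (pw X n) j c → ∃ Δ : Subgroup Γ, Δ.FiniteIndex ∧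
    ∀ g ∈ Δ, G.ρ n g (emL T.W E c) = twL (G.χ g : E) j (emL T.W E c)) {n : ℕ}
    {q : (Fin (n + 1) → ι) → ℚ} (hq : clw e n q ∈ Q.sp (pw X n)) :
    ca q ∈ Submodule.span ℂ {c | ∃ j, (gdata G e he heo hdo Qr Qir hQ hr).Tate j c} := by
  have key : ∀ x : T.W.H (pw X n), x ∈ Q.sp (pw X n) → ∀ q, clw e n q = x →
      ca q ∈ Submodule.span ℂ {c | ∃ j, (gdata G e he heo hdo Qr Qir hQ hr).Tate j c} := by
    intro x hx
    refine ClassPred.sp_ind (q := fun x => ∀ q, clw e n q = x → ca q ∈ Submodule.span ℂ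
      {c | ∃ j, (gdata G e he heo hdo Qr Qir hQ hr).Tate j c}) ?_ ?_ ?_ hx
    · intro j z hz q hq
      refine Submodule.subset_span ⟨j, ?_⟩
      obtain ⟨Δ, hΔ, h1⟩ := hfix n j z hz
      have h2 : TateE G e deg Δ j (phi e E n (emL T.W E (clw e n q))) := by
        rw [tateE_iff G e he, hq]
        exact ⟨emL_deg (Q.gr hz), h1⟩
      rw [phi_clw] at h2
      have h3 := tate_of_tateE G e he heo hdo Qr Qir hQ hr hΔ h2
      convert h3 using 1
      funext w
      rw [map_ratCast]
      rfl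
    · intro q hq
      have h1 : q = 0 := clw_inj e n (by rw [hq, clw_zero])
      rw [h1]
      have h2 : ca (0 : (Fin (n + 1) → ι) → ℚ) = 0 := by
        funext w; simp [ca]
      rw [h2]
      exact Submodule.zero_mem _
    · intro a b ha hb q hq
      obtain ⟨qa, rfl⟩ := exists_clw e n a
      obtain ⟨qb, rfl⟩ := exists_clw e n b
      have h1 : q = qa + qb := clw_inj e n (by rw [hq, clw_add])
      have h2 : ca (qa + qb) = ca qa + ca qb := by
        funext w; simp [ca]
      rw [h1, h2]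
      exact Submodule.add_mem _ (ha _ rfl) (hb _ rfl)
  exact key _ hq q rfl

lemma tateQQ (hfix : ∀ n j c, Q.P (pw X n) j c → ∃ Δ : Subgroup Γ, Δ.FiniteIndex ∧
    ∀ g ∈ Δ, G.ρ n g (emL T.W E c) = twL (G.χ g : E) j (emL T.W E c))
    {κ : Type} [Fintype κ] [DecidableEq κ] {a : (κ → ι) → ℚ}
    (ha : a ∈ AQ (fun n => arrc e (Q.sys.csys X) n) κ) :
    ca a ∈ Submodule.span ℂ {c | ∃ j, (gdata G e he heo hdo Qr Qir hQ hr).Tate j c} := by
  rcases isEmpty_or_nonempty κ with hκ | hκ
  · refine Submodule.subset_span ⟨0, ?_, ⊤, inferInstance, fun g _ => ?_⟩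
    · intro i _
      rw [mul_zero, Finset.univ_eq_empty, Finset.sum_empty]
    · funext i
      rw [mulVec, dotProduct, Fintype.sum_subsingleton _ i, kp_apply, Finset.univ_eq_empty,
        Finset.prod_empty, one_mul, pow_zero, one_smul]
  · obtain ⟨n, ⟨f⟩⟩ := RFam.exists_eqv κ
    have h1 := tate_of_q G e he heo hdo hQ hr hfix (ha n f)
    have h2 : ca a = reiL f.symm (ca (rei f a)) := by
      funext i
      change (a i : ℂ) = ((a ((i ∘ f.symm) ∘ f) : ℚ) : ℂ)
      congr 2
      funext x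
      simp
    rw [h2]
    refine Submodule.span_induction (p := fun c _ => reiL f.symm c ∈ Submodule.span ℂ
      {c | ∃ j, (gdata G e he heo hdo Qr Qir hQ hr).Tate j c}) ?_ ?_ ?_ ?_ h1
    · rintro c ⟨j, hc⟩
      exact Submodule.subset_span ⟨j, tate_rei f.symm hc⟩
    · rw [map_zero]; exact Submodule.zero_mem _
    · intro x y _ _ hx hy; rw [map_add]; exact Submodule.add_mem _ hx hy
    · intro t x _ hx; rw [map_smul]; exact Submodule.smul_mem _ _ hx

lemma algQQ {H : HData ι} (hA : RFam H (fun n => arrc e (Q.sys.csys X) n))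
    (hT : TateIn G Q N) {κ : Type} [Fintype κ]
    [DecidableEq κ] (hκ : Fintype.card κ ≤ N) {j : ℕ} {c : (κ → ι) → ℂ}
    (hc : (gdata G e he heo hdo Qr Qir hQ hr).Tate j c) :
    c ∈ AC (fun n => arrc e (Q.sys.csys X) n) κ := by
  rcases isEmpty_or_nonempty κ with hκ' | hκ'
  · have h1 : c = c (fun x => (IsEmpty.false x).elim) • (fun i : κ → ι =>
        (((fun _ => 1 : (κ → ι) → ℚ) i : ℚ) : ℂ)) := by
      funext i
      rw [Pi.smul_apply, Rat.cast_one, smul_eq_mul, mul_one]
      congr 1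
      funext x
      exact (IsEmpty.false x).elim
    rw [h1]
    exact Submodule.smul_mem _ _ (Submodule.subset_span ⟨_, hA.empty _, rfl⟩)
  · obtain ⟨n, ⟨f⟩⟩ := RFam.exists_eqv κ
    have hn : n ≤ N := by
      have := Fintype.card_congr f
      rw [Fintype.card_fin] at this
      omega
    have h1 := q_of_tate G e he heo hdo Qr Qir hQ hr hT hn (tate_rei f hc)
    have h2 : c = reiL f.symm (rei f c) := by
      funext i
      change c i = c ((i ∘ f.symm) ∘ f)
      congr 1
      funext x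
      simp
    rw [h2]
    refine Submodule.span_induction (p := fun c _ => reiL f.symm c ∈
      AC (fun n => arrc e (Q.sys.csys X) n) κ) ?_ ?_ ?_ ?_ h1
    · rintro _ ⟨a, ha, rfl⟩
      refine Submodule.subset_span ⟨rei f.symm a, hA.of f ?_, rfl⟩
      rw [rei_rei, Equiv.symm_trans_self]
      exact ha
    · rw [map_zero]; exact Submodule.zero_mem _
    · intro x y _ _ hx hy; rw [map_add]; exact Submodule.add_mem _ hx hy
    · intro t x _ hx; rw [map_smul]; exact Submodule.smul_mem _ _ hx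

/-- Homogeneous combinations of the classes. -/
lemma span_q {Y : 𝒱.Obj} {j : ℕ} {x : HL T.W E Y}
    (hx : x ∈ Submodule.span E {y | ∃ c ∈ Q.sp Y, y = emL T.W E c}) (hd : IsDeg (2 * j) x) :
    x ∈ Submodule.span E {y | ∃ c, Q.P Y j c ∧ y = emL T.W E c} := by
  rw [← prE_same E hd]
  refine Submodule.span_induction (p := fun x _ => prE E Y (2 * j) x ∈
    Submodule.span E {y | ∃ c, Q.P Y j c ∧ y = emL T.W E c}) ?_ ?_ ?_ ?_ hx
  · rintro _ ⟨c, hc, rfl⟩
    rw [prE_em]
    exact Submodule.subset_span ⟨_, ClassPred.sp_proj hc j, rfl⟩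
  · rw [map_zero]; exact Submodule.zero_mem _
  · intro x y _ _ hx hy; rw [map_add]; exact Submodule.add_mem _ hx hy
  · intro c x _ hx; rw [map_smul]; exact Submodule.smul_mem _ _ hx

/-- The Tate classes on all powers are combinations of the classes of the system. -/
lemma tate_q {H : HData ι} (B : Semi H (fun n => arrc e (Q.sys.csys X) n)
    (gdata G e he heo hdo Qr Qir hQ hr) N) (n : ℕ) : TateIn G Q n := by
  intro K hK j x hx hinv
  refine span_q ?_ hx
  have h1 : TateE G e deg K j (phi e E n x) := (tateE_iff G e he).2 ⟨hx, hinv⟩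
  have h2 := B.mem_AC facts desc (tate_of_tateE G e he heo hdo Qr Qir hQ hr hK h1)
  have h3 := desc E (Fin (n + 1) → ι)
    (AQ (fun n => arrc e (Q.sys.csys X) n) (Fin (n + 1))) (phi e E n x) h2
  have h4 : x = (phi e E n).symm (phi e E n x) := ((phi e E n).symm_apply_apply x).symm
  rw [h4]
  refine Submodule.span_induction (p := fun c _ => (phi e E n).symm c ∈ Submodule.span E
    {y | ∃ c ∈ Q.sp (pw X n), y = emL T.W E c}) ?_ ?_ ?_ ?_ h3
  · rintro _ ⟨a, ha, rfl⟩
    refine Submodule.subset_span ⟨clw e n a, ?_, ?_⟩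
    · exact B.rf.mem_iff.1 ha
    · rw [LinearEquiv.symm_apply_eq, phi_clw]
  · rw [map_zero]; exact Submodule.zero_mem _
  · intro x y _ _ hx hy; rw [map_add]; exact Submodule.add_mem _ hx hy
  · intro c x _ hx; rw [map_smul]; exact Submodule.smul_mem _ _ hx

end Data

end Pool.Agent.N211.BT
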