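import Pool.Agent.N211.BT.TQ

/-!
# The bounded power theorem for general systems of classes
-/

set_option linter.unusedSectionVars false

open CategoryTheory AlgebraicGeometry TensorProduct

universe u

namespace Pool.Agent.N211.BT

open Module Matrix
open Pool.Agent.H914 Pool.Agent.H914.VarClass Pool.Agent.H914.VarClass.Obj
  Pool.Agent.H914.WeilCohomology
open Pool.Agent.Y121.AHS
open Pool.Agent.Y133.Half (pw ClassPred finrank_pw)
open Pool.Agent.Y121.AH (hodgePred)
open Pool.Agent.N996.BP (cQ kp totalBetti HData bd IsPolarisation RForm)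
open Pool.Agent.N996.BP.Geo (arrc Fx exists_ubasis dim_lt)

variable {k : Type u} [Field k] {𝒱 : VarClass k} {ops : CycleOps 𝒱} {T : HodgeTheory ops}
  {X : 𝒱.Obj} {E : Type} [Field E] [Algebra T.W.K E] {Γ : Type} [Group Γ]
  (G : GaloisAction T E Γ X) {Q : ClassPred T.W} {N : ℕ} {ψ : RForm T.W X}

section Data

variable {ι : Type} [Fintype ι] [DecidableEq ι] (e : Basis ι T.W.K (T.W.H X)) {deg : ι → ℕ}
    [Algebra E ℂ] (he : ∀ j, e j ∈ T.W.gr X (deg j))
    {o : ι} (heo : e o = 1) (hdo : deg o = 0) {Qr Qir : Matrix ι ι ℚ} (hQ : Qr * Qir = 1)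
    (hr : ∀ g, (∀ i j, Qr i j ≠ 0 → deg i = deg j) ∧ (rC G e g)ᵀ * cQ Qr * rC G e g =
      Matrix.diagonal (fun i => (algebraMap E ℂ (G.χ g)) ^ deg i) * cQ Qr)

/-- The group acts semisimply on the arrays. -/
lemma ss_arrays' (hT : ∀ j, IsSemisimpleOn (G.ρ N) ⊤ (grL T.W E (pw X N) (2 * j))) :
    IsSS (Set.range ((gdata G e he heo hdo Qr Qir hQ hr).rho (Fin N))) := by
  have : CharZero E := charZero_of_injective_algebraMap (algebraMap T.W.K E).injective
  have h1 : ∀ j, SSOn (opsF (rE G e) (Fin (N + 1))) (homS E deg (Fin (N + 1)) (2 * j)) := by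
    intro j
    have h := isSemisimpleOn_iff.1 (hT j)
    have h1 := ssOn_tr (phi e E N) (op := fun g => G.ρ N g)
      (op' := fun g => Matrix.toLin' (kp (Fin (N + 1)) (rE G e g)))
      (fun g _ x => phi_act G e N g x) (P' := homS E deg (Fin (N + 1)) (2 * j))
      (fun x => (phi_deg e he).symm) h
    rw [Subgroup.coe_top, Set.image_univ] at h1
    exact h1
  have h2 : ∀ j, SSOn (opsF (rE G e) (Fin N ⊕ Unit)) (homS E deg (Fin N ⊕ Unit) (2 * j)) := by
    intro j
    exact ssOn_rei (Fintype.equivOfCardEq (by simp)) (h1 j)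
  have h3 := even E ι Γ (rE G e) deg (rE_one G e) (rE_mul G e) (fun g i j => rE_deg G he g i j)
    o hdo (Fin N) h2
  have h4 := up E (Fin N → ι) (Set.range fun g => kp (Fin N) (rE G e g)) (by
    rw [← Set.range_comp]
    exact h3)
  rw [← Set.range_comp, ← Set.range_comp] at h4
  have h5 : Set.range ((gdata G e he heo hdo Qr Qir hQ hr).rho (Fin N)) =
      Set.range (Matrix.toLin' ∘ (fun y : Matrix (Fin N → ι) (Fin N → ι) E =>
        y.map (algebraMap E ℂ)) ∘ fun g => kp (Fin N) (rE G e g)) := by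
    congr 1
    funext g
    exact congrArg Matrix.toLin' (kp_rC G e (Fin N) g)
  rw [h5]
  exact h4

end Data

lemma subsingleton_pw (hs : Subsingleton (T.W.H X)) (n : ℕ) : Subsingleton (HL T.W E (pw X n)) := by
  have h1 : Subsingleton (T.W.H (pw X n)) := by
    have h2 : finrank T.W.K (T.W.H (pw X n)) = 0 := by
      rw [finrank_pw, finrank_zero_of_subsingleton, zero_pow (Nat.succ_ne_zero n)]
    exact finrank_zero_iff.1 h2
  have h3 : Subsingleton (E ⊗[T.W.K] T.W.H (pw X n)) := inferInstance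
  exact h3

/-- **The bounded power theorem for general systems of classes.** -/
theorem bounded_q (h : IsPolarisation T X ψ) (hR : G.Respects ψ) [TopologicalSpace Γ]
    [TopologicalSpace E] [IsTopologicalRing E] [T2Space E] (hA : G.IsArithmetic)
    (hE : Nonempty (E →+* ℂ)) (hle : ∀ Z, Q.sp Z ≤ (hodgePred (toH T)).sp Z)
    (hS : ∀ j, IsSemisimpleOn (G.ρ (tateExponent (totalBetti T X) - 1)) ⊤
      (grL T.W E (pw X (tateExponent (totalBetti T X) - 1)) (2 * j)))
    (hT : TateIn G Q (tateExponent (totalBetti T X) - 1)) :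
    (∀ n, TateIn G Q n) ∧
    ((∀ n j c, Q.P (pw X n) j c → ∃ Δ : Subgroup Γ, Δ.FiniteIndex ∧
      ∀ g ∈ Δ, G.ρ n g (emL T.W E c) = twL (G.χ g : E) j (emL T.W E c)) →
      ∀ (n : ℕ) (Δ : Subgroup Γ), Δ.FiniteIndex →
        ∀ i, IsSemisimpleOn (G.ρ n) Δ (grL T.W E (pw X n) i)) := by
  classical
  obtain ⟨φ⟩ := hE
  rcases subsingleton_or_nontrivial (T.W.H X) with hs | hs
  · refine ⟨fun n K _ j x _ _ => ?_, fun _ n Δ _ i U hU hst => ?_⟩
    · have := subsingleton_pw (E := E) hs n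
      rw [Subsingleton.elim x 0]
      exact Submodule.zero_mem _
    · have := subsingleton_pw (E := E) hs n
      exact ⟨U, hU, hst, Subsingleton.elim _ _, Subsingleton.elim _ _⟩
  let _ : Algebra E ℂ := φ.toAlgebra
  obtain ⟨ι, _, _, e, o, deg, heo, hdeg⟩ := exists_ubasis T.W X
  have hdo : deg o = 0 := deg_unit hdeg heo
  have ho : (1 : ℂ) ⊗ₜ[T.W.K] e o ∈ Fx (toH T) X (0, 0) := by
    rw [heo]
    have h1 := (N996.BP.Geo.isHodge_one (T := toH T) (X := X)).2
    exact h1
  obtain ⟨H, hHo, -, hH, P, c, -, hP, hQr⟩ := exists_hdata' h.isPHS e o ho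
  have hQ := hQ_of H
  have hr := fun g => rC_form G e hdeg h hR hP hQr g
  obtain ⟨b, hb⟩ : ∃ b, b = totalBetti T X := ⟨_, rfl⟩
  have hcard : Fintype.card ι = b := hb ▸ (finrank_eq_card_basis e).symm
  obtain ⟨N, hN⟩ : ∃ N, N = tateExponent b - 1 := ⟨_, rfl⟩
  rw [← hb, ← hN] at hT hS
  have hbound : 4 * bd (Fintype.card ι ^ 2)
      (wB (gdata G e hdeg heo hdo H.Qr H.Qir hQ hr)) ≤ N := by
    have : Nontrivial ((toH T).W.H X) := hs
    have h1 : X.dim + 1 ≤ b := hb ▸ dim_lt (toH T) X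
    have h2 : Finset.univ.sup deg ≤ 2 * (b - 1) :=
      Finset.sup_le fun j _ => (deg_le e hdeg j).trans (by omega)
    have h3 : wB (gdata G e hdeg heo hdo H.Qr H.Qir hQ hr) ≤ b.factorial * (2 * (b - 1)) := by
      rw [wB, den, hcard]
      exact Nat.mul_le_mul_left _ h2
    have h4 := bd_le (by omega) h3
    rw [hcard]
    omega
  have h1N : 1 ≤ N := by
    have := one_le_bd (Fintype.card ι ^ 2) (wB (gdata G e hdeg heo hdo H.Qr H.Qir hQ hr))
    omega
  have hfam := rfamQ G e hdeg heo hdo hQ hr hle rfl hH hT h1N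
  have B : Semi H (fun n => arrc e (Q.sys.csys X) n)
      (gdata G e hdeg heo hdo H.Qr H.Qir hQ hr) N :=
    { rf := hfam
      dense := dense G e hdeg heo hdo H.Qr H.Qir hQ hr hA
      bound := hbound
      ss := ss_arrays' G e hdeg heo hdo hQ hr hS
      ho := hHo.symm
      hQ := rfl
      hQi := rfl
      alg := fun κ _ _ hκ j c hc => algQQ G e hdeg heo hdo hQ hr hfam hT hκ hc }
  refine ⟨fun n => tate_q G e hdeg heo hdo hQ hr B n, fun hfix n Δ hΔ i => ?_⟩
  have B' : Both H (fun n => arrc e (Q.sys.csys X) n)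
      (gdata G e hdeg heo hdo H.Qr H.Qir hQ hr) N :=
    { rf := B.rf
      dense := B.dense
      bound := B.bound
      ss := B.ss
      ho := B.ho
      hQ := B.hQ
      hQi := B.hQi
      alg := B.alg
      tate := fun κ _ _ a ha => tateQQ G e hdeg heo hdo hQ hr hfix ha }
  exact ss_classes G e hdeg heo hdo hQ hr (B'.ss_all facts adjD relOne (Fin (n + 1))) Δ hΔ i

end Pool.Agent.N211.BT
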